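import Pool.Agent.H341.MA.St2

/-!
# ANT: from thin systems to mediangle graphs (helper415)
-/

set_option autoImplicit false

namespace Pool.Agent.H341.MA

universe u v

open SimpleGraph

section AntSec

variable {V η σ : Type u} [DecidableEq η] {X : SimpleGraph V} {co : V → η → σ}

/-- the finite set of the directions which separate `o` and `v` -/
noncomputable def Ant_phi (H : Ham X co) (o z : V) (v : {v // v ∈ Box co o z}) : Finset η :=
  (H.fin o v.1).toFinset

theorem Ant_mem_D (H : Ham X co) {o z : V} (a b : {v // v ∈ Box co o z}) (h : η) :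
    h ∈ D (Ant_phi H o z) a b ↔ co a.1 h ≠ co b.1 h := by
  have ha := a.2 h
  have hb := b.2 h
  rw [D, Finset.mem_symmDiff, Ant_phi, Ant_phi, Set.Finite.mem_toFinset, Set.Finite.mem_toFinset]
  show (co o h ≠ co a.1 h ∧ ¬ co o h ≠ co b.1 h) ∨ (co o h ≠ co b.1 h ∧ ¬ co o h ≠ co a.1 h) ↔ _
  constructor
  · rintro (⟨h1, h2⟩ | ⟨h1, h2⟩)
    · rw [not_not] at h2
      rw [← h2]
      exact fun h3 => h1 h3.symm
    · rw [not_not] at h2
      rw [← h2]
      exact h1
  · intro h1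
    rcases ha with ha | ha <;> rcases hb with hb | hb
    · exact absurd (ha.trans hb.symm) h1
    · right
      refine ⟨?_, fun h2 => h2 ha.symm⟩
      rw [← ha]
      exact h1
    · left
      refine ⟨?_, fun h2 => h2 hb.symm⟩
      rw [← hb]
      exact fun h2 => h1 h2.symm
    · exact absurd (ha.trans hb.symm) h1

theorem Ant_card (H : Ham X co) {o z : V} (a b : {v // v ∈ Box co o z}) :
    (D (Ant_phi H o z) a b).card = X.dist a.1 b.1 := by
  rw [← H.card a.1 b.1, ← Set.ncard_coe_finset]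
  congr 1
  ext h
  rw [Finset.mem_coe, Ant_mem_D]
  rfl

theorem Ant_nb (H : Ham X co) {o z : V} (a b : {v // v ∈ Box co o z}) :
    Nb (Ant_phi H o z) a b ↔ X.Adj a.1 b.1 := by
  rw [Nb, Ant_card, SimpleGraph.dist_eq_one_iff_adj]

theorem Ant_bt (H : Ham X co) {o z : V} (a b w : {v // v ∈ Box co o z}) :
    w ∈ Bt (Ant_phi H o z) a b ↔ w.1 ∈ Box co a.1 b.1 := by
  constructor
  · intro h1 h
    by_contra h2
    rw [not_or] at h2
    obtain ⟨h3, h4⟩ := h2
    have h5 : h ∈ D (Ant_phi H o z) a b :=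
      h1 ((Ant_mem_D H a w h).2 (fun h6 => h3 h6.symm))
    rw [Ant_mem_D] at h5
    rcases a.2 h with ha | ha <;> rcases b.2 h with hb | hb <;> rcases w.2 h with hw | hw
    · exact h3 (hw.trans ha.symm)
    · exact h5 (ha.trans hb.symm)
    · exact h3 (hw.trans ha.symm)
    · exact h4 (hw.trans hb.symm)
    · exact h4 (hw.trans hb.symm)
    · exact h3 (hw.trans ha.symm)
    · exact h5 (ha.trans hb.symm)
    · exact h3 (hw.trans ha.symm)
  · intro h1 h h2
    rw [Ant_mem_D] at h2 ⊢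
    rcases h1 h with h3 | h3
    · exact absurd h3.symm h2
    · rwa [← h3]

/-- the neighbours of a vertex of a cycle in the cycle -/
theorem Ant_nbr {l : ℕ} {c : ℤ → V} (hc : EvenConvexCycle X l c) {i j : ℤ}
    (h : X.Adj (c i) (c j)) : c j = c (i + 1) ∨ c j = c (i - 1) := by
  rcases hc.induced i j h with h1 | h1
  · left
    rw [hc.eq_iff]
    rwa [show j - (i + 1) = j - i - 1 by ring]
  · right
    rw [hc.eq_iff, show j - (i - 1) = -(i - j - 1) by ring]
    exact h1.neg_right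

theorem Ant_ne {l : ℕ} {c : ℤ → V} (hc : EvenConvexCycle X l c) (i : ℤ) :
    c (i + 1) ≠ c (i - 1) := by
  intro h
  rw [hc.eq_iff, show i + 1 - (i - 1) = 2 by ring] at h
  have h2 := Int.le_of_dvd (by norm_num) h
  have h3 : (2 : ℤ) ≤ (l : ℤ) := by exact_mod_cast hc.two_le
  omega

theorem Ant_edge {l : ℕ} {c : ℤ → V} (hc : EvenConvexCycle X l c) {x y : V}
    (hx : x ∈ Set.range c) (hy : y ∈ Set.range c) (h : X.Adj x y) :
    ∃ i : ℤ, s(c i, c (i + 1)) = s(x, y) := by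
  obtain ⟨i, rfl⟩ := hx
  obtain ⟨j, rfl⟩ := hy
  rcases Ant_nbr hc h with h1 | h1
  · exact ⟨i, by rw [h1]⟩
  · refine ⟨i - 1, ?_⟩
    rw [h1, sub_add_cancel, Sym2.eq_swap]

end AntSec

theorem s_ant (_h1 : S_E1.{u}) (h2 : S_E2.{u}) (_h3 : S_E3.{u}) (_h4 : S_E4.{u}) (hb : S_BOX.{u})
    (ht : S_THIN.{u}) : S_ANT.{u} := by
  classical
  intro V X η σ co hX H o z hoz
  obtain ⟨b1, b2, -, b4, b5⟩ := hb V X η σ co hX.connected H
  -- the thin system
  let W := {v // v ∈ Box co o z}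
  let φ : W → Finset η := Ant_phi H o z
  let Pol : Set (Set W) := {P | ∃ (l : ℕ) (c : ℤ → V), EvenConvexCycle X l c ∧
    Set.range c ⊆ Box co o z ∧ ∀ w : W, w ∈ P ↔ w.1 ∈ Set.range c}
  have hbt : ∀ a b w : W, w ∈ Bt φ a b ↔ w.1 ∈ Itv X a.1 b.1 := fun a b w => by
    rw [b2]
    exact Ant_bt H a b w
  have hnb : ∀ a b : W, Nb φ a b ↔ X.Adj a.1 b.1 := fun a b => Ant_nb H a b
  have hsub : ∀ a b : W, Itv X a.1 b.1 ⊆ Box co o z := by
    intro a b
    have h5 := b4 o z a.1 b.1 (by rw [b2]; exact a.2) (by rw [b2]; exact b.2)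
    rw [b2 o z] at h5
    exact h5
  have hswap : ∀ a b : V, Itv X a b = Itv X b a := by
    intro a b
    ext w
    show X.dist a b = X.dist a w + X.dist w b ↔ X.dist b a = X.dist b w + X.dist w a
    rw [X.dist_comm (u := b) (v := a), X.dist_comm (u := b) (v := w), X.dist_comm (u := w) (v := a),
      add_comm (X.dist w b)]
  have hthin : Thin φ Pol := by
    refine ⟨?_, ?_, ?_, ?_, ?_, ?_⟩
    · intro a b hab
      have h5 : D φ a b = ∅ := by
        rw [D, hab, symmDiff_self]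
        rfl
      apply Subtype.ext
      apply b1
      intro h
      by_contra h6
      have h7 := (Ant_mem_D H a b h).2 h6
      have h8 : h ∈ D φ a b := h7
      rw [h5] at h8
      exact Finset.notMem_empty h h8
    · intro a b hab
      obtain ⟨w, hw1, hw2, -⟩ := b5 a.1 b.1 (fun h => hab (Subtype.ext h))
      exact ⟨⟨w, hsub a b hw2⟩, (hnb _ _).2 hw1, (hbt _ _ _).2 hw2⟩
    · rintro P ⟨l, c, hc, hcs, hP⟩ v hv
      obtain ⟨i, hi⟩ := (hP v).1 hv
      refine ⟨⟨c (i + l), hcs ⟨i + l, rfl⟩⟩, (hP _).2 ⟨i + l, rfl⟩, ?_⟩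
      ext w
      rw [hP, hbt, ← hi, h2 V X hX.connected l c hc i]
    · rintro P ⟨l, c, hc, hcs, hP⟩ v hv a ha hva
      obtain ⟨i, hi⟩ := (hP v).1 hv
      obtain ⟨j, hj⟩ := (hP a).1 ha
      rw [hnb, ← hi, ← hj] at hva
      have key : ∀ w : W, w ∈ P → Nb φ v w → w.1 = c (i + 1) ∨ w.1 = c (i - 1) := by
        intro w hw hvw
        obtain ⟨k, hk⟩ := (hP w).1 hw
        rw [hnb, ← hi, ← hk] at hvw
        rw [← hk]
        exact Ant_nbr hc hvw
      rcases Ant_nbr hc hva with h5 | h5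
      · refine ⟨⟨c (i - 1), hcs ⟨_, rfl⟩⟩, (hP _).2 ⟨_, rfl⟩, ?_, ?_, ?_⟩
        · intro h6
          have h7 : c (i - 1) = a.1 := congrArg Subtype.val h6
          rw [← hj, h5] at h7
          exact Ant_ne hc i h7.symm
        · rw [hnb, ← hi]
          have h6 := hc.adj (i - 1)
          rw [sub_add_cancel] at h6
          exact h6.symm
        · intro w hw hvw
          rcases key w hw hvw with h6 | h6
          · left
            apply Subtype.ext
            rw [h6, ← hj, h5]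
          · right
            exact Subtype.ext h6
      · refine ⟨⟨c (i + 1), hcs ⟨_, rfl⟩⟩, (hP _).2 ⟨_, rfl⟩, ?_, ?_, ?_⟩
        · intro h6
          have h7 : c (i + 1) = a.1 := congrArg Subtype.val h6
          rw [← hj, h5] at h7
          exact Ant_ne hc i h7
        · rw [hnb, ← hi]
          exact hc.adj i
        · intro w hw hvw
          rcases key w hw hvw with h6 | h6
          · right
            exact Subtype.ext h6
          · left
            apply Subtype.ext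
            rw [h6, ← hj, h5]
    · intro o' x y z' hxy hzx hzy hx hy
      rw [hnb] at hzx hzy
      rw [hbt] at hx hy
      have low : ∀ t : W, X.Adj z'.1 t.1 → t.1 ∈ Itv X z'.1 o'.1 →
          X.dist o'.1 t.1 + 1 = X.dist o'.1 z'.1 := by
        intro t h5 h6
        have h7 : X.dist z'.1 o'.1 = X.dist z'.1 t.1 + X.dist t.1 o'.1 := h6
        have h8 : X.dist z'.1 t.1 = 1 := SimpleGraph.dist_eq_one_iff_adj.2 h5
        rw [h8, X.dist_comm (u := z'.1), X.dist_comm (u := t.1)] at h7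
        omega
      obtain ⟨l, c, hc, c0, c1, c2, c3, c4⟩ := hX.cycle o'.1 x.1 y.1 z'.1
        (fun h => hxy (Subtype.ext h)) hzx hzy (low x hzx hx) (low y hzy hy)
      have hrange : Itv X z'.1 (c l) = Set.range c := by
        have h5 := h2 V X hX.connected l c hc 0
        rwa [c0, zero_add] at h5
      have hm : c l ∈ Box co o z := hsub o' x c3
      have hcs : Set.range c ⊆ Box co o z := by
        rw [← hrange]
        exact hsub z' ⟨c l, hm⟩
      refine ⟨{w | w.1 ∈ Set.range c}, ⟨l, c, hc, hcs, fun w => Iff.rfl⟩, ⟨1, c1⟩, ⟨-1, c2⟩, ⟨0, c0⟩,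
        ⟨c l, hm⟩, ⟨l, rfl⟩, ?_, ?_, ?_⟩
      · ext w
        rw [hbt, hrange]
        rfl
      · rw [hbt]
        exact c3
      · rw [hbt]
        exact c4
    · rintro P ⟨l, c, hc, hcs, hP⟩ P' ⟨l', c', hc', hcs', hP'⟩ x y z' hxy hzx hzy hx hy hz hx' hy' hz'
      rw [hnb] at hzx hzy
      obtain ⟨i, hi⟩ := Ant_edge hc ((hP z').1 hz) ((hP x).1 hx) hzx
      obtain ⟨j, hj⟩ := Ant_edge hc ((hP z').1 hz) ((hP y).1 hy) hzy
      obtain ⟨i', hi'⟩ := Ant_edge hc' ((hP' z').1 hz') ((hP' x).1 hx') hzx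
      obtain ⟨j', hj'⟩ := Ant_edge hc' ((hP' z').1 hz') ((hP' y).1 hy') hzy
      have h5 := hX.share l l' c c' hc hc' i j i' j' (hi.trans hi'.symm) (hj.trans hj'.symm) (by
        rw [hi, hj]
        intro h6
        exact hxy (Subtype.ext (Sym2.congr_right.1 h6)))
      ext w
      rw [hP, hP', h5]
  have ho : o ∈ Box co o z := fun h => Or.inl rfl
  have hz : z ∈ Box co o z := fun h => Or.inr rfl
  obtain ⟨b, hb1, hb2, hb3⟩ := ht W η φ Pol hthin ⟨o, ho⟩ ⟨z, hz⟩ (fun h =>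
    hoz (congrArg Subtype.val h))
  refine ⟨b.1, (hbt _ _ _).1 hb1, fun x hx1 hx2 => ?_, fun v hv => ?_⟩
  · have hx3 : x ∈ Itv X o z := by
      show X.dist o z = X.dist o x + X.dist x z
      rw [← hx2, SimpleGraph.dist_eq_one_iff_adj.2 hx1.symm]
    have hx4 : x ∈ Box co o z := by rwa [← b2]
    have h5 := hb2 ⟨x, hx4⟩ ⟨(hnb _ _).2 hx1, (hbt _ _ _).2 (by rw [hswap]; exact hx3)⟩
    exact (hbt _ _ _).1 h5
  · have hv2 : v ∈ Itv X b.1 z := by rw [b2]; exact hv
    have hv3 : v ∈ Box co o z := hsub b ⟨z, hz⟩ hv2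
    obtain ⟨v', hv4, hv5⟩ := hb3 ⟨v, hv3⟩ ((hbt _ _ _).2 hv2)
    refine ⟨v'.1, ?_, fun h h5 => ?_⟩
    · rw [← b2]
      exact (hbt _ _ _).1 hv4
    · have h6 : h ∈ D φ b ⟨z, hz⟩ := (Ant_mem_D H b ⟨z, hz⟩ h).2 h5
      rw [← hv5] at h6
      exact (Ant_mem_D H ⟨v, hv3⟩ v' h).1 h6

end Pool.Agent.H341.MA
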