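import Pool.Agent.H341.MA.St2

/-!
# Mediangle graphs: statements, part 3 (chains of cells, groups)
-/

set_option autoImplicit false

namespace Pool.Agent.H341.MA

universe u v

open SimpleGraph

/-! ## Systems of tuples and their chain complexes -/

/-- boundary operator: chains on tuples of length `n + 1` to chains on tuples of length `n`
(alternating sum of the tuples with one entry omitted); `n = 0` is the augmentation -/
noncomputable def bd (Ω : Type u) (n : ℕ) : ((Fin (n + 1) → Ω) →₀ ℤ) →+ ((Fin n → Ω) →₀ ℤ) :=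
  Finsupp.liftAddHom fun τ => zmultiplesHom _
    (∑ i : Fin (n + 1), ((-1 : ℤ) ^ (i : ℕ)) • Finsupp.single (fun j => τ (i.succAbove j)) (1 : ℤ))

/-- `c` is supported on the set `K` of tuples -/
def SuppOn {Ω : Type u} {n : ℕ} (K : Set (Fin n → Ω)) (c : (Fin n → Ω) →₀ ℤ) : Prop :=
  ∀ τ, c τ ≠ 0 → τ ∈ K

/-- closed under omitting entries -/
def FaceClosed {Ω : Type u} (K : ∀ n : ℕ, Set (Fin n → Ω)) : Prop :=
  ∀ (n : ℕ), ∀ τ ∈ K (n + 1), ∀ i : Fin (n + 1), (fun j => τ (i.succAbove j)) ∈ K n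

/-- the augmented chain complex of `K` is exact -/
def Acyclic {Ω : Type u} (K : ∀ n : ℕ, Set (Fin n → Ω)) : Prop :=
  (∀ c, SuppOn (K 0) c → ∃ b, SuppOn (K 1) b ∧ bd Ω 0 b = c) ∧
  ∀ n : ℕ, ∀ c, SuppOn (K (n + 1)) c → bd Ω n c = 0 → ∃ b, SuppOn (K (n + 2)) b ∧ bd Ω (n + 1) b = c

/-- BB. The boundary of a boundary is zero. -/
def S_BB : Prop := ∀ (Ω : Type u) (n : ℕ) (c : (Fin (n + 2) → Ω) →₀ ℤ),
  bd Ω n (bd Ω (n + 1) c) = 0

/-- GLUE. Glueing acyclic pieces `K i` to an acyclic system `K0` along acyclic intersections. -/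
def S_GLUE : Prop := ∀ (Ω ι : Type u) (K0 : ∀ n : ℕ, Set (Fin n → Ω))
  (K : ι → ∀ n : ℕ, Set (Fin n → Ω)), K0 0 = Set.univ → FaceClosed K0 → (∀ i, FaceClosed (K i)) →
  (∀ i j, i ≠ j → ∀ n, K i n ∩ K j n ⊆ K0 n) → Acyclic K0 → (∀ i, Acyclic (K i)) →
  (∀ i, Acyclic (fun n => K i n ∩ K0 n)) → Acyclic (fun n => K0 n ∪ ⋃ i, K i n)

/-- UNION. Directed unions of acyclic systems. -/
def S_UNION : Prop := ∀ (Ω : Type u) (K : ℕ → ∀ n : ℕ, Set (Fin n → Ω)),
  (∀ i j, i ≤ j → ∀ n, K i n ⊆ K j n) → (∀ i, Acyclic (K i)) → Acyclic (fun n => ⋃ i, K i n)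

/-- tuples in `Ω` whose images under `π` lie in the family `Q` and which are `ρ`-chains -/
def Tup {V Ω : Type u} (π : Ω → Set V) (ρ : Ω → Ω → Prop) (Q : Set (Set V)) :
    ∀ n : ℕ, Set (Fin n → Ω) :=
  fun _ => {τ | (∀ i, π (τ i) ∈ Q) ∧ ∀ i j, i < j → ρ (τ i) (τ j)}

/-- the cone property for `π, ρ` -/
def ConeProp {V Ω : Type u} (π : Ω → Set V) (ρ : Ω → Ω → Prop) : Prop :=
  ∀ (Q : Set (Set V)), ∀ M ∈ Q, M ∈ Set.range π → (∀ C ∈ Q, C ⊆ M) → Acyclic (Tup π ρ Q)

/-- CONEW. Families with a largest element are acyclic (weakly increasing chains). -/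
def S_CONEW : Prop := ∀ (V Ω : Type u) (π : Ω → Set V), ConeProp π (fun a b => π a ⊆ π b)

/-- CONES. Families with a largest element are acyclic (strictly increasing chains). -/
def S_CONES : Prop := ∀ (V Ω : Type u) (π : Ω → Set V), Function.Injective π →
  ConeProp π (fun a b => π a ⊂ π b)

/-- ACYJ. The cells inside a gated set `E` and the ball of radius `j` about `o ∈ E`. -/
def S_ACYJ : Prop := ∀ (V Ω : Type u) (X : SimpleGraph V) (R : V → V → Set V), Mediangle X →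
  CellSys X R → ∀ (π : Ω → Set V) (ρ : Ω → Ω → Prop), (∀ a b, ρ a b → π a ⊆ π b) →
  (∀ C, Cell X C → C ∈ Set.range π) → (∀ ω, Cell X (π ω)) → ConeProp π ρ →
  ∀ (j : ℕ) (E : Set V), Gated X E → ∀ o ∈ E,
    Acyclic (Tup π ρ {C | Cell X C ∧ C ⊆ E ∧ ∀ v ∈ C, X.dist o v ≤ j})

/-- ACY. The system of all cells is acyclic. -/
def S_ACY : Prop := ∀ (V Ω : Type u) (X : SimpleGraph V) (R : V → V → Set V), Mediangle X →
  CellSys X R → ∀ (π : Ω → Set V) (ρ : Ω → Ω → Prop), (∀ a b, ρ a b → π a ⊆ π b) →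
  (∀ C, Cell X C → C ∈ Set.range π) → (∀ ω, Cell X (π ω)) → ConeProp π ρ →
    Acyclic (Tup π ρ {C | Cell X C})

/-! ## Groups -/

/-- RES. A free action with finitely many orbits on an acyclic system of tuples gives a resolution
by finitely generated free modules. -/
def S_RES : Prop := ∀ (G : Type v) [Group G] (Ω : Type u) [MulAction G Ω]
  (K : ∀ n : ℕ, Set (Fin n → Ω)), K 0 = Set.univ → FaceClosed K → Acyclic K →
  (∀ (n : ℕ) (g : G), ∀ τ ∈ K n, (fun i => g • τ i) ∈ K n) →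
  (∀ (n : ℕ) (g : G), ∀ τ ∈ K (n + 1), (fun i => g • τ i) = τ → g = 1) →
  (∀ n : ℕ, ∃ S : Set (Fin (n + 1) → Ω), S.Finite ∧ ∀ τ ∈ K (n + 1), ∃ g : G, ∃ s ∈ S,
    (fun i => g • s i) = τ) →
  ∃ k : ℕ → ℕ, FreeResolution G k ∧ ∀ n, K (n + 1) = ∅ → k n = 0

/-- the product of the labels along a walk -/
def wprod {V : Type u} {Γ : Type v} [Group Γ] {X : SimpleGraph V} (lam : V → V → Γ) {x y : V}
    (p : X.Walk x y) : Γ := (p.darts.map (fun d => lam d.fst d.snd)).prod

/-- `N`-coarse simple connectivity: every labelling by a group which is trivial on closed walks of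
length `≤ N` is trivial on all closed walks -/
def SC {V : Type u} (X : SimpleGraph V) (N : ℕ) : Prop :=
  ∀ (Γ : Type v) [Group Γ] (lam : V → V → Γ),
    (∀ (x : V) (p : X.Walk x x), p.length ≤ N → wprod lam p = 1) →
    ∀ (x : V) (p : X.Walk x x), wprod lam p = 1

/-- SCM. Mediangle graphs with a geometric action are coarsely simply connected. -/
def S_SCM : Prop := ∀ (V : Type u) (X : SimpleGraph V) (G : Type v) [Group G] [MulAction G V],
  Mediangle X → GeometricAction X G → ∃ N : ℕ, SC.{u, v} X N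

/-- FPG. Geometric actions on coarsely simply connected graphs: finite presentability. -/
def S_FPG : Prop := ∀ (V : Type u) (X : SimpleGraph V) (G : Type v) [Group G] [MulAction G V],
  X.Connected → GeometricAction X G → (∃ N : ℕ, SC.{u, v} X N) → Group.IsFinitelyPresented G

/-- CFIN. Finitely many cells contain a given vertex. -/
def S_CFIN : Prop := ∀ (V : Type u) (X : SimpleGraph V), Mediangle X →
  (∀ (x : V) (n : ℕ), {y | X.dist x y ≤ n}.Finite) → ∀ v : V, {C | Cell X C ∧ v ∈ C}.Finite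

/-- CINV. Graph automorphisms map cells to cells. -/
def S_CINV : Prop := ∀ (V : Type u) (X : SimpleGraph V) (f : V ≃ V), X.Connected →
  (∀ x y, X.Adj x y ↔ X.Adj (f x) (f y)) → ∀ C, Cell X C → Cell X (f '' C)

/-- FINW. Type `F_∞`. -/
def S_FINW : Prop := ∀ (V : Type u) (X : SimpleGraph V) (G : Type u) [Group G] [MulAction G V],
  Mediangle X → GeometricAction X G → ∃ k : ℕ → ℕ, FreeResolution G k

/-- FINS. Torsion-free groups: finite resolution. -/
def S_FINS : Prop := ∀ (V : Type u) (X : SimpleGraph V) (G : Type v) [Group G] [MulAction G V],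
  Mediangle X → GeometricAction X G → (∀ g : G, g ≠ 1 → ¬ IsOfFinOrder g) →
    ∃ k : ℕ → ℕ, FreeResolution G k ∧ ∃ N : ℕ, ∀ n ≥ N, k n = 0

end Pool.Agent.H341.MA
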