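import Pool.Agent.H341.MA.St1

/-!
# Mediangle graphs: statements, part 2 (thin systems, cells)
-/

set_option autoImplicit false

namespace Pool.Agent.H341.MA

universe u v

open SimpleGraph

/-! ## Thin systems (isometric families of finite sets with polygons) -/

section Thin

variable {W η : Type u} [DecidableEq η]

/-- symmetric difference of the sets attached to two points -/
def D (φ : W → Finset η) (a b : W) : Finset η := symmDiff (φ a) (φ b)

/-- `Bt φ a b` : all points between `a` and `b` -/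
def Bt (φ : W → Finset η) (a b : W) : Set W := {w | D φ a w ⊆ D φ a b}

/-- neighbours: the sets differ in exactly one element -/
def Nb (φ : W → Finset η) (a b : W) : Prop := (D φ a b).card = 1

/-- A thin system: an isometric family of finite sets, with a collection `Pol` of polygons. -/
structure Thin (φ : W → Finset η) (Pol : Set (Set W)) : Prop where
  inj : Function.Injective φ
  iso : ∀ a b, a ≠ b → ∃ w, Nb φ a w ∧ w ∈ Bt φ a b
  anti : ∀ P ∈ Pol, ∀ v ∈ P, ∃ v' ∈ P, P = Bt φ v v'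
  two : ∀ P ∈ Pol, ∀ v ∈ P, ∀ a ∈ P, Nb φ v a →
    ∃ b ∈ P, b ≠ a ∧ Nb φ v b ∧ ∀ c ∈ P, Nb φ v c → c = a ∨ c = b
  cyc : ∀ o x y z, x ≠ y → Nb φ z x → Nb φ z y → x ∈ Bt φ z o → y ∈ Bt φ z o →
    ∃ P ∈ Pol, x ∈ P ∧ y ∈ P ∧ z ∈ P ∧ ∃ m ∈ P, P = Bt φ z m ∧ m ∈ Bt φ o x ∧ m ∈ Bt φ o y
  uniq : ∀ P ∈ Pol, ∀ P' ∈ Pol, ∀ x y z, x ≠ y → Nb φ z x → Nb φ z y →
    x ∈ P → y ∈ P → z ∈ P → x ∈ P' → y ∈ P' → z ∈ P' → P = P'

/-- lower neighbours of `z` with respect to the base point `o` -/
def Low (φ : W → Finset η) (o z : W) : Set W := {x | Nb φ z x ∧ x ∈ Bt φ z o}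

/-- common lower bounds of the elements of `T` with respect to the base point `o` -/
def LB (φ : W → Finset η) (o : W) (T : Set W) : Set W := {w | ∀ x ∈ T, w ∈ Bt φ o x}

/-- `b, z` antipodal: every point between them has an antipode between them -/
def TAnt (φ : W → Finset η) (b z : W) : Prop :=
  ∀ v ∈ Bt φ b z, ∃ v' ∈ Bt φ b z, D φ v v' = D φ b z

/-- T_MEET. A nonempty set of lower neighbours of `z` has a meet. -/
def T_MEET : Prop := ∀ (W η : Type u) [DecidableEq η] (φ : W → Finset η) (Pol : Set (Set W)),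
  Thin φ Pol → ∀ (o z : W) (T : Set W), T.Nonempty → T ⊆ Low φ o z →
    ∃ m ∈ LB φ o T, ∀ w ∈ LB φ o T, w ∈ Bt φ o m

/-- T_G. Polygons are gated. -/
def T_G : Prop := ∀ (W η : Type u) [DecidableEq η] (φ : W → Finset η) (Pol : Set (Set W)),
  Thin φ Pol → ∀ P ∈ Pol, P.Nonempty → ∀ v, ∃ q ∈ P, ∀ p ∈ P,
    (D φ v p).card = (D φ v q).card + (D φ q p).card

/-- T_LIFT. If `Z` is between `o` and `z`, the pair `o, Z` is antipodal and each neighbour of `Z`
between `o` and `Z` can be shifted by `D Z z`, then `o` can be shifted by `D Z z`. -/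
def T_LIFT : Prop := ∀ (W η : Type u) [DecidableEq η] (φ : W → Finset η) (Pol : Set (Set W)),
  Thin φ Pol → ∀ o Z z : W, Z ∈ Bt φ o z → TAnt φ o Z →
    (∀ v ∈ Bt φ o Z, Nb φ Z v → ∃ x, D φ v x = D φ Z z) → ∃ p, D φ o p = D φ Z z

/-- T_Y. Let `T` be a set of at least two lower neighbours of `z` whose only common lower bound is
the base point, and let this fail for each `T \ {x}`. Then for each `x ∈ T` the base point has a
neighbour `y` in direction `D z x`, and `y` lies below all elements of `T` except `x`. -/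
def T_Y : Prop := ∀ (W η : Type u) [DecidableEq η] (φ : W → Finset η) (Pol : Set (Set W)),
  Thin φ Pol → ∀ (o z : W) (T : Set W), T ⊆ Low φ o z → LB φ o T = {o} →
    ∀ x ∈ T, (T \ {x}).Nonempty → LB φ o (T \ {x}) ≠ {o} →
      ∃ y, D φ o y = D φ z x ∧ y ∈ LB φ o (T \ {x}) ∧
        ∀ q ∈ LB φ o (T \ {x}), q ≠ o → y ∈ Bt φ o q

/-- The main theorem on thin systems for the pair `o, z`. -/
def TMain (φ : W → Finset η) (o z : W) : Prop := ∀ T : Set W, T.Nonempty → T ⊆ Low φ o z →
  ∀ b ∈ LB φ o T, (∀ w ∈ LB φ o T, w ∈ Bt φ o b) → TAnt φ b z ∧ Low φ b z = T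

/-- T_N. One step of the induction: if `T` is a nonempty set of lower neighbours of `z` whose only
common lower bound is `o`, then every lower neighbour `l` of `z` has an antipode `y` (adjacent to
`o`), and `T` consists of all lower neighbours of `z`. -/
def T_N : Prop := ∀ (W η : Type u) [DecidableEq η] (φ : W → Finset η) (Pol : Set (Set W)),
  Thin φ Pol → ∀ o z : W,
    (∀ o' z' : W, (D φ o' z').card < (D φ o z).card → o' ≠ z' → TMain φ o' z') →
    ∀ T : Set W, T.Nonempty → T ⊆ Low φ o z → LB φ o T = {o} →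
      (∀ l ∈ Low φ o z, ∃ y, D φ o y = D φ z l) ∧ Low φ o z = T

/-- T_PI. Propagation of the condition `LB (Low z) = {o}` to neighbouring antipodal pairs. -/
def T_PI : Prop := ∀ (W η : Type u) [DecidableEq η] (φ : W → Finset η) (Pol : Set (Set W)),
  Thin φ Pol → ∀ o z : W,
    (∀ o' z' : W, (D φ o' z').card < (D φ o z).card → o' ≠ z' → TMain φ o' z') →
    LB φ o (Low φ o z) = {o} → ∀ u u' : W, u ∈ Low φ o z → D φ u u' = D φ o z →
      LB φ u' (Low φ u' u) = {u'}

/-- T_MAIN. -/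
def T_MAIN : Prop := ∀ (W η : Type u) [DecidableEq η] (φ : W → Finset η) (Pol : Set (Set W)),
  Thin φ Pol → ∀ o z : W, o ≠ z → TMain φ o z

/-- THIN. The consequence used for mediangle graphs. -/
def S_THIN : Prop := ∀ (W η : Type u) [DecidableEq η] (φ : W → Finset η) (Pol : Set (Set W)),
  Thin φ Pol → ∀ o z : W, o ≠ z → ∃ b, b ∈ Bt φ o z ∧ (∀ x ∈ Low φ o z, b ∈ Bt φ o x) ∧
    TAnt φ b z

end Thin

/-! ## Cells of mediangle graphs -/

/-- ANT. Below every vertex `z ≠ o` there is an antipodal pair `b, z` whose box contains all lower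
neighbours of `z`. -/
def S_ANT : Prop := ∀ (V : Type u) (X : SimpleGraph V) (η σ : Type u) (co : V → η → σ),
  Mediangle X → Ham X co → ∀ o z : V, o ≠ z → ∃ b, b ∈ Itv X o z ∧
    (∀ x, X.Adj z x → X.dist o x + 1 = X.dist o z → b ∈ Itv X o x) ∧ Ant co b z

/-- MOVE. Changing one end of an antipodal pair inside a thick clique. -/
def S_MOVE : Prop := ∀ (V : Type u) (X : SimpleGraph V) (η σ : Type u) (co : V → η → σ),
  Mediangle X → Ham X co → ∀ v w v' : V, ∀ g : η, Ant co v w → co v g ≠ co w g →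
    co v' g ≠ co v g → (∀ h, h ≠ g → co v' h = co v h) → co v' g ≠ co w g →
    Ant co v' w ∧ ∃ w', co w' g = co v' g ∧ ∀ h, h ≠ g → co w' h = co w h

/-- the sub-Hamming-space through `b` in the directions which separate `b` and `z` -/
def Sub {V η σ : Type u} (co : V → η → σ) (b z : V) : Set V :=
  {v | ∀ h, co b h = co z h → co v h = co b h}

/-- any two non-adjacent neighbours (in `C`) of a vertex of `C` span an even convex cycle -/
def Polg {V : Type u} (X : SimpleGraph V) (C : Set V) : Prop :=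
  ∀ v ∈ C, ∀ x ∈ C, ∀ y ∈ C, X.Adj v x → X.Adj v y → x ≠ y → ¬ X.Adj x y →
    ∃ (l : ℕ) (c : ℤ → V), EvenConvexCycle X l c ∧ c 0 = v ∧ c 1 = x ∧ c (-1) = y

/-- OPP. In `Sub b z`, with `b, z` antipodal: each vertex `v` of `Sub b z` is an end of an antipodal
pair `v, w` with the same separating directions, and `w` can be chosen so that two prescribed
neighbours `x, y` of `v` (in different directions) lie in the box of `v, w`. -/
def S_OPP : Prop := ∀ (V : Type u) (X : SimpleGraph V) (η σ : Type u) (co : V → η → σ),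
  Mediangle X → Ham X co → ∀ b z : V, Ant co b z → ∀ v ∈ Sub co b z, ∀ x ∈ Sub co b z,
    ∀ y ∈ Sub co b z, X.Adj v x → X.Adj v y → x ≠ y → ¬ X.Adj x y →
    ∃ w ∈ Sub co b z, x ∈ Box co v w ∧ y ∈ Box co v w

/-- SUBC. `Sub b z` is gated and any two non-adjacent neighbours span an even convex cycle. -/
def S_SUBC : Prop := ∀ (V : Type u) (X : SimpleGraph V) (η σ : Type u) (co : V → η → σ),
  Mediangle X → Ham X co → ∀ b z : V, Ant co b z → Gated X (Sub co b z) ∧ Polg X (Sub co b z)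

/-- CELL0. -/
def S_CELL0 : Prop := ∀ (V : Type u) (X : SimpleGraph V), Mediangle X → ∀ o z : V, o ≠ z →
  ∃ (R : Set V) (n : ℕ), Gated X R ∧ Polg X R ∧ z ∈ R ∧
    (∀ x, X.Adj z x → X.dist o x + 1 = X.dist o z → x ∈ R) ∧
    (∀ v ∈ R, X.dist o v ≤ X.dist o z) ∧ (∀ v ∈ R, ∀ w ∈ R, X.dist v w ≤ n)

/-- cells -/
def Cell {V : Type u} (X : SimpleGraph V) (C : Set V) : Prop := Gated X C ∧ Polg X C ∧ C.Finite

/-- STAR. A set `C` which is gated and has property `Polg` is contained in every gated set which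
contains a vertex of `C` with all its neighbours in `C`. -/
def S_STAR : Prop := ∀ (V : Type u) (X : SimpleGraph V), Mediangle X → ∀ C E : Set V,
  Gated X C → Polg X C → Gated X E → ∀ z ∈ C, z ∈ E → (∀ x ∈ C, X.Adj z x → x ∈ E) → C ⊆ E

/-- LF. A mediangle graph with a geometric group action is locally finite, with finite balls. -/
def S_LF : Prop := ∀ (V : Type u) (X : SimpleGraph V) (G : Type v) [Group G] [MulAction G V],
  X.Connected → GeometricAction X G → ∀ (x : V) (n : ℕ), {y | X.dist x y ≤ n}.Finite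

/-- RC. The properties of the system of cells used below: `R o z` for `z ≠ o`. -/
structure CellSys {V : Type u} (X : SimpleGraph V) (R : V → V → Set V) : Prop where
  cell : ∀ o z, o ≠ z → Cell X (R o z)
  mem : ∀ o z, o ≠ z → z ∈ R o z
  low : ∀ o z, o ≠ z → ∃ x ∈ R o z, X.dist o x < X.dist o z
  ball : ∀ o z, o ≠ z → ∀ v ∈ R o z, X.dist o v ≤ X.dist o z
  max : ∀ o z, o ≠ z → ∀ C, Cell X C → z ∈ C → (∀ v ∈ C, X.dist o v ≤ X.dist o z) → C ⊆ R o z
  sub : ∀ o z, o ≠ z → ∀ E, Gated X E → o ∈ E → z ∈ E → R o z ⊆ E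

/-- CSYS. -/
def S_CSYS : Prop := ∀ (V : Type u) (X : SimpleGraph V), Mediangle X →
  (∀ (x : V) (n : ℕ), {y | X.dist x y ≤ n}.Finite) → ∃ R : V → V → Set V, CellSys X R

end Pool.Agent.H341.MA
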