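import Pool.Agent.H341.MA.St3

/-!
# Mediangle graphs: the system of cells is acyclic
-/

set_option autoImplicit false

namespace Pool.Agent.H341.MA

universe u v

open SimpleGraph

private theorem acy_faceClosed {V Ω : Type u} (π : Ω → Set V) (ρ : Ω → Ω → Prop)
    (Q : Set (Set V)) : FaceClosed (Tup π ρ Q) := by
  intro n τ hτ i
  exact ⟨fun j => hτ.1 _, fun a b hab => hτ.2 _ _ (Fin.strictMono_succAbove i hab)⟩

private theorem acy_cell_singleton {V : Type u} (X : SimpleGraph V) (o : V) :
    Cell X ({o} : Set V) := by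
  refine ⟨?_, ?_, Set.finite_singleton o⟩
  · intro x
    refine ⟨o, rfl, ?_⟩
    rintro y' rfl
    rw [SimpleGraph.dist_self, add_zero]
  · intro v hv x hx y hy h
    rw [Set.mem_singleton_iff] at hv hx
    exact absurd (hv.trans hx.symm) h.ne

theorem s_acyj (hg : S_GLUE.{u}) : S_ACYJ.{u} := by
  intro V Ω X R hX hR π ρ hρ hsurj hcell hcone j
  have hc := hX.connected
  induction j using Nat.strong_induction_on with
  | _ j ih =>
  intro E hE o ho
  rcases j with _ | J
  · refine hcone _ {o} ⟨acy_cell_singleton X o, Set.singleton_subset_iff.2 ho, ?_⟩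
      (hsurj _ (acy_cell_singleton X o)) ?_
    · rintro v rfl
      rw [SimpleGraph.dist_self]
    · rintro C ⟨-, -, h⟩ v hv
      have h1 := h v hv
      have h2 : X.dist o v = 0 := by omega
      exact (hc.dist_eq_zero_iff.1 h2).symm
  · -- vertices at distance `J + 1` are different from `o`
    have hne : ∀ z, X.dist o z = J + 1 → o ≠ z := by
      rintro z hz rfl
      rw [SimpleGraph.dist_self] at hz
      omega
    set Q0 : Set (Set V) := {C | Cell X C ∧ C ⊆ E ∧ ∀ v ∈ C, X.dist o v ≤ J} with hQ0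
    let ι : Type u := {S : Set V // ∃ z ∈ E, X.dist o z = J + 1 ∧ S = R o z}
    let Qi : ι → Set (Set V) := fun i => {C | Cell X C ∧ C ⊆ i.1}
    have hsub : ∀ i : ι, i.1 ⊆ E := by
      rintro ⟨S, z, hz, hd, rfl⟩
      exact hR.sub o z (hne z hd) E hE ho hz
    have hdist : ∀ i : ι, ∀ v ∈ i.1, X.dist o v ≤ J + 1 := by
      rintro ⟨S, z, hz, hd, rfl⟩ v hv
      rw [← hd]
      exact hR.ball o z (hne z hd) v hv
    have hcelli : ∀ i : ι, Cell X i.1 := by
      rintro ⟨S, z, hz, hd, rfl⟩
      exact hR.cell o z (hne z hd)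
    have hmaxi : ∀ (i : ι) (y : V), y ∈ i.1 → X.dist o y = J + 1 → i.1 = R o y := by
      rintro ⟨S, z, hz, hd, rfl⟩ y hy hdy
      show R o z = R o y
      have h1 : R o z ⊆ R o y := by
        apply hR.max o y (hne y hdy) _ (hR.cell o z (hne z hd)) hy
        intro v hv
        rw [hdy, ← hd]
        exact hR.ball o z (hne z hd) v hv
      refine h1.antisymm ?_
      apply hR.max o z (hne z hd) _ (hR.cell o y (hne y hdy)) (h1 (hR.mem o z (hne z hd)))
      intro v hv
      rw [hd, ← hdy]
      exact hR.ball o y (hne y hdy) v hv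
    have hglue := hg Ω ι (Tup π ρ Q0) (fun i => Tup π ρ (Qi i))
      (by
        ext τ
        simp only [Set.mem_univ, iff_true]
        exact ⟨fun i => i.elim0, fun i => i.elim0⟩)
      (acy_faceClosed π ρ Q0) (fun i => acy_faceClosed π ρ (Qi i))
      (by
        rintro i i' hii n τ ⟨h1, h2⟩
        refine ⟨fun l => ⟨(h1.1 l).1, (h1.1 l).2.trans (hsub i), fun v hv => ?_⟩, h1.2⟩
        by_contra hcon
        have h3 : X.dist o v = J + 1 := by
          have := hdist i v ((h1.1 l).2 hv)
          omega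
        apply hii
        apply Subtype.ext
        rw [hmaxi i v ((h1.1 l).2 hv) h3, hmaxi i' v ((h2.1 l).2 hv) h3])
      (ih J (Nat.lt_succ_self J) E hE o ho)
      (fun i => hcone (Qi i) i.1 ⟨hcelli i, subset_rfl⟩ (hsurj _ (hcelli i)) fun C hC => hC.2)
      (by
        intro i
        obtain ⟨r, hr, hgr⟩ := (hcelli i).1 o
        have hlow : X.dist o r ≤ J := by
          obtain ⟨S, z, hz, hd, rfl⟩ := i
          obtain ⟨x, hx, hlt⟩ := hR.low o z (hne z hd)
          have h1 := hgr x hx
          omega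
        have hih := ih (J - X.dist o r) (by omega) i.1 (hcelli i).1 r hr
        have he : (fun n => Tup π ρ (Qi i) n ∩ Tup π ρ Q0 n) =
            Tup π ρ {C | Cell X C ∧ C ⊆ i.1 ∧ ∀ v ∈ C, X.dist r v ≤ J - X.dist o r} := by
          funext n
          ext τ
          constructor
          · rintro ⟨h1, h2⟩
            refine ⟨fun l => ⟨(h1.1 l).1, (h1.1 l).2, fun v hv => ?_⟩, h1.2⟩
            have h3 := (h2.1 l).2.2 v hv
            have h4 := hgr v ((h1.1 l).2 hv)
            omega
          · intro h1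
            refine ⟨⟨fun l => ⟨(h1.1 l).1, (h1.1 l).2.1⟩, h1.2⟩,
              ⟨fun l => ⟨(h1.1 l).1, (h1.1 l).2.1.trans (hsub i), fun v hv => ?_⟩, h1.2⟩⟩
            have h3 := (h1.1 l).2.2 v hv
            have h4 := hgr v ((h1.1 l).2.1 hv)
            omega
        rw [he]
        exact hih)
    have he : (fun n => Tup π ρ Q0 n ∪ ⋃ i, Tup π ρ (Qi i) n) =
        Tup π ρ {C | Cell X C ∧ C ⊆ E ∧ ∀ v ∈ C, X.dist o v ≤ J + 1} := by
      funext n
      ext τ
      constructor
      · rintro (h1 | h1)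
        · exact ⟨fun l => ⟨(h1.1 l).1, (h1.1 l).2.1, fun v hv =>
            ((h1.1 l).2.2 v hv).trans (Nat.le_succ J)⟩, h1.2⟩
        · obtain ⟨i, h1⟩ := Set.mem_iUnion.1 h1
          exact ⟨fun l => ⟨(h1.1 l).1, (h1.1 l).2.trans (hsub i), fun v hv =>
            hdist i v ((h1.1 l).2 hv)⟩, h1.2⟩
      · intro h1
        rcases n with _ | m
        · left
          exact ⟨fun i => i.elim0, fun i => i.elim0⟩
        · have hlast : ∀ l, π (τ l) ⊆ π (τ (Fin.last m)) := by
            intro l
            rcases (Fin.le_last l).lt_or_eq with h | h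
            · exact hρ _ _ (h1.2 _ _ h)
            · rw [h]
          obtain ⟨g1, g2, g3⟩ := h1.1 (Fin.last m)
          by_cases hall : ∀ v ∈ π (τ (Fin.last m)), X.dist o v ≤ J
          · left
            exact ⟨fun l => ⟨(h1.1 l).1, (h1.1 l).2.1, fun v hv => hall v (hlast l hv)⟩, h1.2⟩
          · right
            push Not at hall
            obtain ⟨z, hz, hlt⟩ := hall
            have hzd : X.dist o z = J + 1 := by
              have := g3 z hz
              omega
            have hsubR : π (τ (Fin.last m)) ⊆ R o z := by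
              apply hR.max o z (hne z hzd) _ g1 hz
              intro v hv
              rw [hzd]
              exact g3 v hv
            refine Set.mem_iUnion.2 ⟨⟨R o z, z, g2 hz, hzd, rfl⟩, ?_⟩
            exact ⟨fun l => ⟨(h1.1 l).1, (hlast l).trans hsubR⟩, h1.2⟩
    rw [he] at hglue
    exact hglue

theorem s_acy (hu : S_UNION.{u}) (ha : S_ACYJ.{u}) : S_ACY.{u} := by
  intro V Ω X R hX hR π ρ hρ hsurj hcell hcone
  have hc := hX.connected
  obtain ⟨o⟩ := hc.nonempty
  have hE : Gated X (Set.univ : Set V) := by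
    intro x
    refine ⟨x, Set.mem_univ _, fun y' _ => ?_⟩
    rw [SimpleGraph.dist_self, zero_add]
  have h1 := hu Ω (fun j => Tup π ρ {C | Cell X C ∧ C ⊆ Set.univ ∧ ∀ v ∈ C, X.dist o v ≤ j})
    (by
      intro i j hij n τ hτ
      exact ⟨fun l => ⟨(hτ.1 l).1, (hτ.1 l).2.1, fun v hv => ((hτ.1 l).2.2 v hv).trans hij⟩, hτ.2⟩)
    (fun j => ha V Ω X R hX hR π ρ hρ hsurj hcell hcone j Set.univ hE o (Set.mem_univ o))
  have he : (fun n => ⋃ j : ℕ, Tup π ρ {C | Cell X C ∧ C ⊆ Set.univ ∧ ∀ v ∈ C, X.dist o v ≤ j} n) =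
      Tup π ρ {C | Cell X C} := by
    funext n
    ext τ
    constructor
    · intro h
      obtain ⟨j, h⟩ := Set.mem_iUnion.1 h
      exact ⟨fun l => (h.1 l).1, h.2⟩
    · intro h
      have hb : ∀ l : Fin n, ∃ N : ℕ, ∀ v ∈ π (τ l), X.dist o v ≤ N := by
        intro l
        obtain ⟨N, hN⟩ := ((hcell (τ l)).2.2.image (fun v => X.dist o v)).bddAbove
        exact ⟨N, fun v hv => hN ⟨v, hv, rfl⟩⟩
      choose N hN using hb
      refine Set.mem_iUnion.2 ⟨Finset.univ.sup N, ?_⟩
      exact ⟨fun l => ⟨h.1 l, Set.subset_univ _, fun v hv =>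
        (hN l v hv).trans (Finset.le_sup (Finset.mem_univ l))⟩, h.2⟩
  rw [he] at h1
  exact h1

end Pool.Agent.H341.MA
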