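import Pool.Agent.H341.MA.St3

/-!
# Chains on tuples: statements BB and UNION, by helper249 for helper341
-/

set_option autoImplicit false

namespace Pool.Agent.H341.MA

universe u v

open SimpleGraph

/-- The boundary of a single tuple. -/
theorem BB_single (Ω : Type u) (n : ℕ) (τ : Fin (n + 1) → Ω) :
    bd Ω n (Finsupp.single τ 1) =
      ∑ i : Fin (n + 1), ((-1 : ℤ) ^ (i : ℕ)) •
        Finsupp.single (fun j => τ (i.succAbove j)) (1 : ℤ) := by
  unfold bd
  rw [Finsupp.liftAddHom_apply_single, zmultiplesHom_apply, one_smul]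

/-- The signs. -/
theorem BB_sign {n : ℕ} (i : Fin (n + 2)) (j : Fin (n + 1)) :
    (-1 : ℤ) ^ ((i.succAbove j : Fin (n + 2)) : ℕ) * (-1 : ℤ) ^ ((j.predAbove i : Fin (n + 1)) : ℕ) =
      -((-1 : ℤ) ^ (i : ℕ) * (-1 : ℤ) ^ (j : ℕ)) := by
  rcases lt_or_ge j.castSucc i with h | h
  · rw [Fin.succAbove_of_castSucc_lt _ _ h, Fin.predAbove_of_castSucc_lt _ _ h, Fin.val_castSucc,
      Fin.val_pred]
    have h1 : (j : ℕ) < (i : ℕ) := h
    obtain ⟨m, hm⟩ : ∃ m : ℕ, (i : ℕ) = m + 1 := ⟨(i : ℕ) - 1, by omega⟩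
    rw [hm, Nat.add_sub_cancel, pow_succ]
    ring
  · rw [Fin.succAbove_of_le_castSucc _ _ h, Fin.predAbove_of_le_castSucc _ _ h, Fin.val_succ,
      Fin.coe_castPred, pow_succ]
    ring

theorem s_bb : S_BB.{u} := by
  intro Ω n c
  have key : (bd Ω n).comp (bd Ω (n + 1)) = 0 := by
    apply Finsupp.addHom_ext'
    intro τ
    apply AddMonoidHom.ext_int
    show bd Ω n (bd Ω (n + 1) (Finsupp.single τ 1)) = 0
    rw [BB_single, map_sum]
    have e1 : ∀ i : Fin (n + 2), bd Ω n (((-1 : ℤ) ^ (i : ℕ)) •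
        Finsupp.single (fun j => τ (i.succAbove j)) (1 : ℤ)) =
        ∑ j : Fin (n + 1), ((-1 : ℤ) ^ (i : ℕ) * (-1 : ℤ) ^ (j : ℕ)) •
          Finsupp.single (fun k => τ (i.succAbove (j.succAbove k))) (1 : ℤ) := by
      intro i
      rw [map_zsmul, BB_single, Finset.smul_sum]
      apply Finset.sum_congr rfl
      intro j _
      rw [smul_smul]
    rw [Finset.sum_congr rfl fun i _ => e1 i, ← Finset.sum_product', Finset.univ_product_univ]
    apply Finset.sum_involution (fun p _ => (p.1.succAbove p.2, p.2.predAbove p.1))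
    · rintro ⟨i, j⟩ _
      dsimp only
      rw [BB_sign]
      have e2 : (fun k => τ ((i.succAbove j).succAbove ((j.predAbove i).succAbove k))) =
          fun k => τ (i.succAbove (j.succAbove k)) := by
        funext k
        rw [Fin.succAbove_succAbove_succAbove_predAbove]
      rw [e2, neg_smul, add_neg_cancel]
    · rintro ⟨i, j⟩ _ _ h
      have h1 : i.succAbove j = i := congrArg Prod.fst h
      exact Fin.succAbove_ne i j h1
    · rintro ⟨i, j⟩ _
      dsimp only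
      rw [Fin.succAbove_succAbove_predAbove, Fin.predAbove_predAbove_succAbove]
    · rintro ⟨i, j⟩ _
      exact Finset.mem_univ _
  exact DFunLike.congr_fun key c

/-- A chain on a directed union is a chain on one of the members. -/
theorem BB_union {Ω : Type u} (K : ℕ → ∀ n : ℕ, Set (Fin n → Ω))
    (hK : ∀ i j, i ≤ j → ∀ n, K i n ⊆ K j n) {n : ℕ} {c : (Fin n → Ω) →₀ ℤ}
    (hc : SuppOn (⋃ i, K i n) c) : ∃ i, SuppOn (K i n) c := by
  classical
  have h1 : ∀ τ : Fin n → Ω, ∃ i, c τ ≠ 0 → τ ∈ K i n := by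
    intro τ
    by_cases h : c τ = 0
    · exact ⟨0, fun h' => absurd h h'⟩
    · obtain ⟨i, hi⟩ := Set.mem_iUnion.1 (hc τ h)
      exact ⟨i, fun _ => hi⟩
  choose f hf using h1
  refine ⟨c.support.sup f, fun τ hτ => ?_⟩
  exact hK _ _ (Finset.le_sup (Finsupp.mem_support_iff.2 hτ)) n (hf τ hτ)

theorem BB_mono {Ω : Type u} {n : ℕ} {K K' : Set (Fin n → Ω)} (h : K ⊆ K')
    {c : (Fin n → Ω) →₀ ℤ} (hc : SuppOn K c) : SuppOn K' c := fun τ hτ => h (hc τ hτ)

theorem s_union : S_UNION.{u} := by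
  intro Ω K hK hA
  constructor
  · intro c hc
    obtain ⟨i, hi⟩ := BB_union K hK (n := 0) hc
    obtain ⟨b, hb, h⟩ := (hA i).1 c hi
    exact ⟨b, BB_mono (Set.subset_iUnion (fun i => K i 1) i) hb, h⟩
  · intro n c hc h0
    obtain ⟨i, hi⟩ := BB_union K hK (n := n + 1) hc
    obtain ⟨b, hb, h⟩ := (hA i).2 n c hi h0
    exact ⟨b, BB_mono (Set.subset_iUnion (fun i => K i (n + 2)) i) hb, h⟩

end Pool.Agent.H341.MA
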