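import Pool.Agent.H341.MA.St1

/-!
# Mediangle graphs: BOX, basic consequences of Hamming coordinates (by helper603)
-/

set_option autoImplicit false

namespace Pool.Agent.H341.MA

universe u v

open SimpleGraph

theorem s_box : S_BOX.{u} := by
  intro V X η σ co hX hH
  have h1 : ∀ u v : V, (∀ h, co u h = co v h) → u = v := by
    intro u v h
    have h2 : {h | co u h ≠ co v h} = ∅ := by
      ext g
      simp [h g]
    have h3 := hH.card u v
    rw [h2, Set.ncard_empty] at h3
    exact hX.dist_eq_zero_iff.1 h3.symm
  have h2 : ∀ u v : V, Itv X u v = Box co u v := by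
    intro u v
    ext w
    have hsub : {h | co u h ≠ co v h} ⊆ {h | co u h ≠ co w h} ∪ {h | co w h ≠ co v h} := by
      intro h hh
      by_contra hcon
      simp only [Set.mem_union, Set.mem_ofPred_eq, not_or, not_not] at hcon hh
      exact hh (hcon.1.trans hcon.2)
    have hadd := Set.ncard_union_add_ncard_inter {h | co u h ≠ co w h} {h | co w h ≠ co v h}
      (hH.fin u w) (hH.fin w v)
    have hle := Set.ncard_le_ncard hsub ((hH.fin u w).union (hH.fin w v))
    rw [hH.card u w, hH.card w v] at hadd
    rw [hH.card u v] at hle
    constructor
    · intro hw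
      have hw' : X.dist u v = X.dist u w + X.dist w v := hw
      have h0 : ({h | co u h ≠ co w h} ∩ {h | co w h ≠ co v h}).ncard = 0 := by omega
      rw [Set.ncard_eq_zero ((hH.fin u w).inter_of_left _)] at h0
      intro h
      by_contra hcon
      rw [not_or] at hcon
      have h3 : h ∈ ({h | co u h ≠ co w h} ∩ {h | co w h ≠ co v h}) :=
        ⟨fun h4 => hcon.1 h4.symm, hcon.2⟩
      rw [h0] at h3
      exact h3
    · intro hw
      have hU : {h | co u h ≠ co v h} = {h | co u h ≠ co w h} ∪ {h | co w h ≠ co v h} := by
        apply Set.Subset.antisymm hsub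
        rintro h (hh | hh)
        · rcases hw h with h3 | h3
          · exact absurd h3.symm hh
          · intro h4
            exact hh (h4.trans h3.symm)
        · rcases hw h with h3 | h3
          · intro h4
            exact hh (h3.trans h4)
          · exact absurd h3 hh
      have h0 : ({h | co u h ≠ co w h} ∩ {h | co w h ≠ co v h}) = ∅ := by
        ext h
        simp only [Set.mem_inter_iff, Set.mem_ofPred_eq, Set.mem_empty_iff_false, iff_false, not_and]
        intro h3 h4
        rcases hw h with h5 | h5
        · exact h3 h5.symm
        · exact h4 h5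
      rw [h0, Set.ncard_empty, ← hU, hH.card u v] at hadd
      exact hadd
  refine ⟨h1, h2, ?_, ?_, ?_⟩
  · intro u v
    rw [← dist_eq_one_iff_adj, ← hH.card u v, Set.ncard_eq_one]
    constructor
    · rintro ⟨g, hg⟩
      refine ⟨g, ?_, fun h hh => ?_⟩
      · have : g ∈ {h | co u h ≠ co v h} := by
          rw [hg]
          rfl
        exact this
      · by_contra hcon
        have : h ∈ {h | co u h ≠ co v h} := hcon
        rw [hg] at this
        exact hh this
    · rintro ⟨g, hg, hg2⟩
      refine ⟨g, ?_⟩
      ext h
      simp only [Set.mem_ofPred_eq, Set.mem_singleton_iff]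
      constructor
      · intro h3
        by_contra h4
        exact h3 (hg2 h h4)
      · rintro rfl
        exact hg
  · intro o z u v hu hv
    rw [h2] at hu hv ⊢
    rw [h2]
    intro w hw h
    rcases hw h with h3 | h3
    · rw [h3]
      exact hu h
    · rw [h3]
      exact hv h
  · intro u v huv
    obtain ⟨p, hp⟩ := hX.exists_walk_length_eq_dist u v
    cases p with
    | nil => exact absurd rfl huv
    | @cons _ w _ hadj q =>
      rw [Walk.length_cons] at hp
      have h3 : X.dist w v ≤ q.length := dist_le q
      have h4 : X.dist u v ≤ X.dist u w + X.dist w v := hX.dist_triangle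
      have h5 : X.dist u w = 1 := dist_eq_one_iff_adj.2 hadj
      refine ⟨w, hadj, ?_, by omega⟩
      show X.dist u v = X.dist u w + X.dist w v
      omega

end Pool.Agent.H341.MA
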