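import Pool.Agent.H341.MA.St2

/-!
# Mediangle graphs: CELL0
-/

set_option autoImplicit false

namespace Pool.Agent.H341.MA

universe u v

open SimpleGraph

theorem s_cell0 (hh : S_HAM.{u}) (hb : S_BOX.{u}) (ha : S_ANT.{u}) (hs : S_SUBC.{u}) :
    S_CELL0.{u} := by
  intro V X hX o z hoz
  obtain ⟨η, σ, co, hco⟩ := hh V X hX
  obtain ⟨b, hb1, hb2, hb3⟩ := ha V X η σ co hX hco o z hoz
  obtain ⟨-, hI, -, -, -⟩ := hb V X η σ co hX.connected hco
  obtain ⟨hg, hp⟩ := hs V X η σ co hX hco b z hb3
  have hd : X.dist o z = X.dist o b + X.dist b z := hb1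
  refine ⟨Sub co b z, X.dist b z, hg, hp, fun h hbz => hbz.symm, ?_, ?_, ?_⟩
  · intro x hzx hox h hbz
    have h1 : X.dist o x = X.dist o b + X.dist b x := hb2 x hzx hox
    have h2 : X.dist x z = 1 := dist_eq_one_iff_adj.2 hzx.symm
    have h3 : x ∈ Itv X b z := by
      show X.dist b z = X.dist b x + X.dist x z
      omega
    rw [hI b z] at h3
    rcases h3 h with h4 | h4
    · exact h4
    · rw [h4, hbz]
  · intro v hv
    have h1 : {h | co o h ≠ co v h} ⊆ {h | co o h ≠ co b h} ∪ {h | co b h ≠ co z h} := by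
      intro h hh1
      by_cases hbz : co b h = co z h
      · left
        show co o h ≠ co b h
        rw [← hv h hbz]
        exact hh1
      · right
        exact hbz
    have h2 := Set.ncard_le_ncard h1 ((hco.fin o b).union (hco.fin b z))
    have h3 := Set.ncard_union_le {h | co o h ≠ co b h} {h | co b h ≠ co z h}
    rw [hco.card] at h2
    rw [hco.card, hco.card] at h3
    omega
  · intro v hv w hw
    have h1 : {h | co v h ≠ co w h} ⊆ {h | co b h ≠ co z h} := by
      intro h hh1 hbz
      exact hh1 ((hv h hbz).trans (hw h hbz).symm)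
    have h2 := Set.ncard_le_ncard h1 (hco.fin b z)
    rwa [hco.card, hco.card] at h2

end Pool.Agent.H341.MA
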