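import Pool.Agent.H341.MA.St3

/-!
# Mediangle graphs: CFIN and CINV

`s_cfin`: finitely many cells contain a given vertex (a cell containing `v` is determined by the
set of its neighbours of `v`, by STAR). `s_cinv`: graph automorphisms map cells to cells.
-/

set_option autoImplicit false

namespace Pool.Agent.H341.MA

universe u v

open SimpleGraph

/-- CFIN. -/
theorem s_cfin (hs : S_STAR.{u}) : S_CFIN.{u} := by
  intro V X hX hfin v
  have hN : {y | X.dist v y ≤ 1}.Finite := hfin v 1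
  have hP : {T : Set V | T ⊆ {y | X.dist v y ≤ 1}}.Finite := hN.finite_subsets
  refine Set.Finite.of_injOn (f := fun C : Set V => {x | x ∈ C ∧ X.Adj v x}) ?_ ?_ hP
  · intro C _ x hx
    have h1 : X.dist v x = 1 := SimpleGraph.dist_eq_one_iff_adj.mpr hx.2
    exact h1.le
  · have key : ∀ C E : Set V, Cell X C → v ∈ C → Cell X E → v ∈ E →
        {x | x ∈ C ∧ X.Adj v x} = {x | x ∈ E ∧ X.Adj v x} → C ⊆ E := by
      intro C E hC hvC hE hvE h
      refine hs V X hX C E hC.1 hC.2.1 hE.1 v hvC hvE ?_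
      intro x hx hvx
      have h1 : x ∈ {x | x ∈ C ∧ X.Adj v x} := ⟨hx, hvx⟩
      rw [h] at h1
      exact h1.1
    intro C hC E hE h
    exact Set.Subset.antisymm (key C E hC.1 hC.2 hE.1 hE.2 h)
      (key E C hE.1 hE.2 hC.1 hC.2 h.symm)

/-- graph homomorphisms do not increase distances -/
theorem cfin_dist_le {V : Type u} {X : SimpleGraph V} (hX : X.Connected) (f : V → V)
    (hf : ∀ x y, X.Adj x y → X.Adj (f x) (f y)) (x y : V) :
    X.dist (f x) (f y) ≤ X.dist x y := by
  obtain ⟨p, hp⟩ := (hX x y).exists_walk_length_eq_dist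
  let φ : X →g X := ⟨f, fun {a b} h => hf a b h⟩
  have h1 : X.dist (f x) (f y) ≤ (p.map φ).length := SimpleGraph.dist_le (p.map φ)
  rw [SimpleGraph.Walk.length_map, hp] at h1
  exact h1

/-- graph automorphisms preserve distances -/
theorem cfin_dist_eq {V : Type u} {X : SimpleGraph V} (hX : X.Connected) (f : V ≃ V)
    (hf : ∀ x y, X.Adj x y ↔ X.Adj (f x) (f y)) (x y : V) :
    X.dist (f x) (f y) = X.dist x y := by
  apply le_antisymm
  · exact cfin_dist_le hX f (fun a b h => (hf a b).mp h) x y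
  · have h1 := cfin_dist_le hX f.symm (fun a b h => (hf _ _).mpr (by
      rw [f.apply_symm_apply, f.apply_symm_apply]; exact h)) (f x) (f y)
    rw [f.symm_apply_apply, f.symm_apply_apply] at h1
    exact h1

/-- graph automorphisms map intervals into intervals -/
theorem cfin_itv {V : Type u} {X : SimpleGraph V} (hX : X.Connected) (f : V ≃ V)
    (hf : ∀ x y, X.Adj x y ↔ X.Adj (f x) (f y)) (x y z : V) :
    f z ∈ Itv X (f x) (f y) ↔ z ∈ Itv X x y := by
  unfold Itv
  rw [Set.mem_ofPred_eq, Set.mem_ofPred_eq, cfin_dist_eq hX f hf, cfin_dist_eq hX f hf,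
    cfin_dist_eq hX f hf]

/-- graph automorphisms map even convex cycles to even convex cycles -/
theorem cfin_cycle {V : Type u} {X : SimpleGraph V} (hX : X.Connected) (f : V ≃ V)
    (hf : ∀ x y, X.Adj x y ↔ X.Adj (f x) (f y)) {l : ℕ} {c : ℤ → V}
    (hc : EvenConvexCycle X l c) : EvenConvexCycle X l (fun i => f (c i)) where
  two_le := hc.two_le
  eq_iff i j := by
    rw [← hc.eq_iff i j]
    exact f.apply_eq_iff_eq
  adj i := (hf _ _).mp (hc.adj i)
  induced i j h := hc.induced i j ((hf _ _).mpr h)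
  convex i j := by
    intro z hz
    obtain ⟨z, rfl⟩ := f.surjective z
    obtain ⟨k, hk⟩ := hc.convex i j ((cfin_itv hX f hf _ _ _).mp hz)
    exact ⟨k, congrArg f hk⟩

/-- CINV. -/
theorem s_cinv : S_CINV.{u} := by
  intro V X f hX hf C hC
  obtain ⟨hg, hp, hfin⟩ := hC
  refine ⟨?_, ?_, hfin.image f⟩
  · intro x
    obtain ⟨x, rfl⟩ := f.surjective x
    obtain ⟨y, hy, hxy⟩ := hg x
    refine ⟨f y, Set.mem_image_of_mem f hy, ?_⟩
    rintro _ ⟨y', hy', rfl⟩
    rw [cfin_dist_eq hX f hf, cfin_dist_eq hX f hf, cfin_dist_eq hX f hf]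
    exact hxy y' hy'
  · rintro _ ⟨v, hv, rfl⟩ _ ⟨x, hx, rfl⟩ _ ⟨y, hy, rfl⟩ hvx hvy hxy hnxy
    obtain ⟨l, c, hc, h0, h1, h2⟩ := hp v hv x hx y hy ((hf _ _).mpr hvx) ((hf _ _).mpr hvy)
      (fun h => hxy (congrArg f h)) (fun h => hnxy ((hf _ _).mp h))
    exact ⟨l, fun i => f (c i), cfin_cycle hX f hf hc, congrArg f h0, congrArg f h1,
      congrArg f h2⟩

end Pool.Agent.H341.MA
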