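import Pool.Agent.H341.MA.St1

/-!
# Cliques of mediangle graphs (statement CLQ)
-/

set_option autoImplicit false

namespace Pool.Agent.H341.MA

universe u v

open SimpleGraph

private lemma Clq_adj {V : Type u} {X : SimpleGraph V} (hX : Mediangle X) {x y : V}
    (hxy : X.Adj x y) {a b : V} (ha : a ∈ Clq X x y) (hb : b ∈ Clq X x y) (hab : a ≠ b) :
    X.Adj a b := by
  rcases ha with rfl | rfl | ⟨hax, hay⟩
  · rcases hb with rfl | rfl | ⟨hbx, hby⟩
    · exact absurd rfl hab
    · exact hxy
    · exact hbx.symm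
  · rcases hb with rfl | rfl | ⟨hbx, hby⟩
    · exact hxy.symm
    · exact absurd rfl hab
    · exact hby.symm
  · rcases hb with rfl | rfl | ⟨hbx, hby⟩
    · exact hax
    · exact hay
    · exact hX.no_k4minus x y a b hxy hax.symm hay.symm hbx.symm hby.symm hab

private lemma Clq_eq {V : Type u} {X : SimpleGraph V} (hX : Mediangle X) {x y : V}
    (hxy : X.Adj x y) {a b : V} (ha : a ∈ Clq X x y) (hb : b ∈ Clq X x y) (hab : a ≠ b) :
    Clq X a b = Clq X x y := by
  have hadj : X.Adj a b := Clq_adj hX hxy ha hb hab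
  ext t
  constructor
  · intro ht
    rcases ht with rfl | rfl | ⟨hta, htb⟩
    · exact ha
    · exact hb
    · have key : ∀ s ∈ Clq X x y, t = s ∨ X.Adj t s := by
        intro s hs
        by_cases hsa : s = a
        · subst hsa
          exact Or.inr hta
        by_cases hsb : s = b
        · subst hsb
          exact Or.inr htb
        by_cases hts : t = s
        · exact Or.inl hts
        · exact Or.inr (hX.no_k4minus a b t s hadj hta.symm htb.symm
            (Clq_adj hX hxy ha hs (Ne.symm hsa)) (Clq_adj hX hxy hb hs (Ne.symm hsb)) hts)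
      rcases key x (Or.inl rfl) with h | h
      · exact Or.inl h
      · rcases key y (Or.inr (Or.inl rfl)) with h' | h'
        · exact Or.inr (Or.inl h')
        · exact Or.inr (Or.inr ⟨h, h'⟩)
  · intro ht
    by_cases hta : t = a
    · exact Or.inl hta
    by_cases htb : t = b
    · exact Or.inr (Or.inl htb)
    exact Or.inr (Or.inr ⟨Clq_adj hX hxy ht ha hta, Clq_adj hX hxy ht hb htb⟩)

/-- CLQ -/
theorem s_clq : S_CLQ.{u} := by
  intro V X hX x y hxy
  refine ⟨fun a ha b hb hab => ⟨Clq_adj hX hxy ha hb hab, Clq_eq hX hxy ha hb hab⟩, ?_⟩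
  intro v
  obtain ⟨g, hg, hmin⟩ := WellFounded.has_min (InvImage.wf (fun w => X.dist v w) Nat.lt_wfRel.wf)
    (Clq X x y) ⟨x, Or.inl rfl⟩
  refine ⟨g, hg, ?_⟩
  intro a ha hag
  have h1 : X.dist v g ≤ X.dist v a := not_lt.mp (hmin a ha)
  have hadj : X.Adj a g := Clq_adj hX hxy ha hg hag
  have h2 : X.dist v a ≤ X.dist v g + X.dist g a := hX.connected.dist_triangle
  have h3 : X.dist g a = 1 := SimpleGraph.dist_eq_one_iff_adj.mpr hadj.symm
  have h4 : X.dist v a ≠ X.dist v g := by
    intro h
    obtain ⟨z, hza, hzg, hz1, hz2⟩ := hX.triangle v a g h hadj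
    have hzK : z ∈ Clq X x y := by
      rw [← Clq_eq hX hxy ha hg hag]
      exact Or.inr (Or.inr ⟨hza, hzg⟩)
    have h5 : X.dist v g = X.dist v z + X.dist z g := hz2
    have h6 : X.dist z g = 1 := SimpleGraph.dist_eq_one_iff_adj.mpr hzg
    have h7 : X.dist v g ≤ X.dist v z := not_lt.mp (hmin z hzK)
    omega
  omega

end Pool.Agent.H341.MA
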