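import Pool.Agent.H341.MA.St3

/-!
# Mediangle graphs: families with a largest element are acyclic
-/

set_option autoImplicit false

namespace Pool.Agent.H341.MA

universe u v

open SimpleGraph

private noncomputable def cone_h {Ω : Type u} (p : ∀ n : ℕ, (Fin n → Ω) → Prop) (ω : Ω) (n : ℕ) :
    ((Fin n → Ω) →₀ ℤ) →+ ((Fin (n + 1) → Ω) →₀ ℤ) :=
  open Classical in
  Finsupp.liftAddHom fun τ => zmultiplesHom _
    (if p n τ then Finsupp.single (Fin.snoc (α := fun _ => Ω) τ ω) (1 : ℤ) else 0)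

private theorem cone_h_pos {Ω : Type u} {p : ∀ n : ℕ, (Fin n → Ω) → Prop} {ω : Ω} {n : ℕ}
    {τ : Fin n → Ω} (h : p n τ) : cone_h p ω n (Finsupp.single τ 1) =
      Finsupp.single (Fin.snoc (α := fun _ => Ω) τ ω) (1 : ℤ) := by
  unfold cone_h
  rw [Finsupp.liftAddHom_apply_single, zmultiplesHom_apply, one_zsmul, if_pos h]

private theorem cone_h_neg {Ω : Type u} {p : ∀ n : ℕ, (Fin n → Ω) → Prop} {ω : Ω} {n : ℕ}
    {τ : Fin n → Ω} (h : ¬ p n τ) : cone_h p ω n (Finsupp.single τ 1) = 0 := by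
  unfold cone_h
  rw [Finsupp.liftAddHom_apply_single, zmultiplesHom_apply, one_zsmul, if_neg h]

private theorem cone_bd {Ω : Type u} {n : ℕ} (τ : Fin (n + 1) → Ω) :
    bd Ω n (Finsupp.single τ 1) = ∑ i : Fin (n + 1), ((-1 : ℤ) ^ (i : ℕ)) •
      Finsupp.single (fun j => τ (i.succAbove j)) (1 : ℤ) := by
  unfold bd
  rw [Finsupp.liftAddHom_apply_single, zmultiplesHom_apply, one_zsmul]

/-- two homomorphisms which agree on the tuples of `K` agree on the chains of `K` -/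
private theorem cone_ext {Ω : Type u} {n : ℕ} {M : Type u} [AddCommGroup M]
    (F G : ((Fin n → Ω) →₀ ℤ) →+ M) (K : Set (Fin n → Ω))
    (h : ∀ τ ∈ K, F (Finsupp.single τ 1) = G (Finsupp.single τ 1)) (c : (Fin n → Ω) →₀ ℤ)
    (hc : SuppOn K c) : F c = G c := by
  have h1 : ∀ (H : ((Fin n → Ω) →₀ ℤ) →+ M), H c =
      ∑ τ ∈ c.support, c τ • H (Finsupp.single τ 1) := by
    intro H
    conv_lhs => rw [← Finsupp.sum_single c]
    unfold Finsupp.sum
    rw [map_sum]
    refine Finset.sum_congr rfl fun τ _ => ?_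
    rw [← map_zsmul]
    congr 1
    rw [Finsupp.smul_single, smul_eq_mul, mul_one]
  rw [h1 F, h1 G]
  refine Finset.sum_congr rfl fun τ hτ => ?_
  rw [h τ (hc τ (Finsupp.mem_support_iff.mp hτ))]

private theorem cone_supp {Ω : Type u} {p : ∀ n : ℕ, (Fin n → Ω) → Prop} {ω : Ω} {n : ℕ}
    {K : Set (Fin n → Ω)} {K' : Set (Fin (n + 1) → Ω)}
    (hK : ∀ τ ∈ K, p n τ → (Fin.snoc (α := fun _ => Ω) τ ω) ∈ K') (c : (Fin n → Ω) →₀ ℤ)
    (hc : SuppOn K c) : SuppOn K' (cone_h p ω n c) := by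
  classical
  intro τ' hτ'
  have h1 : cone_h p ω n c = ∑ τ ∈ c.support, c τ • cone_h p ω n (Finsupp.single τ 1) := by
    conv_lhs => rw [← Finsupp.sum_single c]
    unfold Finsupp.sum
    rw [map_sum]
    refine Finset.sum_congr rfl fun τ _ => ?_
    rw [← map_zsmul]
    congr 1
    rw [Finsupp.smul_single, smul_eq_mul, mul_one]
  rw [h1, Finsupp.finsetSum_apply] at hτ'
  obtain ⟨τ, hτ, hne⟩ := Finset.exists_ne_zero_of_sum_ne_zero hτ'
  rw [Finsupp.smul_apply] at hne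
  by_cases hp : p n τ
  · rw [cone_h_pos hp] at hne
    by_cases heq : (Fin.snoc (α := fun _ => Ω) τ ω) = τ'
    · rw [← heq]
      exact hK τ (hc τ (Finsupp.mem_support_iff.mp hτ)) hp
    · rw [Finsupp.single_eq_of_ne (Ne.symm heq), smul_zero] at hne
      exact absurd rfl hne
  · rw [cone_h_neg hp, Finsupp.coe_zero, Pi.zero_apply, smul_zero] at hne
    exact absurd rfl hne

private theorem cone_snoc_castSucc {Ω : Type u} {n : ℕ} (τ : Fin (n + 1) → Ω) (ω : Ω)
    (i : Fin (n + 1)) : (fun j => Fin.snoc (α := fun _ => Ω) τ ω (i.castSucc.succAbove j)) =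
      Fin.snoc (α := fun _ => Ω) (fun j => τ (i.succAbove j)) ω := by
  funext j
  refine Fin.lastCases ?_ (fun j => ?_) j
  · rw [Fin.succAbove_castSucc_of_le i (Fin.last n) (Fin.le_last i), Fin.succ_last, Fin.snoc_last,
      Fin.snoc_last]
  · rw [Fin.castSucc_succAbove_castSucc, Fin.snoc_castSucc, Fin.snoc_castSucc]

private theorem cone_snoc_last {Ω : Type u} {n : ℕ} (τ : Fin n → Ω) (ω : Ω) :
    (fun j => Fin.snoc (α := fun _ => Ω) τ ω ((Fin.last n).succAbove j)) = τ := by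
  funext j
  rw [Fin.succAbove_last, Fin.snoc_castSucc]

/-- the homotopy formula, first case -/
private theorem cone_formula {Ω : Type u} {p : ∀ n : ℕ, (Fin n → Ω) → Prop} {ω : Ω} {n : ℕ}
    {τ : Fin (n + 1) → Ω} (h : p (n + 1) τ) (hf : ∀ i : Fin (n + 1), p n (fun j => τ (i.succAbove j))) :
    bd Ω (n + 1) (cone_h p ω (n + 1) (Finsupp.single τ 1)) =
      cone_h p ω n (bd Ω n (Finsupp.single τ 1)) + (-1 : ℤ) ^ (n + 1) • Finsupp.single τ 1 := by
  rw [cone_h_pos h, cone_bd, cone_bd, Fin.sum_univ_castSucc, map_sum, cone_snoc_last]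
  congr 1
  refine Finset.sum_congr rfl fun i _ => ?_
  rw [cone_snoc_castSucc, map_zsmul, cone_h_pos (hf i), Fin.val_castSucc]

private theorem cone_formula0 {Ω : Type u} {p : ∀ n : ℕ, (Fin n → Ω) → Prop} {ω : Ω}
    {τ : Fin 0 → Ω} (h : p 0 τ) : bd Ω 0 (cone_h p ω 0 (Finsupp.single τ 1)) = Finsupp.single τ 1 := by
  rw [cone_h_pos h, cone_bd, Fin.sum_univ_castSucc, cone_snoc_last, Fin.val_last, pow_zero,
    one_smul, Finset.univ_eq_empty, Finset.sum_empty, zero_add]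

/-- the homotopy formula, second case -/
private theorem cone_formula2 {Ω : Type u} {p : ∀ n : ℕ, (Fin n → Ω) → Prop} {ω : Ω} {n : ℕ}
    {τ : Fin (n + 1) → Ω} (h : ¬ p (n + 1) τ) (hω : τ (Fin.last n) = ω)
    (hf : ∀ i : Fin n, ¬ p n (fun j => τ (i.castSucc.succAbove j)))
    (hl : p n (fun j => τ j.castSucc)) :
    bd Ω (n + 1) (cone_h p ω (n + 1) (Finsupp.single τ 1)) =
      cone_h p ω n (bd Ω n (Finsupp.single τ 1)) + (-1 : ℤ) ^ (n + 1) • Finsupp.single τ 1 := by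
  have hs : Fin.snoc (α := fun _ => Ω) (fun j => τ j.castSucc) ω = τ := by
    funext j
    refine Fin.lastCases ?_ (fun j => ?_) j
    · rw [Fin.snoc_last, hω]
    · rw [Fin.snoc_castSucc]
  have h0 : ∑ i : Fin n, cone_h p ω n (((-1 : ℤ) ^ (i.castSucc : ℕ)) •
      Finsupp.single (fun j => τ (i.castSucc.succAbove j)) (1 : ℤ)) = 0 := by
    refine Finset.sum_eq_zero fun i _ => ?_
    rw [map_zsmul, cone_h_neg (hf i), smul_zero]
  rw [cone_h_neg h, map_zero, cone_bd, map_sum, Fin.sum_univ_castSucc, h0, zero_add, Fin.val_last,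
    Fin.succAbove_last, map_zsmul, cone_h_pos hl, hs, pow_succ, mul_smul, ← smul_add]
  rw [neg_smul, one_smul, add_neg_cancel, smul_zero]

/-- acyclicity from the homotopy formula -/
private theorem cone_acyclic {Ω : Type u} (K : ∀ n : ℕ, Set (Fin n → Ω))
    (p : ∀ n : ℕ, (Fin n → Ω) → Prop) (ω : Ω)
    (hK : ∀ n, ∀ τ ∈ K n, p n τ → (Fin.snoc (α := fun _ => Ω) τ ω) ∈ K (n + 1))
    (h0 : ∀ τ ∈ K 0, p 0 τ)
    (h1 : ∀ n, ∀ τ ∈ K (n + 1), bd Ω (n + 1) (cone_h p ω (n + 1) (Finsupp.single τ 1)) =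
      cone_h p ω n (bd Ω n (Finsupp.single τ 1)) + (-1 : ℤ) ^ (n + 1) • Finsupp.single τ 1) :
    Acyclic K := by
  refine ⟨fun c hc => ⟨cone_h p ω 0 c, cone_supp (hK 0) c hc, ?_⟩, fun n c hc hbc => ?_⟩
  · exact cone_ext ((bd Ω 0).comp (cone_h p ω 0)) (AddMonoidHom.id _) (K 0)
      (fun τ hτ => cone_formula0 (h0 τ hτ)) c hc
  · have h2 : bd Ω (n + 1) (cone_h p ω (n + 1) c) =
        cone_h p ω n (bd Ω n c) + (-1 : ℤ) ^ (n + 1) • c :=
      cone_ext ((bd Ω (n + 1)).comp (cone_h p ω (n + 1)))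
        ((cone_h p ω n).comp (bd Ω n) + (-1 : ℤ) ^ (n + 1) • AddMonoidHom.id _) (K (n + 1))
        (fun τ hτ => h1 n τ hτ) c hc
    rw [hbc, map_zero, zero_add] at h2
    refine ⟨(-1 : ℤ) ^ (n + 1) • cone_h p ω (n + 1) c, ?_, ?_⟩
    · intro τ hτ
      refine cone_supp (hK (n + 1)) c hc τ fun h3 => hτ ?_
      rw [Finsupp.smul_apply, h3, smul_zero]
    · rw [map_zsmul, h2, smul_smul, ← mul_pow]
      norm_num

private theorem cone_tup {V Ω : Type u} {π : Ω → Set V} {ρ : Ω → Ω → Prop} {Q : Set (Set V)}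
    {ω : Ω} (hω : π ω ∈ Q) {n : ℕ} {τ : Fin n → Ω} (hτ : τ ∈ Tup π ρ Q n)
    (h : ∀ i, ρ (τ i) ω) : (Fin.snoc (α := fun _ => Ω) τ ω) ∈ Tup π ρ Q (n + 1) := by
  refine ⟨fun i => ?_, fun i j hij => ?_⟩
  · refine Fin.lastCases ?_ (fun i => ?_) i
    · rw [Fin.snoc_last]
      exact hω
    · rw [Fin.snoc_castSucc]
      exact hτ.1 i
  · revert hij
    refine Fin.lastCases ?_ (fun j => ?_) j
    · refine Fin.lastCases ?_ (fun i => ?_) i
      · intro hij
        exact absurd hij (lt_irrefl _)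
      · intro _
        rw [Fin.snoc_last, Fin.snoc_castSucc]
        exact h i
    · refine Fin.lastCases ?_ (fun i => ?_) i
      · intro hij
        exact absurd hij (not_lt_of_ge (Fin.le_last _))
      · intro hij
        rw [Fin.snoc_castSucc, Fin.snoc_castSucc]
        exact hτ.2 i j (Fin.castSucc_lt_castSucc_iff.mp hij)

theorem s_conew : S_CONEW.{u} := by
  rintro V Ω π Q M hM ⟨ω, rfl⟩ hmax
  exact cone_acyclic (Tup π (fun a b => π a ⊆ π b) Q) (fun _ _ => True) ω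
    (fun n τ hτ _ => cone_tup hM hτ fun i => hmax _ (hτ.1 i)) (fun _ _ => trivial)
    (fun n τ _ => cone_formula trivial fun _ => trivial)

theorem s_cones : S_CONES.{u} := by
  rintro V Ω π hπ Q M hM ⟨ω, rfl⟩ hmax
  refine cone_acyclic (Tup π (fun a b => π a ⊂ π b) Q) (fun n τ => ∀ j, τ j ≠ ω) ω
    (fun n τ hτ hp => cone_tup hM hτ fun i => ?_) (fun τ _ j => j.elim0) (fun n τ hτ => ?_)
  · exact (hmax _ (hτ.1 i)).ssubset_of_ne fun h => hp i (hπ h)
  · by_cases hp : ∀ j, τ j ≠ ω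
    · exact cone_formula (p := fun n (τ : Fin n → Ω) => ∀ j, τ j ≠ ω) hp fun i j => hp _
    · have hp' := hp
      push Not at hp'
      obtain ⟨j, hj⟩ := hp'
      have hjl : j = Fin.last n := by
        by_contra hne
        have h1 : j < Fin.last n := lt_of_le_of_ne (Fin.le_last j) hne
        have h2 : π (τ j) ⊂ π (τ (Fin.last n)) := hτ.2 j _ h1
        have h3 := hmax _ (hτ.1 (Fin.last n))
        rw [hj] at h2
        exact h2.2 h3
      rw [hjl] at hj
      refine cone_formula2 (p := fun n (τ : Fin n → Ω) => ∀ j, τ j ≠ ω) hp hj (fun i h => ?_)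
        (fun j h => ?_)
      · have hne : Fin.last n ≠ i.castSucc := (Fin.castSucc_ne_last i).symm
        obtain ⟨k, hk⟩ := Fin.exists_succAbove_eq hne
        apply h k
        show τ (i.castSucc.succAbove k) = ω
        rw [hk, hj]
      · have h2 : π (τ j.castSucc) ⊂ π (τ (Fin.last n)) := hτ.2 _ _ (Fin.castSucc_lt_last j)
        have h' : τ j.castSucc = ω := h
        rw [h', hj] at h2
        exact h2.2 (subset_refl _)

end Pool.Agent.H341.MA
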