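import Pool.Agent.H341.MA.St2

/-!
# The system of cells of a mediangle graph (statement CSYS)
-/

set_option autoImplicit false

namespace Pool.Agent.H341.MA

universe u v

open SimpleGraph

private lemma csys_lower {V : Type u} {X : SimpleGraph V} (hX : X.Connected) {o z : V}
    (hoz : o ≠ z) : ∃ x, X.Adj z x ∧ X.dist o x + 1 = X.dist o z := by
  obtain ⟨p, hp⟩ := hX.exists_walk_length_eq_dist z o
  cases p with
  | nil => exact absurd rfl hoz
  | cons h q =>
    rename_i x
    refine ⟨x, h, ?_⟩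
    rw [SimpleGraph.Walk.length_cons] at hp
    have h1 : X.dist x o ≤ q.length := SimpleGraph.dist_le q
    have h2 : X.dist o z ≤ X.dist o x + X.dist x z := hX.dist_triangle
    have h3 : X.dist x z = 1 := SimpleGraph.dist_eq_one_iff_adj.mpr h.symm
    have h4 : X.dist x o = X.dist o x := SimpleGraph.dist_comm
    have h5 : X.dist z o = X.dist o z := SimpleGraph.dist_comm
    omega

/-- a neighbour `x` of `z` with `d(o,x) ≤ d(o,z)` is in each gated set which contains `z` and all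
lower neighbours of `z` -/
private lemma csys_nb {V : Type u} {X : SimpleGraph V} (hX : Mediangle X) (hg : S_GP.{u})
    {o z : V} {E : Set V} (hE : Gated X E) (hz : z ∈ E)
    (hlow : ∀ x, X.Adj z x → X.dist o x + 1 = X.dist o z → x ∈ E) (x : V) (hzx : X.Adj z x)
    (hle : X.dist o x ≤ X.dist o z) : x ∈ E := by
  have h2 : X.dist o z ≤ X.dist o x + X.dist x z := hX.connected.dist_triangle
  have h3 : X.dist x z = 1 := SimpleGraph.dist_eq_one_iff_adj.mpr hzx.symm
  by_cases h : X.dist o x + 1 = X.dist o z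
  · exact hlow x hzx h
  · have heq : X.dist o z = X.dist o x := by omega
    obtain ⟨w, hwz, hwx, hw1, _⟩ := hX.triangle o z x heq hzx
    have h5 : X.dist o z = X.dist o w + X.dist w z := hw1
    have h6 : X.dist w z = 1 := SimpleGraph.dist_eq_one_iff_adj.mpr hwz
    have hw : w ∈ E := hlow w hwz.symm (by omega)
    exact (hg V X hX.connected E hE).2.1 z hz w hw x hwz.symm hzx.symm hwx.symm

/-- CSYS -/
theorem s_csys (hg : S_GP.{u}) (hc : S_CELL0.{u}) (hs : S_STAR.{u}) : S_CSYS.{u} := by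
  intro V X hX hfin
  classical
  have hch : ∀ o z : V, ∃ R : Set V, o ≠ z → ∃ n : ℕ, Gated X R ∧ Polg X R ∧ z ∈ R ∧
      (∀ x, X.Adj z x → X.dist o x + 1 = X.dist o z → x ∈ R) ∧
      (∀ v ∈ R, X.dist o v ≤ X.dist o z) ∧ (∀ v ∈ R, ∀ w ∈ R, X.dist v w ≤ n) := by
    intro o z
    by_cases h : o = z
    · exact ⟨∅, fun h' => absurd h h'⟩
    · obtain ⟨R, n, hR⟩ := hc V X hX o z h
      exact ⟨R, fun _ => ⟨n, hR⟩⟩
  choose R hR using hch
  refine ⟨R, ?_, ?_, ?_, ?_, ?_, ?_⟩
  · intro o z hoz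
    obtain ⟨n, h1, h2, h3, h4, h5, h6⟩ := hR o z hoz
    exact ⟨h1, h2, (hfin z n).subset fun y hy => h6 z h3 y hy⟩
  · intro o z hoz
    obtain ⟨n, h1, h2, h3, h4, h5, h6⟩ := hR o z hoz
    exact h3
  · intro o z hoz
    obtain ⟨n, h1, h2, h3, h4, h5, h6⟩ := hR o z hoz
    obtain ⟨x, hzx, hx⟩ := csys_lower hX.connected hoz
    exact ⟨x, h4 x hzx hx, by omega⟩
  · intro o z hoz
    obtain ⟨n, h1, h2, h3, h4, h5, h6⟩ := hR o z hoz
    exact h5
  · intro o z hoz C hC hz hle
    obtain ⟨n, h1, h2, h3, h4, h5, h6⟩ := hR o z hoz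
    exact hs V X hX C (R o z) hC.1 hC.2.1 h1 z hz h3
      fun x hx hzx => csys_nb hX hg h1 h3 h4 x hzx (hle x hx)
  · intro o z hoz E hE ho hz
    obtain ⟨n, h1, h2, h3, h4, h5, h6⟩ := hR o z hoz
    refine hs V X hX (R o z) E h1 h2 hE z h3 hz
      fun x hx hzx => csys_nb (o := o) hX hg hE hz ?_ x hzx (h5 x hx)
    intro x' hzx' hx'
    refine (hg V X hX.connected E hE).1 o ho z hz ?_
    have h7 : X.dist x' z = 1 := SimpleGraph.dist_eq_one_iff_adj.mpr hzx'.symm
    change X.dist o z = X.dist o x' + X.dist x' z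
    omega

end Pool.Agent.H341.MA
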