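import Mathlib

/-!
# Mediangle graphs and finiteness properties: definitions

Everything is stated for a simple graph `X` on a type `V`, `X.dist` is the path metric.
-/

set_option autoImplicit false

namespace Pool.Agent.H341.MA

universe u v

/-- The interval `I(x,y)` of the graph `X`: all vertices `z` with `d(x,y) = d(x,z) + d(z,y)`. -/
def Itv {V : Type u} (X : SimpleGraph V) (x y : V) : Set V :=
  {z | X.dist x y = X.dist x z + X.dist z y}

/-- `c` (indexed by the integers, periodic with exact period `2 * l`) runs once around a cycle of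
even length `2 * l ≥ 4` of `X` which is a convex subgraph: consecutive vertices are adjacent, there
are no other adjacencies between vertices of the cycle, and with two vertices the cycle contains
the whole interval between them. -/
structure EvenConvexCycle {V : Type u} (X : SimpleGraph V) (l : ℕ) (c : ℤ → V) : Prop where
  two_le : 2 ≤ l
  eq_iff : ∀ i j : ℤ, c i = c j ↔ (2 * (l : ℤ)) ∣ (i - j)
  adj : ∀ i : ℤ, X.Adj (c i) (c (i + 1))
  induced : ∀ i j : ℤ, X.Adj (c i) (c j) → (2 * (l : ℤ)) ∣ (j - i - 1) ∨ (2 * (l : ℤ)) ∣ (i - j - 1)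
  convex : ∀ i j : ℤ, Itv X (c i) (c j) ⊆ Set.range c

/-- Mediangle graphs. -/
structure Mediangle {V : Type u} (X : SimpleGraph V) : Prop where
  /-- the graph is connected (and nonempty) -/
  connected : X.Connected
  /-- triangle condition -/
  triangle : ∀ o x y : V, X.dist o x = X.dist o y → X.Adj x y →
    ∃ z, X.Adj z x ∧ X.Adj z y ∧ z ∈ Itv X o x ∧ z ∈ Itv X o y
  /-- no induced `K_4^-`: two distinct common neighbours `z, w` of adjacent vertices `x, y` are
  adjacent -/
  no_k4minus : ∀ x y z w : V, X.Adj x y → X.Adj x z → X.Adj y z → X.Adj x w → X.Adj y w →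
    z ≠ w → X.Adj z w
  /-- cycle condition -/
  cycle : ∀ o x y z : V, x ≠ y → X.Adj z x → X.Adj z y → X.dist o x + 1 = X.dist o z →
    X.dist o y + 1 = X.dist o z →
    ∃ (l : ℕ) (c : ℤ → V), EvenConvexCycle X l c ∧ c 0 = z ∧ c 1 = x ∧ c (-1) = y ∧
      c l ∈ Itv X o x ∧ c l ∈ Itv X o y
  /-- two even convex cycles which have two different edges in common are the same cycle -/
  share : ∀ (l l' : ℕ) (c c' : ℤ → V), EvenConvexCycle X l c → EvenConvexCycle X l' c' →
    ∀ i j i' j' : ℤ, s(c i, c (i + 1)) = s(c' i', c' (i' + 1)) →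
      s(c j, c (j + 1)) = s(c' j', c' (j' + 1)) → s(c i, c (i + 1)) ≠ s(c j, c (j + 1)) →
      Set.range c = Set.range c'

/-- `G` acts geometrically on the graph `X`: by graph automorphisms, with finitely many orbits of
vertices, and for every vertex `x` and every `r` only finitely many `g` satisfy `d(x, g x) ≤ r`. -/
structure GeometricAction {V : Type u} (X : SimpleGraph V) (G : Type v) [Group G] [MulAction G V] :
    Prop where
  adj_smul : ∀ (g : G) (x y : V), X.Adj x y → X.Adj (g • x) (g • y)
  cocompact : ∃ S : Set V, S.Finite ∧ ∀ x : V, ∃ g : G, ∃ s ∈ S, g • s = x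
  proper : ∀ (x : V) (r : ℕ), {g : G | X.dist x (g • x) ≤ r}.Finite

/-- A resolution of the trivial module `ℤ` by the finitely generated free modules
`ℤ[G]^(k 0), ℤ[G]^(k 1), ...`. -/
def FreeResolution (G : Type v) [Group G] (k : ℕ → ℕ) : Prop :=
  ∃ (d : ∀ i : ℕ, (Fin (k (i + 1)) → MonoidAlgebra ℤ G) →ₗ[MonoidAlgebra ℤ G]
      (Fin (k i) → MonoidAlgebra ℤ G))
    (ε : (Fin (k 0) → MonoidAlgebra ℤ G) →+ ℤ),
    (∀ (g : G) (x : Fin (k 0) → MonoidAlgebra ℤ G), ε (MonoidAlgebra.of ℤ G g • x) = ε x) ∧
    Function.Surjective ε ∧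
    (∀ x, ε x = 0 ↔ x ∈ LinearMap.range (d 0)) ∧
    (∀ i, LinearMap.range (d (i + 1)) = LinearMap.ker (d i))

/-- `G` is of type `F_∞`: it is finitely presented and `ℤ` has a resolution by finitely generated
free `ℤ[G]`-modules. -/
def TypeFInfty (G : Type v) [Group G] : Prop :=
  Group.IsFinitelyPresented G ∧ ∃ k : ℕ → ℕ, FreeResolution G k

/-- `G` is of type `F`: it is finitely presented and `ℤ` has a resolution of finite length by
finitely generated free `ℤ[G]`-modules. -/
def TypeF (G : Type v) [Group G] : Prop :=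
  Group.IsFinitelyPresented G ∧ ∃ k : ℕ → ℕ, FreeResolution G k ∧ ∃ N : ℕ, ∀ n ≥ N, k n = 0

end Pool.Agent.H341.MA
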