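import Pool.Agent.H341.MA.St1

/-!
# Mediangle graphs: basic facts on even convex cycles
-/

set_option autoImplicit false

namespace Pool.Agent.H341.MA

universe u v

open SimpleGraph

private theorem e_geod {V : Type u} {X : SimpleGraph V} (hX : X.Connected) {x y : V} {n : ℕ}
    (h : X.dist x y = n + 1) : ∃ w, X.Adj w y ∧ X.dist x w = n := by
  rw [SimpleGraph.dist_comm] at h
  obtain ⟨p, hp⟩ := hX.exists_walk_length_eq_dist y x
  cases p with
  | nil =>
    rw [Walk.length_nil] at hp
    omega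
  | @cons _ w _ hadj q =>
    rw [Walk.length_cons] at hp
    refine ⟨w, hadj.symm, ?_⟩
    have h1 : X.dist w x ≤ q.length := SimpleGraph.dist_le q
    have h2 : X.dist y x ≤ X.dist y w + X.dist w x := hX.dist_triangle
    have h3 : X.dist y w = 1 := SimpleGraph.dist_eq_one_iff_adj.mpr hadj
    rw [SimpleGraph.dist_comm]
    omega

private theorem e_upper {V : Type u} {X : SimpleGraph V} (hX : X.Connected) {l : ℕ} {c : ℤ → V}
    (h : EvenConvexCycle X l c) (i : ℤ) (k : ℕ) : X.dist (c i) (c (i + k)) ≤ k := by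
  induction k with
  | zero => simp
  | succ k ih =>
    have h1 : X.dist (c i) (c (i + (k + 1 : ℕ))) ≤
        X.dist (c i) (c (i + k)) + X.dist (c (i + k)) (c (i + (k + 1 : ℕ))) := hX.dist_triangle
    have h2 : X.dist (c (i + k)) (c (i + (k + 1 : ℕ))) = 1 := by
      apply SimpleGraph.dist_eq_one_iff_adj.mpr
      have h3 := h.adj (i + k)
      have h4 : i + ((k + 1 : ℕ) : ℤ) = i + k + 1 := by
        push_cast
        ring
      rw [h4]
      exact h3
    omega

private theorem e_lower {V : Type u} {X : SimpleGraph V} (hX : X.Connected) {l : ℕ} {c : ℤ → V}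
    (h : EvenConvexCycle X l c) (i : ℤ) (n : ℕ) : ∀ j : ℤ, X.dist (c i) (c j) = n →
      ∃ a : ℤ, c a = c j ∧ |a - i| ≤ n := by
  induction n with
  | zero =>
    intro j hj
    have h1 : c i = c j := (hX.dist_eq_zero_iff).mp hj
    exact ⟨i, h1, by simp⟩
  | succ n ih =>
    intro j hj
    obtain ⟨w, hadj, hw⟩ := e_geod hX hj
    have h1 : X.dist w (c j) = 1 := SimpleGraph.dist_eq_one_iff_adj.mpr hadj
    have hmem : w ∈ Itv X (c i) (c j) := by
      show X.dist (c i) (c j) = X.dist (c i) w + X.dist w (c j)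
      omega
    obtain ⟨b, hb⟩ := h.convex i j hmem
    obtain ⟨a, ha, hai⟩ := ih b (by rw [hb]; exact hw)
    have hadj2 : X.Adj (c a) (c j) := by
      rw [ha, hb]
      exact hadj
    rcases h.induced a j hadj2 with h2 | h2
    · refine ⟨a + 1, ?_, ?_⟩
      · apply Eq.symm
        rw [h.eq_iff]
        have h3 : j - (a + 1) = j - a - 1 := by ring
        rw [h3]
        exact h2
      · push_cast
        rw [abs_le] at hai ⊢
        constructor <;> linarith [hai.1, hai.2]
    · refine ⟨a - 1, ?_, ?_⟩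
      · rw [h.eq_iff]
        have h3 : a - 1 - j = a - j - 1 := by ring
        rw [h3]
        exact h2
      · push_cast
        rw [abs_le] at hai ⊢
        constructor <;> linarith [hai.1, hai.2]

theorem s_e1 : S_E1.{u} := by
  intro V X hX l c h i k hk
  have hup := e_upper hX h i k
  obtain ⟨a, ha, hai⟩ := e_lower hX h i (X.dist (c i) (c (i + k))) (i + k) rfl
  by_contra hne
  have hlt : X.dist (c i) (c (i + k)) < k := lt_of_le_of_ne hup hne
  have h1 : (2 * (l : ℤ)) ∣ (i + k - a) := (h.eq_iff _ _).mp ha.symm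
  rw [abs_le] at hai
  have hlt' : (X.dist (c i) (c (i + k)) : ℤ) < k := by exact_mod_cast hlt
  have hk' : (k : ℤ) ≤ l := by exact_mod_cast hk
  have h2 := Int.le_of_dvd (by linarith [hai.2]) h1
  linarith [hai.1]

theorem s_e2 : S_E2.{u} := by
  intro V X hX l c h i
  have hE1 := s_e1 V X hX l c h
  apply Set.Subset.antisymm (h.convex i (i + l))
  rintro _ ⟨j, rfl⟩
  have hl := h.two_le
  have hpos : (0 : ℤ) < 2 * (l : ℤ) := by
    have : (2 : ℤ) ≤ l := by exact_mod_cast hl
    linarith
  have hm0 := Int.emod_nonneg (j - i) hpos.ne'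
  have hm1 := Int.emod_lt_of_pos (j - i) hpos
  have hdiv := Int.emod_add_mul_ediv (j - i) (2 * (l : ℤ))
  obtain ⟨k, hk⟩ := Int.eq_ofNat_of_zero_le hm0
  have hcj : c j = c (i + k) := by
    rw [h.eq_iff]
    refine ⟨(j - i) / (2 * (l : ℤ)), ?_⟩
    rw [hk] at hdiv
    linarith
  have hopp : X.dist (c i) (c (i + l)) = l := hE1 i l le_rfl
  show X.dist (c i) (c (i + l)) = X.dist (c i) (c j) + X.dist (c j) (c (i + l))
  rw [hcj, hopp]
  by_cases hkl : k ≤ l
  · have h1 := hE1 i k hkl
    have h2 := hE1 (i + k) (l - k) (Nat.sub_le _ _)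
    have h3 : i + (k : ℤ) + ((l - k : ℕ) : ℤ) = i + l := by
      rw [Nat.cast_sub hkl]
      ring
    rw [h3] at h2
    omega
  · rw [not_le] at hkl
    have hk2 : k < 2 * l := by
      have : (k : ℤ) < 2 * (l : ℤ) := by
        rw [← hk]
        exact hm1
      exact_mod_cast this
    obtain ⟨k', hk'⟩ : ∃ k', k + k' = 2 * l := ⟨2 * l - k, by omega⟩
    have hk'c : (k : ℤ) + k' = 2 * l := by exact_mod_cast hk'
    have hc1 : c (i + k) = c (i - k') := by
      rw [h.eq_iff]
      refine ⟨1, ?_⟩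
      linarith
    have hc2 : c (i + l) = c (i - l) := by
      rw [h.eq_iff]
      refine ⟨1, ?_⟩
      ring
    have h1 := hE1 (i - k') k' (by omega)
    have h2 := hE1 (i - l) (l - k') (Nat.sub_le _ _)
    have h3 : i - (l : ℤ) + ((l - k' : ℕ) : ℤ) = i - k' := by
      rw [Nat.cast_sub (by omega)]
      ring
    have h4 : i - (k' : ℤ) + k' = i := by ring
    rw [h3] at h2
    rw [h4] at h1
    rw [hc1, hc2, SimpleGraph.dist_comm (u := c i), SimpleGraph.dist_comm (u := c (i - k')) (v := c (i - l)), h1, h2]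
    omega

theorem s_e3 : S_E3.{u} := by
  intro V X l c h a
  have hr1 : Set.range (fun i => c (i + a)) = Set.range c := by
    apply Set.Subset.antisymm
    · rintro _ ⟨i, rfl⟩
      exact ⟨i + a, rfl⟩
    · rintro _ ⟨i, rfl⟩
      exact ⟨i - a, by simp⟩
  have hr2 : Set.range (fun i => c (a - i)) = Set.range c := by
    apply Set.Subset.antisymm
    · rintro _ ⟨i, rfl⟩
      exact ⟨a - i, rfl⟩
    · rintro _ ⟨i, rfl⟩
      exact ⟨a - i, by simp⟩
  refine ⟨⟨h.two_le, fun i j => ?_, fun i => ?_, fun i j hij => ?_, fun i j => ?_⟩,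
    ⟨h.two_le, fun i j => ?_, fun i => ?_, fun i j hij => ?_, fun i j => ?_⟩⟩
  · show c (i + a) = c (j + a) ↔ _
    rw [h.eq_iff]
    have h1 : i + a - (j + a) = i - j := by ring
    rw [h1]
  · show X.Adj (c (i + a)) (c (i + 1 + a))
    have h1 : i + 1 + a = i + a + 1 := by ring
    rw [h1]
    exact h.adj _
  · have h1 := h.induced (i + a) (j + a) hij
    have h2 : j + a - (i + a) - 1 = j - i - 1 := by ring
    have h3 : i + a - (j + a) - 1 = i - j - 1 := by ring
    rw [h2, h3] at h1
    exact h1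
  · rw [hr1]
    exact h.convex _ _
  · show c (a - i) = c (a - j) ↔ _
    rw [h.eq_iff, ← dvd_neg]
    have h1 : -(a - i - (a - j)) = i - j := by ring
    rw [h1]
  · show X.Adj (c (a - i)) (c (a - (i + 1)))
    have h1 := h.adj (a - (i + 1))
    have h2 : a - (i + 1) + 1 = a - i := by ring
    rw [h2] at h1
    exact h1.symm
  · have h1 := h.induced (a - i) (a - j) hij
    have h2 : a - j - (a - i) - 1 = i - j - 1 := by ring
    have h3 : a - i - (a - j) - 1 = j - i - 1 := by ring
    rw [h2, h3] at h1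
    exact h1.symm
  · rw [hr2]
    exact h.convex _ _

end Pool.Agent.H341.MA
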