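import Pool.Agent.H341.MA.St1

set_option autoImplicit false

namespace Pool.Agent.H341.MA

universe u v

open SimpleGraph

/-- one direction: two cycles with the same start run in parallel -/
theorem E4_fwd {V : Type u} {X : SimpleGraph V} {l l' : ℕ} {c c' : ℤ → V}
    (hc : EvenConvexCycle X l c) (hc' : EvenConvexCycle X l' c') (hr : Set.range c' ⊆ Set.range c)
    (h0 : c 0 = c' 0) (h1 : c 1 = c' 1) (k : ℕ) :
    c' (k : ℤ) = c (k : ℤ) ∧ c' ((k : ℤ) + 1) = c ((k : ℤ) + 1) := by
  induction k with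
  | zero =>
    refine ⟨?_, ?_⟩
    · simpa using h0.symm
    · simpa using h1.symm
  | succ k ih =>
    obtain ⟨ih0, ih1⟩ := ih
    refine ⟨?_, ?_⟩
    · rw [Nat.cast_succ]
      exact ih1
    · rw [Nat.cast_succ]
      obtain ⟨j, hj⟩ := hr ⟨(k : ℤ) + 1 + 1, rfl⟩
      have hadj := hc'.adj ((k : ℤ) + 1)
      rw [ih1, ← hj] at hadj
      rcases hc.induced _ _ hadj with h | h
      · rw [← hj, hc.eq_iff]
        have e : j - ((k : ℤ) + 1 + 1) = j - ((k : ℤ) + 1) - 1 := by ring
        rw [e]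
        exact h
      · exfalso
        have h2 : c ((k : ℤ)) = c j := by
          rw [hc.eq_iff]
          have e : (k : ℤ) - j = (k : ℤ) + 1 - j - 1 := by ring
          rw [e]
          exact h
        rw [hj, ← ih0, hc'.eq_iff] at h2
        have e : (k : ℤ) - ((k : ℤ) + 1 + 1) = -2 := by ring
        rw [e, Int.dvd_neg] at h2
        have h3 := Int.le_of_dvd (by norm_num) h2
        have h4 := hc'.two_le
        omega

/-- the periods of equal cycles agree -/
theorem E4_dvd {V : Type u} {X : SimpleGraph V} {l l' : ℕ} {c : ℤ → V}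
    (hc : EvenConvexCycle X l c) (hc' : EvenConvexCycle X l' c) : l ∣ l' := by
  have h1 : c (2 * (l' : ℤ)) = c 0 := by
    rw [hc'.eq_iff, sub_zero]
  rw [hc.eq_iff, sub_zero] at h1
  have h2 : (l : ℤ) ∣ (l' : ℤ) := Int.dvd_of_mul_dvd_mul_left (by norm_num) h1
  exact_mod_cast h2

theorem s_e4 (h3 : S_E3.{u}) : S_E4.{u} := by
  intro V X hM l l' c c' hc hc' h0 h1 hm
  have hl := hc.two_le
  have hne : s(c (-1), c (-1 + 1)) ≠ s(c 0, c (0 + 1)) := by
    intro h
    have e1 : (-1 : ℤ) + 1 = 0 := by norm_num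
    have e2 : (0 : ℤ) + 1 = 1 := by norm_num
    rw [e1, e2, Sym2.eq_iff] at h
    have h5 : c (-1) = c 1 := by
      rcases h with ⟨h, h'⟩ | ⟨h, _⟩
      · rw [h, h']
      · exact h
    rw [hc.eq_iff] at h5
    have e : (-1 : ℤ) - 1 = -2 := by norm_num
    rw [e, Int.dvd_neg] at h5
    have h6 := Int.le_of_dvd (by norm_num) h5
    omega
  have hr : Set.range c = Set.range c' := by
    refine hM.share l l' c c' hc hc' (-1) 0 (-1) 0 ?_ ?_ hne
    · have e1 : (-1 : ℤ) + 1 = 0 := by norm_num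
      rw [e1, hm, h0]
    · have e2 : (0 : ℤ) + 1 = 1 := by norm_num
      rw [e2, h0, h1]
  have hpos := fun k : ℕ => (E4_fwd hc hc' hr.ge h0 h1 k).1
  have hrefl : ∀ f : ℤ → V, Set.range (fun i => f (0 - i)) = Set.range f := by
    intro f
    ext x
    constructor
    · rintro ⟨i, rfl⟩
      exact ⟨0 - i, rfl⟩
    · rintro ⟨i, rfl⟩
      exact ⟨0 - i, by simp⟩
  have hneg := fun k : ℕ => (E4_fwd ((h3 V X l c hc 0).2) ((h3 V X l' c' hc' 0).2)
    (by rw [hrefl, hrefl]; exact hr.ge) (by simpa using h0) (by simpa using hm) k).1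
  have hcc : c = c' := by
    funext i
    rcases le_total 0 i with hi | hi
    · obtain ⟨k, rfl⟩ := Int.eq_ofNat_of_zero_le hi
      exact (hpos k).symm
    · obtain ⟨k, hk⟩ := Int.eq_ofNat_of_zero_le (neg_nonneg.2 hi)
      have h5 := hneg k
      have e : (0 : ℤ) - (k : ℤ) = i := by
        have : -i = (k : ℤ) := hk
        omega
      simp only [e] at h5
      exact h5.symm
  subst hcc
  exact ⟨Nat.dvd_antisymm (E4_dvd hc hc') (E4_dvd hc' hc), rfl⟩

end Pool.Agent.H341.MA
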