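import Pool.Agent.H341.MA.St3

/-! FINS: torsion-free groups acting geometrically on mediangle graphs have finite resolutions. -/

set_option autoImplicit false

namespace Pool.Agent.H341.MA

universe u v

open SimpleGraph Pointwise

section

variable {V : Type u} {X : SimpleGraph V} {G : Type v} [Group G] [MulAction G V]

theorem fins_adj (hG : GeometricAction X G) (g : G) (x y : V) : X.Adj x y ↔ X.Adj (g • x) (g • y) := by
  refine ⟨hG.adj_smul g x y, fun h => ?_⟩
  have := hG.adj_smul g⁻¹ _ _ h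
  rwa [inv_smul_smul, inv_smul_smul] at this

theorem fins_cell (hi : S_CINV.{u}) (hX : Mediangle X) (hG : GeometricAction X G) (g : G) (C : Set V)
    (hC : Cell X C) : Cell X (g • C) := by
  have h := hi V X (MulAction.toPerm g) hX.connected (fun x y => fins_adj hG g x y) C hC
  have e : (MulAction.toPerm g : V ≃ V) '' C = g • C := by
    ext x
    simp [Set.mem_smul_set]
  rwa [e] at h

theorem fins_nonempty (hX : Mediangle X) (C : Set V) (hC : Cell X C) : C.Nonempty := by
  obtain ⟨v⟩ := hX.connected.nonempty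
  obtain ⟨y, hy, -⟩ := hC.1 v
  exact ⟨y, hy⟩

/-- stabilisers of cells are trivial for torsion-free groups -/
theorem fins_free (hX : Mediangle X) (hG : GeometricAction X G)
    (htf : ∀ g : G, g ≠ 1 → ¬ IsOfFinOrder g) (C : Set V) (hC : Cell X C) (g : G) (hg : g • C = C) :
    g = 1 := by
  by_contra hne
  apply htf g hne
  obtain ⟨v, hv⟩ := fins_nonempty hX C hC
  obtain ⟨r, hr⟩ := (hC.2.2.image fun c => X.dist v c).bddAbove
  rw [← finite_powers]
  refine (hG.proper v r).subset ?_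
  rintro h ⟨k, rfl⟩
  have hk : ∀ k : ℕ, g ^ k • v ∈ C := by
    intro k
    induction k with
    | zero => simpa using hv
    | succ k ih =>
      rw [pow_succ', mul_smul]
      have : g • (g ^ k • v) ∈ g • C := Set.smul_mem_smul_set ih
      rwa [hg] at this
  exact hr ⟨_, hk k, rfl⟩

end

theorem s_fins (hl : S_LF.{u, v}) (hc : S_CSYS.{u}) (hf : S_CFIN.{u}) (hi : S_CINV.{u})
    (hs : S_CONES.{u}) (ha : S_ACY.{u}) (hr : S_RES.{u, v}) : S_FINS.{u, v} := by
  intro V X G _ _ hX hG htf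
  have hballs := hl V X G hX.connected hG
  obtain ⟨R, hR⟩ := hc V X hX hballs
  have hcf := hf V X hX hballs
  -- the action on cells
  let act : MulAction G {C : Set V // Cell X C} :=
    { smul := fun g ω => ⟨g • ω.1, fins_cell hi hX hG g ω.1 ω.2⟩
      one_smul := fun ω => Subtype.ext (one_smul G ω.1)
      mul_smul := fun g h ω => Subtype.ext (mul_smul g h ω.1) }
  have hsm : ∀ (g : G) (ω : {C : Set V // Cell X C}), (g • ω).1 = g • ω.1 := fun g ω => rfl
  -- the system of chains of cells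
  set K : ∀ n : ℕ, Set (Fin n → {C : Set V // Cell X C}) :=
    Tup (fun ω : {C : Set V // Cell X C} => ω.1) (fun a b => a.1 ⊂ b.1) {C | Cell X C} with hK
  have hmemK : ∀ (n : ℕ) (τ : Fin n → {C : Set V // Cell X C}), τ ∈ K n ↔
      ∀ i j, i < j → (τ i).1 ⊂ (τ j).1 := by
    intro n τ
    constructor
    · intro h
      exact h.2
    · intro h
      exact ⟨fun i => (τ i).2, h⟩
  have hK0 : K 0 = Set.univ := by
    ext τ
    simp only [hmemK, Set.mem_univ, iff_true]
    intro i
    exact i.elim0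
  have hface : FaceClosed K := by
    intro n τ hτ i
    rw [hmemK] at hτ ⊢
    intro a b hab
    exact hτ _ _ (Fin.strictMono_succAbove i hab)
  have hacy : Acyclic K :=
    ha V {C : Set V // Cell X C} X R hX hR (fun ω => ω.1) (fun a b => a.1 ⊂ b.1)
      (fun a b h => h.subset) (fun C hC => ⟨⟨C, hC⟩, rfl⟩) (fun ω => ω.2)
      (hs V {C : Set V // Cell X C} (fun ω => ω.1) Subtype.val_injective)
  have hequiv : ∀ (n : ℕ) (g : G), ∀ τ ∈ K n, (fun i => g • τ i) ∈ K n := by
    intro n g τ hτ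
    rw [hmemK] at hτ ⊢
    intro i j hij
    have h := hτ i j hij
    simp only [hsm]
    refine ⟨Set.smul_set_subset_smul_set_iff.mpr h.1, fun h' => h.2 ?_⟩
    exact Set.smul_set_subset_smul_set_iff.mp h'
  have hfree : ∀ (n : ℕ) (g : G), ∀ τ ∈ K (n + 1), (fun i => g • τ i) = τ → g = 1 := by
    intro n g τ _ h
    have h0 := congrArg Subtype.val (congrFun h 0)
    exact fins_free hX hG htf (τ 0).1 (τ 0).2 g h0
  -- representatives
  obtain ⟨S₀, hS₀, hrep⟩ := hG.cocompact
  have hrep' : ∀ (n : ℕ), ∀ τ ∈ K (n + 1), ∃ g : G, ∃ s ∈ S₀, ∀ i, s ∈ (g⁻¹ • τ i).1 := by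
    intro n τ hτ
    obtain ⟨v, hv⟩ := fins_nonempty hX (τ 0).1 (τ 0).2
    obtain ⟨g, s, hs0, hgs⟩ := hrep v
    refine ⟨g, s, hs0, fun i => ?_⟩
    rw [hsm, Set.mem_inv_smul_set_iff, hgs]
    rw [hmemK] at hτ
    rcases Fin.eq_zero_or_eq_succ i with rfl | ⟨j, rfl⟩
    · exact hv
    · exact (hτ 0 j.succ (Fin.succ_pos j)).1 hv
  have hfin : ∀ s : V, {ω : {C : Set V // Cell X C} | s ∈ ω.1}.Finite := by
    intro s
    refine Set.Finite.of_finite_image (f := Subtype.val) ?_ Subtype.val_injective.injOn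
    refine (hcf s).subset ?_
    rintro C ⟨ω, hω, rfl⟩
    exact ⟨ω.2, hω⟩
  have horb : ∀ n : ℕ, ∃ S : Set (Fin (n + 1) → {C : Set V // Cell X C}), S.Finite ∧
      ∀ τ ∈ K (n + 1), ∃ g : G, ∃ s ∈ S, (fun i => g • s i) = τ := by
    intro n
    refine ⟨⋃ s ∈ S₀, {σ | ∀ i, σ i ∈ {ω : {C : Set V // Cell X C} | s ∈ ω.1}}, ?_, ?_⟩
    · exact hS₀.biUnion fun s _ => Set.Finite.pi' fun _ => hfin s
    · intro τ hτ
      obtain ⟨g, s, hs0, h⟩ := hrep' n τ hτ
      refine ⟨g, fun i => g⁻¹ • τ i, ?_, ?_⟩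
      · simp only [Set.mem_iUnion]
        exact ⟨s, hs0, h⟩
      · funext i
        exact smul_inv_smul g (τ i)
  obtain ⟨k, hk, hk0⟩ := hr G {C : Set V // Cell X C} K hK0 hface hacy hequiv hfree horb
  refine ⟨k, hk, ?_⟩
  obtain ⟨N, hN⟩ := (hS₀.image fun s => {ω : {C : Set V // Cell X C} | s ∈ ω.1}.ncard).bddAbove
  refine ⟨N, fun n hn => hk0 n ?_⟩
  rw [Set.eq_empty_iff_forall_notMem]
  intro τ hτ
  obtain ⟨g, s, hs0, h⟩ := hrep' n τ hτ
  have hτ' := hequiv _ g⁻¹ τ hτ
  rw [hmemK] at hτ'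
  have hinj : Function.Injective fun i => g⁻¹ • τ i := by
    intro i j hij
    by_contra hne
    rcases lt_or_gt_of_ne hne with hlt | hlt
    · have h1 := hτ' i j hlt
      simp only at hij
      rw [hij] at h1
      exact (ssubset_irrefl _ h1)
    · have h1 := hτ' j i hlt
      simp only at hij
      rw [hij] at h1
      exact (ssubset_irrefl _ h1)
  have hcard : (Set.range fun i => g⁻¹ • τ i).ncard ≤
      {ω : {C : Set V // Cell X C} | s ∈ ω.1}.ncard := by
    refine Set.ncard_le_ncard ?_ (hfin s)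
    rintro _ ⟨i, rfl⟩
    exact h i
  rw [← Set.image_univ, Set.ncard_image_of_injective _ hinj, Set.ncard_univ, Nat.card_eq_fintype_card,
    Fintype.card_fin] at hcard
  have := hN ⟨s, hs0, rfl⟩
  simp only at this
  omega

end Pool.Agent.H341.MA
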