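import Pool.Agent.H341.MA.St3

/-!
# Mediangle graphs: type `F_∞`
-/

set_option autoImplicit false

namespace Pool.Agent.H341.MA

universe u v

open SimpleGraph

/-- pairs of a group element and an index; the group acts on the first factor -/
def FinwOm (G J : Type u) : Type u := G × J

instance finwAct (G J : Type u) [Group G] : MulAction G (FinwOm G J) where
  smul g a := (g * a.1, a.2)
  one_smul a := Prod.ext (one_mul a.1) rfl
  mul_smul g h a := Prod.ext (mul_assoc g h a.1) rfl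

theorem finw_smul_fst {G J : Type u} [Group G] (g : G) (a : FinwOm G J) :
    (g • a).1 = g * a.1 := rfl

theorem finw_smul_snd {G J : Type u} [Group G] (g : G) (a : FinwOm G J) : (g • a).2 = a.2 := rfl

/-- the translated set -/
def finwPi {V G : Type u} [Group G] [MulAction G V] (I : Set (Set V)) (a : FinwOm G I) : Set V :=
  (fun v => a.1 • v) '' (a.2 : Set V)

theorem finwPi_smul {V G : Type u} [Group G] [MulAction G V] (I : Set (Set V)) (g : G)
    (a : FinwOm G I) : finwPi I (g • a) = (fun v => g • v) '' finwPi I a := by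
  unfold finwPi
  rw [Set.image_image]
  refine Set.image_congr fun v _ => ?_
  rw [finw_smul_fst, mul_smul]

theorem finw_nonempty {V : Type u} {X : SimpleGraph V} (hX : X.Connected) {C : Set V}
    (hC : Gated X C) : C.Nonempty := by
  obtain ⟨x⟩ := hX.nonempty
  obtain ⟨y, hy, -⟩ := hC x
  exact ⟨y, hy⟩

theorem finw_adj {V G : Type u} [Group G] [MulAction G V] {X : SimpleGraph V}
    (hg : GeometricAction X G) (g : G) (x y : V) : X.Adj x y ↔ X.Adj (g • x) (g • y) := by
  refine ⟨hg.adj_smul g x y, fun h => ?_⟩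
  have := hg.adj_smul g⁻¹ _ _ h
  rwa [inv_smul_smul, inv_smul_smul] at this

theorem finw_cell {V G : Type u} [Group G] [MulAction G V] {X : SimpleGraph V}
    (hi : S_CINV.{u}) (hX : X.Connected) (hg : GeometricAction X G) (g : G) {C : Set V}
    (hC : Cell X C) : Cell X ((fun v => g • v) '' C) :=
  hi V X (MulAction.toPerm g) hX (fun x y => finw_adj hg g x y) C hC

theorem s_finw (hl : S_LF.{u, u}) (hc : S_CSYS.{u}) (hf : S_CFIN.{u}) (hi : S_CINV.{u})
    (hw : S_CONEW.{u}) (ha : S_ACY.{u}) (hr : S_RES.{u, u}) : S_FINW.{u} := by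
  intro V X G _ _ hm hg
  have hX := hm.connected
  have hball := hl V X G hX hg
  obtain ⟨R, hR⟩ := hc V X hm hball
  obtain ⟨S, hS, hcoc⟩ := hg.cocompact
  set I : Set (Set V) := {C | Cell X C ∧ ∃ s ∈ S, s ∈ C} with hI
  have hIfin : I.Finite := by
    refine (hS.biUnion fun s _ => hf V X hm hball s).subset ?_
    rintro C ⟨hC, s, hs, hsC⟩
    exact Set.mem_biUnion hs ⟨hC, hsC⟩
  have hcell : ∀ a : FinwOm G I, Cell X (finwPi I a) := fun a =>
    finw_cell hi hX hg a.1 a.2.2.1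
  have hrange : ∀ C, Cell X C → C ∈ Set.range (finwPi (G := G) I) := by
    intro C hC
    obtain ⟨v, hv⟩ := finw_nonempty hX hC.1
    obtain ⟨g, s, hs, hgs⟩ := hcoc v
    have hC' : Cell X ((fun v => g⁻¹ • v) '' C) := finw_cell hi hX hg g⁻¹ hC
    refine ⟨(g, ⟨(fun v => g⁻¹ • v) '' C, hC', s, hs, v, hv, ?_⟩), ?_⟩
    · rw [← hgs]
      exact inv_smul_smul g s
    · show (fun v => g • v) '' ((fun v => g⁻¹ • v) '' C) = C
      rw [Set.image_image]
      simp
  have hac := ha V (FinwOm G I) X R hm hR (finwPi I) (fun a b => finwPi I a ⊆ finwPi I b)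
    (fun a b h => h) hrange hcell (hw V (FinwOm G I) (finwPi I))
  set K := Tup (finwPi (G := G) I) (fun a b => finwPi I a ⊆ finwPi I b) {C | Cell X C} with hK
  have hinv : ∀ (n : ℕ) (g : G), ∀ τ ∈ K n, (fun i => g • τ i) ∈ K n := by
    intro n g τ hτ
    refine ⟨fun i => hcell _, fun i j hij => ?_⟩
    show finwPi I (g • τ i) ⊆ finwPi I (g • τ j)
    rw [finwPi_smul, finwPi_smul]
    exact Set.image_mono (hτ.2 i j hij)
  have main := hr G (FinwOm G I) K
  refine (main ?_ ?_ hac hinv ?_ ?_).imp fun k hk => hk.1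
  · refine Set.eq_univ_of_forall fun τ => ?_
    exact ⟨fun i => i.elim0, fun i => i.elim0⟩
  · intro n τ hτ i
    exact ⟨fun j => hτ.1 _, fun j j' hjj => hτ.2 _ _ (Fin.strictMono_succAbove i hjj)⟩
  · intro n g τ hτ h
    have h0 := congrArg Prod.fst (congrFun h 0)
    exact mul_eq_right.1 h0
  · intro n
    -- the union of the cells in `I`
    have hU : (⋃ C ∈ I, C).Finite := hIfin.biUnion fun C hC => hC.1.2.2
    have hA : {g : G | ∃ w ∈ ⋃ C ∈ I, C, ∃ v ∈ ⋃ C ∈ I, C, g • w = v}.Finite := by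
      have : {g : G | ∃ w ∈ ⋃ C ∈ I, C, ∃ v ∈ ⋃ C ∈ I, C, g • w = v} ⊆
          ⋃ w ∈ ⋃ C ∈ I, C, ⋃ v ∈ ⋃ C ∈ I, C, {g : G | X.dist w (g • w) ≤ X.dist w v} := by
        rintro g ⟨w, hw, v, hv, h⟩
        refine Set.mem_biUnion hw (Set.mem_biUnion hv ?_)
        show X.dist w (g • w) ≤ X.dist w v
        rw [h]
      exact (hU.biUnion fun w _ => hU.biUnion fun v _ => hg.proper w _).subset this
    have hIf : Finite I := hIfin
    have hfinS : {τ : Fin (n + 1) → FinwOm G I | τ ∈ K (n + 1) ∧ (τ 0).1 = 1}.Finite := by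
      have hP : {a : FinwOm G I | a.1 ∈ {g : G | ∃ w ∈ ⋃ C ∈ I, C, ∃ v ∈ ⋃ C ∈ I, C,
          g • w = v}}.Finite := by
        refine (hA.prod (Set.finite_univ (α := I))).subset ?_
        intro a h
        exact ⟨h, Set.mem_univ _⟩
      refine (Set.Finite.pi' (fun _ : Fin (n + 1) => hP)).subset ?_
      rintro τ ⟨hτ, h0⟩ i
      obtain ⟨v, hv⟩ := finw_nonempty hX (τ 0).2.2.1.1
      have hsub : finwPi I (τ 0) ⊆ finwPi I (τ i) := by
        rcases Fin.eq_zero_or_eq_succ i with rfl | ⟨j, rfl⟩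
        · exact le_rfl
        · exact hτ.2 0 j.succ (Fin.succ_pos j)
      have hv0 : v ∈ finwPi I (τ 0) := ⟨v, hv, by
        show (τ 0).1 • v = v
        rw [h0, one_smul]⟩
      obtain ⟨w, hw, hwv⟩ := hsub hv0
      exact ⟨w, Set.mem_biUnion (τ i).2.2 hw, v, Set.mem_biUnion (τ 0).2.2 hv, hwv⟩
    refine ⟨_, hfinS, fun τ hτ => ⟨(τ 0).1, fun i => (τ 0).1⁻¹ • τ i, ⟨hinv _ _ τ hτ, ?_⟩, ?_⟩⟩
    · show ((τ 0).1⁻¹ • τ 0).1 = 1
      rw [finw_smul_fst, inv_mul_cancel]
    · funext i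
      exact smul_inv_smul _ _

end Pool.Agent.H341.MA
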