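import Pool.Agent.H341.MA.St3

/-!
# FPG: finite presentability from coarse simple connectivity (helper657)
-/

set_option autoImplicit false

namespace Pool.Agent.H341.MA

universe u v

open SimpleGraph

/-! ### the group defined by short positive relations -/

section Group

variable {G : Type v} [Group G] (A : Set G) (n : ℕ)

/-- the relators: products of at most `n` letters which are trivial in `G` -/
def FPGrels : Set (FreeGroup A) :=
  {w | ∃ l : List A, l.length ≤ n ∧ (l.map Subtype.val).prod = 1 ∧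
    w = (l.map FreeGroup.of).prod}

theorem FPGrels_finite (hA : A.Finite) : (FPGrels A n).Finite := by
  have : Finite A := hA
  have h : (FPGrels A n) ⊆ (fun l : List A => (l.map FreeGroup.of).prod) ''
      {l : List A | l.length ≤ n} := by
    rintro w ⟨l, hl, -, rfl⟩
    exact ⟨l, hl, rfl⟩
  exact ((List.finite_length_le A n).image _).subset h

/-- the group -/
abbrev FPGG : Type v := PresentedGroup (FPGrels A n)

open Classical in
/-- the letter of an element of `G` (`1` if it is not in `A`) -/
noncomputable def FPGs (g : G) : FPGG A n :=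
  if h : g ∈ A then PresentedGroup.of ⟨g, h⟩ else 1

theorem FPGs_of (g : A) : FPGs A n (g : G) = PresentedGroup.of g := by
  unfold FPGs
  rw [dif_pos g.2]

theorem FPG_rel (l : List G) (h : ∀ g ∈ l, g ∈ A) (hl : l.length ≤ n) (h1 : l.prod = 1) :
    (l.map (FPGs A n)).prod = 1 := by
  obtain ⟨l', rfl⟩ : ∃ l' : List A, l'.map Subtype.val = l := by
    refine ⟨l.pmap Subtype.mk h, ?_⟩
    rw [List.map_pmap]
    simp
  rw [List.map_map]
  have e : (FPGs A n ∘ Subtype.val : A → FPGG A n) = fun g => PresentedGroup.of g := by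
    funext g
    exact FPGs_of A n g
  rw [e]
  have h2 : (l'.map (FreeGroup.of : A → FreeGroup A)).prod ∈ FPGrels A n :=
    ⟨l', by simpa using hl, h1, rfl⟩
  have h3 := PresentedGroup.one_of_mem h2
  rw [map_list_prod, List.map_map] at h3
  exact h3

/-- the map to `G` -/
noncomputable def FPGev : FPGG A n →* G :=
  PresentedGroup.toGroup (f := (Subtype.val : A → G)) (by
    rintro w ⟨l, -, hl, rfl⟩
    rw [map_list_prod, List.map_map]
    have : (⇑(FreeGroup.lift (Subtype.val : A → G)) ∘ FreeGroup.of) = (Subtype.val : A → G) := by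
      funext g
      simp
    rw [this, hl])

theorem FPGev_s (g : G) (hg : g ∈ A) : FPGev A n (FPGs A n g) = g := by
  unfold FPGs FPGev
  rw [dif_pos hg, PresentedGroup.toGroup.of]

theorem FPGs_one (hn : 1 ≤ n) (h1 : (1 : G) ∈ A) : FPGs A n 1 = 1 := by
  have := FPG_rel A n [1] (by simpa using h1) (by simpa using hn) (by simp)
  simpa using this

theorem FPGs_inv (hn : 2 ≤ n) (g : G) (hg : g ∈ A) (hg' : g⁻¹ ∈ A) :
    FPGs A n g⁻¹ = (FPGs A n g)⁻¹ := by
  have := FPG_rel A n [g, g⁻¹] (by simp [hg, hg']) (by simpa using hn) (by simp)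
  simp only [List.map_cons, List.map_nil, List.prod_cons, List.prod_nil, mul_one] at this
  exact (inv_eq_of_mul_eq_one_right this).symm

theorem FPG_word (hn : 2 ≤ n) (hinv : ∀ g ∈ A, g⁻¹ ∈ A) (x : FPGG A n) :
    ∃ l : List G, (∀ g ∈ l, g ∈ A) ∧ x = (l.map (FPGs A n)).prod := by
  have hx : x ∈ Subgroup.closure (Set.range (PresentedGroup.of (rels := FPGrels A n))) := by
    rw [PresentedGroup.closure_range_of]; trivial
  induction hx using Subgroup.closure_induction with
  | mem x hx =>
    obtain ⟨g, rfl⟩ := hx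
    exact ⟨[g.1], by simp, by simp [FPGs_of]⟩
  | one => exact ⟨[], by simp, by simp⟩
  | mul x y _ _ hx hy =>
    obtain ⟨l, hl, rfl⟩ := hx
    obtain ⟨l', hl', rfl⟩ := hy
    refine ⟨l ++ l', ?_, by simp⟩
    intro g hg
    rcases List.mem_append.1 hg with h | h
    · exact hl g h
    · exact hl' g h
  | inv x _ hx =>
    obtain ⟨l, hl, rfl⟩ := hx
    refine ⟨(l.map (·⁻¹)).reverse, ?_, ?_⟩
    · intro g hg
      rw [List.mem_reverse, List.mem_map] at hg
      obtain ⟨h, hh, rfl⟩ := hg
      exact hinv h (hl h hh)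
    · rw [List.prod_inv_reverse, List.map_map, List.map_reverse, List.map_map]
      congr 2
      refine List.map_congr_left fun g hg => ?_
      exact (FPGs_inv A n hn g (hl g hg) (hinv g (hl g hg))).symm

end Group

/-! ### geometry -/

section Geo

variable {V : Type u} {X : SimpleGraph V} {G : Type v} [Group G] [MulAction G V]

theorem FPG_dist_le (hX : X.Connected) (hG : GeometricAction X G) (g : G) (x y : V) :
    X.dist (g • x) (g • y) ≤ X.dist x y := by
  obtain ⟨p, hp⟩ := (hX x y).exists_walk_length_eq_dist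
  let f : X →g X := ⟨fun z => g • z, fun {a b} h => hG.adj_smul g a b h⟩
  have h1 := SimpleGraph.dist_le (p.map f)
  rw [SimpleGraph.Walk.length_map, hp] at h1
  exact h1

theorem FPG_dist (hX : X.Connected) (hG : GeometricAction X G) (g : G) (x y : V) :
    X.dist (g • x) (g • y) = X.dist x y := by
  refine le_antisymm (FPG_dist_le hX hG g x y) ?_
  have := FPG_dist_le hX hG g⁻¹ (g • x) (g • y)
  rwa [inv_smul_smul, inv_smul_smul] at this

theorem FPG_near (hX : X.Connected) (hG : GeometricAction X G) (x0 : V) :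
    ∃ r : ℕ, ∀ x : V, ∃ g : G, X.dist x (g • x0) ≤ r := by
  obtain ⟨S, hS, h⟩ := hG.cocompact
  obtain ⟨r, hr⟩ := (hS.image (fun s => X.dist s x0)).bddAbove
  refine ⟨r, fun x => ?_⟩
  obtain ⟨g, s, hs, rfl⟩ := h x
  refine ⟨g, ?_⟩
  rw [FPG_dist hX hG]
  exact hr ⟨s, hs, rfl⟩

/-- the letters along a walk -/
def FPGl (t : V → G) {x y : V} (p : X.Walk x y) : List G :=
  p.darts.map (fun d => (t d.fst)⁻¹ * t d.snd)

theorem FPGl_prod (t : V → G) {x y : V} (p : X.Walk x y) :
    (FPGl t p).prod = (t x)⁻¹ * t y := by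
  unfold FPGl
  induction p with
  | nil => simp
  | cons h p ih =>
    rw [SimpleGraph.Walk.darts_cons, List.map_cons, List.prod_cons, ih]
    group

theorem FPGl_length (t : V → G) {x y : V} (p : X.Walk x y) :
    (FPGl t p).length = p.length := by
  unfold FPGl
  simp

theorem FPGl_mem (t : V → G) (A : Set G) (h : ∀ x y, X.Adj x y → (t x)⁻¹ * t y ∈ A) {x y : V}
    (p : X.Walk x y) : ∀ g ∈ FPGl t p, g ∈ A := by
  intro g hg
  unfold FPGl at hg
  rw [List.mem_map] at hg
  obtain ⟨d, -, rfl⟩ := hg
  exact h _ _ d.adj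

theorem FPG_wprod {Γ : Type v} [Group Γ] (t : V → G) (s : G → Γ) {x y : V} (p : X.Walk x y) :
    wprod (fun a b => s ((t a)⁻¹ * t b)) p = ((FPGl t p).map s).prod := by
  unfold wprod FPGl
  rw [List.map_map]
  rfl

end Geo

theorem s_fpg : S_FPG.{u, v} := by
  intro V X G _ _ hX hG hN
  obtain ⟨N, hSC⟩ := hN
  obtain ⟨x0⟩ := hX.nonempty
  obtain ⟨r, hr⟩ := FPG_near hX hG x0
  choose t ht using hr
  set A : Set G := {g | X.dist x0 (g • x0) ≤ 2 * r + 1} with hA
  have hAf : A.Finite := hG.proper x0 (2 * r + 1)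
  have hinv : ∀ g ∈ A, g⁻¹ ∈ A := by
    intro g hg
    show X.dist x0 (g⁻¹ • x0) ≤ 2 * r + 1
    rw [← FPG_dist hX hG g x0 (g⁻¹ • x0), smul_inv_smul, SimpleGraph.dist_comm]
    exact hg
  have hadj : ∀ x y, X.Adj x y → (t x)⁻¹ * t y ∈ A := by
    intro x y hxy
    show X.dist x0 (((t x)⁻¹ * t y) • x0) ≤ 2 * r + 1
    rw [← FPG_dist hX hG (t x), smul_smul, mul_inv_cancel_left]
    have h1 := hX.dist_triangle (u := t x • x0) (v := x) (w := t y • x0)
    have h2 := hX.dist_triangle (u := x) (v := y) (w := t y • x0)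
    have h3 : X.dist x y = 1 := SimpleGraph.dist_eq_one_iff_adj.2 hxy
    have h4 := ht x
    rw [SimpleGraph.dist_comm] at h4
    have h5 := ht y
    omega
  have hu : ∀ a : G, (t (a • x0))⁻¹ * a ∈ A := by
    intro a
    show X.dist x0 (((t (a • x0))⁻¹ * a) • x0) ≤ 2 * r + 1
    rw [← FPG_dist hX hG (t (a • x0)), smul_smul, mul_inv_cancel_left, SimpleGraph.dist_comm]
    have := ht (a • x0)
    omega
  have hone : (1 : G) ∈ A := by
    show X.dist x0 ((1 : G) • x0) ≤ 2 * r + 1
    rw [one_smul, SimpleGraph.dist_self]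
    omega
  set n : ℕ := max N (2 * r + 4) with hn
  have hn2 : 2 ≤ n := le_trans (by omega) (le_max_right N (2 * r + 4))
  have hnN : N ≤ n := le_max_left _ _
  have hnr : 2 * r + 4 ≤ n := le_max_right _ _
  set s : G → FPGG A n := FPGs A n with hs
  set lam : V → V → FPGG A n := fun a b => s ((t a)⁻¹ * t b) with hlam
  have hcl : ∀ (x : V) (p : X.Walk x x), wprod lam p = 1 := by
    refine hSC (FPGG A n) lam ?_
    intro x p hp
    rw [hlam, FPG_wprod]
    refine FPG_rel A n _ (FPGl_mem t A hadj p) ?_ ?_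
    · rw [FPGl_length]; omega
    · rw [FPGl_prod]; group
  -- one step
  have hstep : ∀ (a g : G), g ∈ A → ∃ p : X.Walk (a • x0) ((a * g) • x0),
      wprod lam p = s ((t (a • x0))⁻¹ * a) * s g * (s ((t ((a * g) • x0))⁻¹ * (a * g)))⁻¹ := by
    intro a g hg
    obtain ⟨p, hp⟩ := (hX (a • x0) ((a * g) • x0)).exists_walk_length_eq_dist
    have hpl : p.length ≤ 2 * r + 1 := by
      rw [hp, ← smul_smul, FPG_dist hX hG]
      exact hg
    refine ⟨p, ?_⟩
    have key := FPG_rel A n (FPGl t p ++ [(t ((a * g) • x0))⁻¹ * (a * g), g⁻¹,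
      ((t (a • x0))⁻¹ * a)⁻¹]) ?_ ?_ ?_
    · rw [List.map_append, List.prod_append] at key
      simp only [List.map_cons, List.map_nil, List.prod_cons, List.prod_nil, mul_one] at key
      rw [FPGs_inv A n hn2 g hg (hinv g hg),
        FPGs_inv A n hn2 _ (hu a) (hinv _ (hu a)), ← FPG_wprod] at key
      rw [eq_mul_inv_iff_mul_eq]
      have k2 := mul_eq_one_iff_eq_inv.1 key
      rw [k2]
      simp only [mul_inv_rev, inv_inv, hs]
      group
    · intro h hh
      rcases List.mem_append.1 hh with h1 | h1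
      · exact FPGl_mem t A hadj p h h1
      · simp only [List.mem_cons, List.not_mem_nil, or_false] at h1
        rcases h1 with rfl | rfl | rfl
        · exact hu (a * g)
        · exact hinv g hg
        · exact hinv _ (hu a)
    · rw [List.length_append, FPGl_length]
      simp only [List.length_cons, List.length_nil]
      omega
    · rw [List.prod_append, FPGl_prod]
      simp only [List.prod_cons, List.prod_nil]
      group
  have hlist : ∀ (l : List G), (∀ g ∈ l, g ∈ A) → ∀ a b : G, b = a * l.prod →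
      ∃ p : X.Walk (a • x0) (b • x0),
      wprod lam p = s ((t (a • x0))⁻¹ * a) * (l.map s).prod * (s ((t (b • x0))⁻¹ * b))⁻¹ := by
    intro l
    induction l with
    | nil =>
      intro _ a b hb
      rw [List.prod_nil, mul_one] at hb
      subst hb
      exact ⟨SimpleGraph.Walk.nil, by simp [wprod]⟩
    | cons g l ih =>
      intro hl a b hb
      obtain ⟨p, hp⟩ := hstep a g (hl g (by simp))
      obtain ⟨q, hq⟩ := ih (fun h hh => hl h (by simp [hh])) (a * g) b
        (by rw [hb, List.prod_cons, mul_assoc])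
      refine ⟨p.append q, ?_⟩
      have : wprod lam (p.append q) = wprod lam p * wprod lam q := by
        unfold wprod
        rw [SimpleGraph.Walk.darts_append, List.map_append, List.prod_append]
      rw [this, hp, hq, List.map_cons, List.prod_cons]
      group
  -- the evaluation is bijective
  have hinj : Function.Injective (FPGev A n) := by
    rw [injective_iff_map_eq_one]
    intro x hx
    obtain ⟨l, hl, rfl⟩ := FPG_word A n hn2 hinv x
    have h1 : l.prod = 1 := by
      rw [map_list_prod, List.map_map] at hx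
      rw [← hx]
      congr 1
      symm
      rw [List.map_congr_left (g := id)]
      · simp
      · intro g hg
        exact FPGev_s A n g (hl g hg)
    obtain ⟨p, hp⟩ := hlist l hl 1 1 (by rw [h1, mul_one])
    rw [hcl] at hp
    rw [eq_mul_inv_iff_mul_eq, one_mul] at hp
    have := mul_left_cancel (a := s ((t ((1 : G) • x0))⁻¹ * 1)) (b := (1 : FPGG A n))
      (c := (l.map s).prod) (by rw [mul_one]; exact hp)
    exact this.symm
  have hsurj : Function.Surjective (FPGev A n) := by
    have hmem : ∀ l : List G, (∀ g ∈ l, g ∈ A) → l.prod ∈ (FPGev A n).range := by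
      intro l hl
      refine Subgroup.list_prod_mem _ fun g hg => ?_
      exact ⟨FPGs A n g, FPGev_s A n g (hl g hg)⟩
    have hA' : ∀ g ∈ A, g ∈ (FPGev A n).range := fun g hg => ⟨FPGs A n g, FPGev_s A n g hg⟩
    intro g
    show g ∈ (FPGev A n).range
    obtain ⟨p⟩ := hX ((1 : G) • x0) (g • x0)
    have h1 := hmem (FPGl t p) (FPGl_mem t A hadj p)
    rw [FPGl_prod] at h1
    have h2 := hA' _ (hu 1)
    have h3 := hA' _ (hu g)
    have e : g = ((t ((1 : G) • x0))⁻¹ * 1)⁻¹ * ((t ((1 : G) • x0))⁻¹ * t (g • x0)) *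
        ((t (g • x0))⁻¹ * g) := by group
    rw [e]
    exact Subgroup.mul_mem _ (Subgroup.mul_mem _ (Subgroup.inv_mem _ h2) h1) h3
  have hfin : Finite A := hAf
  have hrel : Finite (FPGrels A n) := FPGrels_finite A n hAf
  exact Group.IsFinitelyPresented.equiv (MulEquiv.ofBijective (FPGev A n) ⟨hinj, hsurj⟩)

end Pool.Agent.H341.MA
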