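import Pool.Agent.H341.MA.St1

/-!
# GP: gated sets are convex, closed under triangles and under even convex cycles
-/

set_option autoImplicit false

namespace Pool.Agent.H341.MA

universe u v

open SimpleGraph

private theorem gp_convex {V : Type u} (X : SimpleGraph V) (hc : X.Connected) (Y : Set V)
    (hY : Gated X Y) : ∀ u ∈ Y, ∀ v ∈ Y, Itv X u v ⊆ Y := by
  intro u hu v hv t ht
  have ht' : X.dist u v = X.dist u t + X.dist t v := ht
  obtain ⟨g, hgY, hg⟩ := hY t
  have h1 := hg u hu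
  have h2 := hg v hv
  have h3 : X.dist u v ≤ X.dist u g + X.dist g v := hc.dist_triangle
  have h4 : X.dist u t = X.dist t u := SimpleGraph.dist_comm
  have h5 : X.dist u g = X.dist g u := SimpleGraph.dist_comm
  have h6 : X.dist t g = 0 := by omega
  have h7 : t = g := (hc.dist_eq_zero_iff).1 h6
  rw [h7]
  exact hgY

private theorem gp_triangle {V : Type u} (X : SimpleGraph V) (hc : X.Connected) (Y : Set V)
    (hY : Gated X Y) :
    ∀ u ∈ Y, ∀ v ∈ Y, ∀ w, X.Adj u v → X.Adj w u → X.Adj w v → w ∈ Y := by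
  intro u hu v hv w huv hwu hwv
  obtain ⟨g, hgY, hg⟩ := hY w
  by_contra hw
  have hwg : w ≠ g := fun h => hw (h ▸ hgY)
  have h0 : X.dist w g ≠ 0 := fun h => hwg ((hc.dist_eq_zero_iff).1 h)
  have h1 := hg u hu
  have h2 := hg v hv
  have h3 : X.dist w u = 1 := SimpleGraph.dist_eq_one_iff_adj.2 hwu
  have h4 : X.dist w v = 1 := SimpleGraph.dist_eq_one_iff_adj.2 hwv
  have h5 : X.dist g u = 0 := by omega
  have h6 : X.dist g v = 0 := by omega
  have h7 : g = u := (hc.dist_eq_zero_iff).1 h5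
  have h8 : g = v := (hc.dist_eq_zero_iff).1 h6
  exact huv.ne (h7.symm.trans h8)

private theorem gp_cycle (h1 : S_E1.{u}) (h2 : S_E2.{u}) {V : Type u} (X : SimpleGraph V)
    (hc : X.Connected) (Y : Set V) (hY : Gated X Y) (l : ℕ) (c : ℤ → V)
    (hC : EvenConvexCycle X l c) (hm : c (-1) ∈ Y) (h0 : c 0 ∈ Y) (hp : c 1 ∈ Y) :
    Set.range c ⊆ Y := by
  have hl := hC.two_le
  have per : ∀ i j : ℤ, (2 * (l : ℤ)) ∣ (i - j) → c i = c j := fun i j h => (hC.eq_iff i j).2 h
  -- distances
  have D : ∀ (i j : ℤ), i ≤ j → j ≤ i + l → (X.dist (c i) (c j) : ℤ) = j - i := by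
    intro i j hij hjl
    have := h1 V X hc l c hC i (j - i).toNat (by omega)
    have hk : ((j - i).toNat : ℤ) = j - i := Int.toNat_of_nonneg (by omega)
    rw [hk] at this
    have hh : i + (j - i) = j := by ring
    rw [hh] at this
    rw [this]
    exact hk
  have D' : ∀ (i j : ℤ), i ≤ j → j ≤ i + l → (X.dist (c j) (c i) : ℤ) = j - i := by
    intro i j hij hjl
    rw [SimpleGraph.dist_comm]
    exact D i j hij hjl
  have hlneg : c (l : ℤ) = c (-(l : ℤ)) := per _ _ ⟨1, by ring⟩
  obtain ⟨g, hgY, hg⟩ := hY (c (l : ℤ))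
  have e0 := hg _ h0
  have ep := hg _ hp
  have em := hg _ hm
  have hgI : g ∈ Itv X (c 0) (c (0 + (l : ℤ))) := by
    show X.dist (c 0) (c (0 + (l : ℤ))) = X.dist (c 0) g + X.dist g (c (0 + (l : ℤ)))
    rw [zero_add, SimpleGraph.dist_comm (u := c 0) (v := c (l : ℤ)),
      SimpleGraph.dist_comm (u := c 0) (v := g), SimpleGraph.dist_comm (u := g) (v := c (l : ℤ))]
    omega
  rw [h2 V X hc l c hC 0] at hgI
  obtain ⟨j, hj⟩ := hgI
  have hcl : c (l : ℤ) ∈ Y := by
    -- reduce `j`
    have hlpos : (0 : ℤ) < 2 * (l : ℤ) := by omega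
    set r := j % (2 * (l : ℤ)) with hr
    have hr0 : 0 ≤ r := Int.emod_nonneg _ (by omega)
    have hr1 : r < 2 * (l : ℤ) := Int.emod_lt_of_pos _ hlpos
    have hjr : c j = c r := per _ _ (by
      rw [hr]
      exact Int.dvd_self_sub_emod)
    have hgr : g = c r := by rw [← hj, hjr]
    have dp : (X.dist (c (l : ℤ)) (c 1) : ℤ) = l - 1 := D' 1 l (by omega) (by omega)
    have dm : (X.dist (c (l : ℤ)) (c (-1)) : ℤ) = l - 1 := by
      rw [hlneg]
      have := D (-(l : ℤ)) (-1) (by omega) (by omega)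
      rw [this]
      ring
    rcases le_or_gt r (l : ℤ) with hrl | hrl
    · rcases eq_or_lt_of_le hrl with hE | hlt
      · rw [← hE, ← hgr]
        exact hgY
      · exfalso
        have a1 : (X.dist (c (l : ℤ)) g : ℤ) = l - r := by
          rw [hgr]
          exact D' r l hrl (by omega)
        have a2 : (X.dist g (c (-1)) : ℤ) = r + 1 := by
          rw [hgr]
          have := D' (-1) r (by omega) (by omega)
          rw [this]
          ring
        omega
    · exfalso
      -- `g = c (r - 2l)`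
      have hg' : g = c (r - 2 * (l : ℤ)) := by
        rw [hgr]
        exact per _ _ ⟨1, by ring⟩
      have a1 : (X.dist (c (l : ℤ)) g : ℤ) = r - l := by
        rw [hgr]
        exact D l r (by omega) (by omega)
      have a2 : (X.dist g (c 1) : ℤ) = 1 - (r - 2 * (l : ℤ)) := by
        rw [hg']
        exact D _ _ (by omega) (by omega)
      omega
  have hcv := gp_convex X hc Y hY (c 0) h0 (c (0 + (l : ℤ))) (by rw [zero_add]; exact hcl)
  rw [h2 V X hc l c hC 0] at hcv
  exact hcv

theorem s_gp (h1 : S_E1.{u}) (h2 : S_E2.{u}) : S_GP.{u} := by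
  intro V X hc Y hY
  exact ⟨gp_convex X hc Y hY, gp_triangle X hc Y hY,
    fun l c hC hm h0 hp => gp_cycle h1 h2 X hc Y hY l c hC hm h0 hp⟩

end Pool.Agent.H341.MA
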