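import Pool.Agent.H341.MA.St1

/-!
# GATE: the local-to-global principle for gated sets (helper154, for helper341)
-/

set_option autoImplicit false

namespace Pool.Agent.H341.MA

universe u v

open SimpleGraph

section

variable {V : Type u} {X : SimpleGraph V}

private theorem gate_prev {W : Type u} {H : SimpleGraph W} (hH : H.Connected) {a b : W} {n : ℕ}
    (h : H.dist a b = n + 1) : ∃ c, H.Adj c b ∧ H.dist a c = n := by
  obtain ⟨p, hp⟩ := (hH b a).exists_walk_length_eq_dist
  rw [dist_comm, h] at hp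
  cases p with
  | nil => simp at hp
  | cons hadj q =>
    rename_i c
    refine ⟨c, hadj.symm, ?_⟩
    rw [Walk.length_cons] at hp
    have h1 : H.dist c a ≤ n := by
      have := dist_le q
      omega
    have h2 : H.dist a b ≤ H.dist a c + H.dist c b := hH.dist_triangle
    have h3 : H.dist c b = 1 := dist_eq_one_iff_adj.2 hadj.symm
    rw [dist_comm] at h1
    omega

private theorem gate_dist_le (Y : Set V) (hY : (X.induce Y).Preconnected) (a b : Y) :
    X.dist a b ≤ (X.induce Y).dist a b := by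
  obtain ⟨p, hp⟩ := (hY a b).exists_walk_length_eq_dist
  rw [← hp]
  have := dist_le (p.map (Embedding.induce Y).toHom)
  rwa [Walk.length_map] at this

private theorem gate_adj (hX : X.Connected) (x : V) {a b : V} (h : X.Adj a b) :
    X.dist x a ≤ X.dist x b + 1 := by
  have h1 : X.dist x a ≤ X.dist x b + X.dist b a := hX.dist_triangle
  have h2 : X.dist b a = 1 := dist_eq_one_iff_adj.2 h.symm
  omega

/-- the main step -/
private theorem gate_key (h1 : S_E1.{u}) (hX : Mediangle X) {Y : Set V}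
    (hH : (X.induce Y).Connected)
    (hcyc : ∀ (l : ℕ) (c : ℤ → V), EvenConvexCycle X l c → c (-1) ∈ Y → c 0 ∈ Y → c 1 ∈ Y →
      Set.range c ⊆ Y) (x : V) (y : Y) (n : ℕ)
    (IH : ∀ v : Y, (X.induce Y).dist y v < n + 2 → X.dist x v = X.dist x y + (X.induce Y).dist y v)
    (y1 y2 w : Y) (h12 : X.Adj y2 y1) (hw1 : X.Adj w y1) (hne : w ≠ y2)
    (hd1 : (X.induce Y).dist y y1 = n + 1) (hd2 : (X.induce Y).dist y y2 = n)
    (hw : X.dist x w = X.dist x y + n) : (X.induce Y).dist y w ≤ n := by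
  have hx1 := IH y1 (by omega)
  have hx2 := IH y2 (by omega)
  rw [hd1] at hx1
  rw [hd2] at hx2
  obtain ⟨l, c, hc, c0, c1, cm, hl2, hlw⟩ := hX.cycle x y2 w y1 (fun h => hne (Subtype.ext h.symm))
    h12.symm hw1.symm (by omega) (by omega)
  have hrange : Set.range c ⊆ Y := hcyc l c hc (by rw [cm]; exact w.2) (by rw [c0]; exact y1.2)
    (by rw [c1]; exact y2.2)
  have hmem : ∀ i : ℤ, c i ∈ Y := fun i => hrange ⟨i, rfl⟩
  have hl := hc.two_le
  have hE := h1 V X hX.connected l c hc
  -- the distance of the antipode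
  have hcl : X.dist x (c l) + (l - 1) = X.dist x y + n := by
    have e1 : X.dist (c 1) (c (1 + ((l - 1 : ℕ) : ℤ))) = l - 1 := hE 1 (l - 1) (by omega)
    have e2 : (1 : ℤ) + ((l - 1 : ℕ) : ℤ) = l := by omega
    rw [e2, dist_comm, c1] at e1
    have e3 : X.dist x y2 = X.dist x (c l) + X.dist (c l) y2 := hl2
    rw [e1, hx2] at e3
    omega
  have hci : ∀ i : ℕ, 1 ≤ i → i ≤ l → X.dist x (c i) + i = X.dist x y + n + 1 := by
    intro i hi1 hil
    have e1 : X.dist (c 1) (c (1 + ((i - 1 : ℕ) : ℤ))) = i - 1 := hE 1 (i - 1) (by omega)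
    have e2 : (1 : ℤ) + ((i - 1 : ℕ) : ℤ) = i := by omega
    rw [e2, dist_comm, c1] at e1
    have e3 : X.dist (c i) (c ((i : ℤ) + ((l - i : ℕ) : ℤ))) = l - i := hE i (l - i) (by omega)
    have e4 : (i : ℤ) + ((l - i : ℕ) : ℤ) = l := by omega
    rw [e4, dist_comm] at e3
    have e5 : X.dist x (c i) ≤ X.dist x (c l) + X.dist (c l) (c i) := hX.connected.dist_triangle
    have e6 : X.dist x y2 ≤ X.dist x (c i) + X.dist (c i) y2 := hX.connected.dist_triangle
    omega
  have hadj : ∀ i : ℤ, (X.induce Y).Adj ⟨c i, hmem i⟩ ⟨c (i + 1), hmem (i + 1)⟩ := fun i => hc.adj i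
  have hstep : ∀ i : ℤ, (X.induce Y).dist y ⟨c (i + 1), hmem (i + 1)⟩ ≤
      (X.induce Y).dist y ⟨c i, hmem i⟩ + 1 := fun i => gate_adj hH y (hadj i).symm
  have hdi : ∀ i : ℕ, i + 1 ≤ l → (X.induce Y).dist y ⟨c ((i : ℤ) + 1), hmem _⟩ + i = n := by
    intro i
    induction i with
    | zero =>
      intro _
      have e1 : (⟨c (((0 : ℕ) : ℤ) + 1), hmem _⟩ : Y) = y2 := by
        apply Subtype.ext
        show c (((0 : ℕ) : ℤ) + 1) = y2
        rw [Nat.cast_zero, zero_add, c1]
      rw [e1, hd2, add_zero]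
    | succ i ih =>
      intro hi
      have e1 := ih (by omega)
      have e2 := hstep ((i : ℤ) + 1)
      have e3 := IH ⟨c ((i : ℤ) + 1 + 1), hmem _⟩ (by omega)
      have e4 := hci (i + 2) (by omega) hi
      have e5 : (((i + 2 : ℕ) : ℤ)) = (i : ℤ) + 1 + 1 := by push_cast; ring
      rw [e5] at e4
      have e6 : (((i + 1 : ℕ) : ℤ)) + 1 = (i : ℤ) + 1 + 1 := by push_cast; ring
      have e7 : (⟨c ((((i + 1 : ℕ) : ℤ)) + 1), hmem _⟩ : Y) = ⟨c ((i : ℤ) + 1 + 1), hmem _⟩ := by
        apply Subtype.ext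
        show c _ = c _
        rw [e6]
      rw [e7]
      have e8 : X.dist x (c ((i : ℤ) + 1 + 1)) = X.dist x y + (X.induce Y).dist y
        ⟨c ((i : ℤ) + 1 + 1), hmem _⟩ := e3
      omega
  have hfar : ∀ j : ℕ, (X.induce Y).dist y ⟨c ((l : ℤ) + j), hmem _⟩ + (l - 1) ≤ n + j := by
    intro j
    induction j with
    | zero =>
      have e1 := hdi (l - 1) (by omega)
      have e2 : (⟨c (((l - 1 : ℕ) : ℤ) + 1), hmem _⟩ : Y) = ⟨c ((l : ℤ) + ((0 : ℕ) : ℤ)), hmem _⟩ := by
        apply Subtype.ext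
        show c _ = c _
        congr 1
        omega
      rw [e2] at e1
      omega
    | succ j ih =>
      have e1 := hstep ((l : ℤ) + j)
      have e2 : (⟨c ((l : ℤ) + j + 1), hmem _⟩ : Y) = ⟨c ((l : ℤ) + ((j + 1 : ℕ) : ℤ)), hmem _⟩ := by
        apply Subtype.ext
        show c _ = c _
        congr 1
      rw [e2] at e1
      omega
  have hend := hfar (l - 1)
  have e1 : (⟨c ((l : ℤ) + ((l - 1 : ℕ) : ℤ)), hmem _⟩ : Y) = w := by
    apply Subtype.ext
    show c _ = _
    rw [← cm, hc.eq_iff]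
    exact ⟨1, by omega⟩
  rw [e1] at hend
  omega

end

theorem s_gate (h1 : S_E1.{u}) (_h3 : S_E3.{u}) : S_GATE.{u} := by
  intro V X hX Y hYne hYc htri hcyc x
  have hXc := hX.connected
  obtain ⟨y, hy⟩ : ∃ y : Y, ∀ y' : Y, X.dist x y ≤ X.dist x y' := by
    have : Nonempty Y := hYne.to_subtype
    obtain ⟨_, ⟨y, rfl⟩, hy⟩ := (wellFounded_lt (α := ℕ)).has_min
      (Set.range fun y : Y => X.dist x y) (Set.range_nonempty _)
    exact ⟨y, fun y' => not_lt.1 (hy _ ⟨y', rfl⟩)⟩
  have hH : (X.induce Y).Connected := by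
    have : Nonempty Y := hYne.to_subtype
    exact ⟨hYc⟩
  have key : ∀ n : ℕ, ∀ v : Y, (X.induce Y).dist y v = n → X.dist x v = X.dist x y + n := by
    intro n
    induction n using Nat.strong_induction_on with
    | _ n IH =>
      intro v hv
      have IH' : ∀ v : Y, (X.induce Y).dist y v < n →
          X.dist x v = X.dist x y + (X.induce Y).dist y v := fun v hv => IH _ hv v rfl
      match n, hv, IH' with
      | 0, hv, _ =>
        have := (hH.dist_eq_zero_iff).1 hv
        rw [this, add_zero]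
      | 1, hv, _ =>
        have hadj : (X.induce Y).Adj y v := dist_eq_one_iff_adj.1 hv
        have hadj' : X.Adj (y : V) v := hadj
        have e1 := gate_adj hXc x hadj'.symm
        have e2 := hy v
        by_contra hne
        have e3 : X.dist x y = X.dist x v := by omega
        obtain ⟨z, hz1, hz2, hz3, -⟩ := hX.triangle x y v e3 hadj'
        have hzY : z ∈ Y := htri y y.2 v v.2 z hadj' hz1 hz2
        have e4 : X.dist x y = X.dist x z + X.dist z y := hz3
        have e5 : X.dist z y = 1 := dist_eq_one_iff_adj.2 hz1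
        have e6 : X.dist x y ≤ X.dist x z := hy ⟨z, hzY⟩
        omega
      | n + 2, hv, IH' =>
        obtain ⟨y1, hy1, hd1⟩ := gate_prev hH hv
        obtain ⟨y2, hy2, hd2⟩ := gate_prev hH hd1
        have hy1' : X.Adj (y1 : V) v := hy1
        have hy2' : X.Adj (y2 : V) y1 := hy2
        have hx1 := IH' y1 (by omega)
        have hx2 := IH' y2 (by omega)
        rw [hd1] at hx1
        rw [hd2] at hx2
        have e1 := gate_adj hXc x hy1'
        have e2 := gate_adj hXc x hy1'.symm
        by_contra hne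
        rcases Nat.lt_or_ge (X.dist x v) (X.dist x y + (n + 1)) with hlt | hge
        · -- `d (x, v) = D + n`
          have e3 : X.dist x v = X.dist x y + n := by omega
          have hne' : v ≠ y2 := by
            rintro rfl
            omega
          have := gate_key h1 hX hH hcyc x y n IH' y1 y2 v hy2' hy1'.symm hne' hd1 hd2 e3
          omega
        · -- `d (x, v) = D + n + 1`
          have e3 : X.dist x y1 = X.dist x v := by omega
          obtain ⟨w, hw1, hw2, hw3, -⟩ := hX.triangle x y1 v e3 hy1'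
          have hwY : w ∈ Y := htri y1 y1.2 v v.2 w hy1' hw1 hw2
          have e4 : X.dist x y1 = X.dist x w + X.dist w y1 := hw3
          have e5 : X.dist w y1 = 1 := dist_eq_one_iff_adj.2 hw1
          have hadjH : (X.induce Y).Adj v ⟨w, hwY⟩ := hw2.symm
          have e6 : (X.induce Y).dist y v ≤ (X.induce Y).dist y ⟨w, hwY⟩ + 1 :=
            gate_adj hH y hadjH
          by_cases hwy : (⟨w, hwY⟩ : Y) = y2
          · rw [hwy] at e6
            omega
          · have := gate_key h1 hX hH hcyc x y n IH' y1 y2 ⟨w, hwY⟩ hy2' hw1 hwy hd1 hd2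
              (show X.dist x w = _ by omega)
            omega
  refine ⟨y, y.2, fun y' hy' => ?_⟩
  have e1 := key _ ⟨y', hy'⟩ rfl
  have e2 := gate_dist_le Y hYc y ⟨y', hy'⟩
  have e3 : X.dist x y' ≤ X.dist x y + X.dist y y' := hXc.dist_triangle
  have e4 : X.dist x y' = X.dist x y + (X.induce Y).dist y ⟨y', hy'⟩ := e1
  have e5 : X.dist y y' ≤ (X.induce Y).dist y ⟨y', hy'⟩ := e2
  omega

end Pool.Agent.H341.MA
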