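import Pool.Agent.H341.MA.St3

/-!
# GLUE
-/

set_option autoImplicit false

namespace Pool.Agent.H341.MA

universe u v

private lemma glue_supp_mono {Ω : Type u} {n : ℕ} {K L : Set (Fin n → Ω)} (h : K ⊆ L)
    {c : (Fin n → Ω) →₀ ℤ} (hc : SuppOn K c) : SuppOn L c := fun τ hτ => h (hc τ hτ)

private lemma glue_supp_add {Ω : Type u} {n : ℕ} {K : Set (Fin n → Ω)}
    {c d : (Fin n → Ω) →₀ ℤ} (hc : SuppOn K c) (hd : SuppOn K d) : SuppOn K (c + d) := by
  intro τ hτ
  by_cases h : c τ = 0
  · apply hd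
    intro h'
    apply hτ
    rw [Finsupp.add_apply, h, h', add_zero]
  · exact hc τ h

private lemma glue_supp_sub {Ω : Type u} {n : ℕ} {K : Set (Fin n → Ω)}
    {c d : (Fin n → Ω) →₀ ℤ} (hc : SuppOn K c) (hd : SuppOn K d) : SuppOn K (c - d) := by
  intro τ hτ
  by_cases h : c τ = 0
  · apply hd
    intro h'
    apply hτ
    rw [Finsupp.sub_apply, h, h', sub_zero]
  · exact hc τ h

private lemma glue_supp_sum {Ω α : Type u} {n : ℕ} {K : Set (Fin n → Ω)} (S : Finset α)
    (f : α → (Fin n → Ω) →₀ ℤ) (h : ∀ i ∈ S, SuppOn K (f i)) : SuppOn K (∑ i ∈ S, f i) := by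
  classical
  induction S using Finset.induction_on with
  | empty =>
    intro τ hτ
    simp at hτ
  | insert a s ha ih =>
    rw [Finset.sum_insert ha]
    exact glue_supp_add (h a (Finset.mem_insert_self a s))
      (ih fun i hi => h i (Finset.mem_insert_of_mem hi))

private lemma glue_supp_bd {Ω : Type u} (K : ∀ n : ℕ, Set (Fin n → Ω)) (hK : FaceClosed K)
    (n : ℕ) (c : (Fin (n + 1) → Ω) →₀ ℤ) (hc : SuppOn (K (n + 1)) c) :
    SuppOn (K n) (bd Ω n c) := by
  classical
  have h : bd Ω n c = ∑ τ ∈ c.support, c τ • (∑ i : Fin (n + 1), ((-1 : ℤ) ^ (i : ℕ)) •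
      Finsupp.single (fun j => τ (i.succAbove j)) (1 : ℤ)) := by
    simp only [bd, Finsupp.liftAddHom_apply, Finsupp.sum, zmultiplesHom_apply]
  rw [h]
  intro τ' hτ'
  by_contra hn
  apply hτ'
  rw [Finsupp.finsetSum_apply]
  refine Finset.sum_eq_zero fun τ hτ => ?_
  rw [Finsupp.smul_apply, Finsupp.finsetSum_apply]
  rw [Finset.sum_eq_zero, smul_zero]
  intro i _
  rw [Finsupp.smul_apply, Finsupp.single_apply, if_neg, smul_zero]
  intro he
  apply hn
  rw [← he]
  exact hK n τ (hc τ (Finsupp.mem_support_iff.mp hτ)) i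

open Classical in
theorem s_glue (hb : S_BB.{u}) : S_GLUE.{u} := by
  intro Ω ι K0 K h00 hF0 hF hint hA0 hA hA'
  have hsub0 : ∀ n, K0 n ⊆ K0 n ∪ ⋃ i, K i n := fun n => Set.subset_union_left
  have hsubi : ∀ i n, K i n ⊆ K0 n ∪ ⋃ i, K i n := fun i n =>
    (Set.subset_iUnion (fun i => K i n) i).trans Set.subset_union_right
  refine ⟨?_, ?_⟩
  · intro c _
    obtain ⟨b, hb1, hb2⟩ := hA0.1 c (fun τ _ => by rw [h00]; trivial)
    exact ⟨b, glue_supp_mono (hsub0 1) hb1, hb2⟩
  intro n c hc hbc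
  -- the index of a tuple
  have hidx : ∃ idx : (Fin (n + 1) → Ω) → Option ι, (∀ τ, c τ ≠ 0 → idx τ = none → τ ∈ K0 (n + 1)) ∧
      ∀ τ i, c τ ≠ 0 → idx τ = some i → τ ∈ K i (n + 1) := by
    refine ⟨fun τ => if h : ∃ i, τ ∈ K i (n + 1) then some (Classical.choose h) else none, ?_, ?_⟩
    · intro τ hτ hn
      rcases hc τ hτ with h | h
      · exact h
      · rw [Set.mem_iUnion] at h
        simp only [dif_pos h] at hn
        exact absurd hn (by simp)
    · intro τ i _ hs
      by_cases h : ∃ i, τ ∈ K i (n + 1)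
      · simp only [dif_pos h, Option.some_inj] at hs
        rw [← hs]
        exact Classical.choose_spec h
      · simp only [dif_neg h] at hs
        exact absurd hs (by simp)
  obtain ⟨idx, hidx0, hidx1⟩ := hidx
  have hCex : ∃ C : Option ι → (Fin (n + 1) → Ω) →₀ ℤ, (∀ o τ, idx τ = o → C o τ = c τ) ∧
      ∀ o τ, idx τ ≠ o → C o τ = 0 :=
    ⟨fun o => c.filter (fun τ => idx τ = o), fun o τ h => Finsupp.filter_apply_pos _ _ h,
      fun o τ h => Finsupp.filter_apply_neg _ _ h⟩
  obtain ⟨C, hCp, hCn⟩ := hCex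
  set S : Finset ι := (c.support.image idx).eraseNone with hS
  have hC0 : SuppOn (K0 (n + 1)) (C none) := by
    intro τ hτ
    by_cases h : idx τ = none
    · rw [hCp _ _ h] at hτ
      exact hidx0 τ hτ h
    · exact absurd (hCn _ _ h) hτ
  have hCi : ∀ i, SuppOn (K i (n + 1)) (C (some i)) := by
    intro i τ hτ
    by_cases h : idx τ = some i
    · rw [hCp _ _ h] at hτ
      exact hidx1 τ i hτ h
    · exact absurd (hCn _ _ h) hτ
  have hdec : c = C none + ∑ i ∈ S, C (some i) := by
    ext τ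
    rw [Finsupp.add_apply, Finsupp.finsetSum_apply]
    by_cases hτ : c τ = 0
    · have h0 : ∀ o, C o τ = 0 := by
        intro o
        by_cases h : idx τ = o
        · rw [hCp _ _ h, hτ]
        · exact hCn _ _ h
      rw [hτ, h0, Finset.sum_eq_zero fun i _ => h0 _, add_zero]
    · rcases hi : idx τ with _ | i
      · rw [hCp _ _ hi, Finset.sum_eq_zero, add_zero]
        intro i _
        exact hCn _ _ (by rw [hi]; simp)
      · have h1 : C none τ = 0 := hCn _ _ (by rw [hi]; simp)
        have hiS : i ∈ S := by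
          rw [hS, Finset.mem_eraseNone, Finset.mem_image]
          exact ⟨τ, Finsupp.mem_support_iff.mpr hτ, hi⟩
        rw [h1, zero_add, Finset.sum_eq_single i]
        · exact (hCp _ _ hi).symm
        · intro j _ hj
          exact hCn _ _ (by rw [hi]; simpa using hj.symm)
        · intro h
          exact absurd hiS h
  have hbdec : bd Ω n (C none) + ∑ i ∈ S, bd Ω n (C (some i)) = 0 := by
    rw [← map_sum, ← map_add, ← hdec, hbc]
  -- chains outside of `S` are zero
  have hCS : ∀ i, i ∉ S → C (some i) = 0 := by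
    intro i hi
    ext τ
    by_cases h : idx τ = some i
    · rw [hCp _ _ h, Finsupp.zero_apply]
      by_contra hτ
      apply hi
      rw [hS, Finset.mem_eraseNone, Finset.mem_image]
      exact ⟨τ, Finsupp.mem_support_iff.mpr hτ, h⟩
    · rw [hCn _ _ h, Finsupp.zero_apply]
  -- the boundary of each piece lies in `K0`
  have hbi : ∀ i, SuppOn (K i n ∩ K0 n) (bd Ω n (C (some i))) := by
    intro i τ hτ
    have h1 : τ ∈ K i n := glue_supp_bd _ (hF i) n _ (hCi i) τ hτ
    refine ⟨h1, ?_⟩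
    by_contra h0
    have hiS : i ∈ S := by
      by_contra hi
      rw [hCS i hi, map_zero] at hτ
      exact hτ rfl
    have h2 := DFunLike.congr_fun hbdec τ
    rw [Finsupp.add_apply, Finsupp.finsetSum_apply, Finsupp.zero_apply] at h2
    have h3 : bd Ω n (C none) τ = 0 := by
      by_contra h
      exact h0 (glue_supp_bd _ hF0 n _ hC0 τ h)
    rw [h3, zero_add, Finset.sum_eq_single i] at h2
    · exact hτ h2
    · intro j _ hj
      by_contra h
      exact h0 (hint i j hj.symm n ⟨h1, glue_supp_bd _ (hF j) n _ (hCi j) τ h⟩)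
    · intro h
      exact absurd hiS h
  have hw : ∀ i, ∃ w, SuppOn (K i (n + 1) ∩ K0 (n + 1)) w ∧ bd Ω n w = bd Ω n (C (some i)) := by
    intro i
    rcases n with _ | m
    · exact (hA' i).1 _ (hbi i)
    · exact (hA' i).2 m _ (hbi i) (hb Ω m _)
  choose w hw1 hw2 using hw
  have he : ∀ i, ∃ e, SuppOn (K i (n + 2)) e ∧ bd Ω (n + 1) e = C (some i) - w i := by
    intro i
    refine (hA i).2 n _ (glue_supp_sub (hCi i) (glue_supp_mono Set.inter_subset_left (hw1 i))) ?_
    rw [map_sub, hw2, sub_self]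
  choose e he1 he2 using he
  obtain ⟨e0, he01, he02⟩ := hA0.2 n (C none + ∑ i ∈ S, w i)
    (glue_supp_add hC0 (glue_supp_sum S _ fun i _ =>
      glue_supp_mono Set.inter_subset_right (hw1 i))) (by
      rw [map_add, map_sum]
      simp only [hw2]
      exact hbdec)
  refine ⟨e0 + ∑ i ∈ S, e i, glue_supp_add (glue_supp_mono (hsub0 _) he01)
    (glue_supp_sum S _ fun i _ => glue_supp_mono (hsubi i _) (he1 i)), ?_⟩
  rw [map_add, map_sum, he02]
  simp only [he2]
  rw [Finset.sum_sub_distrib]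
  rw [hdec]
  abel

end Pool.Agent.H341.MA
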