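import Pool.Agent.H341.MA.St1

/-! HAM: Hamming coordinates of mediangle graphs (written by helper94). -/

set_option autoImplicit false

namespace Pool.Agent.H341.MA

universe u v

open SimpleGraph

/-- the equivalence relation depends only on the clique -/
theorem ham_cls_congr {V : Type u} (X : SimpleGraph V) {x y x' y' : V} (h : Clq X x y = Clq X x' y') :
    cls X x y = cls X x' y' := by
  refine Setoid.ext ?_
  intro u v
  change (∀ w ∈ Clq X x y, ∀ w' ∈ Clq X x y, X.dist u w < X.dist u w' ↔ X.dist v w < X.dist v w') ↔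
    (∀ w ∈ Clq X x' y', ∀ w' ∈ Clq X x' y', X.dist u w < X.dist u w' ↔ X.dist v w < X.dist v w')
  rw [h]

/-- vertices with the same gate are equivalent -/
theorem ham_same_gate {V : Type u} (X : SimpleGraph V) {x y u v g : V}
    (hu : ∀ w ∈ Clq X x y, w ≠ g → X.dist u w = X.dist u g + 1)
    (hv : ∀ w ∈ Clq X x y, w ≠ g → X.dist v w = X.dist v g + 1) : (cls X x y) u v := by
  intro w hw w' hw'
  by_cases h1 : w = g <;> by_cases h2 : w' = g
  · rw [h1, h2]
    simp
  · have e1 := hu w' hw' h2
    have e2 := hv w' hw' h2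
    rw [h1]
    omega
  · have e1 := hu w hw h1
    have e2 := hv w hw h1
    rw [h2]
    omega
  · have e1 := hu w hw h1
    have e2 := hv w hw h1
    have e3 := hu w' hw' h2
    have e4 := hv w' hw' h2
    omega

theorem ham_left_mem {V : Type u} (X : SimpleGraph V) (x y : V) : x ∈ Clq X x y := Or.inl rfl

theorem ham_right_mem {V : Type u} (X : SimpleGraph V) (x y : V) : y ∈ Clq X x y := Or.inr (Or.inl rfl)

/-- if `v` is closer to `x` than to `y` then `x` is the gate of `v` -/
theorem ham_gate (hc : S_CLQ.{u}) {V : Type u} {X : SimpleGraph V} (hX : Mediangle X) {x y v : V}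
    (hxy : X.Adj x y) (h : X.dist v x < X.dist v y) :
    ∀ w ∈ Clq X x y, w ≠ x → X.dist v w = X.dist v x + 1 := by
  obtain ⟨g, hg, hg'⟩ := (hc V X hX x y hxy).2 v
  have hgx : g = x := by
    by_contra hne
    have h1 := hg' x (ham_left_mem X x y) (Ne.symm hne)
    by_cases h2 : y = g
    · rw [← h2] at h1
      omega
    · have h3 := hg' y (ham_right_mem X x y) h2
      omega
  rw [hgx] at hg'
  exact hg'

/-- the edge `xy` is separated by its own class -/
theorem ham_sep_self {V : Type u} {X : SimpleGraph V} {x y v : V} (hxy : X.Adj x y)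
    (h : X.dist v y < X.dist v x) : ¬ (cls X x y) x v := by
  intro hcon
  have h1 := (hcon x (ham_left_mem X x y) y (ham_right_mem X x y)).1 (by
    rw [SimpleGraph.dist_self, SimpleGraph.dist_eq_one_iff_adj.2 hxy]
    exact one_pos)
  omega

theorem s_ham (hc : S_CLQ.{u}) (hp : S_PAR.{u}) : S_HAM.{u} := by
  intro V X hX
  refine ⟨{s : Setoid V // ∃ x y, X.Adj x y ∧ s = cls X x y}, Set V, fun v h => {w | h.1 w v}, ?_⟩
  have hco : ∀ (u v : V) (h : {s : Setoid V // ∃ x y, X.Adj x y ∧ s = cls X x y}),
      ({w | h.1 w u} : Set V) = {w | h.1 w v} ↔ h.1 u v := by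
    intro u v h
    constructor
    · intro h1
      have h2 : u ∈ ({w | h.1 w u} : Set V) := h.1.refl' u
      rw [h1] at h2
      exact h2
    · intro h1
      ext w
      exact ⟨fun h2 => h.1.trans' h2 h1, fun h2 => h.1.trans' h2 (h.1.symm' h1)⟩
  -- the class of an edge
  have huniq : ∀ (u w : V) (huw : X.Adj u w) (h : {s : Setoid V // ∃ x y, X.Adj x y ∧ s = cls X x y}),
      ¬ h.1 u w → h = ⟨cls X u w, u, w, huw, rfl⟩ := by
    intro u w huw h h1
    obtain ⟨s, x, y, hxy, rfl⟩ := h
    exact Subtype.ext (hp V X hX u w x y huw hxy h1).symm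
  -- one step
  have hstep : ∀ (u w v : V) (huw : X.Adj u w), X.dist u v = X.dist w v + 1 →
      {h : {s : Setoid V // ∃ x y, X.Adj x y ∧ s = cls X x y} | ¬ h.1 u v} =
        insert (⟨cls X u w, u, w, huw, rfl⟩ : {s : Setoid V // ∃ x y, X.Adj x y ∧ s = cls X x y})
          {h | ¬ h.1 w v} ∧
      (⟨cls X u w, u, w, huw, rfl⟩ : {s : Setoid V // ∃ x y, X.Adj x y ∧ s = cls X x y}) ∉
        {h : {s : Setoid V // ∃ x y, X.Adj x y ∧ s = cls X x y} | ¬ h.1 w v} := by
    intro u w v huw hd
    have hd' : X.dist v w < X.dist v u := by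
      rw [SimpleGraph.dist_comm (u := v) (v := w), SimpleGraph.dist_comm (u := v) (v := u)]
      omega
    have hnot : (cls X u w) w v := by
      have hwu : Clq X w u = Clq X u w := by
        ext t
        simp only [Clq, Set.mem_ofPred_eq]
        tauto
      have h1 : X.dist w w < X.dist w u := by
        rw [SimpleGraph.dist_self, SimpleGraph.dist_eq_one_iff_adj.2 huw.symm]
        exact one_pos
      have g1 := ham_gate hc hX huw.symm h1
      have g2 := ham_gate hc hX huw.symm hd'
      rw [hwu] at g1 g2
      exact ham_same_gate X g1 g2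
    constructor
    · ext h
      simp only [Set.mem_ofPred_eq, Set.mem_insert_iff]
      constructor
      · intro h1
        by_cases h2 : h.1 u w
        · right
          intro h3
          exact h1 (h.1.trans' h2 h3)
        · left
          exact huniq u w huw h h2
      · rintro (h1 | h1)
        · rw [h1]
          exact ham_sep_self huw hd'
        · intro h2
          apply h1
          have h3 : h.1 u w := by
            by_contra h4
            have h5 := huniq u w huw h h4
            apply h1
            rw [h5]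
            exact hnot
          exact h.1.trans' (h.1.symm' h3) h2
    · intro h1
      exact h1 hnot
  have hmain : ∀ (n : ℕ) (u v : V), X.dist u v = n →
      {h : {s : Setoid V // ∃ x y, X.Adj x y ∧ s = cls X x y} | ¬ h.1 u v}.Finite ∧
      {h : {s : Setoid V // ∃ x y, X.Adj x y ∧ s = cls X x y} | ¬ h.1 u v}.ncard = n := by
    intro n
    induction n with
    | zero =>
      intro u v huv
      have h1 : u = v := hX.connected.dist_eq_zero_iff.1 huv
      subst h1
      have h2 : {h : {s : Setoid V // ∃ x y, X.Adj x y ∧ s = cls X x y} | ¬ h.1 u u} = ∅ := by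
        ext h
        simp only [Set.mem_ofPred_eq, Set.mem_empty_iff_false, iff_false, not_not]
        exact h.1.refl' u
      rw [h2]
      exact ⟨Set.finite_empty, Set.ncard_empty _⟩
    | succ n ih =>
      intro u v huv
      obtain ⟨w, huw, hwv⟩ : ∃ w, X.Adj u w ∧ X.dist w v = n := by
        obtain ⟨p, hp⟩ := hX.connected.exists_walk_length_eq_dist u v
        rw [huv] at hp
        cases p with
        | nil => simp at hp
        | @cons _ w _ huw q =>
          refine ⟨w, huw, ?_⟩
          rw [SimpleGraph.Walk.length_cons] at hp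
          have h1 := SimpleGraph.dist_le q
          have h2 := hX.connected.dist_triangle (u := u) (v := w) (w := v)
          rw [SimpleGraph.dist_eq_one_iff_adj.2 huw] at h2
          omega
      obtain ⟨h1, h2⟩ := hstep u w v huw (by rw [huv, hwv])
      obtain ⟨f1, f2⟩ := ih w v hwv
      rw [h1]
      exact ⟨f1.insert _, by rw [Set.ncard_insert_of_notMem h2 f1, f2]⟩
  have hset : ∀ u v : V, {h : {s : Setoid V // ∃ x y, X.Adj x y ∧ s = cls X x y} |
      ({w | h.1 w u} : Set V) ≠ {w | h.1 w v}} = {h | ¬ h.1 u v} := by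
    intro u v
    ext h
    simp only [Set.mem_ofPred_eq, Ne, hco]
  refine ⟨?_, ?_, ?_⟩
  · intro u v
    rw [hset]
    exact (hmain _ u v rfl).1
  · intro u v
    rw [hset]
    exact (hmain _ u v rfl).2
  · intro x y p hxy g hg
    simp only [Ne, hco] at hg
    have hg' := huniq x y hxy g hg
    obtain ⟨w, hw, hw'⟩ := (hc V X hX x y hxy).2 p
    refine ⟨w, ?_, ?_⟩
    · simp only [hco]
      rw [hg']
      refine ham_same_gate X (g := w) ?_ hw'
      intro t ht hne
      rw [SimpleGraph.dist_self, SimpleGraph.dist_eq_one_iff_adj.2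
        ((hc V X hX x y hxy).1 w hw t ht (Ne.symm hne)).1]
    · intro h hne
      simp only [hco]
      by_contra hcon
      have hwx : w ≠ x := by
        rintro rfl
        exact hcon (h.1.refl' w)
      obtain ⟨a1, a2⟩ := (hc V X hX x y hxy).1 w hw x (ham_left_mem X x y) hwx
      have h1 := huniq w x a1 h hcon
      apply hne
      rw [h1, hg']
      exact Subtype.ext (ham_cls_congr X a2)

end Pool.Agent.H341.MA
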