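import Pool.Agent.H341.MA.St2

/-!
# Mediangle graphs: LF, balls are finite (by helper603)
-/

set_option autoImplicit false

namespace Pool.Agent.H341.MA

universe u v

open SimpleGraph

theorem s_lf : S_LF.{u, v} := by
  intro V X G _ _ hX hG x n
  obtain ⟨S, hS, hcov⟩ := hG.cocompact
  have hA : ∀ s : V, {g : G | X.dist x (g • s) ≤ n}.Finite := by
    intro s
    rcases Set.eq_empty_or_nonempty {g : G | X.dist x (g • s) ≤ n} with h | ⟨g₀, hg₀⟩
    · rw [h]
      exact Set.finite_empty
    · have h1 := (hG.proper (g₀ • s) (2 * n)).image (fun h => h * g₀)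
      refine h1.subset ?_
      intro g hg
      refine ⟨g * g₀⁻¹, ?_, by simp⟩
      have hg' : X.dist x (g • s) ≤ n := hg
      have hg₀' : X.dist x (g₀ • s) ≤ n := hg₀
      have h2 : (g * g₀⁻¹) • g₀ • s = g • s := by
        rw [smul_smul, inv_mul_cancel_right]
      show X.dist (g₀ • s) ((g * g₀⁻¹) • g₀ • s) ≤ 2 * n
      rw [h2]
      have h3 : X.dist (g₀ • s) (g • s) ≤ X.dist (g₀ • s) x + X.dist x (g • s) := hX.dist_triangle
      rw [dist_comm (u := g₀ • s) (v := x)] at h3
      omega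
  refine (hS.biUnion fun s _ => (hA s).image fun g => g • s).subset ?_
  intro y hy
  obtain ⟨g, s, hs, rfl⟩ := hcov y
  rw [Set.mem_iUnion₂]
  exact ⟨s, hs, g, hy, rfl⟩

end Pool.Agent.H341.MA
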