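import Pool.Agent.H341.MA.St2

set_option autoImplicit false

namespace Pool.Agent.H341.MA

universe u v

open SimpleGraph

section Move

variable {V η σ : Type u} {X : SimpleGraph V} {co : V → η → σ}

/-- a lower edge with a third common neighbour: the even convex cycle is a square -/
theorem Move_sq (h3 : S_E3.{u}) (hb : S_BOX.{u}) (ht : S_THICK.{u}) (hM : Mediangle X)
    (hH : Ham X co) {o q p s r : V} (hqp : X.Adj q p) (hqs : X.Adj q s) (hps : p ≠ s)
    (hp : p ∈ Box co o q) (hs : s ∈ Box co o q) (hrq : X.Adj r q) (hrs : X.Adj r s) :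
    ∃ t, X.Adj p t ∧ t ∈ Box co o p ∧ t ∈ Box co o s := by
  obtain ⟨-, b2, -, -, -⟩ := hb V X η σ co hM.connected hH
  have hd : ∀ a, X.Adj q a → a ∈ Box co o q → X.dist o a + 1 = X.dist o q := by
    intro a ha ha'
    rw [← b2] at ha'
    have h1 : X.dist o q = X.dist o a + X.dist a q := ha'
    have h2 : X.dist a q = 1 := SimpleGraph.dist_eq_one_iff_adj.2 ha.symm
    rw [h1, h2]
  obtain ⟨l, c, hc, c0, c1, cm, hl1, hl2⟩ := hM.cycle o p s q hps hqp hqs (hd p hqp hp) (hd s hqs hs)
  have hc' := (h3 V X l c hc 0).2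
  have hl : l = 2 := by
    refine ht V X hM l _ hc' r ?_ ?_
    · simpa [c0] using hrq
    · simpa [cm] using hrs
  subst hl
  refine ⟨c 2, ?_, ?_, ?_⟩
  · have h1 := hc.adj 1
    rw [c1] at h1
    simpa using h1
  · rw [← b2]
    simpa using hl1
  · rw [← b2]
    simpa using hl2

/-- the antipode of `u` in the box of `v, w`: the coordinates -/
theorem Move_ant {v w u : V} (ha : Ant co v w) (hu : u ∈ Box co v w) :
    ∃ u' ∈ Box co v w, (∀ h, co u h = co v h → co u' h = co w h) ∧
      (∀ h, co u h = co w h → co u' h = co v h) ∧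
      (∀ h, co v h ≠ co w h → co u h ≠ co u' h) := by
  obtain ⟨u', hu', hd⟩ := ha u hu
  refine ⟨u', hu', ?_, ?_, hd⟩
  · intro h hh
    by_cases he : co v h = co w h
    · rcases hu' h with h1 | h1
      · rw [h1, he]
      · exact h1
    · rcases hu' h with h1 | h1
      · exact absurd (hh.trans h1.symm) (hd h he)
      · exact h1
  · intro h hh
    by_cases he : co v h = co w h
    · rcases hu' h with h1 | h1
      · exact h1
      · rw [h1, he]
    · rcases hu' h with h1 | h1
      · exact h1
      · exact absurd (hh.trans h1.symm) (hd h he)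

/-- points of the box of `v, w` lie in the box of a point and its antipode -/
theorem Move_box {v w q q' p : V} (hq : q ∈ Box co v w)
    (h1 : ∀ h, co q h = co v h → co q' h = co w h) (h2 : ∀ h, co q h = co w h → co q' h = co v h)
    (hp : p ∈ Box co v w) : p ∈ Box co q' q := by
  intro h
  rcases hq h with hh | hh
  · rw [h1 h hh, hh]
    exact (hp h).symm
  · rw [h2 h hh, hh]
    exact hp h

variable {v w v' : V} {g : η}

/-- Claim 1 -/
theorem Move_one (h3 : S_E3.{u}) (hb : S_BOX.{u}) (ht : S_THICK.{u}) (hM : Mediangle X)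
    (hH : Ham X co) (ha : Ant co v w) (hvw : co v g ≠ co w g) (hv'v : co v' g ≠ co v g)
    (hv' : ∀ h, h ≠ g → co v' h = co v h) (hv'w : co v' g ≠ co w g) :
    ∀ (n : ℕ) (p : V), X.dist p v = n → p ∈ Box co v w → co p g = co v g →
      (∃ a, co a g = co w g ∧ ∀ h, h ≠ g → co a h = co p h) ∧
      (∃ r, co r g = co v' g ∧ ∀ h, h ≠ g → co r h = co p h) := by
  obtain ⟨b1, b2, b3, b4, b5⟩ := hb V X η σ co hM.connected hH
  intro n
  induction n with
  | zero =>
    intro p hp _ _
    have hpv : p = v := (hM.connected.dist_eq_zero_iff).1 hp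
    subst hpv
    refine ⟨?_, v', rfl, hv'⟩
    have hadj : X.Adj p v' := (b3 p v').2 ⟨g, hv'v.symm, fun h hh => (hv' h hh).symm⟩
    exact hH.proj p v' w hadj g hv'v.symm
  | succ n ih =>
    intro p hp hpA hpg
    have hne : p ≠ v := by
      rintro rfl
      rw [SimpleGraph.dist_self] at hp
      exact absurd hp (Nat.succ_ne_zero n).symm
    obtain ⟨q, hpq, hq, hdq⟩ := b5 p v hne
    rw [b2] at hq
    have hqn : X.dist q v = n := by omega
    have hqg : co q g = co v g := by
      rcases hq g with h | h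
      · rw [h, hpg]
      · exact h
    have hqA : q ∈ Box co v w := by
      intro h
      rcases hq h with hh | hh
      · rw [hh]
        exact hpA h
      · exact Or.inl hh
    obtain ⟨⟨a, hag, hah⟩, ⟨r, hrg, hrh⟩⟩ := ih q hqn hqA hqg
    obtain ⟨q', hq'A, hq'1, hq'2, hq'3⟩ := Move_ant ha hqA
    have haA : a ∈ Box co v w := by
      intro h
      by_cases hh : h = g
      · rw [hh]
        exact Or.inr hag
      · rw [hah h hh]
        exact hqA h
    have hqa : X.Adj q a := (b3 q a).2 ⟨g, by rw [hqg, hag]; exact hvw, fun h hh => (hah h hh).symm⟩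
    have hrq : X.Adj r q := (b3 r q).2 ⟨g, by rw [hqg, hrg]; exact hv'v, hrh⟩
    have hra : X.Adj r a := (b3 r a).2 ⟨g, by rw [hrg, hag]; exact hv'w,
      fun h hh => by rw [hrh h hh, hah h hh]⟩
    have hpa : p ≠ a := by
      intro h
      rw [h, hag] at hpg
      exact hvw hpg.symm
    obtain ⟨t, hpt, ht1, ht2⟩ := Move_sq h3 hb ht hM hH (o := q') hpq.symm hqa hpa
      (Move_box hqA hq'1 hq'2 hpA) (Move_box hqA hq'1 hq'2 haA) hrq hra
    have htg : co t g = co w g := by
      rcases ht2 g with h | h
      · rw [h, hq'1 g hqg]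
      · rw [h, hag]
    obtain ⟨g', hg', hth⟩ := (b3 p t).1 hpt
    have hgg : g' = g := by
      by_contra hcon
      have h1 := hth g (Ne.symm hcon)
      rw [hpg, htg] at h1
      exact hvw h1
    rw [hgg] at hth hg'
    refine ⟨⟨t, htg, fun h hh => (hth h hh).symm⟩, ?_⟩
    exact hH.proj p t v' hpt g hg'

/-- Claim 2 -/
theorem Move_two (h3 : S_E3.{u}) (hb : S_BOX.{u}) (ht : S_THICK.{u}) (hM : Mediangle X)
    (hH : Ham X co) (ha : Ant co v w) (hvw : co v g ≠ co w g) (hv'v : co v' g ≠ co v g)
    (hv' : ∀ h, h ≠ g → co v' h = co v h) (hv'w : co v' g ≠ co w g)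
    {β : V} (hβg : co β g = co v g) (hβ : ∀ h, h ≠ g → co β h = co w h) :
    ∀ (n : ℕ) (u : V), X.dist u v' = n → u ∈ Box co v' w → co u g = co v' g →
      ∃ p, co p g = co v g ∧ ∀ h, h ≠ g → co p h = co u h := by
  obtain ⟨b1, b2, b3, b4, b5⟩ := hb V X η σ co hM.connected hH
  intro n
  induction n with
  | zero =>
    intro u hu _ _
    have huv : u = v' := (hM.connected.dist_eq_zero_iff).1 hu
    subst huv
    exact ⟨v, rfl, fun h hh => (hv' h hh).symm⟩
  | succ n ih =>
    intro u hu huA hug
    have hne : u ≠ v' := by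
      rintro rfl
      rw [SimpleGraph.dist_self] at hu
      exact absurd hu (Nat.succ_ne_zero n).symm
    obtain ⟨q1, huq, hq1, hdq⟩ := b5 u v' hne
    rw [b2] at hq1
    have hqn : X.dist q1 v' = n := by omega
    have hq1g : co q1 g = co v' g := by
      rcases hq1 g with h | h
      · rw [h, hug]
      · exact h
    have hq1A : q1 ∈ Box co v' w := by
      intro h
      rcases hq1 h with hh | hh
      · rw [hh]
        exact huA h
      · exact Or.inl hh
    obtain ⟨q, hqg, hqh⟩ := ih q1 hqn hq1A hq1g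
    have hqA : q ∈ Box co v w := by
      intro h
      by_cases hh : h = g
      · rw [hh]
        exact Or.inl hqg
      · rw [hqh h hh, ← hv' h hh]
        exact hq1A h
    obtain ⟨⟨a, hag, hah⟩, -⟩ := Move_one h3 hb ht hM hH ha hvw hv'v hv' hv'w _ q rfl hqA hqg
    obtain ⟨g', hg', huh⟩ := (b3 u q1).1 huq
    have hgg : g' ≠ g := by
      rintro rfl
      rw [hug, hq1g] at hg'
      exact hg' rfl
    have hqv' : co q1 g' = co v' g' := by
      rcases hq1 g' with h | h
      · exact absurd h.symm hg'
      · exact h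
    have huw : co u g' = co w g' := by
      rcases huA g' with h | h
      · exact absurd (h.trans hqv'.symm) hg'
      · exact h
    have hq1q : X.Adj q1 q := (b3 q1 q).2 ⟨g, by rw [hq1g, hqg]; exact hv'v,
      fun h hh => (hqh h hh).symm⟩
    have haq : X.Adj a q := (b3 a q).2 ⟨g, by rw [hag, hqg]; exact hvw.symm, hah⟩
    have haq1 : X.Adj a q1 := (b3 a q1).2 ⟨g, by rw [hag, hq1g]; exact hv'w.symm,
      fun h hh => by rw [hah h hh, hqh h hh]⟩
    have huq' : u ≠ q := by
      intro h
      rw [h, hqg] at hug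
      exact hv'v hug.symm
    have hub : u ∈ Box co β q1 := by
      intro h
      by_cases hh : h = g'
      · left
        rw [hh, huw, hβ g' hgg]
      · right
        exact huh h hh
    have hqb : q ∈ Box co β q1 := by
      intro h
      by_cases hh : h = g
      · left
        rw [hh, hqg, hβg]
      · right
        exact hqh h hh
    obtain ⟨t, hut, ht1, ht2⟩ := Move_sq h3 hb ht hM hH (o := β) huq.symm hq1q huq' hub hqb haq1 haq
    have htg : co t g = co v g := by
      rcases ht2 g with h | h
      · rw [h, hβg]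
      · rw [h, hqg]
    obtain ⟨g'', hg'', hth⟩ := (b3 u t).1 hut
    have hgg'' : g'' = g := by
      by_contra hcon
      have h1 := hth g (Ne.symm hcon)
      rw [hug, htg] at h1
      exact hv'v h1
    rw [hgg''] at hth
    exact ⟨t, htg, fun h hh => (hth h hh).symm⟩

end Move

theorem s_move (_h1 : S_E1.{u}) (_h2 : S_E2.{u}) (h3 : S_E3.{u}) (hb : S_BOX.{u})
    (ht : S_THICK.{u}) : S_MOVE.{u} := by
  intro V X η σ co hM hH v w v' g ha hvw hv'v hv' hv'w
  obtain ⟨b1, b2, b3, b4, b5⟩ := hb V X η σ co hM.connected hH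
  have one := fun p => Move_one h3 hb ht hM hH ha hvw hv'v hv' hv'w _ p rfl
  have hvA : v ∈ Box co v w := fun h => Or.inl rfl
  obtain ⟨⟨v2, hv2g, hv2h⟩, -⟩ := one v hvA rfl
  have hv2A : v2 ∈ Box co v w := by
    intro h
    by_cases hh : h = g
    · rw [hh]
      exact Or.inr hv2g
    · exact Or.inl (hv2h h hh)
  obtain ⟨β, hβA, hβ1, hβ2, -⟩ := Move_ant ha hv2A
  have hβg : co β g = co v g := hβ2 g hv2g
  have hβh : ∀ h, h ≠ g → co β h = co w h := fun h hh => hβ1 h (hv2h h hh)
  have two := fun u => Move_two h3 hb ht hM hH ha hvw hv'v hv' hv'w hβg hβh _ u rfl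
  refine ⟨?_, ?_⟩
  · intro u hu
    by_cases hug : co u g = co v' g
    · obtain ⟨p, hpg, hph⟩ := two u hu hug
      have hpA : p ∈ Box co v w := by
        intro h
        by_cases hh : h = g
        · rw [hh]
          exact Or.inl hpg
        · rw [hph h hh, ← hv' h hh]
          exact hu h
      obtain ⟨p', hp'A, hp'1, hp'2, hp'3⟩ := Move_ant ha hpA
      refine ⟨p', ?_, ?_⟩
      · intro h
        by_cases hh : h = g
        · rw [hh]
          exact Or.inr (hp'1 g hpg)
        · rw [hv' h hh]
          exact hp'A h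
      · intro h hne
        by_cases hh : h = g
        · rw [hh, hug, hp'1 g hpg]
          exact hv'w
        · rw [hv' h hh] at hne
          rw [← hph h hh]
          exact hp'3 h hne
    · have hug' : co u g = co w g := (hu g).resolve_left hug
      have huA : u ∈ Box co v w := by
        intro h
        by_cases hh : h = g
        · rw [hh]
          exact Or.inr hug'
        · rw [← hv' h hh]
          exact hu h
      obtain ⟨u', hu'A, hu'1, hu'2, hu'3⟩ := Move_ant ha huA
      obtain ⟨-, r, hrg, hrh⟩ := one u' hu'A (hu'2 g hug')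
      refine ⟨r, ?_, ?_⟩
      · intro h
        by_cases hh : h = g
        · rw [hh]
          exact Or.inl hrg
        · rw [hrh h hh, hv' h hh]
          exact hu'A h
      · intro h hne
        by_cases hh : h = g
        · rw [hh, hug', hrg]
          exact hv'w.symm
        · rw [hv' h hh] at hne
          rw [hrh h hh]
          exact hu'3 h hne
  · obtain ⟨-, r, hrg, hrh⟩ := one β hβA hβg
    exact ⟨r, hrg, fun h hh => by rw [hrh h hh, hβh h hh]⟩

end Pool.Agent.H341.MA
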