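import Pool.Agent.H341.MA.St2

/-!
# Mediangle graphs: OPP
-/

set_option autoImplicit false

namespace Pool.Agent.H341.MA

universe u v

open SimpleGraph

/-- `v, w` is an antipodal pair with the separating directions of `b, z`. -/
structure OppGood {V η σ : Type u} (co : V → η → σ) (b z v w : V) : Prop where
  sub : w ∈ Sub co b z
  ant : Ant co v w
  sep : ∀ h, co b h ≠ co z h → co v h ≠ co w h

theorem opp_box_symm {V η σ : Type u} (co : V → η → σ) (v w : V) : Box co v w = Box co w v := by
  ext u
  exact ⟨fun h i => (h i).symm, fun h i => (h i).symm⟩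

theorem opp_ant_symm {V η σ : Type u} {co : V → η → σ} {v w : V} (h : Ant co v w) :
    Ant co w v := by
  intro u hu
  rw [opp_box_symm] at hu
  obtain ⟨u', h1, h2⟩ := h u hu
  refine ⟨u', ?_, fun i hi => h2 i hi.symm⟩
  rw [opp_box_symm]
  exact h1

/-- if `v` is in the box of the antipodal pair `q, w` and `v'` is its antipode then `v, v'` is an
antipodal pair -/
theorem opp_ant_of_antipode {V η σ : Type u} {co : V → η → σ} {q w v v' : V} (h : Ant co q w)
    (hv : v ∈ Box co q w) (hv' : v' ∈ Box co q w)
    (ha : ∀ i, co q i ≠ co w i → co v i ≠ co v' i) : Ant co v v' := by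
  intro u hu
  have hu' : u ∈ Box co q w := by
    intro i
    rcases hu i with h1 | h1
    · rcases hv i with h2 | h2
      · exact Or.inl (h1.trans h2)
      · exact Or.inr (h1.trans h2)
    · rcases hv' i with h2 | h2
      · exact Or.inl (h1.trans h2)
      · exact Or.inr (h1.trans h2)
  obtain ⟨u', h1, h2⟩ := h u hu'
  have hne : ∀ i, co v i ≠ co v' i → co q i ≠ co w i := by
    intro i hi h0
    apply hi
    have e1 : co v i = co q i := by
      rcases hv i with h3 | h3
      · exact h3
      · exact h3.trans h0.symm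
    have e2 : co v' i = co q i := by
      rcases hv' i with h3 | h3
      · exact h3
      · exact h3.trans h0.symm
    rw [e1, e2]
  refine ⟨u', ?_, fun i hi => h2 i (hne i hi)⟩
  intro i
  by_cases h0 : co q i = co w i
  · left
    have e1 : co v i = co q i := by
      rcases hv i with h3 | h3
      · exact h3
      · exact h3.trans h0.symm
    have e2 : co u' i = co q i := by
      rcases h1 i with h3 | h3
      · exact h3
      · exact h3.trans h0.symm
    rw [e1, e2]
  · have h3 := ha i h0
    rcases hv i with h4 | h4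
    · rcases hv' i with h5 | h5
      · exact absurd (h4.trans h5.symm) h3
      · rcases h1 i with h6 | h6
        · exact Or.inl (h6.trans h4.symm)
        · exact Or.inr (h6.trans h5.symm)
    · rcases hv' i with h5 | h5
      · rcases h1 i with h6 | h6
        · exact Or.inr (h6.trans h5.symm)
        · exact Or.inl (h6.trans h4.symm)
      · exact absurd (h4.trans h5.symm) h3

/-- step (1) -/
theorem opp_exists (hb : S_BOX.{u}) (hm : S_MOVE.{u}) {V : Type u} {X : SimpleGraph V}
    {η σ : Type u} {co : V → η → σ} (hX : Mediangle X) (hH : Ham X co) {b z : V}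
    (hbz : Ant co b z) (n : ℕ) : ∀ v ∈ Sub co b z, X.dist v b = n → ∃ w, OppGood co b z v w := by
  obtain ⟨-, B2, B3, -, B5⟩ := hb V X η σ co hX.connected hH
  induction n with
  | zero =>
    intro v _ h0
    have hvb : v = b := (hX.connected.dist_eq_zero_iff).1 h0
    subst hvb
    exact ⟨z, fun h hh => hh.symm, hbz, fun h hh => hh⟩
  | succ n ih =>
    intro v hv hd
    have hvb : v ≠ b := by
      rintro rfl
      rw [SimpleGraph.dist_self] at hd
      omega
    obtain ⟨q, hadj, hq, hdq⟩ := B5 v b hvb
    have hqn : X.dist q b = n := by omega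
    rw [B2] at hq
    have hqS : q ∈ Sub co b z := by
      intro h hh
      rcases hq h with h1 | h1
      · exact h1.trans (hv h hh)
      · exact h1
    obtain ⟨w, hw⟩ := ih q hqS hqn
    obtain ⟨g, hg, hne⟩ := (B3 v q).1 hadj
    have hgH : co b g ≠ co z g := by
      intro h0
      exact hg ((hv g h0).trans (hqS g h0).symm)
    by_cases hvw : co v g = co w g
    · have hvB : v ∈ Box co q w := by
        intro h
        by_cases hh : h = g
        · rw [hh]; exact Or.inr hvw
        · exact Or.inl (hne h hh)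
      obtain ⟨v', h1, h2⟩ := hw.ant v hvB
      refine ⟨v', ?_, opp_ant_of_antipode hw.ant hvB h1 h2, fun h hh => h2 h (hw.sep h hh)⟩
      intro h hh
      rcases h1 h with h3 | h3
      · exact h3.trans (hqS h hh)
      · exact h3.trans (hw.sub h hh)
    · obtain ⟨h1, -⟩ := hm V X η σ co hX hH q w v g hw.ant (hw.sep g hgH) hg hne hvw
      refine ⟨w, hw.sub, h1, fun h hh => ?_⟩
      by_cases hhg : h = g
      · rw [hhg]; exact hvw
      · rw [hne h hhg]; exact hw.sep h hh

/-- step (2) -/
theorem opp_adjust (hm : S_MOVE.{u}) {V : Type u} {X : SimpleGraph V}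
    {η σ : Type u} {co : V → η → σ} (hX : Mediangle X) (hH : Ham X co) {b z v w x : V} {g : η}
    (hv : v ∈ Sub co b z) (hw : OppGood co b z v w) (hx : x ∈ Sub co b z)
    (hg : co v g ≠ co x g) (hne : ∀ h, h ≠ g → co v h = co x h) :
    ∃ w₁, OppGood co b z v w₁ ∧ co w₁ g = co x g ∧ ∀ h, h ≠ g → co w₁ h = co w h := by
  have hgH : co b g ≠ co z g := by
    intro h0
    exact hg ((hv g h0).trans (hx g h0).symm)
  by_cases hwx : co w g = co x g
  · exact ⟨w, hw, hwx, fun h _ => rfl⟩
  · obtain ⟨-, w', h1, h2⟩ := hm V X η σ co hX hH v w x g hw.ant (hw.sep g hgH) hg.symm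
      (fun h hh => (hne h hh).symm) (fun h0 => hwx h0.symm)
    have h3 : co w' g ≠ co w g := by
      rw [h1]
      exact fun h0 => hwx h0.symm
    have h4 : co w' g ≠ co v g := by
      rw [h1]
      exact hg.symm
    obtain ⟨h5, -⟩ := hm V X η σ co hX hH w v w' g (opp_ant_symm hw.ant) (hw.sep g hgH).symm h3
      h2 h4
    refine ⟨w', ⟨?_, opp_ant_symm h5, ?_⟩, h1, h2⟩
    · intro h hh
      have hhg : h ≠ g := by
        rintro rfl
        exact hgH hh
      rw [h2 h hhg]
      exact hw.sub h hh
    · intro h hh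
      by_cases hhg : h = g
      · rw [hhg]; exact h4.symm
      · rw [h2 h hhg]; exact hw.sep h hh

/-- OPP. -/
theorem s_opp (hb : S_BOX.{u}) (hm : S_MOVE.{u}) : S_OPP.{u} := by
  intro V X η σ co hX hH b z hbz v hv x hx y hy hvx hvy hxy hnadj
  obtain ⟨B1, B2, B3, -, B5⟩ := hb V X η σ co hX.connected hH
  obtain ⟨w, hw⟩ := opp_exists hb hm hX hH hbz (X.dist v b) v hv rfl
  obtain ⟨gx, hgx, hnx⟩ := (B3 v x).1 hvx
  obtain ⟨gy, hgy, hny⟩ := (B3 v y).1 hvy
  have hgg : gx ≠ gy := by
    rintro rfl
    by_cases h0 : co x gx = co y gx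
    · apply hxy
      apply B1
      intro h
      by_cases hh : h = gx
      · rw [hh]; exact h0
      · exact (hnx h hh).symm.trans (hny h hh)
    · exact hnadj ((B3 x y).2 ⟨gx, h0, fun h hh => (hnx h hh).symm.trans (hny h hh)⟩)
  obtain ⟨w₁, hw₁, h1, h2⟩ := opp_adjust hm hX hH hv hw hx hgx hnx
  obtain ⟨w₂, hw₂, h3, h4⟩ := opp_adjust hm hX hH hv hw₁ hy hgy hny
  refine ⟨w₂, hw₂.sub, ?_, ?_⟩
  · intro h
    by_cases hh : h = gx
    · right
      rw [hh, h4 gx hgg, h1]
    · exact Or.inl (hnx h hh).symm
  · intro h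
    by_cases hh : h = gy
    · right
      rw [hh, h3]
    · exact Or.inl (hny h hh).symm

end Pool.Agent.H341.MA
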