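import Pool.Agent.H341.MA.St1

/-!
# PP: opposite edges of an even convex cycle define the same sectors
-/

set_option autoImplicit false

namespace Pool.Agent.H341.MA

universe u v

open SimpleGraph

/-- `g` is the gate of `v` in the clique `Clq X x y` -/
private def PPG {V : Type u} (X : SimpleGraph V) (x y v g : V) : Prop :=
  g ∈ Clq X x y ∧ ∀ w ∈ Clq X x y, w ≠ g → X.dist v w = X.dist v g + 1

private theorem pp_left_mem {V : Type u} (X : SimpleGraph V) (x y : V) : x ∈ Clq X x y :=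
  Or.inl rfl

private theorem pp_right_mem {V : Type u} (X : SimpleGraph V) (x y : V) : y ∈ Clq X x y :=
  Or.inr (Or.inl rfl)

/-- a point of the clique which is closer than another one is the gate -/
private theorem pp_gate_of_lt (hc : S_CLQ.{u}) {V : Type u} {X : SimpleGraph V} (hX : Mediangle X)
    {x y : V} (hxy : X.Adj x y) {v w w' : V} (hw : w ∈ Clq X x y) (hw' : w' ∈ Clq X x y)
    (h : X.dist v w < X.dist v w') : PPG X x y v w := by
  obtain ⟨g, hg, hg'⟩ := (hc V X hX x y hxy).2 v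
  by_cases hwg : w = g
  · subst hwg
    exact ⟨hw, hg'⟩
  · exfalso
    have e1 := hg' w hw hwg
    by_cases hwg' : w' = g
    · subst hwg'
      omega
    · have e2 := hg' w' hw' hwg'
      omega

private theorem pp_lt_of_gate {V : Type u} {X : SimpleGraph V} {x y v g w : V}
    (h : PPG X x y v g) (hw : w ∈ Clq X x y) (hne : w ≠ g) : X.dist v g < X.dist v w := by
  have := h.2 w hw hne
  omega

/-- same gate in the clique: same class -/
private theorem pp_cls_of_gate {V : Type u} {X : SimpleGraph V} {x y u v g : V}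
    (hu : PPG X x y u g) (hv : PPG X x y v g) : cls X x y u v := by
  intro w hw w' hw'
  by_cases h1 : w = g
  · subst h1
    by_cases h2 : w' = w
    · subst h2
      exact ⟨fun h => absurd h (lt_irrefl _), fun h => absurd h (lt_irrefl _)⟩
    · exact ⟨fun _ => pp_lt_of_gate hv hw' h2, fun _ => pp_lt_of_gate hu hw' h2⟩
  · have a1 := hu.2 w hw h1
    have a2 := hv.2 w hw h1
    by_cases h2 : w' = g
    · subst h2
      constructor
      · intro h; omega
      · intro h; omega
    · have b1 := hu.2 w' hw' h2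
      have b2 := hv.2 w' hw' h2
      constructor
      · intro h; omega
      · intro h; omega

/-- same class: same gate in the clique -/
private theorem pp_gate_of_cls (hc : S_CLQ.{u}) {V : Type u} {X : SimpleGraph V}
    (hX : Mediangle X) {x y u v : V} (hxy : X.Adj x y) (h : cls X x y u v) :
    ∃ g, PPG X x y u g ∧ PPG X x y v g := by
  obtain ⟨g, hg, hg'⟩ := (hc V X hX x y hxy).2 u
  have hG : PPG X x y u g := ⟨hg, hg'⟩
  refine ⟨g, hG, ?_⟩
  -- another element of the clique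
  have hne : ∃ w ∈ Clq X x y, w ≠ g := by
    by_cases hxg : x = g
    · exact ⟨y, pp_right_mem X x y, fun hyg => X.irrefl (by rw [hxg, hyg] at hxy; exact hxy)⟩
    · exact ⟨x, pp_left_mem X x y, hxg⟩
  obtain ⟨w, hw, hwg⟩ := hne
  exact pp_gate_of_lt hc hX hxy hg hw ((h g hg w hw).mp (pp_lt_of_gate hG hw hwg))

/-- correspondence between the elements of opposite cliques -/
private theorem pp_corr (h3 : S_E3.{u}) (hc : S_CLQ.{u}) (ht : S_THICK.{u}) (hw : S_WSQ.{u})
    (hW : S_W.{u}) {V : Type u} {X : SimpleGraph V} (hX : Mediangle X) {l : ℕ} {c : ℤ → V}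
    (he : EvenConvexCycle X l c) (e : V) (hemem : e ∈ Clq X (c 0) (c 1)) :
    ∃ e' , ∀ v, PPG X (c 0) (c 1) v e → PPG X (c (l + 1)) (c l) v e' := by
  have a01 : X.Adj (c 0) (c 1) := by simpa using he.adj 0
  have al : X.Adj (c (l + 1)) (c l) := (he.adj l).symm
  have hper : ∀ i : ℤ, c (i + 2 * (l : ℤ)) = c i := by
    intro i
    rw [he.eq_iff]
    exact ⟨1, by ring⟩
  by_cases e0 : e = c 0
  · subst e0
    refine ⟨c (l + 1), fun v hv => ?_⟩
    have hlt := pp_lt_of_gate hv (pp_right_mem X (c 0) (c 1)) a01.ne'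
    exact pp_gate_of_lt hc hX al (pp_left_mem X _ _) (pp_right_mem X _ _)
      ((hW V X hX l c he v).mp hlt)
  by_cases e1 : e = c 1
  · subst e1
    refine ⟨c l, fun v hv => ?_⟩
    have hlt := pp_lt_of_gate hv (pp_left_mem X (c 0) (c 1)) a01.ne
    obtain ⟨-, hr⟩ := h3 V X l c he 1
    have hW' := (hW V X hX l _ hr v)
    have q0 : (1 : ℤ) - 0 = 1 := by ring
    have q1 : (1 : ℤ) - 1 = 0 := by ring
    have q2 : c (1 - ((l : ℤ) + 1)) = c l := by
      have := hper (1 - ((l : ℤ) + 1))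
      rw [← this]
      have e : 1 - ((l : ℤ) + 1) + 2 * (l : ℤ) = l := by ring
      rw [e]
    have q3 : c (1 - (l : ℤ)) = c (l + 1) := by
      have := hper (1 - (l : ℤ))
      rw [← this]
      have e : 1 - (l : ℤ) + 2 * (l : ℤ) = l + 1 := by ring
      rw [e]
    rw [q0, q1, q2, q3] at hW'
    exact pp_gate_of_lt hc hX al (pp_right_mem X _ _) (pp_left_mem X _ _) (hW'.mp hlt)
  -- third common neighbour
  obtain ⟨ax, ay⟩ : X.Adj e (c 0) ∧ X.Adj e (c 1) := by
    rcases hemem with h | h | h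
    · exact absurd h e0
    · exact absurd h e1
    · exact h
  have hl : l = 2 := ht V X hX l c he e ax ay
  subst hl
  have p2 : ((2 : ℕ) : ℤ) + 1 = 3 := by norm_num
  have p2' : ((2 : ℕ) : ℤ) = 2 := by norm_num
  rw [p2] at al ⊢
  rw [p2'] at al ⊢
  have a12 : X.Adj (c 1) (c 2) := by simpa using he.adj 1
  have a30 : X.Adj (c 3) (c 0) := by
    have h := he.adj 3
    have h4 : c (3 + 1) = c 0 := by
      have := hper 0
      simp only [p2'] at this
      rw [← this]
      norm_num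
    rwa [h4] at h
  have n13 : ¬ X.Adj (c 1) (c 3) := by
    intro h
    rcases he.induced 1 3 h with h | h <;> (simp only [p2'] at h; omega)
  have n02 : ¬ X.Adj (c 0) (c 2) := by
    intro h
    rcases he.induced 0 2 h with h | h <;> (simp only [p2'] at h; omega)
  have d13 : c 1 ≠ c 3 := by
    intro h
    rw [he.eq_iff] at h
    simp only [p2'] at h
    omega
  have d02 : c 0 ≠ c 2 := by
    intro h
    rw [he.eq_iff] at h
    simp only [p2'] at h
    omega
  -- `e` is not adjacent to `c 3`, `c 2`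
  have ne3 : ¬ X.Adj e (c 3) := fun h =>
    n13 (hX.no_k4minus (c 0) e (c 1) (c 3) ax.symm a01 ay a30.symm h d13)
  have ne2 : ¬ X.Adj e (c 2) := fun h =>
    n02 (hX.no_k4minus (c 1) e (c 0) (c 2) ay.symm a01.symm ax a12 h d02)
  have de3 : e ≠ c 3 := fun h => n13 (by rw [← h]; exact ay.symm)
  have de2 : e ≠ c 2 := fun h => n02 (by rw [← h]; exact ax.symm)
  have dist2 : ∀ a b m : V, a ≠ b → ¬ X.Adj a b → X.Adj a m → X.Adj m b → X.dist a b = 2 := by
    intro a b m hab hnab h1 h2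
    have hle : X.dist a b ≤ X.dist a m + X.dist m b := hX.connected.dist_triangle
    rw [SimpleGraph.dist_eq_one_iff_adj.mpr h1, SimpleGraph.dist_eq_one_iff_adj.mpr h2] at hle
    have h0 : X.dist a b ≠ 0 := fun h => hab (hX.connected.dist_eq_zero_iff.mp h)
    have h1' : X.dist a b ≠ 1 := fun h => hnab (SimpleGraph.dist_eq_one_iff_adj.mp h)
    omega
  have D3 : X.dist e (c 3) = 2 := dist2 e (c 3) (c 0) de3 ne3 ax a30.symm
  have D2 : X.dist e (c 2) = 2 := dist2 e (c 2) (c 1) de2 ne2 ay a12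
  obtain ⟨f, f3, f2, i3, -⟩ := hX.triangle e (c 3) (c 2) (by rw [D3, D2]) al
  have aef : X.Adj e f := by
    have h : X.dist e (c 3) = X.dist e f + X.dist f (c 3) := i3
    rw [D3, SimpleGraph.dist_eq_one_iff_adj.mpr f3] at h
    exact SimpleGraph.dist_eq_one_iff_adj.mp (by omega)
  have hf : f ∈ Clq X (c 3) (c 2) := Or.inr (Or.inr ⟨f3, f2⟩)
  have nf0 : ¬ X.Adj (c 0) f := fun h =>
    n02 (hX.no_k4minus (c 3) f (c 0) (c 2) f3.symm a30 h.symm al f2 d02)
  have df0 : c 0 ≠ f := fun h => n02 (by rw [h]; exact f2)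
  refine ⟨f, fun v hv => ?_⟩
  have hlt := pp_lt_of_gate hv (pp_left_mem X (c 0) (c 1)) (Ne.symm e0)
  have := hw V X hX v e (c 0) f (c 3) ax a30.symm f3.symm aef.symm de3 ne3 df0 nf0 hlt
  exact pp_gate_of_lt hc hX al hf (pp_left_mem X _ _) this

private theorem pp_one (h3 : S_E3.{u}) (hc : S_CLQ.{u}) (ht : S_THICK.{u}) (hw : S_WSQ.{u})
    (hW : S_W.{u}) {V : Type u} {X : SimpleGraph V} (hX : Mediangle X) {l : ℕ} {c : ℤ → V}
    (he : EvenConvexCycle X l c) (a b : V) (h : cls X (c 0) (c 1) a b) :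
    cls X (c (l + 1)) (c l) a b := by
  have a01 : X.Adj (c 0) (c 1) := by simpa using he.adj 0
  obtain ⟨g, ga, gb⟩ := pp_gate_of_cls hc hX a01 h
  obtain ⟨e', he'⟩ := pp_corr h3 hc ht hw hW hX he g ga.1
  exact pp_cls_of_gate (he' a ga) (he' b gb)

theorem s_pp (_h1 : S_E1.{u}) (_h2 : S_E2.{u}) (h3 : S_E3.{u}) (hc : S_CLQ.{u}) (ht : S_THICK.{u})
    (hw : S_WSQ.{u}) (hW : S_W.{u}) : S_PP.{u} := by
  intro V X hX l c he
  refine Setoid.ext fun a b => ⟨fun h => pp_one h3 hc ht hw hW hX he a b h, fun h => ?_⟩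
  obtain ⟨-, hr⟩ := h3 V X l c he (l + 1)
  have q0 : (l : ℤ) + 1 - 0 = l + 1 := by ring
  have q1 : (l : ℤ) + 1 - 1 = l := by ring
  have q2 : (l : ℤ) + 1 - (l + 1) = 0 := by ring
  have q3 : (l : ℤ) + 1 - l = 1 := by ring
  have h' := pp_one h3 hc ht hw hW hX hr a b (by
    show cls X (c ((l : ℤ) + 1 - 0)) (c ((l : ℤ) + 1 - 1)) a b
    rw [q0, q1]
    exact h)
  have h'' : cls X (c ((l : ℤ) + 1 - (l + 1))) (c ((l : ℤ) + 1 - l)) a b := h'
  rw [q2, q3] at h''
  exact h''

end Pool.Agent.H341.MA
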