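import Pool.Agent.H341.MA.St1

/-!
PAR (helper261): parallel cliques.
-/

set_option autoImplicit false

namespace Pool.Agent.H341.MA

universe u v

open SimpleGraph

private theorem par_clq_symm {V : Type u} (X : SimpleGraph V) (x y : V) :
    Clq X x y = Clq X y x := by
  ext w
  unfold Clq
  show (w = x ∨ w = y ∨ (X.Adj w x ∧ X.Adj w y)) ↔ (w = y ∨ w = x ∨ (X.Adj w y ∧ X.Adj w x))
  tauto

private theorem par_cls_congr {V : Type u} (X : SimpleGraph V) {x y x' y' : V}
    (h : Clq X x y = Clq X x' y') : cls X x y = cls X x' y' := by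
  ext u v
  show (∀ w ∈ Clq X x y, ∀ w' ∈ Clq X x y, X.dist u w < X.dist u w' ↔ X.dist v w < X.dist v w') ↔
    (∀ w ∈ Clq X x' y', ∀ w' ∈ Clq X x' y', X.dist u w < X.dist u w' ↔ X.dist v w < X.dist v w')
  rw [h]

private theorem par_step {V : Type u} (X : SimpleGraph V) (hX : X.Connected) (x a : V)
    (h : 0 < X.dist x a) : ∃ s, X.Adj a s ∧ X.dist x s + 1 = X.dist x a := by
  obtain ⟨p, hp⟩ := (hX a x).exists_walk_length_eq_dist
  rw [SimpleGraph.dist_comm] at h ⊢
  cases p with
  | nil => simp at h
  | cons hadj q =>
    rename_i s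
    refine ⟨s, hadj, ?_⟩
    rw [SimpleGraph.Walk.length_cons] at hp
    have h1 : X.dist s x ≤ q.length := SimpleGraph.dist_le q
    have h2 : X.dist a x ≤ X.dist a s + X.dist s x := hX.dist_triangle
    have h3 : X.dist a s = 1 := SimpleGraph.dist_eq_one_iff_adj.2 hadj
    rw [SimpleGraph.dist_comm (u := x)]
    omega

theorem s_par (h1 : S_E1.{u}) (h2 : S_E2.{u}) (h3 : S_E3.{u}) (hc : S_CLQ.{u}) (hW : S_W.{u})
    (hp : S_PP.{u}) : S_PAR.{u} := by
  intro V X hM
  have hX := hM.connected
  have tri : ∀ u v w : V, X.Adj v w → X.dist u w ≤ X.dist u v + 1 := by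
    intro u v w hvw
    have h4 : X.dist u w ≤ X.dist u v + X.dist v w := hX.dist_triangle
    rw [SimpleGraph.dist_eq_one_iff_adj.2 hvw] at h4
    exact h4
  have trl : ∀ u v w : V, X.Adj v w → X.dist v u ≤ X.dist w u + 1 := by
    intro u v w hvw
    rw [SimpleGraph.dist_comm (u := v), SimpleGraph.dist_comm (u := w)]
    exact tri u w v hvw.symm
  -- the main induction
  have main : ∀ k : ℕ, ∀ x y a b : V, X.Adj x y → X.Adj a b → X.dist x a = k →
      X.dist x a < X.dist x b → X.dist y b < X.dist y a → cls X x y = cls X a b := by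
    intro k
    induction k using Nat.strong_induction_on with
    | _ k ih =>
      intro x y a b hxy hab hk hxa hyb
      have e1 : X.dist x b = k + 1 := by
        have := tri x a b hab
        omega
      have e2 := trl a y x hxy.symm
      have e3 := trl b x y hxy
      have e4 : X.dist y b = k := by omega
      have e5 : X.dist y a = k + 1 := by omega
      rcases Nat.eq_zero_or_pos k with h0 | hpos
      · have hxa' : x = a := (hX.dist_eq_zero_iff).1 (by omega)
        have hyb' : y = b := (hX.dist_eq_zero_iff).1 (by omega)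
        rw [hxa', hyb']
      · obtain ⟨s, has, hs⟩ := par_step X hX x a (by omega)
        have e6 := trl s y x hxy.symm
        have e7 := tri y s a has.symm
        have e8 : X.dist y s = k := by omega
        have hbs : b ≠ s := by
          intro h
          rw [h] at e1
          omega
        obtain ⟨l, c, hcc, c0, c1, cm, cl, -⟩ := hM.cycle y b s a hbs hab has (by omega) (by omega)
        have hl := hcc.two_le
        have hper : ∀ i j : ℤ, (2 * (l : ℤ)) ∣ (i - j) → c i = c j := fun i j h =>
          (hcc.eq_iff i j).2 h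
        -- the distance of y to its gate
        have d1 : X.dist (c l) b = l - 1 := by
          have := h1 V X hX l c hcc 1 (l - 1) (by omega)
          have e : (1 : ℤ) + ((l - 1 : ℕ) : ℤ) = l := by
            push_cast [Nat.cast_sub (show 1 ≤ l by omega)]
            ring
          rw [e, c1, SimpleGraph.dist_comm] at this
          exact this
        have d2 : X.dist y (c l) + (l - 1) = k := by
          have : X.dist y b = X.dist y (c l) + X.dist (c l) b := cl
          rw [d1, e4] at this
          exact this.symm
        have w1 : X.dist x (c (l + 1)) < X.dist x (c l) := by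
          rw [← hW V X hM l c hcc x, c0, c1]
          exact hxa
        have w2 : X.dist y (c l) < X.dist y (c (l + 1)) := by
          have hr := (h3 V X l c hcc 1).2
          have hw : X.dist y (c (1 - 0)) < X.dist y (c (1 - 1)) ↔
              X.dist y (c (1 - ((l : ℤ) + 1))) < X.dist y (c (1 - (l : ℤ))) :=
            hW V X hM l (fun i => c (1 - i)) hr y
          have q0 : c (1 - 0) = b := by rw [sub_zero, c1]
          have q1 : c (1 - 1) = a := by rw [sub_self, c0]
          have q2 : c (1 - ((l : ℤ) + 1)) = c l := hper _ _ ⟨-1, by ring⟩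
          have q3 : c (1 - (l : ℤ)) = c (l + 1) := hper _ _ ⟨-1, by ring⟩
          rw [q0, q1, q2, q3] at hw
          exact hw.1 hyb
        have hadj : X.Adj (c l) (c (l + 1)) := hcc.adj l
        have key := ih (X.dist y (c l)) (by omega) y x (c l) (c (l + 1)) hxy.symm hadj rfl w2 w1
        have hpp := hp V X hM l c hcc
        rw [c0, c1] at hpp
        rw [par_cls_congr X (par_clq_symm X x y), key, hpp]
        exact par_cls_congr X (par_clq_symm X _ _)
  intro x y x' y' hxy hxy' hsep
  obtain ⟨hK, hg⟩ := hc V X hM x' y' hxy'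
  have hgate : ∀ v g : V, g ∈ Clq X x' y' → (∀ u ∈ Clq X x' y', u ≠ g → X.dist v u = X.dist v g + 1) →
      ∀ w ∈ Clq X x' y', ∀ w' ∈ Clq X x' y', (X.dist v w < X.dist v w' ↔ (w = g ∧ w' ≠ g)) := by
    intro v g hgK hgg w hw w' hw'
    by_cases e : w = g
    · by_cases e' : w' = g
      · rw [e, e']; simp
      · have := hgg w' hw' e'
        rw [e]
        constructor
        · intro _; exact ⟨rfl, e'⟩
        · intro _; omega
    · have q1 := hgg w hw e
      by_cases e' : w' = g
      · rw [e']
        constructor
        · intro h; omega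
        · intro h; exact absurd h.1 e
      · have q2 := hgg w' hw' e'
        constructor
        · intro h; omega
        · intro h; exact absurd h.1 e
  obtain ⟨a, haK, ha⟩ := hg x
  obtain ⟨b, hbK, hb⟩ := hg y
  have hab : a ≠ b := by
    intro h
    apply hsep
    show ∀ w ∈ Clq X x' y', ∀ w' ∈ Clq X x' y', X.dist x w < X.dist x w' ↔ X.dist y w < X.dist y w'
    intro w hw w' hw'
    rw [hgate x a haK ha w hw w' hw', hgate y b hbK hb w hw w' hw', h]
  obtain ⟨hadj, hcl⟩ := hK a haK b hbK hab
  have g1 := ha b hbK hab.symm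
  have g2 := hb a haK hab
  rw [← par_cls_congr X hcl]
  exact main _ x y a b hxy hadj rfl (by omega) (by omega)

end Pool.Agent.H341.MA
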