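import Pool.Agent.H341.MA.St3

/-!
# Free resolutions from free actions on acyclic systems of tuples (S_RES)
-/

set_option autoImplicit false

namespace Pool.Agent.H341.MA

universe u v

section

variable {G : Type v} [Group G] {Ω : Type u} [MulAction G Ω]

/-- the map `a ↦ a • τ` -/
noncomputable def Res_sm {n : ℕ} (τ : Fin n → Ω) :
    MonoidAlgebra ℤ G →+ ((Fin n → Ω) →₀ ℤ) :=
  (Finsupp.mapDomain.addMonoidHom (fun g : G => g • τ)).comp
    (MonoidAlgebra.coeffAddEquiv (R := ℤ) (M := G)).toAddMonoidHom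

theorem Res_sm_apply {n : ℕ} (τ : Fin n → Ω) (a : MonoidAlgebra ℤ G) :
    Res_sm τ a = Finsupp.mapDomain (fun g : G => g • τ) a.coeff := rfl

theorem Res_sm_single {n : ℕ} (τ : Fin n → Ω) (g : G) (m : ℤ) :
    Res_sm τ (MonoidAlgebra.single g m) = Finsupp.single (g • τ) m := by
  rw [Res_sm_apply, MonoidAlgebra.coeff_single, Finsupp.mapDomain_single]

/-- the action of `g` on chains -/
noncomputable def Res_ac (Ω : Type u) [MulAction G Ω] (n : ℕ) (g : G) :
    ((Fin n → Ω) →₀ ℤ) →+ ((Fin n → Ω) →₀ ℤ) :=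
  Finsupp.mapDomain.addMonoidHom (fun τ : Fin n → Ω => g • τ)

theorem Res_ac_single {n : ℕ} (g : G) (τ : Fin n → Ω) (m : ℤ) :
    Res_ac Ω n g (Finsupp.single τ m) = Finsupp.single (g • τ) m :=
  Finsupp.mapDomain_single

theorem Res_sm_mul {n : ℕ} (τ : Fin n → Ω) (g : G) (m : ℤ) (a : MonoidAlgebra ℤ G) :
    Res_sm τ (MonoidAlgebra.single g m * a) = m • Res_ac Ω n g (Res_sm τ a) := by
  refine MonoidAlgebra.induction_linear a ?_ ?_ ?_
  · rw [mul_zero, map_zero, map_zero, smul_zero]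
  · intro x y hx hy
    rw [mul_add, map_add, map_add, map_add, smul_add, hx, hy]
  · intro h l
    rw [MonoidAlgebra.single_mul_single, Res_sm_single, Res_sm_single, Res_ac_single,
      Finsupp.smul_single, smul_eq_mul, mul_smul]

/-- the chain of a vector of elements of the group ring -/
noncomputable def Res_Phi {k n : ℕ} (r : Fin k → (Fin n → Ω)) :
    (Fin k → MonoidAlgebra ℤ G) →+ ((Fin n → Ω) →₀ ℤ) :=
  ∑ j, (Res_sm (r j)).comp (Pi.evalAddMonoidHom _ j)

theorem Res_Phi_apply {k n : ℕ} (r : Fin k → (Fin n → Ω)) (x : Fin k → MonoidAlgebra ℤ G) :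
    Res_Phi r x = ∑ j, Res_sm (r j) (x j) := by
  unfold Res_Phi
  rw [AddMonoidHom.finsetSum_apply]
  rfl

theorem Res_Phi_smul {k n : ℕ} (r : Fin k → (Fin n → Ω)) (g : G) (m : ℤ)
    (x : Fin k → MonoidAlgebra ℤ G) :
    Res_Phi r (MonoidAlgebra.single g m • x) = m • Res_ac Ω n g (Res_Phi r x) := by
  rw [Res_Phi_apply, Res_Phi_apply, map_sum, Finset.smul_sum]
  refine Finset.sum_congr rfl fun j _ => ?_
  rw [Pi.smul_apply, smul_eq_mul, Res_sm_mul]

/-- representatives of the orbits of the tuples in `K` -/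
structure Res_Rep (G : Type v) [Group G] {Ω : Type u} [MulAction G Ω] {k n : ℕ}
    (K : Set (Fin n → Ω)) (r : Fin k → (Fin n → Ω)) : Prop where
  mem : ∀ (g : G) (j : Fin k), g • r j ∈ K
  ex : ∀ τ ∈ K, ∃ (g : G) (j : Fin k), g • r j = τ
  inj : ∀ (g g' : G) (j j' : Fin k), g • r j = g' • r j' → j = j' ∧ g = g'

theorem Res_exists_rep {n : ℕ} (K : Set (Fin n → Ω))
    (hinv : ∀ (g : G), ∀ τ ∈ K, g • τ ∈ K)
    (hfree : ∀ (g : G), ∀ τ ∈ K, g • τ = τ → g = 1)
    (hfin : ∃ S : Set (Fin n → Ω), S.Finite ∧ ∀ τ ∈ K, ∃ g : G, ∃ s ∈ S, g • s = τ) :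
    ∃ (k : ℕ) (r : Fin k → (Fin n → Ω)), Res_Rep G K r ∧ (K = ∅ → k = 0) := by
  obtain ⟨S, hS, hS2⟩ := hfin
  set O : Set (Set (Fin n → Ω)) := (fun τ => MulAction.orbit G τ) '' K with hO
  have hOf : O.Finite := by
    refine (hS.image (fun τ => MulAction.orbit G τ)).subset ?_
    rintro _ ⟨τ, hτ, rfl⟩
    obtain ⟨g, s, hs, rfl⟩ := hS2 τ hτ
    exact ⟨s, hs, (MulAction.orbit_smul g s).symm⟩
  have : Finite O := hOf
  obtain ⟨k, ⟨e⟩⟩ := Finite.exists_equiv_fin O
  have hch : ∀ j : Fin k, ∃ τ ∈ K, MulAction.orbit G τ = (e.symm j : Set (Fin n → Ω)) :=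
    fun j => (e.symm j).2
  choose r hr1 hr2 using hch
  refine ⟨k, r, ⟨fun g j => hinv g _ (hr1 j), ?_, ?_⟩, ?_⟩
  · intro τ hτ
    have h1 : MulAction.orbit G τ ∈ O := ⟨τ, hτ, rfl⟩
    have h2 := hr2 (e ⟨_, h1⟩)
    rw [Equiv.symm_apply_apply] at h2
    have h3 : τ ∈ MulAction.orbit G (r (e ⟨_, h1⟩)) := by
      rw [h2]
      exact MulAction.mem_orbit_self τ
    obtain ⟨g, hg⟩ := h3
    exact ⟨g, _, hg⟩
  · intro g g' j j' h
    have h1 : MulAction.orbit G (r j) = MulAction.orbit G (r j') := by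
      rw [← MulAction.orbit_smul g (r j), h, MulAction.orbit_smul]
    have h2 : j = j' := by
      rw [hr2, hr2] at h1
      exact e.symm.injective (Subtype.ext h1)
    subst h2
    refine ⟨rfl, ?_⟩
    have h3 : (g'⁻¹ * g) • r j = r j := by
      rw [mul_smul, h, inv_smul_smul]
    have h4 := hfree _ _ (hr1 j) h3
    exact (inv_mul_eq_one.1 h4).symm
  · intro hK
    by_contra hk
    obtain ⟨m, rfl⟩ := Nat.exists_eq_succ_of_ne_zero hk
    have := hr1 0
    rw [hK] at this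
    exact this

section rep

variable {k n : ℕ} {K : Set (Fin n → Ω)} {r : Fin k → (Fin n → Ω)}

theorem Res_Phi_coeff (hr : Res_Rep G K r) (x : Fin k → MonoidAlgebra ℤ G) (g : G) (j : Fin k) :
    Res_Phi r x (g • r j) = (x j).coeff g := by
  rw [Res_Phi_apply, Finsupp.finsetSum_apply, Finset.sum_eq_single j]
  · rw [Res_sm_apply]
    refine Finsupp.mapDomain_apply (f := fun h : G => h • r j) (fun a b hab => ?_) _ g
    exact (hr.inj a b j j hab).2
  · intro j' _ hj
    rw [Res_sm_apply]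
    refine Finsupp.mapDomain_of_notMem_range _ _ ?_
    rintro ⟨g', hg'⟩
    exact hj (hr.inj _ _ _ _ hg').1
  · intro h
    exact absurd (Finset.mem_univ _) h

theorem Res_Phi_supp (hr : Res_Rep G K r) (x : Fin k → MonoidAlgebra ℤ G) :
    SuppOn K (Res_Phi r x) := by
  intro τ hτ
  by_contra hK
  refine hτ ?_
  rw [Res_Phi_apply, Finsupp.finsetSum_apply]
  refine Finset.sum_eq_zero fun j _ => ?_
  rw [Res_sm_apply]
  refine Finsupp.mapDomain_of_notMem_range _ _ ?_
  rintro ⟨g', rfl⟩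
  exact hK (hr.mem _ _)

theorem Res_Phi_inj (hr : Res_Rep G K r) : Function.Injective (Res_Phi (G := G) r) := by
  intro x y h
  funext j
  refine MonoidAlgebra.ext (Finsupp.ext fun g => ?_)
  rw [← Res_Phi_coeff hr, ← Res_Phi_coeff hr, h]

theorem Res_Phi_surj (hr : Res_Rep G K r) (c : (Fin n → Ω) →₀ ℤ) (hc : SuppOn K c) :
    ∃ x : Fin k → MonoidAlgebra ℤ G, Res_Phi r x = c := by
  have hinj : ∀ j, Function.Injective (fun g : G => g • r j) := fun j a b hab =>
    (hr.inj a b j j hab).2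
  refine ⟨fun j => MonoidAlgebra.ofCoeff (Finsupp.comapDomain (fun g : G => g • r j) c
    (hinj j).injOn), ?_⟩
  refine Finsupp.ext fun τ => ?_
  by_cases hτ : τ ∈ K
  · obtain ⟨g, j, rfl⟩ := hr.ex τ hτ
    rw [Res_Phi_coeff hr]
    rfl
  · have h1 : c τ = 0 := by
      by_contra h
      exact hτ (hc τ h)
    rw [h1]
    by_contra h
    exact hτ (Res_Phi_supp hr _ τ h)

end rep

theorem Res_bd_single (n : ℕ) (τ : Fin (n + 1) → Ω) (m : ℤ) :
    bd Ω n (Finsupp.single τ m) =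
      m • ∑ i : Fin (n + 1), ((-1 : ℤ) ^ (i : ℕ)) •
        Finsupp.single (fun j => τ (i.succAbove j)) (1 : ℤ) := by
  unfold bd
  rw [Finsupp.liftAddHom_apply_single]
  rfl

theorem Res_bd_ac (n : ℕ) (g : G) (c : (Fin (n + 1) → Ω) →₀ ℤ) :
    bd Ω n (Res_ac Ω (n + 1) g c) = Res_ac Ω n g (bd Ω n c) := by
  refine Finsupp.induction_linear c ?_ ?_ ?_
  · rw [map_zero, map_zero, map_zero]
  · intro x y hx hy
    rw [map_add, map_add, map_add, map_add, hx, hy]
  · intro τ m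
    rw [Res_ac_single, Res_bd_single, Res_bd_single, map_zsmul, map_sum]
    congr 1
    refine Finset.sum_congr rfl fun i _ => ?_
    rw [map_zsmul, Res_ac_single]
    rfl

theorem Res_suppOn_iff {n : ℕ} (K : Set (Fin n → Ω)) (c : (Fin n → Ω) →₀ ℤ) :
    SuppOn K c ↔ c ∈ Finsupp.supported ℤ ℤ K := by
  rw [Finsupp.mem_supported]
  constructor
  · intro h τ hτ
    exact h τ (Finsupp.mem_support_iff.1 (Finset.mem_coe.1 hτ))
  · intro h τ hτ
    exact h (Finset.mem_coe.2 (Finsupp.mem_support_iff.2 hτ))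

theorem Res_bd_supp (K : ∀ n : ℕ, Set (Fin n → Ω)) (hK : FaceClosed K) (n : ℕ)
    (c : (Fin (n + 1) → Ω) →₀ ℤ) (hc : SuppOn (K (n + 1)) c) : SuppOn (K n) (bd Ω n c) := by
  rw [Res_suppOn_iff]
  have h1 : bd Ω n c = ∑ τ ∈ c.support, bd Ω n (Finsupp.single τ (c τ)) := by
    rw [← map_sum]
    congr 1
    exact (Finsupp.sum_single c).symm
  rw [h1]
  refine Submodule.sum_mem _ fun τ hτ => ?_
  rw [Res_bd_single]
  refine Submodule.smul_mem _ _ (Submodule.sum_mem _ fun i _ => Submodule.smul_mem _ _ ?_)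
  exact Finsupp.single_mem_supported _ _ (hK n τ (hc τ (Finsupp.mem_support_iff.1 hτ)) i)

end

/-- RES. -/
theorem s_res (hb : S_BB.{u}) : S_RES.{u, v} := by
  intro G _ Ω _ K hK0 hKf hac hinv hfree hfin
  have hrep := fun n => Res_exists_rep (K (n + 1)) (fun g τ hτ => hinv (n + 1) g τ hτ)
    (fun g τ hτ h => hfree n g τ hτ h) (hfin n)
  choose k r hr hk using hrep
  -- the boundary operators
  have hy : ∀ (i : ℕ) (j : Fin (k (i + 1))), ∃ y : Fin (k i) → MonoidAlgebra ℤ G,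
      Res_Phi (r i) y = bd Ω (i + 1) (Finsupp.single (r (i + 1) j) 1) := by
    intro i j
    refine Res_Phi_surj (hr i) _ (Res_bd_supp K hKf (i + 1) _ ?_)
    intro τ hτ
    have h1 : τ = r (i + 1) j := by
      by_contra h
      exact hτ (Finsupp.single_eq_of_ne h)
    rw [h1]
    have := (hr (i + 1)).mem 1 j
    rwa [one_smul] at this
  choose y hy using hy
  set d : ∀ i : ℕ, (Fin (k (i + 1)) → MonoidAlgebra ℤ G) →ₗ[MonoidAlgebra ℤ G]
      (Fin (k i) → MonoidAlgebra ℤ G) := fun i => Fintype.linearCombination (MonoidAlgebra ℤ G) (y i)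
    with hd
  have hcomm : ∀ (i : ℕ) (x : Fin (k (i + 1)) → MonoidAlgebra ℤ G),
      Res_Phi (r i) (d i x) = bd Ω (i + 1) (Res_Phi (r (i + 1)) x) := by
    intro i x
    rw [hd]
    simp only [Fintype.linearCombination_apply]
    rw [map_sum, Res_Phi_apply (r (i + 1)), map_sum]
    refine Finset.sum_congr rfl fun j _ => ?_
    refine MonoidAlgebra.induction_linear (x j) ?_ ?_ ?_
    · rw [zero_smul, map_zero, map_zero, map_zero]
    · intro a b ha hb
      rw [add_smul, map_add, map_add, map_add, ha, hb]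
    · intro g m
      rw [Res_Phi_smul, hy, Res_sm_single, ← Res_bd_ac, Res_ac_single, ← map_zsmul,
        Finsupp.smul_single, smul_eq_mul, mul_one]
  -- the augmentation
  set ε : (Fin (k 0) → MonoidAlgebra ℤ G) →+ ℤ :=
    (Finsupp.applyAddHom (default : Fin 0 → Ω)).comp ((bd Ω 0).comp (Res_Phi (r 0))) with hε
  have hε1 : ∀ x, ε x = bd Ω 0 (Res_Phi (r 0) x) default := fun x => rfl
  have hε0 : ∀ x, ε x = 0 ↔ bd Ω 0 (Res_Phi (r 0) x) = 0 := by
    intro x
    rw [hε1]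
    constructor
    · intro h
      refine Finsupp.ext fun τ => ?_
      rw [Subsingleton.elim τ default, h]
      rfl
    · intro h
      rw [h]
      rfl
  refine ⟨k, ⟨d, ε, ?_, ?_, ?_, ?_⟩, hk⟩
  · intro g x
    rw [hε1, hε1]
    have h1 : Res_Phi (r 0) (MonoidAlgebra.of ℤ G g • x) = Res_ac Ω 1 g (Res_Phi (r 0) x) := by
      have := Res_Phi_smul (r 0) g 1 x
      rw [one_smul] at this
      exact this
    rw [h1, Res_bd_ac]
    have h2 : ∀ c : (Fin 0 → Ω) →₀ ℤ, Res_ac Ω 0 g c = c := by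
      intro c
      have h3 : (fun τ : Fin 0 → Ω => g • τ) = id := by
        funext τ
        exact Subsingleton.elim _ _
      change Finsupp.mapDomain (fun τ : Fin 0 → Ω => g • τ) c = c
      rw [h3, Finsupp.mapDomain_id]
    rw [h2]
  · intro m
    obtain ⟨b, hb1, hb2⟩ := hac.1 (Finsupp.single default m) (fun τ _ => by
      rw [hK0]
      exact Set.mem_univ _)
    obtain ⟨x, hx⟩ := Res_Phi_surj (hr 0) b hb1
    refine ⟨x, ?_⟩
    rw [hε1, hx, hb2, Finsupp.single_eq_same]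
  · intro x
    rw [hε0, LinearMap.mem_range]
    constructor
    · intro h
      obtain ⟨b, hb1, hb2⟩ := hac.2 0 _ (Res_Phi_supp (hr 0) x) h
      obtain ⟨z, hz⟩ := Res_Phi_surj (hr 1) b hb1
      refine ⟨z, Res_Phi_inj (hr 0) ?_⟩
      rw [hcomm, hz, hb2]
    · rintro ⟨z, rfl⟩
      rw [hcomm]
      exact hb Ω 0 _
  · intro i
    refine Submodule.ext fun x => ?_
    rw [LinearMap.mem_range, LinearMap.mem_ker]
    constructor
    · rintro ⟨z, rfl⟩
      refine Res_Phi_inj (hr i) ?_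
      rw [hcomm, hcomm, map_zero]
      exact hb Ω (i + 1) _
    · intro h
      have h1 : bd Ω (i + 1) (Res_Phi (r (i + 1)) x) = 0 := by
        rw [← hcomm, h, map_zero]
      obtain ⟨b, hb1, hb2⟩ := hac.2 (i + 1) _ (Res_Phi_supp (hr (i + 1)) x) h1
      obtain ⟨z, hz⟩ := Res_Phi_surj (hr (i + 2)) b hb1
      refine ⟨z, Res_Phi_inj (hr (i + 1)) ?_⟩
      rw [hcomm]
      exact (congrArg _ hz).trans hb2

end Pool.Agent.H341.MA
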