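import Pool.Agent.H341.MA.St1

/-!
# Mediangle graphs: squares (statement SQ), by helper249 for helper341
-/

set_option autoImplicit false

namespace Pool.Agent.H341.MA

universe u v

open SimpleGraph

/-- Two non-adjacent vertices with a common neighbour have distance two. -/
theorem SQ_dist_two {V : Type u} {X : SimpleGraph V} (hc : X.Connected) {a m b : V}
    (ha : X.Adj a m) (hb : X.Adj m b) (hne : a ≠ b) (hn : ¬ X.Adj a b) : X.dist a b = 2 := by
  have h1 : X.dist a b ≤ X.dist a m + X.dist m b := hc.dist_triangle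
  rw [dist_eq_one_iff_adj.2 ha, dist_eq_one_iff_adj.2 hb] at h1
  have h2 : X.dist a b ≠ 0 := fun h => hne (hc.dist_eq_zero_iff.1 h)
  have h3 : X.dist a b ≠ 1 := fun h => hn (dist_eq_one_iff_adj.1 h)
  omega

/-- The interval between adjacent vertices. -/
theorem SQ_itv {V : Type u} {X : SimpleGraph V} (hc : X.Connected) {a b m : V}
    (hab : X.Adj a b) (hm : m ∈ Itv X a b) : m = a ∨ m = b := by
  have h1 : X.dist a b = X.dist a m + X.dist m b := hm
  rw [dist_eq_one_iff_adj.2 hab] at h1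
  rcases Nat.eq_zero_or_pos (X.dist a m) with h2 | h2
  · exact Or.inl (hc.dist_eq_zero_iff.1 h2).symm
  · exact Or.inr (hc.dist_eq_zero_iff.1 (by omega))

theorem s_sq (h1 : S_E1.{u}) (h2 : S_E2.{u}) (h3 : S_E3.{u}) : S_SQ.{u} := by
  intro V X hX u v w t huw hnuw hvt hnvt huv hvw hwt htu
  have hc := hX.connected
  have d1 : X.dist v u = 1 := dist_eq_one_iff_adj.2 huv.symm
  have d2 : X.dist v w = 1 := dist_eq_one_iff_adj.2 hvw
  have d3 : X.dist v t = 2 := SQ_dist_two hc huv.symm htu.symm hvt hnvt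
  obtain ⟨l, c, hcyc, e0, e1, em, hi1, hi2⟩ := hX.cycle v u w t huw htu hwt.symm
    (by rw [d1, d3]) (by rw [d2, d3])
  have el : c l = v := by
    rcases SQ_itv hc huv.symm hi1 with h | h
    · exact h
    · rcases SQ_itv hc hvw hi2 with h' | h'
      · exact h'
      · exact absurd (h.symm.trans h') huw
  have hl : l = 2 := by
    have h4 := h1 V X hc l c hcyc 0 l le_rfl
    rw [zero_add, e0, el, X.dist_comm, d3] at h4
    exact h4.symm
  subst hl
  have hcyc' := (h3 V X 2 c hcyc 1).1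
  have f0 : c (0 + 1) = u := by rw [zero_add, e1]
  have f1 : c (1 + 1) = v := by
    have : (1 : ℤ) + 1 = ((2 : ℕ) : ℤ) := by norm_num
    rw [this]
    exact el
  have f2 : c (2 + 1) = w := by
    rw [← em]
    apply (hcyc.eq_iff _ _).2
    norm_num
  have f3 : c (3 + 1) = t := by
    rw [← e0]
    apply (hcyc.eq_iff _ _).2
    norm_num
  refine ⟨⟨fun i => c (i + 1), hcyc', f0, f1, f2, f3⟩, ?_⟩
  intro y hyu hyw
  have d4 : X.dist u w = 2 := SQ_dist_two hc hyu.symm hyw huw hnuw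
  have hy : y ∈ Itv X (c (0 + 1)) (c (2 + 1)) := by
    show X.dist (c (0 + 1)) (c (2 + 1)) = X.dist (c (0 + 1)) y + X.dist y (c (2 + 1))
    rw [f0, f2, d4, dist_eq_one_iff_adj.2 hyu.symm, dist_eq_one_iff_adj.2 hyw]
  obtain ⟨i, hi⟩ := hcyc'.convex 0 2 hy
  have hi : c (i + 1) = y := hi
  have hmod : c (i + 1) = c (i % 4 + 1) := by
    apply (hcyc.eq_iff _ _).2
    push_cast
    omega
  rw [hmod] at hi
  have g1 : 0 ≤ i % 4 := Int.emod_nonneg _ (by norm_num)
  have g2 : i % 4 < 4 := Int.emod_lt_of_pos _ (by norm_num)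
  have g3 : i % 4 = 0 ∨ i % 4 = 1 ∨ i % 4 = 2 ∨ i % 4 = 3 := by omega
  rcases g3 with g | g | g | g
  · rw [g, f0] at hi
    exact absurd hyu (by rw [hi]; exact X.irrefl)
  · rw [g, f1] at hi
    exact Or.inl hi.symm
  · rw [g, f2] at hi
    exact absurd hyw (by rw [hi]; exact X.irrefl)
  · rw [g, f3] at hi
    exact Or.inr hi.symm

end Pool.Agent.H341.MA
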