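import Pool.Agent.H341.MA.St2

/-!
# Mediangle graphs: STAR (helper264, for helper341)
-/

set_option autoImplicit false

namespace Pool.Agent.H341.MA

universe u v

open SimpleGraph

/-- a neighbour closer to `z` -/
theorem star_nbr {V : Type u} {X : SimpleGraph V} (hX : X.Connected) {z x : V} {n : ℕ}
    (h : X.dist z x = n + 1) : ∃ y, X.Adj x y ∧ X.dist z y = n ∧ y ∈ Itv X z x := by
  obtain ⟨p, hp⟩ := (hX x z).exists_walk_length_eq_dist
  have hxz : X.dist x z = n + 1 := by rw [SimpleGraph.dist_comm]; exact h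
  rw [hxz] at hp
  cases p with
  | nil => simp at hp
  | @cons _ y _ hadj q =>
    rw [Walk.length_cons] at hp
    have h1 : X.dist y z ≤ n := (dist_le q).trans (by omega)
    have h2 : X.dist x y = 1 := dist_eq_one_iff_adj.2 hadj
    have h3 := hX.dist_triangle (u := x) (v := y) (w := z)
    have h4 : X.dist z y = n := by
      rw [SimpleGraph.dist_comm]
      omega
    refine ⟨y, hadj, h4, ?_⟩
    show X.dist z x = X.dist z y + X.dist y x
    rw [h, h4, SimpleGraph.dist_comm, h2]

theorem s_star (h3 : S_E3.{u}) (hg : S_GP.{u}) : S_STAR.{u} := by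
  intro V X hM C E hC hP hE z hzC hzE hz
  have hX := hM.connected
  obtain ⟨hC1, hC2, hC3⟩ := hg V X hX C hC
  obtain ⟨hE1, hE2, hE3⟩ := hg V X hX E hE
  -- all neighbours in `C` of a vertex of `C ∩ E` are in `E`
  have key : ∀ n : ℕ, ∀ v' ∈ C, v' ∈ E → X.dist z v' = n → ∀ v₁ ∈ C, X.Adj v' v₁ → v₁ ∈ E := by
    intro n
    induction n with
    | zero =>
      intro v' _ _ hn v₁ hv₁ hadj
      have h0 : z = v' := (hX z v').dist_eq_zero_iff.1 hn
      subst h0
      exact hz v₁ hv₁ hadj
    | succ n ih =>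
      intro v' hv'C hv'E hn v₁ hv₁ hadj
      obtain ⟨d₁, hd1, hd2, hd3⟩ := star_nbr hX hn
      have hdC : d₁ ∈ C := hC1 z hzC v' hv'C hd3
      have hdE : d₁ ∈ E := hE1 z hzE v' hv'E hd3
      by_cases he : d₁ = v₁
      · rw [← he]
        exact hdE
      by_cases ha : X.Adj d₁ v₁
      · exact hE2 v' hv'E d₁ hdE v₁ hd1 hadj.symm ha.symm
      · obtain ⟨l, c, hc, hc0, hc1, hcm⟩ := hP v' hv'C d₁ hdC v₁ hv₁ hd1 hadj he ha
        have hran : Set.range c ⊆ C := hC3 l c hc (by rw [hcm]; exact hv₁) (by rw [hc0]; exact hv'C)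
          (by rw [hc1]; exact hdC)
        have hf : c 2 ∈ E := by
          refine ih d₁ hdC hdE hd2 (c 2) (hran ⟨2, rfl⟩) ?_
          have h := hc.adj 1
          rw [hc1] at h
          exact h
        have hsh := (h3 V X l c hc 1).1
        have hranE := hE3 l _ hsh (by show c (-1 + 1) ∈ E; rw [show (-1 + 1 : ℤ) = 0 by norm_num, hc0]; exact hv'E)
          (by show c (0 + 1) ∈ E; rw [zero_add, hc1]; exact hdE)
          (by show c (1 + 1) ∈ E; exact hf)
        refine hranE ⟨-2, ?_⟩
        show c (-2 + 1) = v₁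
        rw [show (-2 + 1 : ℤ) = -1 by norm_num]
        exact hcm
  have main : ∀ n : ℕ, ∀ x ∈ C, X.dist z x = n → x ∈ E := by
    intro n
    induction n with
    | zero =>
      intro x _ hn
      have h0 : z = x := (hX z x).dist_eq_zero_iff.1 hn
      rw [← h0]
      exact hzE
    | succ n ih =>
      intro x hx hn
      obtain ⟨y, hy1, hy2, hy3⟩ := star_nbr hX hn
      have hyC : y ∈ C := hC1 z hzC x hx hy3
      exact key n y hyC (ih y hyC hy2) hy2 x hx hy1.symm
  exact fun x hx => main _ x hx rfl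

end Pool.Agent.H341.MA
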