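import Pool.Agent.H341.MA.St2

/-!
# SUBC : `Sub b z` is gated and has property `Polg`
-/

set_option autoImplicit false

namespace Pool.Agent.H341.MA

universe u v

open SimpleGraph

/-- boxes with corners in `Sub` are contained in `Sub` -/
private theorem subc_box {V η σ : Type u} (co : V → η → σ) (b z u v : V) (hu : u ∈ Sub co b z)
    (hv : v ∈ Sub co b z) : Box co u v ⊆ Sub co b z := by
  intro w hw h hh
  rcases hw h with h' | h'
  · rw [h', hu h hh]
  · rw [h', hv h hh]

/-- any two non-adjacent neighbours in `Sub` span an even convex cycle contained in `Sub` -/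
private theorem subc_key (h2 : S_E2.{u}) (hb : S_BOX.{u}) (ho : S_OPP.{u}) (V : Type u)
    (X : SimpleGraph V) (η σ : Type u) (co : V → η → σ) (hX : Mediangle X) (hH : Ham X co)
    (b z : V) (hA : Ant co b z) (v x y : V) (hv : v ∈ Sub co b z) (hx : x ∈ Sub co b z)
    (hy : y ∈ Sub co b z) (hvx : X.Adj v x) (hvy : X.Adj v y) (hxy : x ≠ y)
    (hnxy : ¬ X.Adj x y) :
    ∃ (l : ℕ) (c : ℤ → V), EvenConvexCycle X l c ∧ c 0 = v ∧ c 1 = x ∧ c (-1) = y ∧
      Set.range c ⊆ Sub co b z := by
  obtain ⟨b1, b2, b3, b4, b5⟩ := hb V X η σ co hX.connected hH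
  obtain ⟨w, hw, hxw, hyw⟩ := ho V X η σ co hX hH b z hA v hv x hx y hy hvx hvy hxy hnxy
  have hxw' : x ∈ Itv X v w := by rw [b2]; exact hxw
  have hyw' : y ∈ Itv X v w := by rw [b2]; exact hyw
  have e1 : X.dist v w = X.dist v x + X.dist x w := hxw'
  have e2 : X.dist v w = X.dist v y + X.dist y w := hyw'
  have d1 : X.dist v x = 1 := dist_eq_one_iff_adj.2 hvx
  have d2 : X.dist v y = 1 := dist_eq_one_iff_adj.2 hvy
  have c1 : X.dist w v = X.dist v w := dist_comm
  have c2 : X.dist w x = X.dist x w := dist_comm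
  have c3 : X.dist w y = X.dist y w := dist_comm
  obtain ⟨l, c, hc, h0, h1, hm1, hl, hl'⟩ := hX.cycle w x y v hxy hvx hvy (by omega) (by omega)
  refine ⟨l, c, hc, h0, h1, hm1, ?_⟩
  have hr : Itv X (c 0) (c (0 + (l : ℤ))) = Set.range c := h2 V X hX.connected l c hc 0
  rw [← hr, zero_add, h0]
  have hcl : c (l : ℤ) ∈ Itv X v w := by
    have f1 : X.dist w x = X.dist w (c (l : ℤ)) + X.dist (c (l : ℤ)) x := hl
    have f2 : X.dist v (c (l : ℤ)) ≤ X.dist v x + X.dist x (c (l : ℤ)) :=
      hX.connected.dist_triangle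
    have f3 : X.dist v w ≤ X.dist v (c (l : ℤ)) + X.dist (c (l : ℤ)) w :=
      hX.connected.dist_triangle
    have f4 : X.dist w (c (l : ℤ)) = X.dist (c (l : ℤ)) w := dist_comm
    have f5 : X.dist x (c (l : ℤ)) = X.dist (c (l : ℤ)) x := dist_comm
    show X.dist v w = X.dist v (c (l : ℤ)) + X.dist (c (l : ℤ)) w
    omega
  have hvv : v ∈ Itv X v w := by
    show X.dist v w = X.dist v v + X.dist v w
    simp
  have hsub : Itv X v (c (l : ℤ)) ⊆ Itv X v w := b4 v w v (c (l : ℤ)) hvv hcl
  refine hsub.trans ?_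
  rw [b2]
  exact subc_box co b z v w hv hw

private theorem subc_preconn (hb : S_BOX.{u}) (V : Type u)
    (X : SimpleGraph V) (η σ : Type u) (co : V → η → σ) (hX : Mediangle X) (hH : Ham X co)
    (b z : V) : (X.induce (Sub co b z)).Preconnected := by
  obtain ⟨b1, b2, b3, b4, b5⟩ := hb V X η σ co hX.connected hH
  have key : ∀ n : ℕ, ∀ u v : Sub co b z, X.dist (u : V) (v : V) = n →
      (X.induce (Sub co b z)).Reachable u v := by
    intro n
    induction n with
    | zero =>
      intro u v huv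
      have : (u : V) = v := (hX.connected.dist_eq_zero_iff).1 huv
      rw [Subtype.ext this]
    | succ n ih =>
      intro u v huv
      have hne : (u : V) ≠ v := by
        intro h
        rw [h, dist_self] at huv
        omega
      obtain ⟨w, hw1, hw2, hw3⟩ := b5 u v hne
      have hwS : w ∈ Sub co b z := by
        rw [b2] at hw2
        exact subc_box co b z u v u.2 v.2 hw2
      have hadj : (X.induce (Sub co b z)).Adj u ⟨w, hwS⟩ := by
        rw [SimpleGraph.induce_adj]
        exact hw1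
      exact hadj.reachable.trans (ih ⟨w, hwS⟩ v (by show X.dist w (v : V) = n; omega))
  intro u v
  exact key _ u v rfl

/-- SUBC. -/
theorem s_subc (h1 : S_E1.{u}) (h2 : S_E2.{u}) (h3 : S_E3.{u}) (h4 : S_E4.{u})
    (hg : S_GATE.{u}) (hb : S_BOX.{u}) (ho : S_OPP.{u}) : S_SUBC.{u} := by
  intro V X η σ co hX hH b z hA
  have hkey := subc_key h2 hb ho V X η σ co hX hH b z hA
  constructor
  · refine hg V X hX (Sub co b z) ⟨b, fun h _ => rfl⟩ (subc_preconn hb V X η σ co hX hH b z) ?_ ?_
    · obtain ⟨b1, b2, b3, b4, b5⟩ := hb V X η σ co hX.connected hH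
      intro u hu v hv w huv hwu hwv h hh
      obtain ⟨g, hg1, hg2⟩ := (b3 u v).1 huv
      obtain ⟨α, ha1, ha2⟩ := (b3 w u).1 hwu
      obtain ⟨β, hb1, hb2⟩ := (b3 w v).1 hwv
      by_contra hne
      have hu' := hu h hh
      have hv' := hv h hh
      have e1 : h = α := by
        by_contra hc
        exact hne ((ha2 h hc).trans hu')
      have e2 : h = β := by
        by_contra hc
        exact hne ((hb2 h hc).trans hv')
      have e3 : g ≠ h := by
        intro hc
        apply hg1
        rw [hc, hu', hv']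
      apply hg1
      rw [← ha2 g (e1 ▸ e3), ← hb2 g (e2 ▸ e3)]
    · intro l c hc hm1 h0 h1'
      have hl : 2 ≤ l := hc.two_le
      have hadj1 : X.Adj (c 0) (c 1) := by
        have := hc.adj 0
        rwa [zero_add] at this
      have hadj2 : X.Adj (c 0) (c (-1)) := by
        have := hc.adj (-1)
        rw [neg_add_cancel] at this
        exact this.symm
      have hne : c 1 ≠ c (-1) := by
        intro h
        have hd := (hc.eq_iff 1 (-1)).1 h
        have := Int.le_of_dvd (by norm_num) hd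
        omega
      have hnadj : ¬ X.Adj (c 1) (c (-1)) := by
        intro h
        rcases hc.induced 1 (-1) h with hd | hd
        · have hd' : (2 : ℤ) ∣ -1 - 1 - 1 := (Dvd.intro _ rfl).trans hd
          omega
        · have hd' : (2 : ℤ) ∣ 1 - -1 - 1 := (Dvd.intro _ rfl).trans hd
          omega
      obtain ⟨l', c', hc', e0, e1, em1, hr⟩ := hkey (c 0) (c 1) (c (-1)) h0 h1' hm1 hadj1 hadj2
        hne hnadj
      obtain ⟨-, hcc⟩ := h4 V X hX l l' c c' hc hc' e0.symm e1.symm em1.symm
      rw [hcc]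
      exact hr
  · intro v hv x hx y hy hvx hvy hxy hnxy
    obtain ⟨l, c, hc, e0, e1, em1, -⟩ := hkey v x y hv hx hy hvx hvy hxy hnxy
    exact ⟨l, c, hc, e0, e1, em1⟩

end Pool.Agent.H341.MA
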