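import Pool.Agent.H341.MA.St2

/-!
# Thin systems: polygons are gated
-/

set_option autoImplicit false

namespace Pool.Agent.H341.MA

universe u v

section TG

variable {W η : Type u} [DecidableEq η] (φ : W → Finset η)

theorem TG_comm (a b : W) : D φ a b = D φ b a := symmDiff_comm _ _

theorem TG_self (a : W) : D φ a a = ∅ := by
  unfold D
  rw [symmDiff_self]
  rfl

theorem TG_tri (a b c : W) : D φ a c = symmDiff (D φ a b) (D φ b c) := by
  unfold D
  rw [symmDiff_assoc, symmDiff_symmDiff_cancel_left]

theorem TG_card_symm (A B : Finset η) : (symmDiff A B).card ≤ A.card + B.card := by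
  have h : symmDiff A B ⊆ A ∪ B := by
    intro x hx
    rw [Finset.mem_symmDiff] at hx
    rw [Finset.mem_union]
    tauto
  exact (Finset.card_le_card h).trans (Finset.card_union_le A B)

theorem TG_card_tri (a b c : W) : (D φ a c).card ≤ (D φ a b).card + (D φ b c).card := by
  rw [TG_tri φ a b c]
  exact TG_card_symm _ _

theorem TG_bt_iff (a b w : W) :
    w ∈ Bt φ a b ↔ (D φ a b).card = (D φ a w).card + (D φ w b).card := by
  constructor
  · intro h
    have h1 : D φ a w ⊆ D φ a b := h
    have h2 : D φ w b = D φ a b \ D φ a w := by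
      rw [TG_tri φ w a b, TG_comm φ w a]
      ext x
      rw [Finset.mem_symmDiff, Finset.mem_sdiff]
      have := @h1 x
      tauto
    rw [h2, Finset.card_sdiff_of_subset h1]
    have := Finset.card_le_card h1
    omega
  · intro h
    have h1 : D φ a b ⊆ D φ a w ∪ D φ w b := by
      rw [TG_tri φ a w b]
      intro x hx
      rw [Finset.mem_symmDiff] at hx
      rw [Finset.mem_union]
      tauto
    have h2 : D φ a b = D φ a w ∪ D φ w b := by
      apply Finset.eq_of_subset_of_card_le h1
      rw [h]
      exact Finset.card_union_le _ _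
    show D φ a w ⊆ D φ a b
    rw [h2]
    exact Finset.subset_union_left

theorem TG_parity (v p q : W) (h : Nb φ p q) :
    (D φ v q).card = (D φ v p).card + 1 ∨ (D φ v p).card = (D φ v q).card + 1 := by
  obtain ⟨x, hx⟩ := Finset.card_eq_one.1 h
  rw [TG_tri φ v p q, hx]
  by_cases hm : x ∈ D φ v p
  · right
    have e : symmDiff (D φ v p) {x} = (D φ v p).erase x := by
      ext y
      rw [Finset.mem_symmDiff, Finset.mem_singleton, Finset.mem_erase]
      constructor
      · rintro (⟨h1, h2⟩ | ⟨h1, h2⟩)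
        · exact ⟨h2, h1⟩
        · exact absurd (h1 ▸ hm) h2
      · rintro ⟨h1, h2⟩
        exact Or.inl ⟨h2, h1⟩
    rw [e, Finset.card_erase_of_mem hm]
    have := Finset.card_pos.2 ⟨x, hm⟩
    omega
  · left
    have e : symmDiff (D φ v p) {x} = insert x (D φ v p) := by
      ext y
      rw [Finset.mem_symmDiff, Finset.mem_singleton, Finset.mem_insert]
      constructor
      · rintro (⟨h1, h2⟩ | ⟨h1, h2⟩)
        · exact Or.inr h1
        · exact Or.inl h1
      · rintro (h1 | h1)
        · exact Or.inr ⟨h1, h1 ▸ hm⟩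
        · refine Or.inl ⟨h1, ?_⟩
          rintro rfl
          exact hm h1
    rw [e, Finset.card_insert_of_notMem hm]

theorem TG_eq_of_subset_self {φ : W → Finset η} (hi : Function.Injective φ) {p t : W}
    (h : D φ p t ⊆ D φ p p) : t = p := by
  rw [TG_self, Finset.subset_empty] at h
  have h1 : symmDiff (φ p) (φ t) = ⊥ := h
  exact (hi (symmDiff_eq_bot.1 h1)).symm

theorem TG_D_inj {φ : W → Finset η} (hi : Function.Injective φ) (a : W) :
    Function.Injective (D φ a) := by
  intro b c h
  have h1 : symmDiff (φ a) (φ b) = symmDiff (φ a) (φ c) := h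
  exact hi (symmDiff_right_injective (φ a) h1)

theorem TG_finite {φ : W → Finset η} (hi : Function.Injective φ) (a b : W) :
    (Bt φ a b).Finite := by
  apply Set.Finite.of_finite_image (f := D φ a) _ (TG_D_inj hi a).injOn
  apply (D φ a b).powerset.finite_toSet.subset
  rintro x ⟨w, hw, rfl⟩
  rw [Finset.mem_coe, Finset.mem_powerset]
  exact hw

end TG

theorem t_g : T_G.{u} := by
  intro W η _ φ Pol hT P hP hne v
  obtain ⟨a, ha⟩ := hne
  obtain ⟨a', ha', hPa⟩ := hT.anti P hP a ha
  have hfin : P.Finite := by rw [hPa]; exact TG_finite hT.inj a a'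
  obtain ⟨p, hp, hmax⟩ := Set.exists_max_image P (fun p => (D φ v p).card) hfin ⟨a, ha⟩
  obtain ⟨p', hp', hPp⟩ := hT.anti P hP p hp
  by_cases hpp : p' = p
  · refine ⟨p, hp, fun t ht => ?_⟩
    rw [hPp, hpp] at ht
    have h1 : t = p := TG_eq_of_subset_self hT.inj ht
    rw [h1, TG_self, Finset.card_empty, add_zero]
  · obtain ⟨p1, hn1, hb1⟩ := hT.iso p p' (Ne.symm hpp)
    have hp1 : p1 ∈ P := by rw [hPp]; exact hb1
    obtain ⟨p2, hp2, h21, hn2, hall⟩ := hT.two P hP p hp p1 hp1 hn1
    have low : ∀ s ∈ P, Nb φ p s → (D φ v p).card = (D φ v s).card + 1 := by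
      intro s hs hn
      have h1 := hmax s hs
      rcases TG_parity φ v p s hn with h2 | h2
      · omega
      · exact h2
    have low' : ∀ s ∈ P, Nb φ p s → s ∈ Bt φ p v := by
      intro s hs hn
      rw [TG_bt_iff]
      have h1 := low s hs hn
      have h2 : (D φ p s).card = 1 := hn
      rw [TG_comm φ p v, TG_comm φ s v]
      omega
    obtain ⟨P', hP', hx', hy', hz', m, hm, hPm, hm1, hm2⟩ := hT.cyc v p1 p2 p (Ne.symm h21) hn1 hn2
      (low' p1 hp1 hn1) (low' p2 hp2 hn2)
    have hPP : P = P' := hT.uniq P hP P' hP' p1 p2 p (Ne.symm h21) hn1 hn2 hp1 hp2 hp hx' hy' hz'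
    subst hPP
    refine ⟨m, hm, fun t ht => ?_⟩
    have hms : ∀ s ∈ P, Nb φ p s → m ∈ Bt φ v s := by
      intro s hs hn
      rcases hall s hs hn with rfl | rfl
      · exact hm1
      · exact hm2
    by_cases htp : t = p
    · subst htp
      have e1 := low p1 hp1 hn1
      have e2 := (TG_bt_iff φ v p1 m).1 hm1
      have e3 := (TG_bt_iff φ t m p1).1 (by rw [← hPm]; exact hp1)
      have e4 : (D φ t p1).card = 1 := hn1
      rw [TG_comm φ m t]
      rw [TG_comm φ m p1] at e2
      omega
    · obtain ⟨s, hns, hbs⟩ := hT.iso p t (Ne.symm htp)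
      have ht' : D φ p t ⊆ D φ p m := by
        have : t ∈ Bt φ p m := by rw [← hPm]; exact ht
        exact this
      have hs : s ∈ P := by
        rw [hPm]
        exact Finset.Subset.trans (show D φ p s ⊆ D φ p t from hbs) ht'
      have e1 := low s hs hns
      have e2 := (TG_bt_iff φ v s m).1 (hms s hs hns)
      have e3 := (TG_bt_iff φ p t s).1 hbs
      have e4 := (TG_bt_iff φ p m t).1 ht'
      have e5 := (TG_bt_iff φ p m s).1 (by rw [← hPm]; exact hs)
      have e6 := TG_card_tri φ v m t
      have e7 := TG_card_tri φ v t s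
      have e8 : (D φ p s).card = 1 := hns
      rw [TG_comm φ t m] at e4
      rw [TG_comm φ s m] at e5
      rw [TG_comm φ t s] at e7
      omega

end Pool.Agent.H341.MA
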