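import Pool.Agent.H341.MA.St2

/-! T_LIFT (written by helper358). -/

set_option autoImplicit false

namespace Pool.Agent.H341.MA

universe u v

section
variable {W η : Type u} [DecidableEq η] {φ : W → Finset η}

private theorem lmem {a b : W} {e : η} : e ∈ D φ a b ↔ ¬ (e ∈ φ a ↔ e ∈ φ b) := by
  unfold D
  rw [Finset.mem_symmDiff]
  tauto

private theorem bt_iff {a b w : W} : w ∈ Bt φ a b ↔ ∀ e, (e ∈ φ a ↔ e ∈ φ b) → (e ∈ φ a ↔ e ∈ φ w) := by
  have h0 : w ∈ Bt φ a b ↔ ∀ e, e ∈ D φ a w → e ∈ D φ a b := Iff.rfl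
  rw [h0]
  refine forall_congr' fun e => ?_
  rw [lmem, lmem]
  tauto

private theorem bt_comm {a b w : W} (h : w ∈ Bt φ a b) : w ∈ Bt φ b a := by
  rw [bt_iff] at h ⊢
  intro e he
  have := h e he.symm
  tauto

private theorem bt_trans {a x z w : W} (h1 : w ∈ Bt φ a x) (h2 : x ∈ Bt φ a z) : w ∈ Bt φ a z := by
  rw [bt_iff] at h1 h2 ⊢
  intro e he
  exact h1 e (h2 e he)

private theorem D_comm (a b : W) : D φ a b = D φ b a := by
  ext e
  rw [lmem, lmem]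
  tauto

private theorem D_split (a w b : W) :
    D φ a b = (D φ a w \ D φ w b) ∪ (D φ w b \ D φ a w) := by
  ext e
  rw [Finset.mem_union, Finset.mem_sdiff, Finset.mem_sdiff, lmem, lmem, lmem]
  tauto

private theorem card_split (a w b : W) :
    (D φ a b).card + 2 * (D φ a w ∩ D φ w b).card = (D φ a w).card + (D φ w b).card := by
  have h1 : Disjoint (D φ a w \ D φ w b) (D φ w b \ D φ a w) := by
    rw [Finset.disjoint_left]
    intro e he he'
    rw [Finset.mem_sdiff] at he he'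
    exact he.2 he'.1
  have h2 := Finset.card_union_of_disjoint h1
  rw [← D_split] at h2
  have h3 := Finset.card_sdiff_add_card_inter (D φ a w) (D φ w b)
  have h4 := Finset.card_sdiff_add_card_inter (D φ w b) (D φ a w)
  rw [Finset.inter_comm (D φ w b)] at h4
  omega

private theorem card_bt {a b w : W} (h : w ∈ Bt φ a b) :
    (D φ a b).card = (D φ a w).card + (D φ w b).card := by
  have h1 := card_split (φ := φ) a w b
  have h2 : D φ a w ∩ D φ w b = ∅ := by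
    ext e
    rw [Finset.mem_inter, lmem, lmem]
    have := (bt_iff.1 h) e
    constructor
    · intro h3
      exfalso
      tauto
    · intro h3
      exact absurd h3 (Finset.notMem_empty e)
  rw [h2, Finset.card_empty] at h1
  omega

private theorem disj_of_card {a b w : W}
    (h : (D φ a b).card = (D φ a w).card + (D φ w b).card) :
    ∀ e, e ∈ D φ a w → e ∉ D φ w b := by
  have h1 := card_split (φ := φ) a w b
  have h2 : (D φ a w ∩ D φ w b).card = 0 := by omega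
  rw [Finset.card_eq_zero] at h2
  intro e he he'
  have h3 : e ∈ D φ a w ∩ D φ w b := Finset.mem_inter.2 ⟨he, he'⟩
  rw [h2] at h3
  exact absurd h3 (Finset.notMem_empty e)

private theorem eq_of_D {Pol : Set (Set W)} (hT : Thin φ Pol) {a b c : W} (h : D φ a b = D φ a c) :
    b = c := by
  apply hT.inj
  ext e
  have h1 : e ∈ D φ a b ↔ e ∈ D φ a c := by rw [h]
  rw [lmem, lmem] at h1
  tauto

private theorem D_self (a : W) : D φ a a = ∅ := by
  ext e
  rw [lmem]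
  simp

private theorem left_mem (a b : W) : a ∈ Bt φ a b := by
  rw [bt_iff]; intro e _; exact Iff.rfl

private theorem right_mem (a b : W) : b ∈ Bt φ a b := by
  rw [bt_iff]; intro e h; exact h

private theorem fin_taut (c v w m p r r' v'' : Prop)
    (h1 : ¬(v ↔ p) ↔ ¬(w ↔ m)) (h2 : ¬(v'' ↔ r) → ¬¬(r ↔ r')) (h3 : (w ↔ m) → (w ↔ r))
    (h4 : (r ↔ r') → (r ↔ w)) (h5 : (r ↔ r') → (r ↔ m)) (h6 : (v ↔ p) → (v ↔ v''))
    (h7 : c ↔ ¬(v ↔ w)) (h8 : ¬(v ↔ p) → ¬c) : c ↔ ¬(v'' ↔ r) := by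
  by_cases hv : v <;> by_cases hw : w <;> by_cases hm : m <;> by_cases hp : p <;>
    simp only [hv, hw, hm, hp, iff_true, iff_false, true_iff, false_iff, not_true_eq_false,
      not_false_eq_true, false_imp_iff, true_imp_iff, iff_self, not_not] at h1 h2 h3 h4 h5 h6 h7 h8 ⊢ <;>
    tauto

private theorem taut2 (c v w m p : Prop) (h1 : (v ↔ m) → (v ↔ p)) (h2 : ¬(v ↔ w) → ¬¬(w ↔ m))
    (h3 : (w ↔ p) → (w ↔ m)) (h4 : ¬(v ↔ p) → ¬c) (h5 : c ↔ ¬(v ↔ w)) :
    ¬(v ↔ p) ↔ ¬(w ↔ m) := by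
  by_cases hv : v <;> by_cases hw : w <;> by_cases hm : m <;> by_cases hp : p <;> simp_all

private theorem taut3 (c v w p v' w' : Prop) (he : w ↔ p) (h1 : (v ↔ p) → (v ↔ v'))
    (h2 : ¬(w ↔ w') ↔ ¬(v ↔ v')) (h3 : ¬(v ↔ p) → ¬c) (h4 : ¬(v ↔ v') → ¬c)
    (h5 : c ↔ ¬(v ↔ w)) : w ↔ w' := by
  by_cases hv : v <;> by_cases hw : w <;> by_cases hm : v' <;> by_cases hp : w' <;> simp_all

private theorem taut4 (v w m v' w' : Prop) (he : v ↔ m) (h2 : (w ↔ m) → (w ↔ w'))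
    (h3 : ¬(w ↔ w') ↔ ¬(v ↔ v')) (h4 : ¬(v ↔ w) → ¬¬(w ↔ m)) : v ↔ v' := by
  by_cases hv : v <;> by_cases hw : w <;> by_cases hm : v' <;> by_cases hp : w' <;> simp_all

/-- one step -/
private theorem step {Pol : Set (Set W)} (hT : Thin φ Pol)
    (hG : ∀ P ∈ Pol, P.Nonempty → ∀ v, ∃ q ∈ P, ∀ p ∈ P,
      (D φ v p).card = (D φ v q).card + (D φ q p).card)
    {o Z : W} {H1 : Finset η} (hH : ∀ e, e ∈ D φ o Z → e ∉ H1) (hA : TAnt φ o Z)
    {v v' v'' : W} (hv : v ∈ Bt φ o Z) (hv' : v' ∈ Bt φ o Z) (hv'' : v'' ∈ Bt φ o Z)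
    (hvl : ∃ u, D φ v u = H1) (hnl : ∀ t ∈ Bt φ o Z, Nb φ v t → ∃ u, D φ t u = H1)
    (n1 : Nb φ v v') (n2 : Nb φ v' v'') : ∃ u, D φ v'' u = H1 := by
  by_cases hvv : v'' = v
  · rw [hvv]; exact hvl
  -- the antipode of `v'`
  obtain ⟨a, ha, hva⟩ := hA v' hv'
  have memA : ∀ t, t ∈ Bt φ v' a ↔ t ∈ Bt φ o Z := by
    intro t
    have e1 : ∀ e, e ∈ D φ v' a ↔ e ∈ D φ o Z := fun e => by rw [hva]
    rw [bt_iff, bt_iff]
    refine forall_congr' fun e => ?_
    have e2 := e1 e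
    have e3 := (bt_iff.1 hv') e
    rw [lmem, lmem] at e2
    clear * - e2 e3
    tauto
  have n1' : Nb φ v' v := by
    unfold Nb at n1 ⊢
    rw [D_comm]; exact n1
  obtain ⟨F, hF, hvF, hv''F, hv'F, f, hfF, hFf, hf1, -⟩ := hT.cyc a v v'' v' (Ne.symm hvv) n1' n2
    ((memA v).2 hv) ((memA v'').2 hv'')
  have hFA : ∀ t ∈ F, t ∈ Bt φ o Z := by
    intro t ht
    rw [hFf] at ht
    have h1 : f ∈ Bt φ v' a := bt_comm (bt_trans hf1 (bt_comm ((memA v).2 hv)))
    exact (memA t).1 (bt_trans ht h1)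
  obtain ⟨v3, hv3F, hv3v', n3, honly⟩ := hT.two F hF v hvF v' hv'F n1
  obtain ⟨φ0, hφ0F, hFφ0⟩ := hT.anti F hF v hvF
  obtain ⟨w, hw⟩ := hvl
  obtain ⟨w', hw'⟩ := hnl v' hv' n1
  obtain ⟨w3, hw3⟩ := hnl v3 (hFA v3 hv3F) n3
  -- pointwise facts
  have pw : ∀ e, e ∈ H1 ↔ ¬ (e ∈ φ v ↔ e ∈ φ w) := fun e => by rw [← hw, lmem]
  have pw' : ∀ e, e ∈ H1 ↔ ¬ (e ∈ φ v' ↔ e ∈ φ w') := fun e => by rw [← hw', lmem]
  have pw3 : ∀ e, e ∈ H1 ↔ ¬ (e ∈ φ v3 ↔ e ∈ φ w3) := fun e => by rw [← hw3, lmem]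
  have e1 : D φ w w' = D φ v v' := by
    ext e
    rw [lmem, lmem]
    have h1 := pw e
    have h2 := pw' e
    clear * - h1 h2
    tauto
  have e3 : D φ w w3 = D φ v v3 := by
    ext e
    rw [lmem, lmem]
    have h1 := pw e
    have h2 := pw3 e
    clear * - h1 h2
    tauto
  have hne : w' ≠ w3 := by
    intro h0
    rw [h0] at e1
    have h1 : D φ v v' = D φ v v3 := by rw [← e1, e3]
    exact hv3v' (eq_of_D hT h1).symm
  have m1 : Nb φ w w' := by unfold Nb at n1 ⊢; rw [e1]; exact n1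
  have m3 : Nb φ w w3 := by unfold Nb at n3 ⊢; rw [e3]; exact n3
  -- elements of A* : differences are in D o Z
  have inA : ∀ s ∈ Bt φ o Z, ∀ t ∈ Bt φ o Z, ∀ e, e ∈ D φ s t → e ∉ H1 := by
    intro s hs t ht e he
    apply hH e
    have h1 := (bt_iff.1 hs) e
    have h2 := (bt_iff.1 ht) e
    rw [lmem] at he ⊢
    clear * - h1 h2 he
    tauto
  have hφ0A := hFA φ0 hφ0F
  have hv'φ : v' ∈ Bt φ v φ0 := by rw [← hFφ0]; exact hv'F
  have hv3φ : v3 ∈ Bt φ v φ0 := by rw [← hFφ0]; exact hv3F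
  have hw'φ : w' ∈ Bt φ w φ0 := by
    rw [bt_iff] at hv'φ ⊢
    intro e he
    have h1 := hv'φ e
    have h2 : e ∈ D φ w w' ↔ e ∈ D φ v v' := by rw [e1]
    have h3 := inA v hv φ0 hφ0A e
    have h4 := inA v hv v' hv' e
    have h5 := pw e
    rw [lmem] at h3 h4
    rw [lmem, lmem] at h2
    exact taut3 _ _ _ _ _ _ he h1 h2 h3 h4 h5
  have hw3φ : w3 ∈ Bt φ w φ0 := by
    rw [bt_iff] at hv3φ ⊢
    intro e he
    have h1 := hv3φ e
    have h2 : e ∈ D φ w w3 ↔ e ∈ D φ v v3 := by rw [e3]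
    have h3 := inA v hv φ0 hφ0A e
    have h4 := inA v hv v3 (hFA v3 hv3F) e
    have h5 := pw e
    rw [lmem] at h3 h4
    rw [lmem, lmem] at h2
    exact taut3 _ _ _ _ _ _ he h1 h2 h3 h4 h5
  obtain ⟨F', hF', hw'F', hw3F', hwF', m, hmF', hF'm, hm1, -⟩ :=
    hT.cyc φ0 w' w3 w hne m1 m3 hw'φ hw3φ
  have hmw : m ∈ Bt φ w φ0 := bt_comm (bt_trans hm1 (bt_comm hw'φ))
  obtain ⟨q, hq, hqG⟩ := hG F' hF' ⟨w, hwF'⟩ v
  -- distances from `v`
  have cvw' : (D φ v w').card = (D φ v w).card + 1 := by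
    have h1 := card_split (φ := φ) v w w'
    have h2 : D φ v w ∩ D φ w w' = ∅ := by
      rw [hw, e1]
      ext e
      rw [Finset.mem_inter]
      constructor
      · rintro ⟨h3, h4⟩
        exact absurd h3 (inA v hv v' hv' e h4)
      · intro h3
        exact absurd h3 (Finset.notMem_empty e)
    rw [h2, Finset.card_empty] at h1
    have h3 : (D φ w w').card = 1 := m1
    omega
  have cvw3 : (D φ v w3).card = (D φ v w).card + 1 := by
    have h1 := card_split (φ := φ) v w w3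
    have h2 : D φ v w ∩ D φ w w3 = ∅ := by
      rw [hw, e3]
      ext e
      rw [Finset.mem_inter]
      constructor
      · rintro ⟨h3, h4⟩
        exact absurd h3 (inA v hv v3 (hFA v3 hv3F) e h4)
      · intro h3
        exact absurd h3 (Finset.notMem_empty e)
    rw [h2, Finset.card_empty] at h1
    have h3 : (D φ w w3).card = 1 := m3
    omega
  have hqw : q = w := by
    by_contra hqw
    obtain ⟨s, hs1, hs2⟩ := hT.iso w q (Ne.symm hqw)
    have hsF' : s ∈ F' := by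
      rw [hF'm] at hq ⊢
      exact bt_trans hs2 hq
    obtain ⟨b, hbF', hbw', hb1, hb2⟩ := hT.two F' hF' w hwF' w' hw'F' m1
    have h3b : w3 = b := by
      rcases hb2 w3 hw3F' m3 with h | h
      · exact absurd h.symm hne
      · exact h
    have g1 := hqG w hwF'
    have g2 := hqG s hsF'
    have g3 := card_bt hs2
    have g4 : (D φ w s).card = 1 := hs1
    have g5 : (D φ q w).card = (D φ w q).card := by rw [D_comm]
    have g6 : (D φ q s).card = (D φ s q).card := by rw [D_comm]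
    rcases hb2 s hsF' hs1 with h | h
    · rw [h] at g2 g3 g4 g6
      omega
    · rw [← h3b] at h
      rw [h] at g2 g3 g4 g6
      omega
  rw [hqw] at hqG
  have hdm := disj_of_card (hqG m hmF')
  -- base `m` at `v`
  have hv'm : v' ∈ Bt φ v m := by
    have h1 : w' ∈ Bt φ w m := by rw [← hF'm]; exact hw'F'
    rw [bt_iff] at h1 ⊢
    intro e he
    have h2 := h1 e
    have h3 : e ∈ D φ w w' ↔ e ∈ D φ v v' := by rw [e1]
    have h4 := hdm e
    rw [lmem, lmem] at h3 h4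
    exact taut4 _ _ _ _ _ he h2 h3 h4
  have hv3m : v3 ∈ Bt φ v m := by
    have h1 : w3 ∈ Bt φ w m := by rw [← hF'm]; exact hw3F'
    rw [bt_iff] at h1 ⊢
    intro e he
    have h2 := h1 e
    have h3 : e ∈ D φ w w3 ↔ e ∈ D φ v v3 := by rw [e3]
    have h4 := hdm e
    rw [lmem, lmem] at h3 h4
    exact taut4 _ _ _ _ _ he h2 h3 h4
  obtain ⟨P, hP, hv'P, hv3P, hvP, m2, hm2P, hPm2, hm21, -⟩ :=
    hT.cyc m v' v3 v (Ne.symm hv3v') n1 n3 hv'm hv3m
  have hPF : P = F := hT.uniq P hP F hF v' v3 v (Ne.symm hv3v') n1 n3 hv'P hv3P hvP hv'F hv3F hvF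
  have hφm2 : φ0 ∈ Bt φ v m2 := by rw [← hPm2, hPF]; exact hφ0F
  have hm2m : m2 ∈ Bt φ v m := bt_comm (bt_trans hm21 (bt_comm hv'm))
  have hφm : φ0 ∈ Bt φ v m := bt_trans hφm2 hm2m
  -- `D v φ0 = D w m`
  have hHF : ∀ e, e ∈ D φ v φ0 ↔ e ∈ D φ w m := by
    intro e
    have h1 := (bt_iff.1 hφm) e
    have h2 := hdm e
    have h3 := (bt_iff.1 hmw) e
    have h4 := inA v hv φ0 hφ0A e
    have h5 := pw e
    rw [lmem, lmem] at h2
    rw [lmem] at h4
    rw [lmem, lmem]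
    exact taut2 _ _ _ _ _ h1 h2 h3 h4 h5
  -- the point `v''`
  obtain ⟨r, hr, hrG⟩ := hG F' hF' ⟨w, hwF'⟩ v''
  obtain ⟨r', hr', hF'r⟩ := hT.anti F' hF' r hr
  have hdr := disj_of_card (hrG r' hr')
  have hrm : r ∈ Bt φ w m := by rw [← hF'm]; exact hr
  have hwr : w ∈ Bt φ r r' := by rw [← hF'r]; exact hwF'
  have hmr : m ∈ Bt φ r r' := by rw [← hF'r]; exact hmF'
  have hv''φ : v'' ∈ Bt φ v φ0 := by rw [← hFφ0]; exact hv''F
  refine ⟨r, ?_⟩
  ext e
  have h1 := hHF e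
  have h2 := hdr e
  have h3 := (bt_iff.1 hrm) e
  have h4 := (bt_iff.1 hwr) e
  have h5 := (bt_iff.1 hmr) e
  have h6 := (bt_iff.1 hv''φ) e
  have h7 := pw e
  have h8 := inA v hv φ0 hφ0A e
  rw [lmem] at h8
  rw [lmem, lmem] at h1 h2
  rw [lmem]
  exact (fin_taut _ _ _ _ _ _ _ _ h1 h2 h3 h4 h5 h6 h7 h8).symm

end

theorem t_lift (hG : T_G.{u}) : T_LIFT.{u} := by
  intro W η _ φ Pol hT o Z z hZ hA hN
  have hGG := hG W η φ Pol hT
  have hH : ∀ e, e ∈ D φ o Z → e ∉ D φ Z z := by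
    have h1 := card_bt hZ
    exact disj_of_card h1
  have main : ∀ n : ℕ, ∀ v, (D φ Z v).card = n → v ∈ Bt φ o Z →
      (∃ x, D φ v x = D φ Z z) ∧ ∀ t ∈ Bt φ o Z, Nb φ v t → ∃ x, D φ t x = D φ Z z := by
    intro n
    induction n using Nat.strong_induction_on with
    | _ n ih =>
      intro v hn hv
      by_cases hvZ : v = Z
      · rw [hvZ]
        exact ⟨⟨z, rfl⟩, hN⟩
      obtain ⟨s, hs1, hs2⟩ := hT.iso v Z hvZ
      have hsA : s ∈ Bt φ o Z := bt_comm (bt_trans (bt_comm hs2) (bt_comm hv))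
      have hcard := card_bt hs2
      have h1 : (D φ v s).card = 1 := hs1
      have h2 : (D φ Z s).card = (D φ s Z).card := by rw [D_comm]
      have h3 : (D φ Z v).card = (D φ v Z).card := by rw [D_comm]
      obtain ⟨hs3, hs4⟩ := ih (D φ Z s).card (by omega) s rfl hsA
      have hsv : Nb φ s v := by
        unfold Nb at hs1 ⊢
        rw [D_comm]; exact hs1
      refine ⟨hs4 v hv hsv, fun t ht hvt => ?_⟩
      exact step hT hGG hH hA hsA hv ht hs3 hs4 hsv hvt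
  exact (main _ o rfl (left_mem o Z)).1

end Pool.Agent.H341.MA
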