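import Pool.Agent.H341.MA.St2

/-! T_MAIN and S_THIN: the main theorem on thin systems (written by helper100). -/

set_option autoImplicit false

namespace Pool.Agent.H341.MA

universe u v

section TMainAux

variable {W η : Type u} [DecidableEq η] {φ : W → Finset η}

private theorem memD (a b : W) (e : η) :
    e ∈ D φ a b ↔ ((e ∈ φ a ∧ e ∉ φ b) ∨ (e ∈ φ b ∧ e ∉ φ a)) := Finset.mem_symmDiff

private theorem D_self (a : W) : D φ a a = ∅ := by
  unfold D
  rw [symmDiff_self]
  rfl

private theorem D_comm (a b : W) : D φ a b = D φ b a := symmDiff_comm _ _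

private theorem D_ne {Pol : Set (Set W)} (hT : Thin φ Pol) {a b : W} (h : a ≠ b) :
    (D φ a b).Nonempty := by
  rw [Finset.nonempty_iff_ne_empty]
  intro h0
  apply h
  apply hT.inj
  exact symmDiff_eq_bot.1 h0

/-- the induction hypothesis below `n` -/
private def IH (φ : W → Finset η) (n : ℕ) : Prop :=
  ∀ o' z' : W, (D φ o' z').card < n → o' ≠ z' → TMain φ o' z'

private theorem good_step {Pol : Set (Set W)} (hT : Thin φ Pol) (hn : T_N.{u}) (hp : T_PI.{u})
    {o z v u v' : W} (hI : IH φ (D φ o z).card) (hv : v ∈ Bt φ o z) (hu : u ∈ Bt φ o z)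
    (hvu : Nb φ v u) (h1 : D φ v v' = D φ o z) (h2 : LB φ v' (Low φ v' v) = {v'}) :
    ∃ y, D φ u y = D φ o z ∧ LB φ y (Low φ y u) = {y} := by
  have huL : u ∈ Low φ v' v := by
    refine ⟨hvu, ?_⟩
    intro e he
    rw [h1]
    have a1 : e ∈ D φ o u → e ∈ D φ o z := fun q => hu q
    have a2 : e ∈ D φ o v → e ∈ D φ o z := fun q => hv q
    rw [memD] at he
    rw [memD, memD] at a1 a2
    rw [memD]
    tauto
  have hcard : (D φ v' v).card = (D φ o z).card := by
    rw [D_comm v' v, h1]
  have hI' : ∀ o' z' : W, (D φ o' z').card < (D φ v' v).card → o' ≠ z' → TMain φ o' z' := by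
    intro o' z' h
    rw [hcard] at h
    exact hI o' z' h
  obtain ⟨y, hy⟩ := (hn W η φ Pol hT v' v hI' (Low φ v' v) ⟨u, huL⟩ (fun _ h => h) h2).1 u huL
  have huy : D φ u y = D φ v' v := by
    ext e
    have a1 : e ∈ D φ v' y ↔ e ∈ D φ v u := by
      rw [hy]
    rw [memD, memD] at a1
    rw [memD, memD]
    tauto
  refine ⟨y, ?_, hp W η φ Pol hT v' v hI' h2 u y huL huy⟩
  rw [huy, D_comm v' v, h1]

private theorem good_all {Pol : Set (Set W)} (hT : Thin φ Pol) (hn : T_N.{u}) (hp : T_PI.{u})
    {o z : W} (hI : IH φ (D φ o z).card) (h0 : LB φ o (Low φ o z) = {o}) :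
    ∀ (k : ℕ) (v : W), (D φ v z).card = k → v ∈ Bt φ o z →
      ∃ v', D φ v v' = D φ o z ∧ LB φ v' (Low φ v' v) = {v'} := by
  intro k
  induction k using Nat.strong_induction_on with
  | _ k ih =>
    intro v hk hv
    by_cases hvz : v = z
    · subst hvz
      exact ⟨o, D_comm _ _, h0⟩
    obtain ⟨w, hw1, hw2⟩ := hT.iso v z hvz
    have hwo : w ∈ Bt φ o z := by
      intro e he
      have a1 : e ∈ D φ o v → e ∈ D φ o z := fun q => hv q
      have a2 : e ∈ D φ v w → e ∈ D φ v z := fun q => hw2 q
      rw [memD] at he
      rw [memD, memD] at a1 a2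
      rw [memD]
      tauto
    have hlt : (D φ w z).card < k := by
      rw [← hk]
      refine Finset.card_lt_card (Finset.ssubset_iff_subset_ne.2 ⟨?_, ?_⟩)
      · intro e he
        have a2 : e ∈ D φ v w → e ∈ D φ v z := fun q => hw2 q
        rw [memD] at he
        rw [memD, memD] at a2
        rw [memD]
        tauto
      · intro heq
        obtain ⟨e, he⟩ := Finset.card_pos.1 (by
          have : (D φ v w).card = 1 := hw1
          omega : 0 < (D φ v w).card)
        have a2 : e ∈ D φ v z := hw2 he
        have a3 : e ∈ D φ w z := by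
          rw [heq]
          exact a2
        rw [memD] at he a2 a3
        tauto
    obtain ⟨w', b1, b2⟩ := ih _ hlt w rfl hwo
    have hwv : Nb φ w v := by
      unfold Nb
      rw [D_comm]
      exact hw1
    exact good_step hT hn hp hI hwo hv hwv b1 b2

end TMainAux

theorem t_main (hm : T_MEET.{u}) (hn : T_N.{u}) (hp : T_PI.{u}) : T_MAIN.{u} := by
  intro W η _ φ Pol hT
  have key : ∀ (n : ℕ) (o z : W), (D φ o z).card = n → o ≠ z → TMain φ o z := by
    intro n
    induction n using Nat.strong_induction_on with
    | _ n ih =>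
      intro o z hcard hoz T hTne hTL b hb hbm
      have hI : IH φ (D φ o z).card := by
        intro o' z' h1 h2
        rw [hcard] at h1
        exact ih _ h1 o' z' rfl h2
      obtain ⟨x, hx⟩ := hTne
      have hxL := hTL hx
      by_cases hbo : b = o
      · subst hbo
        have hLB : LB φ b T = {b} := by
          ext w
          rw [Set.mem_singleton_iff]
          constructor
          · intro hw
            by_contra hne
            obtain ⟨e, he⟩ := D_ne hT (Ne.symm hne)
            have h1 := hbm w hw he
            rw [D_self] at h1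
            exact absurd h1 (Finset.notMem_empty _)
          · rintro rfl
            exact hb
        obtain ⟨-, h2⟩ := hn W η φ Pol hT b z hI T ⟨x, hx⟩ hTL hLB
        refine ⟨?_, h2⟩
        intro v hv
        rw [← h2] at hLB
        obtain ⟨v', h3, -⟩ := good_all hT hn hp hI hLB _ v rfl hv
        refine ⟨v', ?_, h3⟩
        intro e he
        have a1 : e ∈ D φ b v → e ∈ D φ b z := fun q => hv q
        have a2 : e ∈ D φ v v' ↔ e ∈ D φ b z := by
          rw [h3]
        rw [memD] at he
        rw [memD, memD] at a1 a2
        rw [memD]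
        tauto
      · -- `b` is different from the base point
        have hTb : T ⊆ Low φ b z := by
          intro t ht
          refine ⟨(hTL ht).1, ?_⟩
          intro e he
          have a1 : e ∈ D φ z t → e ∈ D φ z o := fun q => (hTL ht).2 q
          have a2 : e ∈ D φ o b → e ∈ D φ o t := fun q => hb t ht q
          rw [memD] at he
          rw [memD, memD] at a1 a2
          rw [memD]
          tauto
        have hbb : b ∈ LB φ b T := by
          intro t _ e he
          rw [D_self] at he
          exact absurd he (Finset.notMem_empty _)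
        have hbmb : ∀ w ∈ LB φ b T, w ∈ Bt φ b b := by
          intro w hw e he
          have hwo : w ∈ LB φ o T := by
            intro t ht e' he'
            have a2 : e' ∈ D φ o b → e' ∈ D φ o t := fun q => hb t ht q
            have a3 : e' ∈ D φ b w → e' ∈ D φ b t := fun q => hw t ht q
            rw [memD] at he'
            rw [memD, memD] at a2 a3
            rw [memD]
            tauto
          have a1 : e ∈ D φ o w → e ∈ D φ o b := fun q => hbm w hwo q
          have a2 : e ∈ D φ o b → e ∈ D φ o x := fun q => hb x hx q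
          have a3 : e ∈ D φ b x := hw x hx he
          rw [memD] at he a3
          rw [memD, memD] at a1 a2
          exfalso
          tauto
        have hbz : b ≠ z := by
          rintro rfl
          obtain ⟨e, he⟩ := Finset.card_pos.1 (by
            have : (D φ b x).card = 1 := hxL.1
            omega : 0 < (D φ b x).card)
          have a1 : e ∈ D φ b o := hxL.2 he
          have a2 : e ∈ D φ o b → e ∈ D φ o x := fun q => hb x hx q
          rw [memD] at he a1
          rw [memD, memD] at a2
          tauto
        have hlt : (D φ b z).card < n := by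
          rw [← hcard]
          refine Finset.card_lt_card (Finset.ssubset_iff_subset_ne.2 ⟨?_, ?_⟩)
          · intro e he
            have a1 : e ∈ D φ z x → e ∈ D φ z o := fun q => hxL.2 q
            have a2 : e ∈ D φ o b → e ∈ D φ o x := fun q => hb x hx q
            rw [memD] at he
            rw [memD, memD] at a1 a2
            rw [memD]
            tauto
          · intro heq
            obtain ⟨e, he⟩ := D_ne hT (Ne.symm hbo)
            have a1 : e ∈ D φ z x → e ∈ D φ z o := fun q => hxL.2 q
            have a2 : e ∈ D φ o x := hb x hx he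
            have a3 : e ∈ D φ b z ↔ e ∈ D φ o z := by
              rw [heq]
            rw [memD] at he a2
            rw [memD, memD] at a1 a3
            tauto
        exact ih _ hlt b z rfl hbz T ⟨x, hx⟩ hTb b hbb hbmb
  intro o z hoz
  exact key _ o z rfl hoz

theorem s_thin (hm : T_MEET.{u}) (ht : T_MAIN.{u}) : S_THIN.{u} := by
  intro W η _ φ Pol hT o z hoz
  obtain ⟨w, hw1, hw2⟩ := hT.iso z o (Ne.symm hoz)
  have hne : (Low φ o z).Nonempty := ⟨w, hw1, hw2⟩
  obtain ⟨m, hm1, hm2⟩ := hm W η φ Pol hT o z (Low φ o z) hne (fun _ h => h)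
  refine ⟨m, ?_, fun x hx => hm1 x hx,
    (ht W η φ Pol hT o z hoz (Low φ o z) hne (fun _ h => h) m hm1 hm2).1⟩
  intro e he
  have a1 : e ∈ D φ z w → e ∈ D φ z o := fun q => hw2 q
  have a2 : e ∈ D φ o w := hm1 w ⟨hw1, hw2⟩ he
  rw [memD] at a2
  rw [memD, memD] at a1
  rw [memD]
  tauto

end Pool.Agent.H341.MA
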