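import Pool.Agent.H341.MA.St2

/-! T_MEET: meets in thin systems, and a small API for `D`, `Bt`, `Nb` (written by helper331). -/

set_option autoImplicit false

namespace Pool.Agent.H341.MA

universe u v

section tm_api

variable {W η : Type u} [DecidableEq η] {φ : W → Finset η}

theorem tm_mem_D {a b : W} {e : η} : e ∈ D φ a b ↔ ¬ (e ∈ φ a ↔ e ∈ φ b) := by
  unfold D
  rw [Finset.mem_symmDiff]
  tauto

theorem tm_mem_Bt {a b w : W} : w ∈ Bt φ a b ↔ ∀ e, (e ∈ φ a ↔ e ∈ φ b) → (e ∈ φ a ↔ e ∈ φ w) := by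
  constructor
  · intro h e he
    by_contra hcon
    exact tm_mem_D.1 (h (tm_mem_D.2 hcon)) he
  · intro h e he
    rw [tm_mem_D] at he ⊢
    exact fun h2 => he (h e h2)

theorem tm_D_self (a : W) : D φ a a = ∅ := symmDiff_self _

theorem tm_D_comm (a b : W) : D φ a b = D φ b a := symmDiff_comm _ _

theorem tm_left (a b : W) : a ∈ Bt φ a b := tm_mem_Bt.2 fun _ _ => Iff.rfl

theorem tm_right (a b : W) : b ∈ Bt φ a b := tm_mem_Bt.2 fun _ h => h

theorem tm_comm {a b w : W} (h : w ∈ Bt φ a b) : w ∈ Bt φ b a := by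
  rw [tm_mem_Bt] at h ⊢
  intro e he
  have := h e
  tauto

/-- order `o, w, x, z` -/
theorem tm_trans {o w x z : W} (h1 : w ∈ Bt φ o x) (h2 : x ∈ Bt φ o z) : w ∈ Bt φ o z := by
  rw [tm_mem_Bt] at h1 h2 ⊢
  intro e he
  have := h1 e
  have := h2 e
  tauto

/-- order `o, w, x, z` -/
theorem tm_mid {o w x z : W} (h1 : w ∈ Bt φ o x) (h2 : x ∈ Bt φ o z) : x ∈ Bt φ w z := by
  rw [tm_mem_Bt] at h1 h2 ⊢
  intro e he
  have := h1 e
  have := h2 e
  tauto

/-- order `o, w, x, z` -/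
theorem tm_mid' {o w x z : W} (h1 : w ∈ Bt φ o z) (h2 : x ∈ Bt φ w z) : w ∈ Bt φ o x := by
  rw [tm_mem_Bt] at h1 h2 ⊢
  intro e he
  have := h1 e
  have := h2 e
  tauto

/-- order `o, w, x, z` -/
theorem tm_trans' {o w x z : W} (h1 : w ∈ Bt φ o z) (h2 : x ∈ Bt φ w z) : x ∈ Bt φ o z := by
  rw [tm_mem_Bt] at h1 h2 ⊢
  intro e he
  have := h1 e
  have := h2 e
  tauto

/-- the distances add up -/
theorem tm_card {a b w : W} (h : w ∈ Bt φ a b) :
    (D φ a b).card = (D φ a w).card + (D φ w b).card := by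
  rw [← Finset.card_union_of_disjoint]
  · congr 1
    ext e
    rw [Finset.mem_union, tm_mem_D, tm_mem_D, tm_mem_D]
    have := tm_mem_Bt.1 h e
    tauto
  · rw [Finset.disjoint_left]
    intro e
    rw [tm_mem_D, tm_mem_D]
    have := tm_mem_Bt.1 h e
    tauto

theorem tm_card_le {a b w : W} (h : w ∈ Bt φ a b) : (D φ a w).card ≤ (D φ a b).card :=
  Finset.card_le_card h

theorem tm_eq_of_D {o a b : W} (hi : Function.Injective φ) (h : D φ o a = D φ o b) : a = b := by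
  apply hi
  ext e
  have h1 : e ∈ D φ o a ↔ e ∈ D φ o b := by rw [h]
  rw [tm_mem_D, tm_mem_D] at h1
  tauto

theorem tm_antisymm {o a b : W} (hi : Function.Injective φ) (h1 : a ∈ Bt φ o b)
    (h2 : b ∈ Bt φ o a) : a = b :=
  tm_eq_of_D hi (Finset.Subset.antisymm h1 h2)

theorem tm_Nb_comm {a b : W} (h : Nb φ a b) : Nb φ b a := by
  unfold Nb at h ⊢
  rwa [tm_D_comm]

theorem tm_Nb_ne {a b : W} (h : Nb φ a b) : a ≠ b := by
  rintro rfl
  unfold Nb at h
  rw [tm_D_self, Finset.card_empty] at h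
  exact zero_ne_one h

/-- binary meets -/
theorem tm_binary {Pol : Set (Set W)} (hT : Thin φ Pol) (o : W) : ∀ (n : ℕ) (r : W),
    (D φ o r).card = n → ∀ p ∈ Bt φ o r, ∀ q ∈ Bt φ o r,
    ∃ m, m ∈ Bt φ o p ∧ m ∈ Bt φ o q ∧ ∀ w, w ∈ Bt φ o p → w ∈ Bt φ o q → w ∈ Bt φ o m := by
  intro n
  induction n using Nat.strong_induction_on with
  | _ n ih =>
    intro r hr p hp q hq
    by_cases hpr : p = r
    · exact ⟨q, hpr ▸ hq, tm_right o q, fun w _ h => h⟩
    by_cases hqr : q = r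
    · exact ⟨p, tm_right o p, hqr ▸ hp, fun w h _ => h⟩
    obtain ⟨x1, hx1, hx1'⟩ := hT.iso r p (Ne.symm hpr)
    obtain ⟨y1, hy1, hy1'⟩ := hT.iso r q (Ne.symm hqr)
    -- lower neighbours
    have hpx : p ∈ Bt φ o x1 := tm_mid' hp (tm_comm hx1')
    have hqy : q ∈ Bt φ o y1 := tm_mid' hq (tm_comm hy1')
    have hx1o : x1 ∈ Bt φ r o := tm_comm (tm_trans' hp (tm_comm hx1'))
    have hy1o : y1 ∈ Bt φ r o := tm_comm (tm_trans' hq (tm_comm hy1'))
    have hcx : (D φ o x1).card < n := by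
      have h1 := tm_card (tm_comm hx1o)
      have h2 : (D φ x1 r).card = 1 := tm_Nb_comm hx1
      omega
    have hcy : (D φ o y1).card < n := by
      have h1 := tm_card (tm_comm hy1o)
      have h2 : (D φ y1 r).card = 1 := tm_Nb_comm hy1
      omega
    by_cases hxy : x1 = y1
    · exact ih _ hcx x1 rfl p hpx q (hxy ▸ hqy)
    obtain ⟨P, hP, hxP, hyP, hrP, w0, hw0P, hPw, hwx, hwy⟩ :=
      hT.cyc o x1 y1 r hxy hx1 hy1 hx1o hy1o
    have claim : ∀ w, w ∈ Bt φ o x1 → w ∈ Bt φ o y1 → w ∈ Bt φ o w0 := by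
      intro w hw1 hw2
      have h1 : x1 ∈ Bt φ r w := tm_comm (tm_mid hw1 (tm_comm hx1o))
      have h2 : y1 ∈ Bt φ r w := tm_comm (tm_mid hw2 (tm_comm hy1o))
      obtain ⟨P', hP', hxP', hyP', hrP', m', hm'P, hPm, hmx, -⟩ :=
        hT.cyc w x1 y1 r hxy hx1 hy1 h1 h2
      have hPP : P' = P := hT.uniq P' hP' P hP x1 y1 r hxy hx1 hy1 hxP' hyP' hrP' hxP hyP hrP
      have h3 : m' = w0 := by
        apply tm_antisymm hT.inj (o := r)
        · rw [← hPw, ← hPP]
          exact hm'P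
        · rw [← hPm, hPP]
          exact hw0P
      rw [h3] at hmx
      exact tm_mid' hw1 hmx
    obtain ⟨p', hp'1, hp'2, hp'3⟩ := ih _ hcx x1 rfl p hpx w0 hwx
    obtain ⟨q', hq'1, hq'2, hq'3⟩ := ih _ hcy y1 rfl q hqy w0 hwy
    have hcw : (D φ o w0).card < n := (tm_card_le hwx).trans_lt hcx
    obtain ⟨m, hm1, hm2, hm3⟩ := ih _ hcw w0 rfl p' hp'2 q' hq'2
    refine ⟨m, tm_trans hm1 hp'1, tm_trans hm2 hq'1, fun w hw1 hw2 => ?_⟩
    have hw0 : w ∈ Bt φ o w0 := claim w (tm_trans hw1 hpx) (tm_trans hw2 hqy)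
    exact hm3 w (hp'3 w hw1 hw0) (hq'3 w hw2 hw0)

/-- finite meets -/
theorem tm_finite {Pol : Set (Set W)} (hT : Thin φ Pol) (o z : W) (s : Finset W) :
    s.Nonempty → (∀ x ∈ s, x ∈ Bt φ o z) →
    ∃ m, (∀ x ∈ s, m ∈ Bt φ o x) ∧ ∀ w, (∀ x ∈ s, w ∈ Bt φ o x) → w ∈ Bt φ o m := by
  classical
  induction s using Finset.induction_on with
  | empty => exact fun h => absurd h Finset.not_nonempty_empty
  | insert a s _ ih =>
    intro _ hs
    rcases s.eq_empty_or_nonempty with rfl | hne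
    · refine ⟨a, fun x hx => ?_, fun w hw => hw a (Finset.mem_insert_self a _)⟩
      rw [Finset.mem_insert] at hx
      rcases hx with rfl | hx
      · exact tm_right o x
      · exact absurd hx (Finset.notMem_empty x)
    · obtain ⟨m1, h1, h2⟩ := ih hne fun x hx => hs x (Finset.mem_insert_of_mem hx)
      have h3 : m1 ∈ Bt φ o z := by
        obtain ⟨x, hx⟩ := hne
        exact tm_trans (h1 x hx) (hs x (Finset.mem_insert_of_mem hx))
      obtain ⟨m, hm1, hm2, hm3⟩ :=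
        tm_binary hT o _ z rfl a (hs a (Finset.mem_insert_self a s)) m1 h3
      refine ⟨m, fun x hx => ?_, fun w hw => ?_⟩
      · rcases Finset.mem_insert.1 hx with rfl | hx
        · exact hm1
        · exact tm_trans hm2 (h1 x hx)
      · exact hm3 w (hw a (Finset.mem_insert_self a s))
          (h2 w fun x hx => hw x (Finset.mem_insert_of_mem hx))

/-- sets of lower neighbours are finite -/
theorem tm_low_finite (hi : Function.Injective φ) (o z : W) : (Low φ o z).Finite := by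
  apply Set.Finite.of_finite_image (f := fun x => D φ z x)
  · apply ((D φ z o).powerset.finite_toSet).subset
    rintro _ ⟨x, hx, rfl⟩
    rw [Finset.mem_coe, Finset.mem_powerset]
    exact hx.2
  · intro x _ y _ hxy
    exact tm_eq_of_D hi hxy

end tm_api

theorem t_meet : T_MEET.{u} := by
  intro W η _ φ Pol hT o z T hne hTL
  have hfin : T.Finite := (tm_low_finite hT.inj o z).subset hTL
  obtain ⟨m, h1, h2⟩ := tm_finite hT o z hfin.toFinset
    (by rwa [Set.Finite.toFinset_nonempty])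
    (fun x hx => tm_comm (hTL (hfin.mem_toFinset.1 hx)).2)
  exact ⟨m, fun x hx => h1 x (hfin.mem_toFinset.2 hx),
    fun w hw => h2 w fun x hx => hw x (hfin.mem_toFinset.1 hx)⟩

end Pool.Agent.H341.MA
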