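import Pool.Agent.H341.MA.St2

/-! T_N (written by helper358). -/

set_option autoImplicit false

namespace Pool.Agent.H341.MA

universe u v

private theorem q1 (z o y : Prop) (h2 : ¬(z ↔ o)) (h3 : ¬(o ↔ y)) (h4 : (z ↔ y) → (z ↔ o)) : False := by
  by_cases c1 : z <;> by_cases c2 : o <;> by_cases c3 : y <;> simp_all
private theorem q2 (z Z y w : Prop) (h3 : (Z ↔ y) → (Z ↔ w)) (h4 : (z ↔ y) → (z ↔ Z)) (he : z ↔ y) : z ↔ w := by
  by_cases c1 : z <;> by_cases c2 : Z <;> by_cases c3 : y <;> simp_all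
private theorem q3 (z Z y w : Prop) (h1 : (Z ↔ y) → (Z ↔ w)) (h2 : (z ↔ Z) → (z ↔ w)) (h3 : (z ↔ y) → (z ↔ Z)) : Z ↔ w := by
  by_cases c1 : z <;> by_cases c2 : Z <;> by_cases c3 : y <;> simp_all
private theorem q4 (v v' o Z : Prop) (h1 : ¬(v ↔ v') ↔ ¬(o ↔ Z)) : ¬(o ↔ v') ↔ ¬(Z ↔ v) := by
  by_cases c1 : v <;> by_cases c2 : Z <;> by_cases c3 : o <;> simp_all
private theorem q5 (v x z Z : Prop) (h1 : ¬(Z ↔ v) ↔ ¬(z ↔ x)) : ¬(v ↔ x) ↔ ¬(Z ↔ z) := by
  by_cases c1 : v <;> by_cases c2 : Z <;> by_cases c3 : z <;> simp_all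
private theorem q6 (o x y z Z p : Prop) (h3 : (o ↔ Z) → (o ↔ y)) (h4 : ¬(o ↔ y) ↔ ¬(z ↔ x)) (h5 : ¬(o ↔ p) ↔ ¬(Z ↔ z))
  (h6 : (z ↔ o) → (z ↔ Z)) (he : o ↔ x) : o ↔ p := by
  by_cases c1 : o <;> by_cases c2 : z <;> by_cases c3 : Z <;> by_cases c4 : y <;> simp_all
private theorem q7 (o x y z l : Prop) (h2 : ¬(o ↔ y) ↔ ¬(z ↔ l)) (h3 : ¬(z ↔ l) → ¬(z ↔ o)) (h4 : ¬(z ↔ l) → ¬¬(z ↔ x)) (he : o ↔ x) : o ↔ y := by
  by_cases c1 : o <;> by_cases c2 : z <;> by_cases c3 : l <;> simp_all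
private theorem q8 (a w x z : Prop) (h3 : (a ↔ x) → (a ↔ w)) (h4 : (a ↔ z) → (a ↔ x)) (he : w ↔ z) : w ↔ x := by
  by_cases c1 : a <;> by_cases c2 : w <;> by_cases c3 : x <;> simp_all
private theorem q9 (a w b : Prop) (h2 : (a ↔ b) → (a ↔ w)) : ¬(a ↔ b) ↔ ¬(a ↔ w) ∨ ¬(w ↔ b) := by
  by_cases c1 : a <;> by_cases c2 : w <;> by_cases c3 : b <;> simp_all
private theorem q10 (a w b : Prop) (h2 : (a ↔ b) → (a ↔ w)) (he : ¬(a ↔ w)) (he' : ¬(w ↔ b)) : False := by
  by_cases c1 : a <;> by_cases c2 : w <;> by_cases c3 : b <;> simp_all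

section
variable {W η : Type u} [DecidableEq η] {φ : W → Finset η}

private theorem lmem {a b : W} {e : η} : e ∈ D φ a b ↔ ¬ (e ∈ φ a ↔ e ∈ φ b) := by
  unfold D
  rw [Finset.mem_symmDiff]
  tauto

private theorem bt_iff {a b w : W} : w ∈ Bt φ a b ↔ ∀ e, (e ∈ φ a ↔ e ∈ φ b) → (e ∈ φ a ↔ e ∈ φ w) := by
  have h0 : w ∈ Bt φ a b ↔ ∀ e, e ∈ D φ a w → e ∈ D φ a b := Iff.rfl
  rw [h0]
  refine forall_congr' fun e => ?_
  rw [lmem, lmem]
  tauto

private theorem bt_comm {a b w : W} (h : w ∈ Bt φ a b) : w ∈ Bt φ b a := by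
  rw [bt_iff] at h ⊢
  intro e he
  have := h e he.symm
  tauto

private theorem bt_trans {a x z w : W} (h1 : w ∈ Bt φ a x) (h2 : x ∈ Bt φ a z) : w ∈ Bt φ a z := by
  rw [bt_iff] at h1 h2 ⊢
  intro e he
  exact h1 e (h2 e he)

private theorem bt_trans2 {a x z w : W} (h1 : w ∈ Bt φ a x) (h2 : x ∈ Bt φ a z) :
    x ∈ Bt φ w z := by
  rw [bt_iff] at h1 h2 ⊢
  intro e he
  exact q8 _ _ _ _ (h1 e) (h2 e) he

private theorem D_comm (a b : W) : D φ a b = D φ b a := by
  ext e
  rw [lmem, lmem]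
  tauto

private theorem D_self (a : W) : D φ a a = ∅ := by
  ext e
  rw [lmem]
  simp

private theorem card_bt {a b w : W} (h : w ∈ Bt φ a b) :
    (D φ a b).card = (D φ a w).card + (D φ w b).card := by
  have h1 : D φ a b = D φ a w ∪ D φ w b := by
    ext e
    have h2 := (bt_iff.1 h) e
    rw [Finset.mem_union, lmem, lmem, lmem]
    exact q9 _ _ _ h2
  rw [h1, Finset.card_union_of_disjoint]
  rw [Finset.disjoint_left]
  intro e he he'
  have h2 := (bt_iff.1 h) e
  rw [lmem] at he he'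
  exact q10 _ _ _ h2 he he'

private theorem eq_of_D {Pol : Set (Set W)} (hT : Thin φ Pol) {a b c : W} (h : D φ a b = D φ a c) :
    b = c := by
  apply hT.inj
  ext e
  have h1 : e ∈ D φ a b ↔ e ∈ D φ a c := by rw [h]
  rw [lmem, lmem] at h1
  tauto

private theorem eq_of_empty {Pol : Set (Set W)} (hT : Thin φ Pol) {a b : W} (h : D φ a b = ∅) :
    a = b := by
  rw [← D_self (φ := φ) a] at h
  exact (eq_of_D hT h).symm

private theorem left_mem (a b : W) : a ∈ Bt φ a b := by
  rw [bt_iff]; intro e _; exact Iff.rfl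

private theorem right_mem (a b : W) : b ∈ Bt φ a b := by
  rw [bt_iff]; intro e h; exact h

private theorem low_finite {Pol : Set (Set W)} (hT : Thin φ Pol) (o z : W) :
    (Low φ o z).Finite := by
  apply Set.Finite.of_finite_image (f := fun x => D φ z x)
  · apply Set.Finite.subset (Finset.finite_toSet (D φ z o).powerset)
    rintro _ ⟨x, hx, rfl⟩
    rw [Finset.mem_coe, Finset.mem_powerset]
    exact hx.2
  · intro x _ y _ h
    exact eq_of_D hT h

private theorem o_mem_LB (o : W) (T : Set W) : o ∈ LB φ o T := fun t _ => left_mem o t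

private theorem exists_min {Pol : Set (Set W)} (hT : Thin φ Pol) (o z : W) : ∀ n : ℕ,
    ∀ S ⊆ Low φ o z, S.ncard = n → S.Nonempty → LB φ o S = {o} →
    ∃ T0 ⊆ S, T0.Nonempty ∧ LB φ o T0 = {o} ∧
      ∀ x ∈ T0, (T0 \ {x}).Nonempty → LB φ o (T0 \ {x}) ≠ {o} := by
  intro n
  induction n using Nat.strong_induction_on with
  | _ n ih =>
    intro S hS hn hne hLB
    by_cases h : ∃ x ∈ S, (S \ {x}).Nonempty ∧ LB φ o (S \ {x}) = {o}
    · obtain ⟨x, hx, h1, h2⟩ := h
      have hfin := (low_finite hT o z).subset hS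
      have hlt : (S \ {x}).ncard < n := by
        rw [← hn]
        exact Set.ncard_sdiff_singleton_lt_of_mem hx hfin
      obtain ⟨T0, h3, h4⟩ := ih _ hlt (S \ {x}) (Set.sdiff_subset.trans hS) rfl h1 h2
      exact ⟨T0, h3.trans Set.sdiff_subset, h4⟩
    · push Not at h
      exact ⟨S, subset_rfl, hne, hLB, h⟩

/-- a lower neighbour of `z` if `z` is a neighbour of `o` -/
private theorem low_unique {Pol : Set (Set W)} (hT : Thin φ Pol) {o z l : W}
    (hoz : Nb φ z o) (hl : l ∈ Low φ o z) : l = o := by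
  have h1 : (D φ z l).card = 1 := hl.1
  have h2 : (D φ z o).card = 1 := hoz
  have h3 : D φ z l ⊆ D φ z o := hl.2
  have h4 : D φ z l = D φ z o := Finset.eq_of_subset_of_card_le h3 (by omega)
  exact eq_of_D hT h4

end

theorem t_n (hm : T_MEET.{u}) (hy : T_Y.{u}) (hl : T_LIFT.{u}) : T_N.{u} := by
  intro W η _ φ Pol hT o z IH T hTne hTL hLB
  obtain ⟨T0, hT0T, hT0ne, hLB0, hmin⟩ := exists_min hT o z T.ncard T hTL rfl hTne hLB
  have hT0L : T0 ⊆ Low φ o z := hT0T.trans hTL
  by_cases hsing : ∃ x ∈ T0, ¬ (T0 \ {x}).Nonempty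
  · -- a single element
    obtain ⟨x, hx, hxe⟩ := hsing
    have hxo : x = o := by
      have h1 : x ∈ LB φ o T0 := by
        intro t ht
        by_cases htx : t = x
        · rw [htx]; exact right_mem o x
        · exact absurd ⟨t, ht, htx⟩ hxe
      rw [hLB0] at h1
      exact h1
    have hnb : Nb φ z o := by rw [← hxo]; exact (hT0L hx).1
    constructor
    · intro l hlL
      refine ⟨z, ?_⟩
      rw [low_unique hT hnb hlL, D_comm]
    · apply Set.Subset.antisymm
      · intro l hlL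
        obtain ⟨t, ht⟩ := hTne
        rw [low_unique hT hnb hlL, ← low_unique hT hnb (hTL ht)]
        exact ht
      · exact hTL
  push Not at hsing
  -- the atoms
  have hatom : ∀ x ∈ T0, ∃ y, D φ o y = D φ z x ∧ y ∈ LB φ o (T0 \ {x}) ∧
      ∀ q ∈ LB φ o (T0 \ {x}), q ≠ o → y ∈ Bt φ o q := fun x hx =>
    hy W η φ Pol hT o z T0 hT0L hLB0 x hx (hsing x hx) (hmin x hx (hsing x hx))
  obtain ⟨x0, hx0⟩ := hT0ne
  obtain ⟨y0, hy0, -, -⟩ := hatom x0 hx0
  -- `T*`
  have hTs : {y | ∃ x ∈ T0, D φ o y = D φ z x} ⊆ Low φ z o := by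
    rintro y ⟨x, hx, hxy⟩
    have h1 := hT0L hx
    refine ⟨?_, ?_⟩
    · have h2 : (D φ z x).card = 1 := h1.1
      unfold Nb
      rw [hxy]; exact h2
    · show D φ o y ⊆ D φ o z
      rw [hxy, D_comm o z]
      exact h1.2
  have hTsne : {y | ∃ x ∈ T0, D φ o y = D φ z x}.Nonempty := ⟨y0, x0, hx0, hy0⟩
  obtain ⟨Z, hZ, hZmax⟩ := hm W η φ Pol hT z o {y | ∃ x ∈ T0, D φ o y = D φ z x} hTsne hTs
  have hZy0 : Z ∈ Bt φ z y0 := hZ y0 ⟨x0, hx0, hy0⟩
  have hy0z : y0 ∈ Bt φ z o := bt_comm (hTs ⟨x0, hx0, hy0⟩).2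
  have hZzo : Z ∈ Bt φ z o := bt_trans hZy0 hy0z
  by_cases hZz : Z ≠ z
  · exfalso
    have hZo : Z ≠ o := by
      intro h0
      rw [h0] at hZy0
      obtain ⟨e, he⟩ := Finset.card_eq_one.1 (hT0L hx0).1
      have h1 : e ∈ D φ z x0 := by rw [he]; exact Finset.mem_singleton_self e
      have h2 : e ∈ D φ z o := (hT0L hx0).2 h1
      have h3 : e ∈ D φ o y0 := by rw [hy0]; exact h1
      have h4 := (bt_iff.1 hZy0) e
      rw [lmem] at h2 h3
      exact q1 _ _ _ h2 h3 h4
    have hcard : (D φ Z o).card < (D φ o z).card := by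
      have h1 := card_bt hZzo
      have h2 : (D φ z Z).card ≠ 0 := by
        intro h0
        exact hZz (eq_of_empty hT (Finset.card_eq_zero.1 h0)).symm
      have h3 : (D φ o z).card = (D φ z o).card := by rw [D_comm]
      omega
    have hlow : {y | ∃ x ∈ T0, D φ o y = D φ z x} ⊆ Low φ Z o := by
      intro y hyT
      refine ⟨(hTs hyT).1, ?_⟩
      have h1 : Z ∈ Bt φ z y := hZ y hyT
      have h2 : y ∈ Bt φ z o := bt_comm (hTs hyT).2
      exact bt_comm (bt_trans2 h1 h2)
    obtain ⟨hant, hlowZ⟩ := IH Z o hcard hZo {y | ∃ x ∈ T0, D φ o y = D φ z x} hTsne hlow Z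
      (o_mem_LB Z _) (by
        intro w hw
        have hwy0 : w ∈ Bt φ Z y0 := hw y0 ⟨x0, hx0, hy0⟩
        have hwz : w ∈ LB φ z {y | ∃ x ∈ T0, D φ o y = D φ z x} := by
          intro y hyT
          have h1 := hw y hyT
          have h2 : Z ∈ Bt φ z y := hZ y hyT
          rw [bt_iff] at h1 h2 ⊢
          intro e he
          exact q2 _ _ _ _ (h1 e) (h2 e) he
        have hwZ := hZmax w hwz
        rw [bt_iff] at hwy0 hwZ hZy0 ⊢
        intro e _
        exact q3 _ _ _ _ (hwy0 e) (hwZ e) (hZy0 e))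
    have hant' : TAnt φ o Z := by
      intro v hv
      obtain ⟨v', hv', hvv'⟩ := hant v (bt_comm hv)
      exact ⟨v', bt_comm hv', by rw [hvv', D_comm]⟩
    obtain ⟨p, hp⟩ := hl W η φ Pol hT o Z z (bt_comm hZzo) hant' (by
      intro v hv hZv
      obtain ⟨v', hv', hvv'⟩ := hant' v hv
      have e1 : D φ o v' = D φ Z v := by
        ext e
        have h1 : e ∈ D φ v v' ↔ e ∈ D φ o Z := by rw [hvv']
        rw [lmem, lmem] at h1 ⊢
        exact q4 _ _ _ _ h1
      have hv'L : v' ∈ Low φ Z o := by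
        refine ⟨?_, hv'⟩
        unfold Nb at hZv ⊢
        rw [e1]; exact hZv
      rw [hlowZ] at hv'L
      obtain ⟨x, hx, hxv⟩ := hv'L
      refine ⟨x, ?_⟩
      ext e
      have h1 : e ∈ D φ Z v ↔ e ∈ D φ z x := by rw [← e1, hxv]
      rw [lmem, lmem] at h1 ⊢
      exact q5 _ _ _ _ h1)
    have hpo : p = o := by
      have h1 : p ∈ LB φ o T0 := by
        intro x hx
        obtain ⟨y, hy1, -, -⟩ := hatom x hx
        have hyT : y ∈ {y | ∃ x ∈ T0, D φ o y = D φ z x} := ⟨x, hx, hy1⟩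
        have h2 : y ∈ Bt φ o Z := (hlow hyT).2
        rw [bt_iff] at h2 ⊢
        intro e he
        have h3 := h2 e
        have h4 : e ∈ D φ o y ↔ e ∈ D φ z x := by rw [hy1]
        have h5 : e ∈ D φ o p ↔ e ∈ D φ Z z := by rw [hp]
        have h6 := (bt_iff.1 hZzo) e
        rw [lmem, lmem] at h4 h5
        exact q6 _ _ _ _ _ _ h3 h4 h5 h6 he
      rw [hLB0] at h1
      exact h1
    rw [hpo, D_self] at hp
    exact hZz (eq_of_empty hT hp.symm)
  · push Not at hZz
    have hLBz : ∀ w ∈ LB φ z {y | ∃ x ∈ T0, D φ o y = D φ z x}, w = z := by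
      intro w hw
      have h1 := hZmax w hw
      rw [hZz] at h1
      apply Eq.symm
      apply eq_of_empty hT
      ext e
      have h2 := (bt_iff.1 h1) e Iff.rfl
      rw [lmem]
      constructor
      · intro h3
        exact absurd h2 h3
      · intro h3
        exact absurd h3 (Finset.notMem_empty e)
    have claimA : ∀ l ∈ Low φ o z, ∃ y, D φ o y = D φ z l := by
      intro l hlL
      by_cases hlT : l ∈ T0
      · obtain ⟨y, hy1, -, -⟩ := hatom l hlT
        exact ⟨y, hy1⟩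
      have hex : ∃ i ∈ T0, LB φ o ((T0 \ {i}) ∪ {l}) = {o} := by
        by_contra hcon
        push Not at hcon
        have hlz : l ∈ LB φ z {y | ∃ x ∈ T0, D φ o y = D φ z x} := by
          rintro y ⟨i, hi, hiy⟩
          obtain ⟨y', hy1, -, hy3⟩ := hatom i hi
          have hyy' : y' = y := eq_of_D hT (by rw [hy1, hiy])
          rw [hyy'] at hy3
          obtain ⟨q, hq, hqo⟩ : ∃ q ∈ LB φ o ((T0 \ {i}) ∪ {l}), q ≠ o := by
            by_contra hc
            push Not at hc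
            apply hcon i hi
            ext v
            rw [Set.mem_singleton_iff]
            exact ⟨fun hv => hc v hv, fun hv => by rw [hv]; exact o_mem_LB o _⟩
          have hq1 : q ∈ LB φ o (T0 \ {i}) := fun t ht => hq t (Or.inl ht)
          have hq2 : q ∈ Bt φ o l := hq l (Or.inr rfl)
          have h1 : y ∈ Bt φ o l := bt_trans (hy3 q hq1 hqo) hq2
          exact bt_comm (bt_trans2 h1 (bt_comm hlL.2))
        have h0 := hLBz l hlz
        have h1 : (D φ z l).card = 1 := hlL.1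
        rw [h0, D_self] at h1
        simp at h1
      obtain ⟨i, hi, hLBi⟩ := hex
      have hSL : (T0 \ {i}) ∪ {l} ⊆ Low φ o z := by
        rintro t (ht | ht)
        · exact hT0L ht.1
        · rw [Set.mem_singleton_iff] at ht
          rw [ht]; exact hlL
      obtain ⟨T1, hT1S, hT1ne, hLB1, hmin1⟩ := exists_min hT o z _ _ hSL rfl
        ⟨l, Or.inr rfl⟩ hLBi
      have hlT1 : l ∈ T1 := by
        by_contra hlT1
        apply hmin i hi (hsing i hi)
        apply Set.Subset.antisymm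
        · intro v hv
          rw [← hLB1]
          intro t ht
          rcases hT1S ht with h | h
          · exact hv t h
          · rw [Set.mem_singleton_iff] at h
            rw [h] at ht
            exact absurd ht hlT1
        · intro v hv
          rw [Set.mem_singleton_iff] at hv
          rw [hv]
          exact o_mem_LB o _
      have hT1l : (T1 \ {l}).Nonempty := by
        by_contra hemp
        have hlo : l = o := by
          have h1 : l ∈ LB φ o T1 := by
            intro t ht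
            by_cases htl : t = l
            · rw [htl]; exact right_mem o l
            · exact absurd ⟨t, ht, htl⟩ hemp
          rw [hLB1] at h1
          exact h1
        have hnb : Nb φ z o := by rw [← hlo]; exact hlL.1
        obtain ⟨x', hx', hx'2⟩ := hsing x0 hx0
        apply hx'2
        rw [Set.mem_singleton_iff, low_unique hT hnb (hT0L hx'), low_unique hT hnb (hT0L hx0)]
      obtain ⟨y, hy1, -, -⟩ := hy W η φ Pol hT o z T1 (hT1S.trans hSL) hLB1 l hlT1 hT1l
        (hmin1 l hlT1 hT1l)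
      exact ⟨y, hy1⟩
    refine ⟨claimA, ?_⟩
    apply Set.Subset.antisymm
    · intro l hlL
      by_contra hlT
      have hlT0 : l ∉ T0 := fun h => hlT (hT0T h)
      obtain ⟨y, hy1⟩ := claimA l hlL
      have h1 : y ∈ LB φ o T0 := by
        intro x hx
        have hxl : x ≠ l := fun h => hlT0 (h ▸ hx)
        rw [bt_iff]
        intro e he
        have h2 : e ∈ D φ o y ↔ e ∈ D φ z l := by rw [hy1]
        have h3 : e ∈ D φ z l → e ∈ D φ z o := fun h => hlL.2 h
        have h4 : e ∈ D φ z l → e ∉ D φ z x := by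
          intro a1 a2
          apply hxl
          obtain ⟨b1, hb1⟩ := Finset.card_eq_one.1 hlL.1
          obtain ⟨b2, hb2⟩ := Finset.card_eq_one.1 (hT0L hx).1
          rw [hb1, Finset.mem_singleton] at a1
          rw [hb2, Finset.mem_singleton] at a2
          apply eq_of_D hT (a := z)
          rw [hb1, hb2, ← a1, ← a2]
        rw [lmem, lmem] at h2 h3 h4
        exact q7 _ _ _ _ _ h2 h3 h4 he
      rw [hLB0] at h1
      have h5 : y = o := h1
      rw [h5, D_self] at hy1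
      have h6 : (D φ z l).card = 1 := hlL.1
      rw [← hy1] at h6
      simp at h6
    · exact hTL

end Pool.Agent.H341.MA
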