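import Pool.Agent.H341.MA.St2

/-! T_PI: propagation in thin systems (written by helper597). -/

set_option autoImplicit false

namespace Pool.Agent.H341.MA

universe u v

private theorem TPi_mem {W η : Type u} [DecidableEq η] (φ : W → Finset η) (a b : W) (e : η) :
    e ∈ D φ a b ↔ ((e ∈ φ a ∧ e ∉ φ b) ∨ (e ∈ φ b ∧ e ∉ φ a)) :=
  Finset.mem_symmDiff

private theorem TPi_memB {W η : Type u} [DecidableEq η] (φ : W → Finset η) (a b : W) (e : η) :
    e ∈ D φ a b ↔ (decide (e ∈ φ a) != decide (e ∈ φ b)) = true := by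
  rw [TPi_mem]
  by_cases h1 : e ∈ φ a <;> by_cases h2 : e ∈ φ b <;> simp [h1, h2]

private theorem TPi_comm {W η : Type u} [DecidableEq η] (φ : W → Finset η) (a b : W) :
    D φ a b = D φ b a := symmDiff_comm _ _

private theorem TPi_self {W η : Type u} [DecidableEq η] (φ : W → Finset η) (a : W) :
    D φ a a = ∅ := symmDiff_self _

/-- if `b` is between `a` and `c`, then so is `b` between `c` and `a` -/
private theorem TPi_swap {W η : Type u} [DecidableEq η] (φ : W → Finset η) {a b c : W}
    (h : b ∈ Bt φ a c) : b ∈ Bt φ c a := by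
  intro e he
  have h1 : e ∈ D φ a b → e ∈ D φ a c := fun q => h q
  simp only [TPi_memB] at he h1 ⊢
  revert he h1
  generalize decide (e ∈ φ a) = x0
  generalize decide (e ∈ φ b) = x1
  generalize decide (e ∈ φ c) = x2
  revert x0 x1 x2
  decide

private theorem TPi_self_mem {W η : Type u} [DecidableEq η] (φ : W → Finset η) (a c : W) :
    a ∈ Bt φ a c := by
  intro e he
  rw [TPi_self] at he
  exact absurd he (Finset.notMem_empty _)

private theorem TPi_eq {W η : Type u} [DecidableEq η] {φ : W → Finset η} {Pol : Set (Set W)}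
    (hT : Thin φ Pol) {a b : W} (h : b ∈ Bt φ a a) : b = a := by
  have h1 : D φ a b ⊆ ∅ := by
    have h2 : D φ a b ⊆ D φ a a := h
    rwa [TPi_self] at h2
  have h3 : symmDiff (φ a) (φ b) = ⊥ := Finset.subset_empty.1 h1
  exact (hT.inj (symmDiff_eq_bot.1 h3)).symm

/-- transitivity: `w` between `b` and `x`, `b` between `a` and `x` -/
private theorem TPi_trans {W η : Type u} [DecidableEq η] (φ : W → Finset η) {a b x w : W}
    (h : b ∈ Bt φ a x) (h' : w ∈ Bt φ b x) : w ∈ Bt φ a x := by
  intro e he
  have h1 : e ∈ D φ a b → e ∈ D φ a x := fun q => h q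
  have h2 : e ∈ D φ b w → e ∈ D φ b x := fun q => h' q
  simp only [TPi_memB] at he h1 h2 ⊢
  revert he h1 h2
  generalize decide (e ∈ φ a) = x0
  generalize decide (e ∈ φ b) = x1
  generalize decide (e ∈ φ x) = x2
  generalize decide (e ∈ φ w) = x3
  revert x0 x1 x2 x3
  decide

theorem t_pi (hm : T_MEET.{u}) : T_PI.{u} := by
  intro W η _ φ Pol hT o z IH hLB u u' hu huu'
  obtain ⟨hzu, huo⟩ := hu
  have hA : ∀ e, e ∈ D φ u u' ↔ e ∈ D φ o z := fun e => by rw [huu']
  have hzT : z ∈ Low φ u' u := by
    refine ⟨?_, ?_⟩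
    · unfold Nb
      rw [TPi_comm]
      exact hzu
    · intro e he
      have h1 : e ∈ D φ z u → e ∈ D φ z o := fun q => huo q
      rw [hA]
      rw [TPi_comm φ o z]
      apply h1
      rwa [TPi_comm]
  have huT' : u' ∈ LB φ u' (Low φ u' u) := fun x _ => TPi_self_mem φ u' x
  by_contra hcon
  obtain ⟨b, hbLB, hbmax⟩ := hm W η φ Pol hT u' u (Low φ u' u) ⟨z, hzT⟩ (Set.Subset.refl _)
  have hbu' : b ≠ u' := by
    rintro rfl
    apply hcon
    ext w
    rw [Set.mem_singleton_iff]
    exact ⟨fun hw => TPi_eq hT (hbmax w hw), fun hw => hw ▸ huT'⟩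
  have hbz : b ∈ Bt φ u' z := hbLB z hzT
  -- the element of `D z u`
  obtain ⟨h, hh⟩ := Finset.card_eq_one.1 hzu
  have hbu : b ≠ u := by
    rintro rfl
    have h1 : h ∈ D φ z b := by rw [hh]; exact Finset.mem_singleton_self h
    have h2 : h ∈ D φ z b → h ∈ D φ z o := fun q => huo q
    have h3 : h ∈ D φ u' b → h ∈ D φ u' z := fun q => hbz q
    have h4 := hA h
    simp only [TPi_memB] at h1 h2 h3 h4
    revert h1 h2 h3 h4
    generalize decide (h ∈ φ z) = x0
    generalize decide (h ∈ φ b) = x1
    generalize decide (h ∈ φ o) = x2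
    generalize decide (h ∈ φ u') = x3
    revert x0 x1 x2 x3
    decide
  -- `b` is between `u` and `u'`
  have hbA : D φ u b ⊆ D φ u u' := by
    intro e he
    have h1 : e ∈ D φ u' b → e ∈ D φ u' z := fun q => hbz q
    have h2 : e ∈ D φ u z → e ∈ D φ u u' := fun q => hzT.2 q
    simp only [TPi_memB] at he h1 h2 ⊢
    revert he h1 h2
    generalize decide (e ∈ φ u) = x0
    generalize decide (e ∈ φ b) = x1
    generalize decide (e ∈ φ u') = x2
    generalize decide (e ∈ φ z) = x3
    revert x0 x1 x2 x3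
    decide
  have hcard : (D φ b u).card < (D φ o z).card := by
    rw [TPi_comm, ← huu']
    apply Finset.card_lt_card
    rw [Finset.ssubset_iff_subset_ne]
    refine ⟨hbA, fun heq => hbu' ?_⟩
    apply hT.inj
    ext e
    have h1 : e ∈ D φ u b ↔ e ∈ D φ u u' := by rw [heq]
    rw [TPi_mem, TPi_mem] at h1
    tauto
  -- the lower neighbours
  have hTL : Low φ u' u ⊆ Low φ b u := by
    intro x hx
    refine ⟨hx.1, ?_⟩
    intro e he
    have h1 : e ∈ D φ u' b → e ∈ D φ u' x := fun q => hbLB x hx q
    have h2 : e ∈ D φ u x → e ∈ D φ u u' := fun q => hx.2 q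
    simp only [TPi_memB] at he h1 h2 ⊢
    revert he h1 h2
    generalize decide (e ∈ φ u) = x0
    generalize decide (e ∈ φ b) = x1
    generalize decide (e ∈ φ u') = x2
    generalize decide (e ∈ φ x) = x3
    revert x0 x1 x2 x3
    decide
  obtain ⟨hAnt, -⟩ := IH b u hcard hbu (Low φ u' u) ⟨z, hzT⟩ hTL b
    (fun x _ => TPi_self_mem φ b x) (by
      intro w hw
      have h1 : w ∈ LB φ u' (Low φ u' u) := fun x hx => TPi_trans φ (hbLB x hx) (hw x hx)
      have h2 := hbmax w h1
      have h3 := hw z hzT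
      intro e he
      have a1 : e ∈ D φ u' w → e ∈ D φ u' b := fun q => h2 q
      have a2 : e ∈ D φ b w → e ∈ D φ b z := fun q => h3 q
      have a3 : e ∈ D φ u' b → e ∈ D φ u' z := fun q => hbz q
      simp only [TPi_memB] at he a1 a2 a3 ⊢
      revert he a1 a2 a3
      generalize decide (e ∈ φ w) = x0
      generalize decide (e ∈ φ u') = x1
      generalize decide (e ∈ φ b) = x2
      generalize decide (e ∈ φ z) = x3
      revert x0 x1 x2 x3
      decide)
  have hzD : z ∈ Bt φ b u := TPi_swap φ (hTL hzT).2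
  -- all lower neighbours of `z` are in the box
  have hLow : ∀ w ∈ Low φ o z, w ∈ Bt φ b u := by
    intro w hw
    by_cases hwu : w = u
    · rw [hwu]
      exact fun e he => he
    · obtain ⟨P, hP, huP, hwP, hzP, m, -, hPm, hmu, -⟩ :=
        hT.cyc o u w z (fun q => hwu q.symm) hzu hw.1 huo hw.2
      obtain ⟨a, haP, haz, hua, -⟩ := hT.two P hP u huP z hzP hzT.1
      have haT : a ∈ Low φ u' u := by
        refine ⟨hua, ?_⟩
        have h0 : a ∈ Bt φ z m := by rw [← hPm]; exact haP
        intro e he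
        have h1 : e ∈ D φ z a → e ∈ D φ z m := fun q => h0 q
        have h2 : e ∈ D φ o m → e ∈ D φ o u := fun q => hmu q
        have h3 : e ∈ D φ z u → e ∈ D φ z o := fun q => huo q
        rw [hA]
        simp only [TPi_memB] at he h1 h2 h3 ⊢
        revert he h1 h2 h3
        generalize decide (e ∈ φ z) = x0
        generalize decide (e ∈ φ a) = x1
        generalize decide (e ∈ φ m) = x2
        generalize decide (e ∈ φ o) = x3
        generalize decide (e ∈ φ u) = x4
        revert x0 x1 x2 x3 x4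
        decide
      obtain ⟨P', hP', hzP', haP', huP', m', -, hPm', hmz', -⟩ :=
        hT.cyc b z a u (fun q => haz q.symm) hzT.1 hua (hTL hzT).2 (hTL haT).2
      have hPP : P = P' := hT.uniq P hP P' hP' z a u (fun q => haz q.symm) hzT.1 hua hzP haP huP
        hzP' haP' huP'
      have hw' : w ∈ Bt φ u m' := by
        rw [← hPm', ← hPP]
        exact hwP
      intro e he
      have h1 : e ∈ D φ u w → e ∈ D φ u m' := fun q => hw' q
      have h2 : e ∈ D φ b m' → e ∈ D φ b z := fun q => hmz' q
      have h3 : e ∈ D φ b z → e ∈ D φ b u := fun q => hzD q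
      simp only [TPi_memB] at he h1 h2 h3 ⊢
      revert he h1 h2 h3
      generalize decide (e ∈ φ u) = x0
      generalize decide (e ∈ φ w) = x1
      generalize decide (e ∈ φ m') = x2
      generalize decide (e ∈ φ b) = x3
      generalize decide (e ∈ φ z) = x4
      revert x0 x1 x2 x3 x4
      decide
  obtain ⟨m, hmD, hzm⟩ := hAnt z hzD
  have hmLB : m ∈ LB φ o (Low φ o z) := by
    intro w hw
    have hwD := hLow w hw
    intro e he
    have h1 : e ∈ D φ z w → e ∈ D φ z o := fun q => hw.2 q
    have s1 : e ∈ D φ z w → e ∈ D φ z m := by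
      rw [hzm]
      have h2 : e ∈ D φ b w → e ∈ D φ b u := fun q => hwD q
      have h3 : e ∈ D φ b z → e ∈ D φ b u := fun q => hzD q
      intro he
      by_cases h : e ∈ D φ b z
      · exact h3 h
      · apply h2
        simp only [TPi_memB] at h he ⊢
        revert h he
        generalize decide (e ∈ φ b) = x0
        generalize decide (e ∈ φ z) = x1
        generalize decide (e ∈ φ w) = x2
        revert x0 x1 x2
        decide
    have s2 : e ∈ D φ z m → e ∈ D φ z o := by
      rw [hzm, TPi_comm φ b u, TPi_comm φ z o, ← hA]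
      exact fun q => hbA q
    simp only [TPi_memB] at he h1 s1 s2 ⊢
    revert he h1 s1 s2
    generalize decide (e ∈ φ o) = x0
    generalize decide (e ∈ φ z) = x1
    generalize decide (e ∈ φ w) = x2
    generalize decide (e ∈ φ m) = x3
    revert x0 x1 x2 x3
    decide
  rw [hLB, Set.mem_singleton_iff] at hmLB
  rw [hmLB] at hzm
  rw [← hzm, TPi_comm] at hcard
  exact lt_irrefl _ hcard

end Pool.Agent.H341.MA
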