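import Pool.Agent.H341.MA.St1

/-!
# THICK: an even convex cycle with an edge in a triangle is a square (by helper967 for helper341)
-/

set_option autoImplicit false

namespace Pool.Agent.H341.MA

universe u v

open SimpleGraph

theorem thick_gate (hc : S_CLQ.{u}) {V : Type u} {X : SimpleGraph V} (hX : Mediangle X) {x y : V}
    (hxy : X.Adj x y) (v : V) {u u' : V} (hu : u ∈ Clq X x y) (hu' : u' ∈ Clq X x y)
    (h : X.dist v u < X.dist v u') : ∀ k ∈ Clq X x y, k ≠ u → X.dist v k = X.dist v u + 1 := by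
  obtain ⟨-, h2⟩ := hc V X hX x y hxy
  obtain ⟨g, hg, hg2⟩ := h2 v
  have hug : u = g := by
    by_contra hne
    have h3 := hg2 u hu hne
    by_cases hu'g : u' = g
    · rw [hu'g] at h
      omega
    · have h4 := hg2 u' hu' hu'g
      omega
  rw [hug]
  exact hg2

theorem thick_dist_adj {V : Type u} {X : SimpleGraph V} {x y : V} (h : X.Adj x y) :
    X.dist x y = 1 := SimpleGraph.dist_eq_one_iff_adj.2 h

theorem thick_R (h1 : S_E1.{u}) (h2 : S_E2.{u}) (h3 : S_E3.{u}) (h4 : S_E4.{u}) (hc : S_CLQ.{u})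
    {V : Type u} {X : SimpleGraph V} (hX : Mediangle X) {l : ℕ} {c : ℤ → V}
    (hC : EvenConvexCycle X l c) (hl : 3 ≤ l) {e : V} (he0 : X.Adj e (c 0)) (he1 : X.Adj e (c 1)) :
    ∃ (l' : ℕ) (c' : ℤ → V), EvenConvexCycle X l' c' ∧ c' 0 = c 0 ∧ c' 1 = e ∧ c' (-1) = c (-1) ∧
      l' < l := by
  have hcon := hX.connected
  have htri : ∀ x y z : V, X.dist x z ≤ X.dist x y + X.dist y z := fun x y z => hcon.dist_triangle
  have hab : X.Adj (c 0) (c 1) := by
    have := hC.adj 0
    rwa [zero_add] at this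
  have hsa : X.Adj (c (-1)) (c 0) := hC.adj (-1)
  have haK : c 0 ∈ Clq X (c 0) (c 1) := Or.inl rfl
  have hbK : c 1 ∈ Clq X (c 0) (c 1) := Or.inr (Or.inl rfl)
  have heK : e ∈ Clq X (c 0) (c 1) := Or.inr (Or.inr ⟨he0, he1⟩)
  have hea : e ≠ c 0 := he0.ne
  have heb : e ≠ c 1 := he1.ne
  -- distances
  have hpb : X.dist (c l) (c 1) = l - 1 := by
    have h := h1 V X hcon l c hC 1 (l - 1) (by omega)
    have he : (1 : ℤ) + ((l - 1 : ℕ) : ℤ) = l := by omega
    rw [he, SimpleGraph.dist_comm] at h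
    exact h
  have hpa : X.dist (c l) (c 0) = l := by
    have h := h1 V X hcon l c hC 0 l le_rfl
    rw [zero_add, SimpleGraph.dist_comm] at h
    exact h
  have hqa : X.dist (c (l + 1)) (c 0) = l - 1 := by
    have h := h1 V X hcon l c hC (l + 1) (l - 1) (by omega)
    have he : c ((l : ℤ) + 1 + ((l - 1 : ℕ) : ℤ)) = c 0 := by
      rw [hC.eq_iff]
      exact ⟨1, by omega⟩
    rw [he] at h
    exact h
  have hqb : X.dist (c (l + 1)) (c 1) = l := by
    have h := h1 V X hcon l c hC 1 l le_rfl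
    rw [add_comm (1 : ℤ) (l : ℤ), SimpleGraph.dist_comm] at h
    exact h
  have hqs : X.dist (c (l + 1)) (c (-1)) = l - 2 := by
    have h := h1 V X hcon l c hC (l + 1) (l - 2) (by omega)
    have he : c ((l : ℤ) + 1 + ((l - 2 : ℕ) : ℤ)) = c (-1) := by
      rw [hC.eq_iff]
      exact ⟨1, by omega⟩
    rw [he] at h
    exact h
  have hqt : X.dist (c (l + 1)) (c (-2)) = l - 3 := by
    have h := h1 V X hcon l c hC (l + 1) (l - 3) (by omega)
    have he : c ((l : ℤ) + 1 + ((l - 3 : ℕ) : ℤ)) = c (-2) := by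
      rw [hC.eq_iff]
      exact ⟨1, by omega⟩
    rw [he] at h
    exact h
  have hta : X.dist (c (-2)) (c 0) = 2 := by
    have h := h1 V X hcon l c hC (-2) 2 (by omega)
    have he : (-2 : ℤ) + ((2 : ℕ) : ℤ) = 0 := by norm_num
    rw [he] at h
    exact h
  have hsb : X.dist (c (-1)) (c 1) = 2 := by
    have h := h1 V X hcon l c hC (-1) 2 (by omega)
    have he : (-1 : ℤ) + ((2 : ℕ) : ℤ) = 1 := by norm_num
    rw [he] at h
    exact h
  have hpq : X.Adj (c l) (c (l + 1)) := hC.adj l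
  -- gates
  have hpK : ∀ k ∈ Clq X (c 0) (c 1), k ≠ c 1 → X.dist (c l) k = X.dist (c l) (c 1) + 1 :=
    thick_gate hc hX hab (c l) hbK haK (by omega)
  have hqK : ∀ k ∈ Clq X (c 0) (c 1), k ≠ c 0 →
      X.dist (c (l + 1)) k = X.dist (c (l + 1)) (c 0) + 1 :=
    thick_gate hc hX hab (c (l + 1)) haK hbK (by omega)
  have hpe : X.dist e (c l) = l := by
    have := hpK e heK heb
    rw [SimpleGraph.dist_comm]
    omega
  have hqe : X.dist e (c (l + 1)) = l := by
    have := hqK e heK hea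
    rw [SimpleGraph.dist_comm]
    omega
  obtain ⟨w, hwp, hwq, hwI, -⟩ := hX.triangle e (c l) (c (l + 1)) (by omega) hpq
  have hwp1 : X.dist w (c l) = 1 := thick_dist_adj hwp
  have hwq1 : X.dist w (c (l + 1)) = 1 := thick_dist_adj hwq
  have hwp1' : X.dist (c l) w = 1 := by rw [SimpleGraph.dist_comm]; exact hwp1
  have hwq1' : X.dist (c (l + 1)) w = 1 := by rw [SimpleGraph.dist_comm]; exact hwq1
  have hwe : X.dist w e = l - 1 := by
    have h : X.dist e (c l) = X.dist e w + X.dist w (c l) := hwI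
    rw [SimpleGraph.dist_comm]
    omega
  -- e is the gate of w
  have hwa : X.dist w (c 0) = l := by
    obtain ⟨g, hg, hg2⟩ := (hc V X hX _ _ hab).2 w
    have hge : g = e := by
      by_contra hne
      have h5 := hg2 e heK (fun h => hne h.symm)
      by_cases hgb : g = c 1
      · have h6 := htri (c (l + 1)) w (c 1)
        rw [hgb] at h5
        omega
      · have h6 := hpK g hg hgb
        have h7 := htri (c l) w g
        omega
    have h5 := hg2 (c 0) haK (by rw [hge]; exact hea.symm)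
    rw [hge] at h5
    omega
  have hws : X.dist w (c (-1)) = l - 1 := by
    have h5 := htri w (c (l + 1)) (c (-1))
    have h6 := htri w (c (-1)) (c 0)
    have h7 := thick_dist_adj hsa
    omega
  have hes : e ≠ c (-1) := by
    intro h
    rw [h] at he1
    have h5 := thick_dist_adj he1
    omega
  obtain ⟨l', c', hC', h0, hp1, hm1, hmI, -⟩ := hX.cycle w e (c (-1)) (c 0) hes he0.symm hsa.symm
    (by omega) (by omega)
  refine ⟨l', c', hC', h0, hp1, hm1, ?_⟩
  have h2l := hC'.two_le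
  have hme : X.dist (c' l') e = l' - 1 := by
    have h := h1 V X hcon l' c' hC' 1 (l' - 1) (by omega)
    have he : (1 : ℤ) + ((l' - 1 : ℕ) : ℤ) = l' := by omega
    rw [he, SimpleGraph.dist_comm, hp1] at h
    exact h
  have hmI' : X.dist w e = X.dist w (c' l') + X.dist (c' l') e := hmI
  by_contra hnl
  have hll : l' = l := by omega
  have hwm : w = c' l' := by
    have h5 : X.dist w (c' l') = 0 := by omega
    exact (hcon.dist_eq_zero_iff).1 h5
  have htI : c (-2) ∈ Itv X (c' 0) (c' (0 + l')) := by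
    show X.dist (c' 0) (c' (0 + l')) = X.dist (c' 0) (c (-2)) + X.dist (c (-2)) (c' (0 + l'))
    rw [zero_add, ← hwm, h0]
    have h5 := htri (c (-2)) (c (l + 1)) w
    have h6 := htri (c 0) (c (-2)) w
    have h7 : X.dist (c 0) w = X.dist w (c 0) := SimpleGraph.dist_comm
    have h8 : X.dist (c 0) (c (-2)) = X.dist (c (-2)) (c 0) := SimpleGraph.dist_comm
    have h9 : X.dist (c (-2)) (c (l + 1)) = X.dist (c (l + 1)) (c (-2)) := SimpleGraph.dist_comm
    omega
  rw [h2 V X hcon l' c' hC' 0] at htI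
  obtain ⟨j, hj⟩ := htI
  have hadj : X.Adj (c' j) (c' (-1)) := by
    rw [hj, hm1]
    exact hC.adj (-2)
  have hcj : c' (-2) = c (-2) := by
    rw [← hj, hC'.eq_iff]
    rcases hC'.induced j (-1) hadj with h5 | h5
    · obtain ⟨k, hk⟩ := h5
      exact ⟨k, by linarith⟩
    · exfalso
      have h6 : c' j = c' 0 := by
        rw [hC'.eq_iff]
        obtain ⟨k, hk⟩ := h5
        exact ⟨k, by linarith⟩
      rw [hj, h0, hC.eq_iff] at h6
      have h7 := Int.le_of_dvd (by norm_num) ((dvd_neg).2 h6)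
      omega
  have hA := (h3 V X l c hC (-1)).1
  have hB := (h3 V X l' c' hC' (-1)).1
  obtain ⟨-, h6⟩ := h4 V X hX l l' _ _ hA hB (by
      show c (0 + -1) = c' (0 + -1)
      rw [zero_add, hm1]) (by
      show c (1 + -1) = c' (1 + -1)
      rw [show (1 : ℤ) + -1 = 0 by norm_num, h0]) (by
      show c (-1 + -1) = c' (-1 + -1)
      rw [show (-1 : ℤ) + -1 = -2 by norm_num, hcj])
  have h7 := congrFun h6 2
  have h8 : c 1 = c' 1 := by
    have h9 : c (2 + -1) = c' (2 + -1) := h7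
    rwa [show (2 : ℤ) + -1 = 1 by norm_num] at h9
  rw [hp1] at h8
  exact heb h8.symm

theorem s_thick (h1 : S_E1.{u}) (h2 : S_E2.{u}) (h3 : S_E3.{u}) (h4 : S_E4.{u})
    (hc : S_CLQ.{u}) : S_THICK.{u} := by
  intro V X hX l c hC e he0 he1
  have h2l := hC.two_le
  by_contra hne
  have hl : 3 ≤ l := by omega
  have hcon := hX.connected
  obtain ⟨l', c', hC', h0, hp1, hm1, hlt⟩ := thick_R h1 h2 h3 h4 hc hX hC hl he0 he1
  have hab : X.Adj (c 0) (c 1) := by
    have := hC.adj 0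
    rwa [zero_add] at this
  have h2l' := hC'.two_le
  by_cases hl' : 3 ≤ l'
  · obtain ⟨l'', c'', hC'', h0', hp1', hm1', hlt'⟩ := thick_R h1 h2 h3 h4 hc hX hC' hl' (e := c 1)
      (by rw [h0]; exact hab.symm) (by rw [hp1]; exact he1.symm)
    obtain ⟨h5, -⟩ := h4 V X hX l'' l c'' c hC'' hC (by rw [h0', h0]) hp1' (by rw [hm1', hm1])
    omega
  have hl2 : l' = 2 := by omega
  subst hl2
  have hme : X.Adj e (c' 2) := by
    have h5 := hC'.adj 1
    rw [hp1] at h5
    exact h5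
  have hc3 : c' 3 = c (-1) := by
    rw [← hm1, hC'.eq_iff]
    exact ⟨1, by norm_num⟩
  have hms : X.Adj (c' 2) (c (-1)) := by
    have h5 : X.Adj (c' 2) (c' 3) := hC'.adj 2
    rwa [hc3] at h5
  have hma : X.dist (c' 2) (c 0) = 2 := by
    have h5 := h1 V X hcon 2 c' hC' 0 2 le_rfl
    have h6 : (0 : ℤ) + ((2 : ℕ) : ℤ) = 2 := by norm_num
    rw [h6, h0, SimpleGraph.dist_comm] at h5
    exact h5
  have hbs : X.dist (c 1) (c (-1)) = 2 := by
    have h := h1 V X hcon l c hC (-1) 2 (by omega)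
    have he : (-1 : ℤ) + ((2 : ℕ) : ℤ) = 1 := by norm_num
    rw [he, SimpleGraph.dist_comm] at h
    exact h
  have hme1 : X.dist (c' 2) e = 1 := thick_dist_adj hme.symm
  have hmb : X.dist (c' 2) (c 1) = 2 := by
    have h5 := thick_gate hc hX hab (c' 2) (u := e) (u' := c 0) (Or.inr (Or.inr ⟨he0, he1⟩))
      (Or.inl rfl) (by omega) (c 1) (Or.inr (Or.inl rfl)) he1.ne.symm
    omega
  have hbm : X.dist (c 1) (c' 2) = 2 := by rw [SimpleGraph.dist_comm]; exact hmb
  obtain ⟨y, hys, hym, hyI, -⟩ := hX.triangle (c 1) (c (-1)) (c' 2) (by omega) hms.symm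
  obtain ⟨j, hj⟩ := hC.convex 1 (-1) hyI
  have hyI' : X.dist (c 1) (c (-1)) = X.dist (c 1) y + X.dist y (c (-1)) := hyI
  have hys1 := thick_dist_adj hys
  have hby : X.Adj (c 1) y := by
    have h5 : X.dist (c 1) y = 1 := by omega
    exact SimpleGraph.dist_eq_one_iff_adj.1 h5
  have hnj : ¬ (2 * (l : ℤ)) ∣ j := by
    intro h5
    have h6 : c j = c 0 := by
      rw [hC.eq_iff]
      obtain ⟨k, hk⟩ := h5
      exact ⟨k, by linarith⟩
    rw [← hj, h6] at hym
    have h7 := thick_dist_adj hym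
    rw [SimpleGraph.dist_comm] at h7
    omega
  rw [← hj] at hby hys
  have hA : (2 * (l : ℤ)) ∣ (j - 2) := by
    rcases hC.induced 1 j hby with ⟨k, hk⟩ | ⟨k, hk⟩
    · exact ⟨k, by linarith⟩
    · exact absurd ⟨-k, by linarith⟩ hnj
  have hB : (2 * (l : ℤ)) ∣ (j + 2) := by
    rcases hC.induced j (-1) hys with ⟨k, hk⟩ | ⟨k, hk⟩
    · exact ⟨-k, by linarith⟩
    · exact absurd ⟨k, by linarith⟩ hnj
  have h4' : (2 * (l : ℤ)) ∣ 4 := by
    have := dvd_sub hB hA
    have h5 : (j + 2) - (j - 2) = 4 := by ring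
    rwa [h5] at this
  have := Int.le_of_dvd (by norm_num) h4'
  omega

end Pool.Agent.H341.MA
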