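import Pool.Agent.H341.MA.St1

/-! Opposite edges of even convex cycles have the same half-spaces (MA-09, written by helper553). -/

set_option autoImplicit false

namespace Pool.Agent.H341.MA

universe u v

open SimpleGraph

/-- distances from a vertex of the cycle, the vertex being `c j` with `1 ≤ j ≤ 2 l` -/
theorem W_onCycle (h1 : S_E1.{u}) {V : Type u} {X : SimpleGraph V} (hX : X.Connected) {l : ℕ}
    {c : ℤ → V} (hc : EvenConvexCycle X l c) (j : ℕ) (hj1 : 1 ≤ j) (hj2 : j ≤ 2 * l) :
    X.dist (c j) (c 0) < X.dist (c j) (c 1) ↔ X.dist (c j) (c (l + 1)) < X.dist (c j) (c l) := by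
  have hE := h1 V X hX l c hc
  have hper : ∀ i : ℤ, c (i + 2 * l) = c i := fun i => by
    rw [hc.eq_iff]
    exact ⟨1, by ring⟩
  by_cases hjl : j ≤ l
  · -- `c 0, c 1, c j, c l, c (l + 1)`
    have a1 : X.dist (c j) (c 0) = j := by
      have := hE 0 j hjl
      rw [zero_add] at this
      rw [dist_comm]; exact this
    have a2 : X.dist (c j) (c 1) = j - 1 := by
      have := hE 1 (j - 1) (by omega)
      have e : (1 : ℤ) + ((j - 1 : ℕ) : ℤ) = j := by omega
      rw [e] at this
      rw [dist_comm]; exact this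
    have a3 : X.dist (c j) (c l) = l - j := by
      have := hE j (l - j) (by omega)
      have e : (j : ℤ) + ((l - j : ℕ) : ℤ) = l := by omega
      rw [e] at this
      exact this
    have a4 : X.dist (c j) (c (l + 1)) = l + 1 - j := by
      have := hE j (l + 1 - j) (by omega)
      have e : (j : ℤ) + ((l + 1 - j : ℕ) : ℤ) = l + 1 := by omega
      rw [e] at this
      exact this
    rw [a1, a2, a3, a4]
    omega
  · have b0 : c 0 = c (2 * l) := by
      have := hper 0
      rw [zero_add] at this
      exact this.symm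
    have b1 : c 1 = c (2 * l + 1) := by
      have := hper 1
      rw [add_comm] at this
      exact this.symm
    have a1 : X.dist (c j) (c 0) = 2 * l - j := by
      have := hE j (2 * l - j) (by omega)
      have e : (j : ℤ) + ((2 * l - j : ℕ) : ℤ) = 2 * l := by omega
      rw [e] at this
      rw [b0]; exact this
    have a2 : X.dist (c j) (c 1) = 2 * l + 1 - j := by
      have := hE j (2 * l + 1 - j) (by omega)
      have e : (j : ℤ) + ((2 * l + 1 - j : ℕ) : ℤ) = 2 * l + 1 := by omega
      rw [e] at this
      rw [b1]; exact this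
    have a3 : X.dist (c j) (c l) = j - l := by
      have := hE l (j - l) (by omega)
      have e : (l : ℤ) + ((j - l : ℕ) : ℤ) = j := by omega
      rw [e] at this
      rw [dist_comm]; exact this
    have a4 : X.dist (c j) (c (l + 1)) = j - l - 1 := by
      have := hE (l + 1) (j - l - 1) (by omega)
      have e : (l + 1 : ℤ) + ((j - l - 1 : ℕ) : ℤ) = j := by omega
      rw [e] at this
      rw [dist_comm]; exact this
    rw [a1, a2, a3, a4]
    omega

theorem W_edge {V : Type u} {X : SimpleGraph V} {l : ℕ} {c : ℤ → V} (hc : EvenConvexCycle X l c)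
    {a b : ℤ} (h : X.Adj (c a) (c b)) : ∃ k : ℤ, s(c a, c b) = s(c k, c (k + 1)) := by
  rcases hc.induced a b h with h1 | h1
  · refine ⟨a, ?_⟩
    have : c b = c (a + 1) := by
      rw [hc.eq_iff]
      have e : b - (a + 1) = b - a - 1 := by ring
      rw [e]; exact h1
    rw [this]
  · refine ⟨b, ?_⟩
    have : c a = c (b + 1) := by
      rw [hc.eq_iff]
      have e : a - (b + 1) = a - b - 1 := by ring
      rw [e]; exact h1
    rw [this, Sym2.eq_swap]

theorem W_conn {V : Type u} {X : SimpleGraph V} {l : ℕ} {c : ℤ → V}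
    (hc : EvenConvexCycle X l c) : (X.induce (Set.range c)).Preconnected := by
  have key : ∀ (n : ℕ) (i : ℤ), (X.induce (Set.range c)).Reachable
      ⟨c i, Set.mem_range_self i⟩ ⟨c (i + n), Set.mem_range_self _⟩ := by
    intro n
    induction n with
    | zero =>
      intro i
      have e : (⟨c (i + ((0 : ℕ) : ℤ)), Set.mem_range_self _⟩ : Set.range c) =
          ⟨c i, Set.mem_range_self i⟩ := by
        apply Subtype.ext
        simp
      rw [e]
    | succ n ih =>
      intro i
      refine (ih i).trans ?_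
      have hadj : (X.induce (Set.range c)).Adj ⟨c (i + n), Set.mem_range_self _⟩
          ⟨c (i + ((n + 1 : ℕ) : ℤ)), Set.mem_range_self _⟩ := by
        change X.Adj (c (i + n)) (c (i + ((n + 1 : ℕ) : ℤ)))
        have := hc.adj (i + n)
        have e : i + ((n + 1 : ℕ) : ℤ) = i + n + 1 := by push_cast; ring
        rw [e]; exact this
      exact hadj.reachable
  rintro ⟨_, i, rfl⟩ ⟨_, j, rfl⟩
  rcases le_total i j with h | h
  · obtain ⟨n, hn⟩ := Int.le.dest h
    have := key n i
    have e : (⟨c (i + n), Set.mem_range_self _⟩ : Set.range c) = ⟨c j, Set.mem_range_self j⟩ := by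
      apply Subtype.ext
      simp only [hn]
    rw [e] at this
    exact this
  · obtain ⟨n, hn⟩ := Int.le.dest h
    have := key n j
    have e : (⟨c (j + n), Set.mem_range_self _⟩ : Set.range c) = ⟨c i, Set.mem_range_self i⟩ := by
      apply Subtype.ext
      simp only [hn]
    rw [e] at this
    exact this.symm

/-- an even convex cycle of length at least six is gated -/
theorem W_gated (h3 : S_E3.{u}) (hg : S_GATE.{u}) (ht : S_THICK.{u}) {V : Type u}
    {X : SimpleGraph V} (hX : Mediangle X) {l : ℕ} {c : ℤ → V} (hc : EvenConvexCycle X l c)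
    (hl : 3 ≤ l) : Gated X (Set.range c) := by
  refine hg V X hX (Set.range c) ⟨c 0, Set.mem_range_self 0⟩ (W_conn hc) ?_ ?_
  · rintro _ ⟨i, rfl⟩ _ ⟨j, rfl⟩ w hij hwi hwj
    exfalso
    have hthick : ∀ a : ℤ, X.Adj w (c a) → X.Adj w (c (a + 1)) → False := by
      intro a ha hb
      have h5 := (h3 V X l c hc a).1
      have h6 := ht V X hX l _ h5 w (by
        change X.Adj w (c (0 + a))
        rw [zero_add]; exact ha) (by
        change X.Adj w (c (1 + a))
        rw [add_comm]; exact hb)
      omega
    rcases hc.induced i j hij with h | h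
    · have e : c j = c (i + 1) := by
        rw [hc.eq_iff]
        have e : j - (i + 1) = j - i - 1 := by ring
        rw [e]; exact h
      exact hthick i hwi (by rw [← e]; exact hwj)
    · have e : c i = c (j + 1) := by
        rw [hc.eq_iff]
        have e : i - (j + 1) = i - j - 1 := by ring
        rw [e]; exact h
      exact hthick j hwj (by rw [← e]; exact hwi)
  · rintro l' c' hc' ⟨i, hi⟩ ⟨j, hj⟩ ⟨k, hk⟩
    have ha1 : X.Adj (c i) (c j) := by
      rw [hi, hj]
      have := hc'.adj (-1)
      rwa [neg_add_cancel] at this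
    have ha2 : X.Adj (c j) (c k) := by
      rw [hj, hk]
      have := hc'.adj 0
      rwa [zero_add] at this
    obtain ⟨m, hm⟩ := W_edge hc ha1
    obtain ⟨m', hm'⟩ := W_edge hc ha2
    have hr := hX.share l' l c' c hc' hc (-1) 0 m m' (by
      rw [neg_add_cancel, ← hi, ← hj]; exact hm) (by
      rw [zero_add, ← hj, ← hk]; exact hm') (by
      rw [neg_add_cancel, zero_add]
      intro h
      rw [Sym2.eq_iff] at h
      rcases h with h | h
      · have h5 := (hc'.eq_iff 0 1).1 h.2
        have h6 : (2 : ℤ) ∣ 0 - 1 := (Dvd.intro _ rfl).trans h5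
        omega
      · have h5 := (hc'.eq_iff (-1) 1).1 h.1
        have h2 := hc'.two_le
        have h6 : (2 * (l' : ℤ)) ∣ 2 := by
          rw [← dvd_neg]
          exact h5
        have h7 := Int.le_of_dvd (by norm_num) h6
        omega)
    rw [hr]

theorem s_w (h1 : S_E1.{u}) (_h2 : S_E2.{u}) (h3 : S_E3.{u}) (_h4 : S_E4.{u}) (hg : S_GATE.{u})
    (ht : S_THICK.{u}) (hw : S_WSQ.{u}) : S_W.{u} := by
  intro V X hX l c hc v
  have hl := hc.two_le
  rcases Nat.lt_or_ge 2 l with hl3 | hl2
  · obtain ⟨y, ⟨j, rfl⟩, hy⟩ := W_gated h3 hg ht hX hc hl3 v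
    -- the representative in `[1, 2 l]`
    obtain ⟨j', hj1, hj2, hj'⟩ : ∃ j' : ℕ, 1 ≤ j' ∧ j' ≤ 2 * l ∧ c j = c j' := by
      have hpos : (0 : ℤ) < 2 * l := by omega
      have hm1 := Int.emod_nonneg (j - 1) hpos.ne'
      have hm2 := Int.emod_lt_of_pos (j - 1) hpos
      refine ⟨((j - 1) % (2 * l) + 1).toNat, by omega, by omega, ?_⟩
      have e : (((j - 1) % (2 * l) + 1).toNat : ℤ) = (j - 1) % (2 * l) + 1 := by omega
      rw [e, hc.eq_iff]
      have e2 : j - ((j - 1) % (2 * l) + 1) = (j - 1) - (j - 1) % (2 * l) := by ring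
      rw [e2]
      exact Int.dvd_self_sub_emod
    have hz : ∀ i : ℤ, X.dist v (c i) = X.dist v (c j) + X.dist (c j) (c i) := fun i =>
      hy (c i) (Set.mem_range_self i)
    have key := W_onCycle h1 hX.connected hc j' hj1 hj2
    rw [← hj'] at key
    rw [hz 0, hz 1, hz (l + 1), hz l]
    omega
  · obtain rfl : l = 2 := le_antisymm hl2 hl
    have hper : c 4 = c 0 := by
      rw [hc.eq_iff]
      exact ⟨1, by norm_num⟩
    have a01 : X.Adj (c 0) (c 1) := by simpa using hc.adj 0
    have a12 : X.Adj (c 1) (c 2) := by simpa using hc.adj 1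
    have a23 : X.Adj (c 2) (c 3) := by simpa using hc.adj 2
    have a30 : X.Adj (c 3) (c 0) := by
      have := hc.adj 3
      rw [show (3 : ℤ) + 1 = 4 by norm_num, hper] at this
      exact this
    have n02 : c 0 ≠ c 2 := by
      intro h
      have := (hc.eq_iff 0 2).1 h
      omega
    have n13 : c 1 ≠ c 3 := by
      intro h
      have := (hc.eq_iff 1 3).1 h
      omega
    have m02 : ¬ X.Adj (c 0) (c 2) := by
      intro h
      have := hc.induced 0 2 h
      omega
    have m13 : ¬ X.Adj (c 1) (c 3) := by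
      intro h
      have := hc.induced 1 3 h
      omega
    have e3 : c (((2 : ℕ) : ℤ) + 1) = c 3 := by norm_num
    have e2 : c ((2 : ℕ) : ℤ) = c 2 := by norm_num
    rw [e3, e2]
    constructor
    · intro h
      exact hw V X hX v (c 0) (c 1) (c 3) (c 2) a01 a12 a23 a30 n02 m02 n13 m13 h
    · intro h
      exact hw V X hX v (c 3) (c 2) (c 0) (c 1) a23.symm a12.symm a01.symm a30.symm n13.symm
        (fun hh => m13 hh.symm) n02.symm (fun hh => m02 hh.symm) h

end Pool.Agent.H341.MA
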