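import Pool.Agent.H341.MA.St1

/-!
# Mediangle graphs: opposite edges of squares
-/

set_option autoImplicit false

namespace Pool.Agent.H341.MA

universe u v

open SimpleGraph

private theorem wsq_adj {V : Type u} {X : SimpleGraph V} (hc : X.Connected) {a b : V} (v : V)
    (h : X.Adj a b) : X.dist v b ≤ X.dist v a + 1 ∧ X.dist v a ≤ X.dist v b + 1 := by
  have h1 : X.dist a b = 1 := dist_eq_one_iff_adj.2 h
  have h2 : X.dist b a = 1 := dist_eq_one_iff_adj.2 h.symm
  have h3 := hc.dist_triangle (u := v) (v := a) (w := b)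
  have h4 := hc.dist_triangle (u := v) (v := b) (w := a)
  omega

private theorem wsq_two {V : Type u} {X : SimpleGraph V} (hc : X.Connected) {a b c : V}
    (hne : a ≠ c) (hna : ¬ X.Adj a c) (h1 : X.Adj a b) (h2 : X.Adj b c) : X.dist a c = 2 := by
  have h3 : X.dist a b = 1 := dist_eq_one_iff_adj.2 h1
  have h4 : X.dist b c = 1 := dist_eq_one_iff_adj.2 h2
  have h5 := hc.dist_triangle (u := a) (v := b) (w := c)
  have h6 : X.dist a c ≠ 0 := fun h => hne (hc.dist_eq_zero_iff.1 h)
  have h7 : X.dist a c ≠ 1 := fun h => hna (dist_eq_one_iff_adj.1 h)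
  omega

theorem s_wsq (h1 : S_E1.{u}) (h2 : S_E2.{u}) (h3 : S_E3.{u}) (h4 : S_E4.{u}) (hq : S_SQ.{u})
    (ht : S_THICK.{u}) : S_WSQ.{u} := by
  intro V X hX v x y x' y' hxy hyy' hy'x' hx'x hne1 hna1 hne2 hna2 hlt
  have hc := hX.connected
  by_contra hcon
  have d1 := wsq_adj hc v hxy
  have d2 := wsq_adj hc v hyy'
  have d3 := wsq_adj hc v hy'x'
  have d4 := wsq_adj hc v hx'x
  have hy : X.dist v y = X.dist v x + 1 := by omega
  have hcase : X.dist v y' = X.dist v x ∨
      (X.dist v y' = X.dist v x + 1 ∧ X.dist v x' = X.dist v x + 1) := by omega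
  rcases hcase with hy' | ⟨hy', hx'⟩
  · -- the antipode of `y` would be `x'`
    obtain ⟨l, c, hE, e0, e1, e2, hI, -⟩ := hX.cycle v x y' y hne1 hxy.symm hyy'
      (by omega) (by omega)
    obtain ⟨⟨c', hE', f0, f1, f2, f3⟩, -⟩ := hq V X hX x y y' x' hne1 hna1 hne2 hna2 hxy hyy'
      hy'x' hx'x
    have hE'' := (h3 V X 2 c' hE' 1).2
    obtain ⟨hl, hcc⟩ := h4 V X hX l 2 c (fun i => c' (1 - i)) hE hE''
      (by show c 0 = c' (1 - 0); rw [e0, sub_zero, f1])
      (by show c 1 = c' (1 - 1); rw [e1, sub_self, f0])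
      (by
        show c (-1) = c' (1 - (-1))
        rw [e2, show (1 : ℤ) - (-1) = 2 by norm_num, f2])
    have hcl : c (l : ℤ) = x' := by
      rw [hcc, hl]
      show c' (1 - ((2 : ℕ) : ℤ)) = x'
      rw [← f3, hE'.eq_iff]
      norm_num
    rw [hcl] at hI
    have h5 : X.dist v x = X.dist v x' + X.dist x' x := hI
    have h6 : X.dist x' x = 1 := dist_eq_one_iff_adj.2 hx'x
    omega
  · obtain ⟨u', hu'x', hu'y', hI1, -⟩ := hX.triangle v x' y' (by omega) hy'x'.symm
    have h5 : X.dist v x' = X.dist v u' + X.dist u' x' := hI1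
    have h6 : X.dist u' x' = 1 := dist_eq_one_iff_adj.2 hu'x'
    have hu' : X.dist v u' = X.dist v x := by omega
    have hxu' : x ≠ u' := by
      rintro rfl
      exact hna1 hu'y'
    obtain ⟨l, c, hE, e0, e1, e2, hI, -⟩ := hX.cycle v x u' x' hxu' hx'x hu'x'.symm
      (by omega) (by omega)
    have hE' := (h3 V X l c hE (-1)).1
    have hl : l = 2 := by
      apply ht V X hX l _ hE' y'
      · show X.Adj y' (c (0 + (-1)))
        rw [zero_add, e2]; exact hu'y'.symm
      · show X.Adj y' (c (1 + (-1)))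
        rw [show (1 : ℤ) + (-1) = 0 by norm_num, e0]; exact hy'x'
    subst hl
    have e3 : c 3 = u' := by
      rw [← e2, hE.eq_iff]
      norm_num
    have hxt : X.Adj x (c 2) := by
      have := hE.adj 1
      rwa [e1, show (1 : ℤ) + 1 = 2 by norm_num] at this
    have htu' : X.Adj (c 2) u' := by
      have := hE.adj 2
      rwa [show (2 : ℤ) + 1 = 3 by norm_num, e3] at this
    have hntx' : ¬ X.Adj x' (c 2) := by
      intro h
      rw [← e0] at h
      rcases hE.induced _ _ h with h | h <;> norm_num at h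
    have hx't : x' ≠ c 2 := by
      intro h
      rw [← e0, hE.eq_iff] at h
      norm_num at h
    have hnxu' : ¬ X.Adj x u' := by
      intro h
      rw [← e1, ← e3] at h
      rcases hE.induced _ _ h with h | h <;> norm_num at h
    have hnu'y : ¬ X.Adj u' y := by
      intro h
      exact hna2 (hX.no_k4minus u' y' y x' hu'y' h hyy'.symm hu'x' hy'x' hne2)
    have hu'ne : u' ≠ y := by
      rintro rfl
      omega
    have g1 : X.dist u' y = 2 := wsq_two hc hu'ne hnu'y hu'y' hyy'.symm
    have g2 : X.dist u' x = 2 := wsq_two hc hxu'.symm (fun h => hnxu' h.symm) hu'x' hx'x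
    obtain ⟨r, hrx, hry, hI3, -⟩ := hX.triangle u' x y (by omega) hxy
    have h7 : X.dist u' x = X.dist u' r + X.dist r x := hI3
    have h8 : X.dist r x = 1 := dist_eq_one_iff_adj.2 hrx
    have h9 : X.Adj r u' := (dist_eq_one_iff_adj.1 (show X.dist u' r = 1 by omega)).symm
    rcases (hq V X hX x x' u' (c 2) hxu' hnxu' hx't hntx' hx'x.symm hu'x'.symm htu'.symm
      hxt.symm).2 r hrx h9 with hr | hr
    · rw [hr] at hry
      exact hna2 hry.symm
    · rw [hr] at hry
      have h10 : X.dist v x = X.dist v (c 2) + X.dist (c 2) x := hI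
      have h11 : X.dist (c 2) x = 1 := dist_eq_one_iff_adj.2 hxt.symm
      have h12 := wsq_adj hc v hry
      omega

end Pool.Agent.H341.MA
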