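import Pool.Agent.H341.MA.E
import Pool.Agent.H341.MA.E4
import Pool.Agent.H341.MA.Gate
import Pool.Agent.H341.MA.GP
import Pool.Agent.H341.MA.Clq
import Pool.Agent.H341.MA.SQ
import Pool.Agent.H341.MA.Thick
import Pool.Agent.H341.MA.WSQ
import Pool.Agent.H341.MA.W
import Pool.Agent.H341.MA.PP
import Pool.Agent.H341.MA.Par
import Pool.Agent.H341.MA.Ham
import Pool.Agent.H341.MA.Box
import Pool.Agent.H341.MA.TMeet
import Pool.Agent.H341.MA.TG
import Pool.Agent.H341.MA.TLift
import Pool.Agent.H341.MA.TY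
import Pool.Agent.H341.MA.TN
import Pool.Agent.H341.MA.TPi
import Pool.Agent.H341.MA.TMain
import Pool.Agent.H341.MA.Ant
import Pool.Agent.H341.MA.Move
import Pool.Agent.H341.MA.Opp
import Pool.Agent.H341.MA.Subc
import Pool.Agent.H341.MA.Cell0
import Pool.Agent.H341.MA.Star
import Pool.Agent.H341.MA.LF
import Pool.Agent.H341.MA.Csys
import Pool.Agent.H341.MA.BB
import Pool.Agent.H341.MA.Cone
import Pool.Agent.H341.MA.Glue
import Pool.Agent.H341.MA.Acy
import Pool.Agent.H341.MA.Res
import Pool.Agent.H341.MA.Scm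
import Pool.Agent.H341.MA.Fpg
import Pool.Agent.H341.MA.Cfin
import Pool.Agent.H341.MA.Finw
import Pool.Agent.H341.MA.Fins

set_option autoImplicit false

namespace Pool.Agent.H341.MA

universe u

/-- Every group acting geometrically on a mediangle graph is of type `F_∞`; if it is torsion-free
then it is of type `F`. -/
theorem mediangle_main (V : Type u) (X : SimpleGraph V) (G : Type u) [Group G] [MulAction G V] (hX : Mediangle X) (hG : GeometricAction X G) :
    TypeFInfty G ∧ ((∀ g : G, g ≠ 1 → ¬ IsOfFinOrder g) → TypeF G) := by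
  have e1 : S_E1.{u} := s_e1
  have e2 : S_E2.{u} := s_e2
  have e3 : S_E3.{u} := s_e3
  have e4 : S_E4.{u} := s_e4 e3
  have gate : S_GATE.{u} := s_gate e1 e3
  have gp : S_GP.{u} := s_gp e1 e2
  have clq : S_CLQ.{u} := s_clq
  have sq : S_SQ.{u} := s_sq e1 e2 e3
  have thick : S_THICK.{u} := s_thick e1 e2 e3 e4 clq
  have wsq : S_WSQ.{u} := s_wsq e1 e2 e3 e4 sq thick
  have w : S_W.{u} := s_w e1 e2 e3 e4 gate thick wsq
  have pp : S_PP.{u} := s_pp e1 e2 e3 clq thick wsq w
  have par : S_PAR.{u} := s_par e1 e2 e3 clq w pp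
  have ham : S_HAM.{u} := s_ham clq par
  have box : S_BOX.{u} := s_box
  have tn : T_N.{u} := t_n t_meet t_y (t_lift t_g)
  have tmain : T_MAIN.{u} := t_main t_meet tn (t_pi t_meet)
  have thin : S_THIN.{u} := s_thin t_meet tmain
  have ant : S_ANT.{u} := s_ant e1 e2 e3 e4 box thin
  have move : S_MOVE.{u} := s_move e1 e2 e3 box thick
  have opp : S_OPP.{u} := s_opp box move
  have subc : S_SUBC.{u} := s_subc e1 e2 e3 e4 gate box opp
  have cell0 : S_CELL0.{u} := s_cell0 ham box ant subc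
  have star : S_STAR.{u} := s_star e3 gp
  have csys : S_CSYS.{u} := s_csys gp cell0 star
  have bb : S_BB.{u} := s_bb
  have glue : S_GLUE.{u} := s_glue bb
  have acy : S_ACY.{u} := s_acy s_union (s_acyj glue)
  have res : S_RES.{u, u} := s_res bb
  have lf : S_LF.{u, u} := s_lf
  have scm : S_SCM.{u, u} := s_scm e1 e2 e3 e4 lf
  have fpg : S_FPG.{u, u} := s_fpg
  have cfin : S_CFIN.{u} := s_cfin star
  have finw : S_FINW.{u} := s_finw lf csys cfin s_cinv s_conew acy res
  have fins : S_FINS.{u, u} := s_fins lf csys cfin s_cinv s_cones acy res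
  have hfp : Group.IsFinitelyPresented G := fpg V X G hX.connected hG (scm V X G hX hG)
  exact ⟨⟨hfp, finw V X G hX hG⟩, fun htf => ⟨hfp, fins V X G hX hG htf⟩⟩

end Pool.Agent.H341.MA
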