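import Pool.Agent.H341.MA.St3

/-!
# Paper proof: groups acting geometrically on mediangle graphs are of type F_infinity (MP_d893c1_al)

Notation. X mediangle graph, d = X.dist. I(x,y) = Itv X x y. Axioms: TC (triangle condition:
o, x ~ y with d(o,x) = d(o,y) have a common neighbour of x, y one closer to o), K4 (no induced
K_4^-), CC (cycle condition), C4 (`share`). ECC = even convex cycle (EvenConvexCycle X l c, vertices
c 0, c 1, ..., c (2l-1)), `antipode of c i` = c (i+l). We often say: `lower neighbour of z w.r.t. o`
= neighbour x of z with d(o,x) = d(o,z) - 1. CC says: two different lower neighbours x, y of z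
w.r.t. o lie, together with z, on an ECC (as consecutive vertices x, z, y) whose antipode m of z
lies in I(o,x) and I(o,y); so d(o,m) = d(o,z) - l.
By E4 an ECC is determined by three consecutive vertices.

## E1, E2, E3
E1. d(c i, c(i+k)) = k for 0 <= k <= l. Upper bound: walk along the cycle. Lower bound: take a
geodesic x_0 = c i, ..., x_n = c(i+k); every x_t is in I(c i, c(i+k)), so x_t = c(a_t); consecutive
ones are adjacent so a_{t+1} - a_t = +1 or -1 mod 2l (`induced`); choose integers with difference
exactly +-1: the last one is congruent to i + k mod 2l and at distance <= n from i, so n >= k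
because 0 <= k <= l.
E2. `⊆` is convexity; `⊇`: c j with j = i + k mod 2l, 0 <= k < 2l. If k <= l use E1 twice. If k > l
write j = i - k' with k' = 2l - k <= l and use E1 for the pairs (j, i) and (i - l, j) (c(i+l)=c(i-l)).
E3. immediate.

## E4
c 0 = c' 0, c 1 = c' 1, c(-1) = c'(-1). The edges {c(-1),c 0} and {c 0, c 1} are common and
different, so by `share` range c = range c'. By induction on k >= 0: c'(k) = c(k) and
c'(k+1) = c(k+1): c'(k+2) is in range c, adjacent to c'(k+1) = c(k+1), so it is c(k) or c(k+2)
(`induced`); it is not c'(k) = c(k) (eq_iff, 2l' does not divide 2). Similarly for negative indices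
(use reflection). So c = c' and then the periods agree: 2l | i iff c i = c 0 iff 2l' | i, so l = l'.

## GATE (local-to-global)
Let x in V, choose y in Y with D := d(x,y) minimal. Let dY be the distance in X.induce Y.
Claim: for all y' in Y, d(x,y') = D + dY(y,y'). (Then D + d(y,y') <= D + dY(y,y') = d(x,y') <=
D + d(y,y') gives the gate property.) Strong induction on n = dY(y,y'); the induction hypothesis
(IH): for v in Y with dY(y,v) < n: d(x,v) = D + dY(y,v).
n = 0 clear. n = 1: d(x,y') is D-1, D or D+1. D-1 contradicts minimality; if D: TC gives a common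
neighbour w of y, y' with d(x,w) = D-1, and w in Y by closure under triangles, contradiction.
n >= 2: choose y1 in Y adjacent to y' =: yn with dY(y,y1) = n-1, and y2 in Y adjacent to y1 with
dY(y,y2) = n-2. d(x,y1) = D+n-1, d(x,y2) = D+n-2, and d(x,yn) is D+n-2, D+n-1 or D+n.
Case d(x,yn) = D+n-1: TC gives w adjacent to y1 and yn, d(x,w) = D+n-2, w in Y. If w = y2 then
yn ~ y2 and dY(y,yn) <= n-1, contradiction. Otherwise y2, w are two lower neighbours of y1 w.r.t. x:
ECC C with c 0 = y1, c 1 = y2, c(-1) = w, contained in Y by hypothesis (ii), c l in I(x,y2). For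
1 <= i <= l: d(x,c i) = D+n-1-i (since d(x, c l) = D+n-1-l and d(c i, ...) by E1) and
dY(y,c i) = n-1-i (induction on i: dY(y,c(i+1)) <= dY(y,c i)+1 < n so IH applies to c(i+1)). Then
walking on from c l to c(2l-1) = w: dY(y,w) <= n-1-l + (l-1) = n-2, so dY(y,yn) <= n-1, contradiction.
Case d(x,yn) = D+n-2: yn, y2 are two different lower neighbours of y1: the same with w = yn gives
dY(y,yn) <= n-2, contradiction. So d(x,yn) = D+n.

## GP
Y gated. Convex: t in I(u,v), g the gate of t: d(u,v) = d(t,u)+d(t,v) = 2d(t,g)+d(g,u)+d(g,v) >=
2d(t,g)+d(u,v). Triangles: u ~ v in Y, w ~ u, v: gate g of w: if g != w then d(w,g)=1 and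
1 = d(w,u) = 1 + d(g,u) gives g = u and in the same way g = v. Cycles: gate g of the antipode c l:
g in I(c l, c 1) and in I(c l, c(-1)) (and in I(c l, c 0)), so g = c j lies on both arcs from c l:
by E1 g = c l. So c l in Y and by E2 and convexity the whole cycle is in Y.

## CLQ
Let K = Clq X x y. For u in K, u != x, y: u ~ x, y. Two such u, u' are equal or adjacent by K4. So
elements of K are pairwise adjacent. For u != v in K: Clq u v = K: if t ~ u, v and s in K is
different from u, v then s ~ u, v so t = s or t ~ s (K4 applied to the edge uv); so t is adjacent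
or equal to x and to y, t in K. Conversely elements of K different from u, v are adjacent to u, v.
Gate of v: choose g in K nearest to v; if u in K, u != g has d(v,u) = d(v,g), TC gives w ~ u, g with
d(v,w) = d(v,g) - 1 and w in Clq u g = K, contradiction; so d(v,u) = d(v,g)+1.
Useful: if u, u' in K and d(v,u) < d(v,u') then u is the gate of v in K.

## SQ
Base v: d(v,t) = 2, d(v,u) = d(v,w) = 1. CC(o=v, z=t, x=u, y=w) gives an ECC c' with c' 0 = t,
c' 1 = u, c'(-1) = w, c' l in I(v,u) and I(v,w), so c' l = v (c' l is v or u, and v or w), l =
d(t,v) = 2. Put c i = c'(i+1): c 0 = u, c 1 = v, c 2 = c'(3) = c'(-1) = w, c 3 = c' 4 = t. Convexity: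
I(u,w) is contained in {u,v,w,t}, so a common neighbour of u, w is v or t.

## THICK
First Sub-lemma R. Let c be an ECC with l >= 3, a = c 0, b = c 1, s = c(-1), and e ~ a, b. Then
there is an ECC c' with c' 0 = a, c' 1 = e, c'(-1) = s and l' < l.
Proof. K = Clq a b contains e. p = c l, q = c(l+1). d(p,b) = l-1, d(p,a) = l so the gate of p in K is
b and d(p,k) = l for all k in K, k != b. d(q,a) = l-1, d(q,b) = l, so the gate of q is a, d(q,e) = l.
TC with base e for the edge pq: w ~ p, q, d(e,w) = l-1. Every k in K has d(w,k) >= l-1 (for k != b
because d(p,k) = l, for k = b because d(q,b) = l). So e is the gate of w: d(w,a) = l. d(q,s) = l-2,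
so d(w,s) <= l-1, and >= d(w,a)-1 = l-1. So e and s are lower neighbours of a w.r.t. w; e != s
(s = c(-1) is not adjacent to c 1, e is). CC(o=w, z=a, x=e, y=s): ECC c' with c' 0 = a, c' 1 = e,
c'(-1) = s, m' = c' l' in I(w,e) and I(w,s); l' = d(a,m') <= d(a,w) = l. If l' = l then m' = w,
and c(-2) lies in I(a,w) (d(a,c(-2)) = 2, d(c(-2),w) <= d(c(-2),q)+1 = l-2) = range c'. c(-2) is
adjacent to s = c'(-1), so it is c'(-2) or c' 0; not c' 0 = a = c 0 as l >= 3. So c'(-2) = c(-2)
and c, c' have the three consecutive vertices c 0, c(-1), c(-2) in common: by E4 (after shift and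
reflection, E3) they are equal, so e = c' 1 is on c: range c' = range c contains e; but e is
adjacent to c 0 and c 1: impossible (`induced`, l >= 2). So l' < l.
THICK: suppose l >= 3 (x =: e). R gives c' with l' < l. If l' >= 3 apply R to c' (c' 0 = a,
c' 1 = e, c'(-1) = s, third vertex b ~ a, e): ECC c'' with c'' 0 = a, c'' 1 = b, c''(-1) = s,
l'' < l'. By E4 c'' = c and l'' = l, contradiction. So l' = 2, m' = c' 2, m' ~ e, m' ~ s, m' not
adjacent to a. d(b,s) = 2 (E1, l >= 3; at least l >= 2). gate of m' in K is e (d(m',e) = 1, d(m',a) = 2),
so d(m',b) = 2. TC base b, edge s m': y ~ s, m', d(b,y) = 1. y != a (a not adjacent to m'). y is in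
I(b,s), so on the cycle c; y is adjacent to c 1 and c(-1), so y = c 0 or (if l = 2) c 2. As l >= 3
y = c 0 = a, contradiction.

## WSQ
Square x ~ y ~ y' ~ x' ~ x, x not~ y', y not~ x'. k = d(v,x), d(v,y) = k+1. Suppose d(v,x') >= d(v,y').
d(v,y') >= k, d(v,x') <= k+1.
Case d(v,y') = k: y has the two lower neighbours x, y' w.r.t. v. CC gives an ECC through x, y, y'
with antipode of y in I(v,x). By SQ (u=x, v=y, w=y', t=x') {x,y,y',x'} is an ECC, by E4 the same
one, so l = 2 and the antipode is x': d(v,x') = k-1 < k, contradiction.
Case d(v,y') = k+1 = d(v,x'): TC gives u' ~ x', y', d(v,u') = k. x' has lower neighbours x and u'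
(x != u' as x not~ y'), so there is an ECC through x, x', u'; its edge x'u' has the third common
neighbour y', so by THICK it is a square x, x', u', t with t ~ x, t ~ u', t not~ x', x not~ u',
d(v,t) = k-1. u' not~ y (otherwise y and x' are common neighbours of the edge u'y', so adjacent by
K4). So d(u',y) = 2 = d(u',x). TC base u', edge xy: r ~ x, y, r ~ u'. The non-adjacent vertices x, u'
have the non-adjacent common neighbours x', t; by SQ r = x' or r = t. r = x' contradicts x' not~ y.
r = t: t ~ y but d(v,y) - d(v,t) = 2, contradiction.

## W
l = 2: WSQ in both directions (the square x = c 0, y = c 1, y' = c 2, x' = c 3; for the converse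
use the same lemma with x <-> x', y <-> y'). l >= 3: no edge of the cycle has a third common
neighbour (THICK, with E3), so Y = range c satisfies the hypotheses of GATE (induced cycle is
connected; (i) if c i ~ c j and w is adjacent to both then j = i+1 or i = j+1 mod 2l and THICK gives
l = 2, contradiction; (ii) by E4 + E3 an ECC through three consecutive... : if an ECC c' has
c'(-1), c' 0, c' 1 in Y then these are c(i-1), c i, c(i+1) in one of the two orders, so the ranges
agree by `share`). Let q = c j be the gate of v. d(v,c i) = d(v,q) + d(q,c i). So the claim is: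
d(c j,c 0) < d(c j,c 1) iff d(c j, c(l+1)) < d(c j, c l), which follows from E1 (j mod 2l in
{l+1,...,2l} for both).

## PP
l >= 3: both edges have no third common neighbour by THICK, Clq = the two end points, and the claim
is W (for the pair (c 0, c 1) and, by reflection, the pair (c 1, c 0)); ties do not occur by CLQ.
l = 2: square x = c 0, y = c 1, y' = c 2, x' = c 3. K = Clq x y, K1 = Clq x' y'. For each e in K there
is e1 in K1 with: for all v: (e is the gate of v in K) iff (e1 is the gate of v in K1). For e = x, y
this is W (e1 = x', y'): `x is the gate of v in K iff d(v,x) < d(v,y)`? careful: d(v,x) < d(v,y) iff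
x is the gate (CLQ). For e != x, y: d(e,x') = 2 = d(e,y') (e ~ x ~ x', and e not~ x', otherwise x' is a
common neighbour of x, e so x' in K and x' ~ y). TC base e: e1 ~ x', y', e1 ~ e. e1 in K1. e, x, x', e1
is a square (x not~ e1, otherwise x in K1 and x ~ y'; e not~ x'), so WSQ in both directions:
d(v,e) < d(v,x) iff d(v,e1) < d(v,x'), i.e. gate_K(v) = e iff gate_K1(v) = e1. In the same way each
element of K1 corresponds to one of K. So two vertices with the same gate in K have the same gate
in K1 and conversely. (cls u v says: for all w, w' in the clique d(u,w) < d(u,w') iff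
d(v,w) < d(v,w'), which is equivalent to: same gate.)

## PAR
Let K = Clq x y, K' = Clq x' y', a, b the gates of x, y in K'; a != b (not cls). k = d(x,a).
Then d(x,b) = k+1, d(y,a) = d(y,b)+1; so d(y,b) = k, d(y,a) = k+1. Induction on k. k = 0: a = x,
b = y, K' = Clq a b = K. k >= 1: let s ~ a with d(x,s) = k-1. d(y,s) = k. Base y: a has the lower
neighbours b, s (b != s since d(x,b) = k+1). CC: ECC c with c 0 = a, c 1 = b, c(-1) = s,
c l in I(y,b): d(y,c l) = k+1-l. Let a1 = c(l+1), m = c l, K1 = Clq a1 m. By W: d(x,a) < d(x,b)
gives d(x,a1) < d(x,m): a1 is the gate of x in K1. By W for the reflected cycle d(y,b) < d(y,a) gives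
d(y,m) < d(y,a1), m is the gate of y. So cls a1 m separates x and y, and the distance of y to its
gate m is k+1-l < k. By induction (with the roles of x and y exchanged: the statement is symmetric,
Clq and cls are symmetric in x, y) cls X x y = cls X a1 m = (PP) cls X a b = cls X x' y'.

## HAM
η = {σ : Setoid V // exists x ~ y, σ = cls X x y}, σ-type = Set V, co v h = {w | h.1 w v}. So
co u h != co v h iff h separates u, v. For x ~ y: exactly one h separates x and y, namely cls X x y
(it does: x, y are their own gates; uniqueness is PAR). For a geodesic v_0, ..., v_n: h_i = cls of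
v_{i-1} v_i. If h separates v_0 and v_n it separates some consecutive pair, so h is one of the h_i:
the set of separating h is finite with at most n elements. The gate of v_j in Clq v_{i-1} v_i is v_i
for j >= i and v_{i-1} for j < i (d(v_j,v_i) < d(v_j,v_{i-1}) etc.). So h_i separates v_0, v_n, and
h_i does not separate v_{j-1}, v_j for j != i, hence h_i != h_j. So there are exactly n.
proj: x ~ y, g separates them so g = cls X x y; w = gate of p in Clq x y: w and p have the same gate
w, so co w g = co p g; w = x or w ~ x, and then only cls X x w = cls X x y = g separates w and x.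

## BOX
(1) distance 0. (2) Let S(a,b) = {h | co a h != co b h}. S(u,v) is contained in S(u,w) ∪ S(w,v).
d(u,v) = d(u,w) + d(w,v) iff |S(u,v)| = |S(u,w)| + |S(w,v)|. If w in Box: S(u,w), S(w,v) are disjoint
subsets of S(u,v) with union S(u,v). Conversely if the cardinalities add up then S(u,w), S(w,v) are
disjoint with union S(u,v) [|S(u,v)| <= |S(u,w) ∪ S(w,v)| <= |S(u,w)| + |S(w,v)|] and this forces
co w h in {co u h, co v h} for each h. (3) d = 1. (4) boxes are convex. (5) geodesic.

## THIN SYSTEMS (T_MEET ... S_THIN)
W, φ, Pol. Write uΔv for D φ u v; I(u,v) = Bt φ u v; d(u,v) = card(uΔv). uΔw = (uΔv)Δ(vΔw).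
w in I(u,v) iff uΔw ⊆ uΔv iff wΔv ⊆ uΔv iff uΔv = uΔw ⊔ wΔv (disjoint). I(u,v) = I(v,u). If
w in I(u,v) then I(u,w) ⊆ I(u,v); if w in I(o,x), x in I(o,z) then x in I(w,z), etc. Points are
determined by uΔ(fixed point) (inj). (iso): from a to b there is a path through I(a,b).
T_MEET. First: for all r and all p, q in I(o,r) there is m in I(o,p) ∩ I(o,q) with every
w in I(o,p) ∩ I(o,q) in I(o,m). Induction on d(o,r). If p = r or q = r: m = q or p. Else choose
neighbours x1, y1 of r with x1 in I(r,p), y1 in I(r,q) (iso); they are lower neighbours of r w.r.t. o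
with p in I(o,x1), q in I(o,y1). If x1 = y1 use induction for x1. Else (cyc) gives a polygon with
x1, r, y1 and w0 in I(o,x1) ∩ I(o,y1), P = I(r,w0). Claim: each u in I(o,x1) ∩ I(o,y1) is in I(o,w0):
x1, y1 are lower neighbours of r w.r.t. u too; (cyc) with base u gives P' = I(r,m'), m' in I(u,x1),
P' = P by uniq, so m' = w0 (I(r,m') = I(r,w0), both in each other), w0 in I(u,x1), so u in I(o,w0)
[u in I(o,x1) and w0 in I(u,x1)]. Induction for x1: p ∧ w0 =: p'; for y1: q ∧ w0 =: q'; for w0:
p' ∧ q' =: m. m is in I(o,p), I(o,q); a common lower bound u of p, q is below x1, y1 so below w0, so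
below p', q', so below m. Now T is finite (x in T is determined by zΔx, a singleton in zΔo); finite
induction on T (all elements are in I(o,z)).
T_G. P nonempty, v. P is finite (P = I(a,a')). Choose p in P with d(v,p) maximal. P != {p}
(otherwise use `two`? note: if P = {p}, q = p works). Otherwise P contains a neighbour of p (iso and
P = I(p,p'), p' != p), and by `two` exactly two neighbours p1, p2 in P. d(v,pi) = d(v,p) +- 1, so
-1 by maximality: lower neighbours of p w.r.t. v. (cyc) base v: P' = I(p,m), m in I(v,p1) ∩ I(v,p2);
uniq: P' = P. q := m. For t in P: t = p: d(v,p) = 1 + d(v,p1) = 1 + d(v,q) + d(q,p1) = d(v,q)+d(q,p).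
t != p: the first step from p towards t inside I(p,t) ⊆ P is p1 or p2, say p1, so
d(p,t) = 1 + d(p1,t), and t in I(p,q), so d(p1,t) + d(t,q) = d(p1,q). d(v,t) <= d(v,q)+d(q,t) and
d(v,t) >= d(v,p1) - d(p1,t) = d(v,q) + d(q,p1) - d(p1,t) = d(v,q) + d(q,t).
T_LIFT. H* = oΔZ, H1 = ZΔz, disjoint. A* = I(o,Z). Say v in A* lifts if there is u with vΔu = H1.
Property L(v): v lifts and all neighbours of v in A* lift. L(Z) holds (Z lifts to z). Step: L(v)
implies L(v') for a neighbour v' of v in A*: v' lifts. Let v'' != v be a neighbour of v' in A*. The
antipode a of v' in A* (TAnt) satisfies I(v',a) = A* (v'Δa = H* = oΔZ, both in A*). v, v'' are lower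
neighbours of v' w.r.t. a: (cyc) polygon F = I(v',f) ⊆ A* containing v, v', v''. By `two` (at v, with
neighbour v') F contains another neighbour v3 != v' of v. Let φ0 be the antipode of v in F (anti):
F = I(v,φ0), HF := vΔφ0 ⊆ H*. Let u, u', u3 be the lifts of v, v', v3: uΔu' = vΔv', uΔu3 = vΔv3. They
are lower neighbours of u w.r.t. φ0 (φ0Δu = HF ⊔ H1). (cyc): polygon F' containing u', u, u3,
F' = I(u,m), m in I(φ0,u'). HF' := uΔm ⊆ φ0Δu = HF ⊔ H1. T_G for F' and v: the gate q of v in F';
q = u: otherwise the first step from u towards q inside I(u,q) ⊆ F' is one of the two neighbours u',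
u3 of u in F' (`two`), and it would be closer to v than u; but vΔu' = H1 ⊔ (vΔv') is bigger than
vΔu = H1. So d(v,m) = d(v,u) + d(u,m), i.e. H1 and HF' are disjoint, HF' ⊆ HF. Base m at v:
v' and v3 are lower neighbours of v w.r.t. m (mΔv = H1 ⊔ HF', vΔv' = uΔu' ⊆ HF'). (cyc) + uniq: the
polygon is F, with antipode φ0 in I(m,v'), so HF = vΔφ0 ⊆ vΔm = H1 ⊔ HF', so HF ⊆ HF'. So HF = HF'.
Finally v'' in F: let q be the gate of v'' in F' (T_G), q' the antipode of q in F' (anti; qΔq' = HF'
because I(q,q') = I(u,m)): d(v'',q') = d(v'',q) + d(q,q') so v''Δq is disjoint from HF' = HF. But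
v''Δq = (v''Δv)Δ(vΔu)Δ(uΔq) with v''Δv ⊆ HF, uΔq ⊆ HF', vΔu = H1: so v''Δq = H1 and v'' lifts.
A* is connected through neighbours (iso), so all its points lift, in particular o.
T_Y. Write zΔx = {h}. For v in LB(T \ {x}), v != o: v is in I(o,z) (T \ {x} is nonempty, its
elements are in I(o,z)); v not in I(o,x) (otherwise v in LB(T) = {o}); as oΔx = (oΔz) \ {h}: h in oΔv.
Choose q != o in LB(T \ {x}) and a neighbour y of o in I(o,q): y in LB(T \ {x}), y != o, so
oΔy = {h} = zΔx. The same construction for any other q gives the same y (inj).
T_N. IH: TMain for all smaller pairs. T nonempty set of lower neighbours of z with LB T = {o}.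
T is finite; let T0 ⊆ T be nonempty with LB T0 = {o} and with the least number of elements.
If T0 = {x}: I(o,x) = {o} so x = o, z is a neighbour of o, Low o z = {o} = T, and y = z works.
Else: for x in T0: T0 \ {x} is nonempty, LB(T0 \ {x}) != {o}; T_Y gives y_x with oΔy_x = zΔx,
y_x in LB(T0 \ {x}). T* = {y_x}: these are lower neighbours of o w.r.t. z. Z := their meet w.r.t. z
(T_MEET with base z). So Z in I(z,y_x) for all x.
Case Z != z. Z != o (o is not in I(z,y_x)). d(Z,o) < d(o,z) (Z in I(o,z)). The y_x are lower
neighbours of o w.r.t. Z, and Z is their meet w.r.t. Z. IH: TAnt Z o and Low Z o = T*. By symmetry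
TAnt o Z. Neighbours v of Z in I(o,Z): the antipode v' of v in I(o,Z) has oΔv' = Zv (as
vΔv' = oΔZ), so v' in Low Z o = T*: v' = y_x, ZΔv = oΔy_x = zΔx, so vΔx = ZΔz: hypothesis of T_LIFT.
(D φ v x = D φ Z z.) So there is p with oΔp = ZΔz. For x in T0: oΔp = ZΔz = (oΔz) \ (oΔZ) does not
contain the element of zΔx = oΔy_x ⊆ oΔZ, so oΔp ⊆ oΔx, p in LB T0 = {o}, so Z = z. Contradiction.
Case Z = z: LB_z(T*) = {z}. Let l in Low o z, l not in T0. For i in T0 put S_i = (T0 \ {i}) ∪ {l}.
If LB S_i != {o} for all i in T0: choose q_i != o in LB S_i ⊆ LB(T0 \ {i}); by T_Y (last clause)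
y_i in I(o,q_i) ⊆ I(o,l), so l in I(z,y_i) for all i, l in LB_z(T*) = {z}, contradiction. So some
LB S_i = {o}; choose T1 ⊆ S_i nonempty with LB T1 = {o} and least number of elements. l in T1
(otherwise T1 ⊆ T0 \ {i} and LB(T0 \ {i}) ⊆ LB T1 = {o}). T1 != {l} (otherwise l = o is a
neighbour of z, d(o,z) = 1, but T0 has two different elements, and a lower neighbour of z w.r.t. o is
then o). T_Y for T1 and l gives y_l with oΔy_l = zΔl. So every l in Low o z has y_l. If there
were l in Low o z \ T0: y_l in I(o,x) for all x in T0 (oΔy_l = {h_l}, oΔx = oΔz \ {h_x}, h_x != h_l),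
so y_l in LB T0 = {o}, contradiction (y_l != o). So Low o z = T0 = T.
T_PI. n = d(o,z), Π(z): LB_o(Low o z) = {o}. u in Low o z with antipode u' (uΔu' = oΔz). A = I(o,z)
= I(u,u'), d(u,u') = n; Low u' u = neighbours of u in A, it contains z. Suppose LB_u'(Low u' u) != {u'}
and let b' be the meet (T_MEET, base u') of Low u' u; b' != u'; b' != u as b' in I(u',z). So
d(b',u) < n. IH (TMain b' u with T = Low u' u, b = b'): TAnt b' u. Let D' = I(b',u) ⊆ A. It contains
Low u' u (b' in I(u',x) gives x in I(b',u)). Each w in Low o z lies in D': w = u clear. Else (cyc)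
base o at z with u, w: polygon P = I(z,m) ⊆ A containing u, z, w; by `two` at u (neighbour z) P
contains a neighbour a != z of u; a in A so a in Low u' u ⊆ D', z in Low u' u. (cyc) base b' at u with
z, a: polygon P' ⊆ I(u,b') = D' containing z, u, a; uniq: P' = P, so w in D'. Let m be the antipode
of z in D' (TAnt b' u): zΔm = b'Δu =: H', D' = I(z,m). For w in Low o z: w in D' so zΔw ⊆ H' = zΔm;
m in A. m in I(o,w): oΔm = (oΔz) \ H' ⊆ (oΔz) \ (zΔw) = oΔw. So m in LB_o(Low o z) = {o}, m = o, but
d(z,m) = d(b',u) < n, contradiction.
T_MAIN. Strong induction on n = d(o,z). T, b as in TMain. If b != o: T ⊆ Low b z, b in LB_b T, all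
w in LB_b T are in I(b,b) (w in I(b,x), b in I(o,x) gives w in I(o,x), so w in I(o,b), and b in I(o,w),
so w = b). d(b,z) < n, b != z. Use induction for (b,z). If b = o: LB_o T = {o}. T_N: Low o z = T and
antipodes. TAnt o z: call v in A = I(o,z) good if it has an antipode v' (vΔv' = oΔz; v' is in A), and
LB_v'(Low v' v) = {v'}. z is good. If v is good and u is a neighbour of v in A then u is a lower
neighbour of v w.r.t. v' (A = I(v,v')), by T_N for (v',v), T = Low v' v, there is y with v'Δy = vΔu;
then uΔy = (uΔv)Δ(vΔv')Δ(v'Δy) = vΔv' = oΔz, so y is the antipode of u; T_PI for (v',v) gives the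
second property. By connectivity (iso) all points of A are good.
S_THIN. T = Low o z is nonempty (iso); b = its meet (T_MEET); T_MAIN.

## ANT
W = the vertices of I(o,z) = Box co o z; φ(v) = {h | co o h != co v h} (a finite subset of
{h | co o h != co z h}); D φ u v = {h | co u h != co v h} because coordinates of points of the box
take only two values. Polygons: the ranges of ECCs contained in I(o,z). Check `Thin`: inj (BOX 1);
iso (BOX 5); anti (E2, intervals are boxes); two (neighbours of c i in the cycle are c(i-1), c(i+1));
cyc (CC; the cycle is I(z, c l) ⊆ I(o,z)); uniq (E4/share). S_THIN for the points o, z. Lower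
neighbours x of z w.r.t. o are in I(o,z).

## MOVE
A = Box v w (= I(v,w)), H = {h | co v h != co w h}, g in H. Let v2 be given by Ham.proj for the edge
v v' with target w: co v2 g = co w g, co v2 h = co v h else; v2 in A.
Claim 1: for p in A with co p g = co v g there are p_g (co p_g g = co w g, other coordinates as p) and
r_p (co r_p g = co v' g, others as p). Induction on d(v,p); p = v: v2, v'. Else let q in I(v,p) be a
neighbour of p with d(v,q) = d(v,p)-1; q in A, co q g = co v g; q_g, r_q exist. Let q' be the antipode
of q in A (Ant), A = Box q q'. p, q_g are neighbours of q in A, so lower w.r.t. base q': CC gives an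
ECC with c 0 = q, c 1 = p, c(-1) = q_g, c l in I(q',p) ∩ I(q',q_g). The edge q q_g has the third
common neighbour r_q (differs from both only in g), so by THICK l = 2. t = c 2: t ~ p, t ~ q_g.
t in I(q',q_g): co q' g = co w g = co q_g g so co t g = co w g. co p g = co v g != co w g, so t and
its neighbour p differ exactly in g: p_g = t. r_p: Ham.proj for the edge p p_g with target v'.
Let v2' be the antipode of v2 in A: co v2' g = co v g, co v2' h = co w h for h in H \ {g} (and all
coordinates agree outside H), i.e. v2' agrees with w except at g. w' := r_{v2'}: co w' g = co v' g,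
others as w. This is the second conclusion.
Claim 2: for u in Box v' w with co u g = co v' g there is p with co p g = co v g and other
coordinates as u; p in A. Induction on d(v',u). u = v': p = v. Else q1 in I(v',u) a neighbour of u
with d(v',q1) = d(v',u)-1: co q1 g = co v' g; by induction q in A with co q g = co v g, others as q1.
q ~ q1. u and q1 differ exactly in some g' != g, and co u g' = co w g' (co u g' != co q1 g' = co v' g').
Base β := v2': co β g = co v g = co q g, co β g' = co w g' = co u g'; so q and u are lower
neighbours of q1 w.r.t. β. CC: ECC with c 0 = q1, c 1 = q, c(-1) = u, t := c l in I(β,q) ∩ I(β,u). The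
edge q q1 has the third common neighbour q_g, so l = 2 and t ~ u, t ~ q. t in I(β,q): co t g = co v g.
So t differs from u exactly in g: p = t. p in Box v w.
Ant v' w: Let u in Box v' w. (a) co u g = co v' g: p from Claim 2, antipode p' of p in A has
co p' g = co w g, p' in Box v' w, and u, p' differ in all coordinates of H. (b) co u g = co w g (and
!= co v' g): u in A; antipode u' of u in A has co u' g = co v g; r_{u'} (Claim 1) has
co g = co v' g, is in Box v' w and differs from u in all coordinates of H. Note that v', w differ
exactly in the coordinates of H.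

## OPP
H = {h | co b h != co z h}; Sub = {v | co v h = co b h outside H}. (1) For each v in Sub there is w in
Sub with Ant v w and co v h != co w h for all h in H. Induction on d(b,v); v = b: w = z. Else let q in
I(b,v) be a neighbour of v, d(b,q) = d(b,v)-1, q in Sub, w for q. q, v differ exactly in g, g in H.
If co v g = co w g then v in Box q w; its antipode v' in it: Box v v' = Box q w, Ant v v'. Else MOVE
(v := q, v' := v) gives Ant v w. (2) Adjusting w: let x be a neighbour of v in Sub, differing from v
exactly in g (g in H). Claim: there is w1 with Ant v w1, co v h != co w1 h for h in H, w1 in Sub,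
co w1 g = co x g and co w1 h = co w h for h != g. If co w g = co x g: w1 = w. Else MOVE (for v, w, v' := x;
co x g != co w g) gives w' with co w' g = co x g, others as w. Ant w v (symmetric); MOVE for
(v := w, w := v, v' := w') (co w' g = co x g != co v g) gives Ant w' v, so Ant v w'. (3) x, y as in
OPP differ from v in different directions (otherwise x, y differ in at most one coordinate: adjacent
or equal). Adjust first for x then for y (the second adjustment does not change coordinate g_x).
Then x in Box v w: co x g_x = co w g_x, other coordinates as v.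

## SUBC
Polg: v, x, y in Sub, w from OPP: x, y are lower neighbours of v w.r.t. w (they are in Box v w =
I(v,w)), CC gives the ECC. Gated: GATE for Y = Sub: nonempty (b); connected: Sub is a box-closed set
(if u, v in Sub then I(u,v) = Box u v ⊆ Sub), so geodesics stay in Sub; triangles: u ~ v in Sub,
w ~ u, v: if u, v differ in g (in H) then w differs from u only in g (coordinates: if w differed
from u in another coordinate α only then co w g = co u g != co v g and co w α != co v α, two
differences); so w in Sub. Cycles: c(-1), c 0, c 1 in Sub: c 1, c(-1) are different and not adjacent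
(induced, eq_iff, l >= 2); OPP gives w in Sub; CC base w gives an ECC c' with the same three
vertices and c' l' in I(w, c 1), by E4 c' = c, and range c = I(c 0, c l) ⊆ I(c 0,w) ⊆ Sub (E2, BOX 4).

## CELL0
HAM, ANT: b. R = Sub co b z. z in R. Lower neighbours x of z: b in I(o,x), x in I(o,z) so x in I(b,z) =
Box ⊆ Sub. Distance: for v in R: the gate of o in R is b: the gate g0 lies in I(o,b) (gate property
for b in R) and differs from b only in directions separating b, z; but b in I(o,z) implies that the
directions separating o, b and b, z are disjoint (coordinates); so g0 = b. So d(o,v) = d(o,b) + d(b,v)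
<= d(o,b) + d(b,z) = d(o,z) (v differs from b only in directions separating b, z). Bounded: any two
points of R differ only in these directions: n = d(b,z).

## STAR
Suppose not C ⊆ E. C, E are convex and closed under triangles and ECCs (GP). There are v' in C ∩ E and
v1 in C \ E adjacent: take a geodesic from z to a point of C \ E (it stays in C) and the first
point outside E. Choose such a pair (v',v1) with d(z,v') = n minimal (or induct on n). n = 0 is
excluded by hypothesis. n >= 1: let d1 be a neighbour of v' with d(z,d1) = n-1; d1 in I(z,v') ⊆ C ∩ E.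
v1 != d1; v1 not~ d1 (otherwise v1 is a common neighbour of the edge v'd1 of E, so in E). Polg at v':
ECC c with c 0 = v', c 1 = d1, c(-1) = v1; contained in C. f = c 2 in C is adjacent to d1. If f in E
then c 0, c 1, c 2 in E so the cycle is in E (after a shift), v1 in E, contradiction. So (d1,f) is a
pair with smaller n. Contradiction.

## LF
S finite set of representatives. For s in S let A_s = {g | d(x, g s) <= n}. If g0 in A_s then for all
g in A_s: d(g0 s, (g g0^-1)(g0 s)) <= 2n, so finitely many g g0^-1. So A_s is finite and the ball is
contained in the union of the A_s s.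

## CSYS
R o z := the set of CELL0 (choice); finite because bounded and balls are finite. low: a lower
neighbour of z exists as o != z. max: C cell, z in C, d(o,v) <= d(o,z) on C. STAR with E = R o z: let
x in C, x ~ z. d(o,x) <= d(o,z). If d(o,x) = d(o,z)-1: x in R. If equal: TC gives w ~ x, z with
d(o,w) = d(o,z)-1, w in R, and x in R (closed under triangles, GP). sub: STAR with C = R o z, E = E: let
x in R, x ~ z, d(o,x) <= d(o,z). If smaller: x in I(o,z) ⊆ E. If equal: w as before is in I(o,z) ⊆ E
and x in E by triangles.

## BB, GLUE, UNION, CONEW, CONES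
GLUE. n = 0 part: K0 0 = univ and K0 is acyclic. Let c be supported on the union in length n+1 with
bd c = 0. Let c_i be the part of c supported on K i (n+1) \ K0 (n+1) (disjoint for different i, finitely
many nonzero), c_0 = c - sum c_i, supported on K0. bd c_i is supported on K i n. sum_i bd c_i =
- bd c_0 is supported on K0 n; the parts of the bd c_i outside K0 n live on disjoint sets K i n \ K0 n,
so each bd c_i is supported on K i n ∩ K0 n; it is a cycle there (BB; for n = 0 no condition), so
bd c_i = bd w_i with w_i supported on (K i ∩ K0) (n+1). c_i - w_i is a cycle supported on K i (n+1), so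
= bd e_i; c_0 + sum w_i is a cycle on K0 (n+1), so = bd e_0. c = bd(e_0 + sum e_i).
UNION: a chain has finite support.
CONEW. ω with π ω = M. h(τ) = (τ, ω) (append at the end). bd(h c) = h(bd c) + (-1)^(n+1) c for chains
of length n+1 (and bd(h c) = c in length 0). Appending ω to a ρ-chain in Q gives a ρ-chain.
CONES. π injective, ω as before. h(τ) = (τ, ω) if τ is empty or its last entry is != ω, h(τ) = 0 if
the last entry is ω. On strict chains (entries pairwise different): if the last entry is not ω:
bd h τ = h bd τ + (-1)^(n+1) τ (all faces of τ have last entry != ω, n+1 = length of τ). If the last entry is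
ω: h τ = 0 and h(bd τ) = (-1)^n τ (only the face omitting the last entry has last entry != ω). So in
both cases bd h τ - h bd τ = (-1)^(n+1) τ.

## ACYJ
Strong induction on j, for all E, o. Let Q(E,o,j) = {C | Cell C, C ⊆ E, d(o,v) <= j on C}.
j = 0: {o} is a cell, Q(E,o,0) = {{o}} (cells are nonempty); ConeProp with M = {o}.
j >= 1: index set ι = {R o z | z in E, d(o,z) = j} (sets), K_i = Tup of {C | Cell C, C ⊆ i},
K0 = Tup of Q(E,o,j-1). Tup Q(E,o,j) = K0 ∪ ⋃ K_i: if C in Q(E,o,j) is not in Q(E,o,j-1) it contains z
with d(o,z) = j, so C ⊆ R o z (max); conversely R o z ⊆ E (sub), and in the ball (ball). For tuples: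
ρ-chains have a largest set π(last entry), and both Q(E,o,j-1) and {C ⊆ i} are closed under smaller cells.
K_i ∩ K_j ⊆ K0 for i != j: i = R o z, j = R o z', C in both with y in C, d(o,y) = j: then
R o z ⊆ R o y (max for y: R o z is a cell containing y, in the ball of radius d(o,y)), R o y ⊆ R o z
(z in R o z ⊆ R o y, max for z), so R o z = R o y = R o z'. K_i acyclic: ConeProp with M = i.
K_i ∩ K0 = Tup of {C | Cell C, C ⊆ R o z, d(o,.) <= j-1 on C}; let r be the gate of o in R o z,
e = d(o,r) <= j-1 (low), d(o,v) = e + d(r,v) on R o z; so this is Tup Q(R o z, r, j-1-e), acyclic by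
induction. K0 acyclic by induction. GLUE.
ACY: V nonempty, E = univ is gated, UNION over j (cells are finite, so every tuple is in some ball).

## RES
P_n := chains on K (n+1) with the permutation action, a module over ℤ[G], free with basis a set of
orbit representatives (free action), finite. bd is equivariant and maps chains on K(n+2) to chains on
K(n+1); exactness is acyclicity together with BB. ε = coefficient of bd Ω 0 on the empty tuple.

## SCM
N: the ECCs of X have bounded length: up to G there are finitely many triples x, z, y of vertices
with x ~ z ~ y (LF and cocompactness), and an ECC is determined by three consecutive vertices (E4), G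
preserves ECCs. Take N >= 3 and >= 2l for all ECCs. Let lam be trivial on closed walks of length <= N.
(Walks x y x have length 2 so lam(y,x) = lam(x,y)^-1 for adjacent x, y.) Fix o; claim: for all v, all
geodesic walks from o to v have the same product P(v): induction on d(o,v), two geodesics ending with
x -> v and y -> v; x = y: induction; else ECC through x, v, y with antipode m: replace by geodesics
through m (P(x) = P(m) * product from m to x along the cycle, etc.) and the closed walk around
the cycle has trivial product. Then lam(x,y) = P(x)^-1 P(y) for all adjacent x, y: if d(o,y) =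
d(o,x)+1 clear, if equal: TC gives z and the triangle x y z. So closed walks have product 1.

## FPG
x0 vertex, r such that every vertex is at distance <= r from some g x0 (cocompact, connected). For each
vertex x choose τ(x) in G with d(x, τ(x) x0) <= r. Σ = {g | d(x0, g x0) <= 2r+1} finite.
Γ = free group on Σ modulo all words of length <= N' (in the letters and inverses) which are trivial in
G, N' = max(N, 2r+4) (finitely many). lam(x,y) = class of the letter τ(x)^-1 τ(y) for adjacent x, y
(in Σ; any value otherwise, e.g. 1). Closed walks of length <= N have trivial product (the letters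
multiply to 1 in G by telescoping). So all closed walks do (SC). Let w = g_1 ... g_k be a word in Σ
(letters or inverses; Σ is symmetric and the letter g^-1 is the inverse of the letter g in Γ because
g g^-1 is a relator of length 2) which is trivial in G. Consider the closed walk through
x0, g_1 x0, g_1 g_2 x0, ..., consecutive ones joined by geodesics of length <= 2r+1. For a geodesic from
a x0 to a g x0 (g in Σ) the product of the labels equals s(τ(a x0)^-1 a) s_g s(τ(a g x0)^-1 a g)^-1 in Γ,
because this is a relation of length <= 2r+1+3 between letters (all in Σ, displacement <= 2r+1) which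
holds in G. So the product over the closed walk is conjugate to the class of w. So w = 1 in Γ.
Hence Γ -> G is injective; it is surjective because Σ generates G (walk from x0 to g x0, use τ).

## CFIN, CINV
CFIN. By STAR a cell C containing v is determined by the set of neighbours of v in C (two cells with the
same set contain each other), a subset of a finite set. CINV: transport.

## FINW
S finite set of representatives of the vertices, I = {C | Cell C, C ∩ S nonempty} finite (CFIN).
Ω = G × I, π(g,C) = g • C (image), ρ = ⊆ between images, G acts on the first factor. Every cell is some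
π ω (a cell contains a vertex g s, then g^-1 C in I, CINV). ACY + CONEW + CSYS + LF: Tup π ρ cells is
acyclic. Free action clear (n+1 >= 1 entries). Finitely many orbits: representatives with first entry (1,C0);
the other entries (g,C) satisfy C0 ⊆ g C: v in C0, g^-1 v in C finite, finitely many g. RES.

## FINS
G torsion-free: Ω = {C // Cell C}, ρ = strict inclusion, CONES. G acts on cells; g C = C implies that g
permutes the finite set C, so a power g^k (k >= 1) fixes a vertex, stabilizers are finite (proper, r = 0), so
g has finite order, g = 1; so the action on tuples of length >= 1 is free. Finitely many orbits (first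
entry in I, others contain a given vertex of it: CFIN). Strict chains have bounded length: a strict chain of
length n+1 consists of n+1 different cells containing a common vertex g s; the number of cells containing s
in S is bounded. So K (n+1) = ∅ for large n. RES.
-/
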