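import Pool.Agent.H341.MA.St3

/-!
# Mediangle graphs: coarse simple connectivity (SCM)
-/

set_option autoImplicit false

namespace Pool.Agent.H341.MA

universe u v

open SimpleGraph

section walks

variable {V : Type u} {Γ : Type v} [Group Γ] {X : SimpleGraph V} (lam : V → V → Γ)

private theorem scm_nil (x : V) : wprod lam (Walk.nil : X.Walk x x) = 1 := by
  simp [wprod]

private theorem scm_cons {x y z : V} (h : X.Adj x y) (p : X.Walk y z) :
    wprod lam (Walk.cons h p) = lam x y * wprod lam p := by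
  simp [wprod]

private theorem scm_concat {x y z : V} (p : X.Walk x y) (h : X.Adj y z) :
    wprod lam (p.concat h) = wprod lam p * lam y z := by
  simp [wprod, Walk.darts_concat]

private theorem scm_copy {x y x' y' : V} (p : X.Walk x y) (hx : x = x') (hy : y = y') :
    wprod lam (p.copy hx hy) = wprod lam p := by
  subst hx; subst hy; rfl

/-- products along a sequence -/
private def scmF (b : ℕ → V) : ℕ → Γ
  | 0 => 1
  | k + 1 => scmF b k * lam (b k) (b (k + 1))

private theorem scm_walk (b : ℕ → V) (hb : ∀ i, X.Adj (b i) (b (i + 1))) (k : ℕ) :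
    ∃ p : X.Walk (b 0) (b k), p.length = k ∧ wprod lam p = scmF lam b k := by
  induction k with
  | zero => exact ⟨Walk.nil, rfl, scm_nil lam _⟩
  | succ k ih =>
    obtain ⟨p, hp, hw⟩ := ih
    exact ⟨p.concat (hb k), by rw [Walk.length_concat, hp], by rw [scm_concat, hw]; rfl⟩

end walks

section group

variable {V : Type u} {X : SimpleGraph V} {G : Type v} [Group G] [MulAction G V]

private theorem scm_dist_le (hc : X.Connected) (hG : GeometricAction X G) (g : G) (x y : V) :
    X.dist (g • x) (g • y) ≤ X.dist x y := by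
  obtain ⟨p, hp⟩ := hc.exists_walk_length_eq_dist x y
  let f : X →g X := ⟨fun z => g • z, fun {a b} h => hG.adj_smul g a b h⟩
  have h1 := dist_le (p.map f)
  rw [Walk.length_map, hp] at h1
  exact h1

private theorem scm_dist (hc : X.Connected) (hG : GeometricAction X G) (g : G) (x y : V) :
    X.dist (g • x) (g • y) = X.dist x y := by
  apply le_antisymm (scm_dist_le hc hG g x y)
  have h := scm_dist_le hc hG g⁻¹ (g • x) (g • y)
  rwa [inv_smul_smul, inv_smul_smul] at h

private theorem scm_adj (hG : GeometricAction X G) (g : G) (x y : V)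
    (h : X.Adj (g • x) (g • y)) : X.Adj x y := by
  have := hG.adj_smul g⁻¹ _ _ h
  rwa [inv_smul_smul, inv_smul_smul] at this

private theorem scm_smul (hc : X.Connected) (hG : GeometricAction X G) (g : G) {l : ℕ}
    {c : ℤ → V} (h : EvenConvexCycle X l c) : EvenConvexCycle X l (fun i => g • c i) where
  two_le := h.two_le
  eq_iff i j := by
    rw [← h.eq_iff i j]
    exact ⟨fun e => MulAction.injective g e, fun e => by simp only [e]⟩
  adj i := hG.adj_smul g _ _ (h.adj i)
  induced i j hij := h.induced i j (scm_adj hG g _ _ hij)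
  convex i j w hw := by
    have h1 : g⁻¹ • w ∈ Itv X (c i) (c j) := by
      have h2 : X.dist (g • c i) (g • c j) = X.dist (g • c i) w + X.dist w (g • c j) := hw
      have h3 := scm_dist hc hG g (c i) (g⁻¹ • w)
      have h4 := scm_dist hc hG g (g⁻¹ • w) (c j)
      rw [smul_inv_smul] at h3 h4
      rw [scm_dist hc hG, h3, h4] at h2
      exact h2
    obtain ⟨k, hk⟩ := h.convex i j h1
    exact ⟨k, by show g • c k = w; rw [hk, smul_inv_smul]⟩

/-- the lengths of the even convex cycles are bounded -/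
private theorem scm_bound (h4 : S_E4.{u}) (hl : S_LF.{u, v}) (hX : Mediangle X)
    (hG : GeometricAction X G) : ∃ M : ℕ, ∀ (l : ℕ) (c : ℤ → V), EvenConvexCycle X l c → l ≤ M := by
  obtain ⟨S, hS, hSG⟩ := hG.cocompact
  have hfin : (⋃ s ∈ S, ⋃ x ∈ {y | X.dist s y ≤ 1}, ⋃ y ∈ {y | X.dist s y ≤ 1},
      {l : ℕ | ∃ c, EvenConvexCycle X l c ∧ c 0 = s ∧ c 1 = x ∧ c (-1) = y}).Finite := by
    refine hS.biUnion fun s _ => (hl V X G hX.connected hG s 1).biUnion fun x _ =>
      (hl V X G hX.connected hG s 1).biUnion fun y _ => ?_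
    apply Set.Subsingleton.finite
    rintro l ⟨c, hc, c0, c1, c2⟩ l' ⟨c', hc', c0', c1', c2'⟩
    exact (h4 V X hX l l' c c' hc hc' (c0.trans c0'.symm) (c1.trans c1'.symm)
      (c2.trans c2'.symm)).1
  obtain ⟨M, hM⟩ := hfin.bddAbove
  refine ⟨M, fun l c hc => hM ?_⟩
  obtain ⟨g, s, hs, hgs⟩ := hSG (c 0)
  have hc' := scm_smul hX.connected hG g⁻¹ hc
  have e0 : g⁻¹ • c 0 = s := by rw [← hgs, inv_smul_smul]
  have a1 := hc'.adj 0
  have a2 := hc'.adj (-1)
  simp only [zero_add, neg_add_cancel] at a1 a2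
  rw [e0] at a1 a2
  simp only [Set.mem_iUnion]
  exact ⟨s, hs, g⁻¹ • c 1, (dist_eq_one_iff_adj.2 a1).le, g⁻¹ • c (-1),
    (dist_eq_one_iff_adj.2 a2.symm).le, fun i => g⁻¹ • c i, hc', e0, rfl, rfl⟩

end group

section potential

variable {V : Type u} {Γ : Type v} [Group Γ] {X : SimpleGraph V} (lam : V → V → Γ)

/-- the potential, defined by recursion on the distance -/
private def scmP (par : V → V) : ℕ → V → Γ
  | 0, _ => 1
  | n + 1, v => scmP par n (par v) * lam (par v) v

/-- Lower neighbours. -/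
private theorem scm_low (h1 : S_E1.{u}) (hX : Mediangle X) (N : ℕ) (h3N : 3 ≤ N)
    (hN : ∀ (l : ℕ) (c : ℤ → V), EvenConvexCycle X l c → 2 * l ≤ N)
    (hlam : ∀ (x : V) (p : X.Walk x x), p.length ≤ N → wprod lam p = 1) (o : V)
    (P : V → Γ)
    (hP : ∀ v, v ≠ o → ∃ x, X.Adj v x ∧ X.dist o x + 1 = X.dist o v ∧ P v = P x * lam x v) :
    ∀ (n : ℕ) (v x : V), X.dist o v = n → X.Adj v x → X.dist o x + 1 = X.dist o v →
      P v = P x * lam x v := by
  have hinv : ∀ x y, X.Adj x y → lam x y * lam y x = 1 := by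
    intro x y h
    have := hlam x (Walk.cons h (Walk.cons h.symm Walk.nil)) (by simp; omega)
    rwa [scm_cons, scm_cons, scm_nil, mul_one] at this
  intro n
  induction n using Nat.strong_induction_on with
  | _ n IH =>
  intro v y hv hvy hy
  have hvo : v ≠ o := by
    rintro rfl
    simp at hy
  obtain ⟨x, hvx, hx, hPv⟩ := hP v hvo
  rcases eq_or_ne x y with rfl | hxy
  · exact hPv
  obtain ⟨l, c, hc, c0, c1, c2, m1, m2⟩ := hX.cycle o x y v hxy hvx hvy hx hy
  have h2l := hc.two_le
  have hper : c (2 * (l : ℤ)) = c 0 := (hc.eq_iff _ _).2 ⟨1, by ring⟩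
  have hper' : c (2 * (l : ℤ) - 1) = c (-1) := (hc.eq_iff _ _).2 ⟨1, by ring⟩
  have hE : ∀ (i : ℤ) (k : ℕ), k ≤ l → X.dist (c i) (c (i + k)) = k :=
    h1 V X hX.connected l c hc
  -- the distance of the antipode
  have hm : X.dist o (c l) + l = n := by
    have e1 : X.dist o x = X.dist o (c l) + X.dist (c l) x := m1
    have e2 := hE 1 (l - 1) (by omega)
    have e3 : (1 : ℤ) + ((l - 1 : ℕ) : ℤ) = l := by omega
    rw [e3, c1, dist_comm] at e2
    omega
  -- distances on the first half
  have hd1 : ∀ i : ℕ, i ≤ l → X.dist o (c i) + i = n := by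
    intro i hi
    have e1 := hE i (l - i) (by omega)
    have e3 : (i : ℤ) + ((l - i : ℕ) : ℤ) = l := by omega
    rw [e3, dist_comm] at e1
    have e2 := hE 0 i hi
    rw [zero_add, c0, dist_comm] at e2
    have t1 := hX.connected.dist_triangle (u := o) (v := c l) (w := c i)
    have t2 := hX.connected.dist_triangle (u := o) (v := c i) (w := v)
    omega
  -- distances on the second half
  have hd2 : ∀ i : ℕ, i ≤ l → X.dist o (c (l + i : ℕ)) + l = n + i := by
    intro i hi
    have e1 := hE l i hi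
    have e2 := hE (l + i) (l - i) (by omega)
    have e3 : (l : ℤ) + i + ((l - i : ℕ) : ℤ) = 2 * l := by omega
    rw [e3, hper, c0] at e2
    have t1 := hX.connected.dist_triangle (u := o) (v := c l) (w := c (l + i))
    have t2 := hX.connected.dist_triangle (u := o) (v := c (l + i)) (w := v)
    push_cast
    omega
  -- the products along the cycle
  let b : ℕ → V := fun i => c (i : ℤ)
  have hb : ∀ i, X.Adj (b i) (b (i + 1)) := by
    intro i
    have := hc.adj (i : ℤ)
    show X.Adj (c (i : ℤ)) (c ((i + 1 : ℕ) : ℤ))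
    push_cast
    exact this
  have hstep : ∀ i : ℕ, 1 ≤ i → i + 1 < 2 * l → P (b (i + 1)) = P (b i) * lam (b i) (b (i + 1)) := by
    intro i hi1 hi2
    rcases lt_or_ge i l with hil | hil
    · -- going down
      have a1 := hd1 i hil.le
      have a2 := hd1 (i + 1) (by omega)
      have a3 := IH (X.dist o (b i)) (by show X.dist o (c (i : ℤ)) < n; omega) (b i) (b (i + 1)) rfl (hb i)
        (by show X.dist o (c ((i + 1 : ℕ) : ℤ)) + 1 = X.dist o (c (i : ℤ)); omega)
      rw [a3, mul_assoc, hinv _ _ (hb i).symm, mul_one]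
    · -- going up
      obtain ⟨j, rfl⟩ := Nat.exists_eq_add_of_le hil
      have a1 := hd2 j (by omega)
      have a2 := hd2 (j + 1) (by omega)
      have a3 := IH (X.dist o (b (l + j + 1)))
        (by show X.dist o (c ((l + (j + 1) : ℕ) : ℤ)) < n; omega)
        (b (l + j + 1)) (b (l + j)) rfl (hb _).symm
        (by show X.dist o (c ((l + j : ℕ) : ℤ)) + 1 = X.dist o (c ((l + (j + 1) : ℕ) : ℤ)); omega)
      exact a3
  have hsum : ∀ i : ℕ, i + 1 < 2 * l → P (b (i + 1)) = P (b 1) * (lam (b 0) (b 1))⁻¹ * scmF lam b (i + 1) := by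
    intro i
    induction i with
    | zero =>
      intro _
      show P (b 1) = P (b 1) * (lam (b 0) (b 1))⁻¹ * (1 * lam (b 0) (b 1))
      rw [one_mul, inv_mul_cancel_right]
    | succ i ih =>
      intro hi
      rw [hstep (i + 1) (by omega) hi, ih (by omega)]
      show _ = _ * (scmF lam b (i + 1) * lam (b (i + 1)) (b (i + 1 + 1)))
      simp only [mul_assoc]
  obtain ⟨k, hk⟩ : ∃ k, 2 * l = k + 1 + 1 := ⟨2 * l - 2, by omega⟩
  have hclosed : scmF lam b (2 * l) = 1 := by
    obtain ⟨p, hp, hw⟩ := scm_walk lam b hb (2 * l)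
    have hend : b (2 * l) = b 0 := by
      show c ((2 * l : ℕ) : ℤ) = c ((0 : ℕ) : ℤ)
      push_cast
      exact hper
    have := hlam (b 0) (p.copy rfl hend) (by rw [Walk.length_copy, hp]; exact hN l c hc)
    rwa [scm_copy, hw] at this
  have hb0 : b 0 = v := c0
  have hb1 : b 1 = x := c1
  have hbk : b (k + 1) = y := by
    rw [← c2, ← hper']
    show c ((k + 1 : ℕ) : ℤ) = c (2 * (l : ℤ) - 1)
    have : ((k + 1 : ℕ) : ℤ) = 2 * (l : ℤ) - 1 := by omega
    rw [this]
  have hbk2 : b (k + 1 + 1) = v := by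
    rw [← c0, ← hper]
    show c ((k + 1 + 1 : ℕ) : ℤ) = c (2 * (l : ℤ))
    have : ((k + 1 + 1 : ℕ) : ℤ) = 2 * (l : ℤ) := by omega
    rw [this]
  have hlast := hsum k (by omega)
  rw [hk] at hclosed
  have hF : scmF lam b (k + 1) * lam (b (k + 1)) (b (k + 1 + 1)) = 1 := hclosed
  rw [hbk, hbk2] at hF
  rw [hbk, hb1, hb0] at hlast
  rw [hPv, hlast]
  simp only [mul_assoc]
  rw [hF, mul_one]
  congr 1
  exact eq_inv_of_mul_eq_one_left (hinv x v hvx.symm)

private theorem scm_edge (h1 : S_E1.{u}) (hX : Mediangle X) (N : ℕ) (h3N : 3 ≤ N)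
    (hN : ∀ (l : ℕ) (c : ℤ → V), EvenConvexCycle X l c → 2 * l ≤ N)
    (hlam : ∀ (x : V) (p : X.Walk x x), p.length ≤ N → wprod lam p = 1) (o : V) :
    ∃ P : V → Γ, ∀ x y, X.Adj x y → P x * lam x y = P y := by
  classical
  have hpar : ∀ v, ∃ x, v ≠ o → X.Adj v x ∧ X.dist o x + 1 = X.dist o v := by
    intro v
    by_cases hv : v = o
    · exact ⟨o, fun h => absurd hv h⟩
    · obtain ⟨p, hp⟩ := hX.connected.exists_walk_length_eq_dist v o
      cases p with
      | nil => exact absurd rfl hv
      | cons h q =>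
        rename_i x
        refine ⟨x, fun _ => ⟨h, ?_⟩⟩
        rw [Walk.length_cons] at hp
        have a1 := dist_le q
        have a2 := hX.connected.dist_triangle (u := v) (v := x) (w := o)
        have a3 := dist_eq_one_iff_adj.2 h
        rw [dist_comm (u := o) (v := x), dist_comm (u := o) (v := v)]
        omega
  choose par hpar using hpar
  let P : V → Γ := fun v => scmP lam par (X.dist o v) v
  have hP : ∀ v, v ≠ o → ∃ x, X.Adj v x ∧ X.dist o x + 1 = X.dist o v ∧ P v = P x * lam x v := by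
    intro v hv
    obtain ⟨a1, a2⟩ := hpar v hv
    refine ⟨par v, a1, a2, ?_⟩
    show scmP lam par (X.dist o v) v = scmP lam par (X.dist o (par v)) (par v) * lam (par v) v
    rw [← a2]
    rfl
  have hlow := scm_low lam h1 hX N h3N hN hlam o P hP
  have hinv : ∀ x y, X.Adj x y → lam x y * lam y x = 1 := by
    intro x y h
    have := hlam x (Walk.cons h (Walk.cons h.symm Walk.nil)) (by simp; omega)
    rwa [scm_cons, scm_cons, scm_nil, mul_one] at this
  refine ⟨P, fun x y hxy => ?_⟩
  have hd1 := dist_eq_one_iff_adj.2 hxy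
  have t1 := hX.connected.dist_triangle (u := o) (v := x) (w := y)
  have t2 := hX.connected.dist_triangle (u := o) (v := y) (w := x)
  rw [dist_comm (u := y) (v := x)] at t2
  rcases lt_trichotomy (X.dist o x) (X.dist o y) with h | h | h
  · exact (hlow _ y x rfl hxy.symm (by omega)).symm
  · obtain ⟨z, hzx, hzy, z1, z2⟩ := hX.triangle o x y h hxy
    have e1 : X.dist o x = X.dist o z + X.dist z x := z1
    have e2 : X.dist o y = X.dist o z + X.dist z y := z2
    rw [dist_eq_one_iff_adj.2 hzx] at e1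
    rw [dist_eq_one_iff_adj.2 hzy] at e2
    have p1 := hlow _ x z rfl hzx.symm e1.symm
    have p2 := hlow _ y z rfl hzy.symm e2.symm
    have tri := hlam z (Walk.cons hzx (Walk.cons hxy (Walk.cons hzy.symm Walk.nil))) (by simp; omega)
    rw [scm_cons, scm_cons, scm_cons, scm_nil, mul_one] at tri
    have i1 := hinv z y hzy
    rw [p1, p2, mul_assoc]
    congr 1
    have i2 : lam z x * lam x y = (lam y z)⁻¹ := by
      apply eq_inv_of_mul_eq_one_left
      rw [mul_assoc]; exact tri
    rw [i2]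
    exact (eq_inv_of_mul_eq_one_left i1).symm
  · have p1 := hlow _ x y rfl hxy (by omega)
    rw [p1, mul_assoc, hinv y x hxy.symm, mul_one]

end potential

/-- SCM. Mediangle graphs with a geometric action are coarsely simply connected. -/
theorem s_scm (h1 : S_E1.{u}) (_h2 : S_E2.{u}) (_h3 : S_E3.{u}) (h4 : S_E4.{u})
    (hl : S_LF.{u, v}) : S_SCM.{u, v} := by
  intro V X G _ _ hX hG
  obtain ⟨M, hM⟩ := scm_bound h4 hl hX hG
  refine ⟨2 * M + 3, ?_⟩
  intro Γ _ lam hlam x p
  obtain ⟨P, hP⟩ := scm_edge lam h1 hX (2 * M + 3) (by omega)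
    (fun l c hc => by have := hM l c hc; omega) hlam x
  have key : ∀ {a b : V} (q : X.Walk a b), P a * wprod lam q = P b := by
    intro a b q
    induction q with
    | nil => rw [scm_nil, mul_one]
    | cons h q ih => rw [scm_cons, ← mul_assoc, hP _ _ h, ih]
  have := key p
  exact mul_eq_left.1 this

end Pool.Agent.H341.MA
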