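import Pool.Agent.H341.MA.Defs

/-!
# Mediangle graphs: statements, part 1 (metric structure, Hamming coordinates)
-/

set_option autoImplicit false

namespace Pool.Agent.H341.MA

universe u v

open SimpleGraph

/-- gated sets (nonempty as soon as `V` is) -/
def Gated {V : Type u} (X : SimpleGraph V) (Y : Set V) : Prop :=
  ∀ x : V, ∃ y ∈ Y, ∀ y' ∈ Y, X.dist x y' = X.dist x y + X.dist y y'

/-- the maximal clique through an edge `xy` (for graphs without induced `K_4^-`) -/
def Clq {V : Type u} (X : SimpleGraph V) (x y : V) : Set V :=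
  {w | w = x ∨ w = y ∨ (X.Adj w x ∧ X.Adj w y)}

/-- the partition of `V` into the sectors of the clique `Clq X x y`
(two vertices are equivalent iff they have the same gate in the clique) -/
def cls {V : Type u} (X : SimpleGraph V) (x y : V) : Setoid V where
  r u v := ∀ w ∈ Clq X x y, ∀ w' ∈ Clq X x y, X.dist u w < X.dist u w' ↔ X.dist v w < X.dist v w'
  iseqv := ⟨fun _ _ _ _ _ => Iff.rfl, fun h w hw w' hw' => (h w hw w' hw').symm,
    fun h h' w hw w' hw' => (h w hw w' hw').trans (h' w hw w' hw')⟩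

/-! ## Even convex cycles -/

/-- E1. Distances along an even convex cycle. -/
def S_E1 : Prop := ∀ (V : Type u) (X : SimpleGraph V), X.Connected → ∀ (l : ℕ) (c : ℤ → V),
  EvenConvexCycle X l c → ∀ (i : ℤ) (k : ℕ), k ≤ l → X.dist (c i) (c (i + k)) = k

/-- E2. An even convex cycle is the interval between any two opposite vertices. -/
def S_E2 : Prop := ∀ (V : Type u) (X : SimpleGraph V), X.Connected → ∀ (l : ℕ) (c : ℤ → V),
  EvenConvexCycle X l c → ∀ i : ℤ, Itv X (c i) (c (i + l)) = Set.range c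

/-- E3. Shifts and reflections. -/
def S_E3 : Prop := ∀ (V : Type u) (X : SimpleGraph V) (l : ℕ) (c : ℤ → V),
  EvenConvexCycle X l c → ∀ a : ℤ, EvenConvexCycle X l (fun i => c (i + a)) ∧
    EvenConvexCycle X l (fun i => c (a - i))

/-- E4. An even convex cycle of a mediangle graph is determined by three consecutive vertices. -/
def S_E4 : Prop := ∀ (V : Type u) (X : SimpleGraph V), Mediangle X →
  ∀ (l l' : ℕ) (c c' : ℤ → V), EvenConvexCycle X l c → EvenConvexCycle X l' c' →
    c 0 = c' 0 → c 1 = c' 1 → c (-1) = c' (-1) → l = l' ∧ c = c'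

/-! ## Gates -/

/-- GATE. Local-to-global principle for gated sets. -/
def S_GATE : Prop := ∀ (V : Type u) (X : SimpleGraph V), Mediangle X → ∀ Y : Set V, Y.Nonempty →
  (X.induce Y).Preconnected →
  (∀ u ∈ Y, ∀ v ∈ Y, ∀ w, X.Adj u v → X.Adj w u → X.Adj w v → w ∈ Y) →
  (∀ (l : ℕ) (c : ℤ → V), EvenConvexCycle X l c → c (-1) ∈ Y → c 0 ∈ Y → c 1 ∈ Y →
    Set.range c ⊆ Y) → Gated X Y

/-- GP. Gated sets are convex, closed under triangles and under even convex cycles. -/
def S_GP : Prop := ∀ (V : Type u) (X : SimpleGraph V), X.Connected → ∀ Y : Set V, Gated X Y →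
  (∀ u ∈ Y, ∀ v ∈ Y, Itv X u v ⊆ Y) ∧
  (∀ u ∈ Y, ∀ v ∈ Y, ∀ w, X.Adj u v → X.Adj w u → X.Adj w v → w ∈ Y) ∧
  (∀ (l : ℕ) (c : ℤ → V), EvenConvexCycle X l c → c (-1) ∈ Y → c 0 ∈ Y → c 1 ∈ Y →
    Set.range c ⊆ Y)

/-- CLQ. Cliques: pairwise adjacent, determined by any of their edges, gated. -/
def S_CLQ : Prop := ∀ (V : Type u) (X : SimpleGraph V), Mediangle X → ∀ x y : V, X.Adj x y →
  (∀ u ∈ Clq X x y, ∀ v ∈ Clq X x y, u ≠ v → X.Adj u v ∧ Clq X u v = Clq X x y) ∧
  (∀ v : V, ∃ g ∈ Clq X x y, ∀ u ∈ Clq X x y, u ≠ g → X.dist v u = X.dist v g + 1)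

/-- SQ. Two non-adjacent vertices `u, w` with two non-adjacent common neighbours `v, t`:
`u v w t` is an even convex cycle and `u, w` have no further common neighbour. -/
def S_SQ : Prop := ∀ (V : Type u) (X : SimpleGraph V), Mediangle X → ∀ u v w t : V, u ≠ w →
  ¬ X.Adj u w → v ≠ t → ¬ X.Adj v t → X.Adj u v → X.Adj v w → X.Adj w t → X.Adj t u →
  (∃ c : ℤ → V, EvenConvexCycle X 2 c ∧ c 0 = u ∧ c 1 = v ∧ c 2 = w ∧ c 3 = t) ∧
  ∀ y, X.Adj y u → X.Adj y w → y = v ∨ y = t

/-- THICK. An even convex cycle with an edge in a triangle is a square. -/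
def S_THICK : Prop := ∀ (V : Type u) (X : SimpleGraph V), Mediangle X → ∀ (l : ℕ) (c : ℤ → V),
  EvenConvexCycle X l c → ∀ x, X.Adj x (c 0) → X.Adj x (c 1) → l = 2

/-! ## Opposite edges of even convex cycles define the same sectors -/

/-- WSQ. The case of squares. -/
def S_WSQ : Prop := ∀ (V : Type u) (X : SimpleGraph V), Mediangle X → ∀ v x y x' y' : V,
  X.Adj x y → X.Adj y y' → X.Adj y' x' → X.Adj x' x → x ≠ y' → ¬ X.Adj x y' → y ≠ x' →
  ¬ X.Adj y x' → X.dist v x < X.dist v y → X.dist v x' < X.dist v y'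

/-- W. Opposite edges have the same half-spaces. -/
def S_W : Prop := ∀ (V : Type u) (X : SimpleGraph V), Mediangle X → ∀ (l : ℕ) (c : ℤ → V),
  EvenConvexCycle X l c → ∀ v : V,
    X.dist v (c 0) < X.dist v (c 1) ↔ X.dist v (c (l + 1)) < X.dist v (c l)

/-- PP. Opposite edges define the same partition into sectors. -/
def S_PP : Prop := ∀ (V : Type u) (X : SimpleGraph V), Mediangle X → ∀ (l : ℕ) (c : ℤ → V),
  EvenConvexCycle X l c → cls X (c 0) (c 1) = cls X (c (l + 1)) (c l)

/-- PAR. If the clique of `x'y'` separates the ends of the edge `xy`, both edges define the same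
partition. -/
def S_PAR : Prop := ∀ (V : Type u) (X : SimpleGraph V), Mediangle X → ∀ x y x' y' : V,
  X.Adj x y → X.Adj x' y' → ¬ (cls X x' y') x y → cls X x y = cls X x' y'

/-- Hamming coordinates: `co v h` is the coordinate of the vertex `v` in direction `h`. -/
structure Ham {V : Type u} (X : SimpleGraph V) {η σ : Type u} (co : V → η → σ) : Prop where
  fin : ∀ u v : V, {h | co u h ≠ co v h}.Finite
  card : ∀ u v : V, {h | co u h ≠ co v h}.ncard = X.dist u v
  proj : ∀ x y p : V, X.Adj x y → ∀ g : η, co x g ≠ co y g →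
    ∃ w, co w g = co p g ∧ ∀ h, h ≠ g → co w h = co x h

/-- HAM. Every mediangle graph has Hamming coordinates. -/
def S_HAM : Prop := ∀ (V : Type u) (X : SimpleGraph V), Mediangle X →
  ∃ (η σ : Type u) (co : V → η → σ), Ham X co

/-- the box spanned by two vertices: all vertices whose coordinates are taken from the two -/
def Box {V η σ : Type u} (co : V → η → σ) (b z : V) : Set V :=
  {v | ∀ h, co v h = co b h ∨ co v h = co z h}

/-- BOX. Basic consequences of Hamming coordinates: vertices are determined by their coordinates,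
intervals are boxes, adjacency means that exactly one coordinate differs, boxes are convex,
moving inside an interval one coordinate at a time. -/
def S_BOX : Prop := ∀ (V : Type u) (X : SimpleGraph V) (η σ : Type u) (co : V → η → σ),
  X.Connected → Ham X co →
  (∀ u v : V, (∀ h, co u h = co v h) → u = v) ∧
  (∀ u v : V, Itv X u v = Box co u v) ∧
  (∀ u v : V, X.Adj u v ↔ ∃ g, co u g ≠ co v g ∧ ∀ h, h ≠ g → co u h = co v h) ∧
  (∀ o z u v : V, u ∈ Itv X o z → v ∈ Itv X o z → Itv X u v ⊆ Itv X o z) ∧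
  (∀ u v : V, u ≠ v → ∃ w, X.Adj u w ∧ w ∈ Itv X u v ∧ X.dist u v = X.dist w v + 1)

/-- `b, z` is an antipodal pair: every vertex of the box spanned by `b, z` has an antipode in it. -/
def Ant {V η σ : Type u} (co : V → η → σ) (b z : V) : Prop :=
  ∀ v ∈ Box co b z, ∃ v' ∈ Box co b z, ∀ h, co b h ≠ co z h → co v h ≠ co v' h

end Pool.Agent.H341.MA
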