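import Pool.Agent.H341.MA.St2

/-! T_Y: atoms in thin systems (written by helper358). -/

set_option autoImplicit false

namespace Pool.Agent.H341.MA

universe u v

theorem t_y : T_Y.{u} := by
  intro W η _ φ Pol hT o z T hTL hLB x hx hne hLBx
  obtain ⟨x', hx'⟩ := hne
  have hxL := hTL hx
  have hx'L := hTL hx'.1
  obtain ⟨h, hh⟩ := Finset.card_eq_one.1 hxL.1
  have memD : ∀ a b e, e ∈ D φ a b ↔ ((e ∈ φ a ∧ e ∉ φ b) ∨ (e ∈ φ b ∧ e ∉ φ a)) :=
    fun a b e => Finset.mem_symmDiff
  have key : ∀ v ∈ LB φ o (T \ {x}), v ≠ o → h ∈ D φ o v := by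
    intro v hv hvo
    by_contra hcon
    have h0 : v ∈ LB φ o T := by
      intro t ht
      by_cases htx : t = x
      · rw [htx]
        intro e he
        have h1 : e ∈ D φ o x' := hv x' hx' he
        have h2 : e ≠ h := fun q => hcon (q ▸ he)
        have h3 : e ∉ D φ z x := by
          rw [hh, Finset.mem_singleton]
          exact h2
        have h4 : e ∈ D φ z x' → e ∈ D φ z o := fun q => hx'L.2 q
        rw [memD] at h1 h3 h4 ⊢
        rw [memD] at h4
        tauto
      · exact hv t ⟨ht, htx⟩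
    rw [hLB] at h0
    exact hvo h0
  have hoo : o ∈ LB φ o (T \ {x}) := by
    intro t _ e he
    rw [memD] at he
    tauto
  obtain ⟨q, hq, hqo⟩ : ∃ q ∈ LB φ o (T \ {x}), q ≠ o := by
    by_contra hcon
    push Not at hcon
    apply hLBx
    ext v
    rw [Set.mem_singleton_iff]
    exact ⟨fun hv => hcon v hv, fun hv => hv ▸ hoo⟩
  obtain ⟨y, hy1, hy2⟩ := hT.iso o q (Ne.symm hqo)
  have hyLB : y ∈ LB φ o (T \ {x}) := fun t ht e he => hq t ht (hy2 he)
  have hyo : y ≠ o := by
    rintro rfl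
    have h1 : (D φ y y).card = 1 := hy1
    unfold D at h1
    rw [symmDiff_self] at h1
    simp at h1
  obtain ⟨h', hh'⟩ := Finset.card_eq_one.1 hy1
  have hhy := key y hyLB hyo
  have hyh : D φ o y = {h} := by
    rw [hh'] at hhy ⊢
    rw [Finset.mem_singleton.1 hhy]
  refine ⟨y, by rw [hyh, hh], hyLB, fun q' hq' hq'o => ?_⟩
  intro e he
  rw [hyh, Finset.mem_singleton] at he
  rw [he]
  exact key q' hq' hq'o

end Pool.Agent.H341.MA
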